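import Mathlib

/-!
# CYL, part C: definitions

Asymptotics of the largest eigenvalue of the honeycomb cylinder from the (real, symmetric)
Bethe roots.  All of part C uses this file.  Constants: lam = pi/8, kap = 8/3.

* `pk a x` : the kernel a_a(x); `Ph a` its odd primitive, limits +-(1/2 - a/pi).
* `K`, `Th` : K = pk (pi/8) - pk (pi/4), Th its odd primitive, limits +-1/8.
* `rho`, `R` : the density and its odd primitive, limits +-1/2.
* `e0`, `eps` : bare and dressed energies.
* `Roots l` : a solution of the real Bethe equations with m = L - l symmetric roots.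
-/

namespace Pool.Agent.CYL

/-- The kernel a_a(x). -/
noncomputable def pk (a x : ℝ) : ℝ :=
  Real.sin (2 * a) / (Real.pi * (Real.cosh (2 * x) - Real.cos (2 * a)))

/-- The odd primitive of `pk a` (0 < a < pi). -/
noncomputable def Ph (a x : ℝ) : ℝ :=
  Real.arctan (Real.cos a / Real.sin a * Real.tanh x) / Real.pi

/-- The scattering kernel. -/
noncomputable def K (x : ℝ) : ℝ := pk (Real.pi / 8) x - pk (Real.pi / 4) x

/-- The scattering phase (odd primitive of `K`). -/
noncomputable def Th (x : ℝ) : ℝ := Ph (Real.pi / 8) x - Ph (Real.pi / 4) x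

/-- The density of roots. -/
noncomputable def rho (x : ℝ) : ℝ :=
  Real.sqrt 3 * (8 / 3) / Real.pi * Real.cosh (8 / 3 * x) / (Real.cosh (16 / 3 * x) + 1 / 2)

/-- The odd primitive of `rho`. -/
noncomputable def R (x : ℝ) : ℝ :=
  Real.arctan (2 * Real.sinh (8 / 3 * x) / Real.sqrt 3) / Real.pi

/-- Bare energy of a root. -/
noncomputable def e0 (x : ℝ) : ℝ :=
  Real.log (Real.cosh (2 * x) / (Real.cosh (2 * x) - 1)) / 2

/-- Dressed energy of a root. -/
noncomputable def eps (x : ℝ) : ℝ :=
  Real.log ((Real.cosh (8 / 3 * x) + 1 / 2) * (Real.cosh (8 / 3 * x) + 1) /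
    ((Real.cosh (8 / 3 * x) - 1) * (Real.cosh (8 / 3 * x) - 1 / 2))) / 2

/-- A symmetric real solution of the Bethe equations with consecutive quantum numbers:
`L` sites, `m = L - l` roots. -/
structure Roots (l : ℕ) where
  /-- number of sites -/
  L : ℕ
  /-- number of roots -/
  m : ℕ
  hL : m + l = L
  /-- the roots in increasing order -/
  x : Fin m → ℝ
  mono : StrictMono x
  symm : ∀ j, x (Fin.rev j) = - x j
  bethe : ∀ j, (L : ℝ) * Ph (Real.pi / 8) (x j) + ∑ k, Th (x j - x k) =
    (j : ℝ) - ((m : ℝ) - 1) / 2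

namespace Roots

variable {l : ℕ} (r : Roots l)

/-- Counting function (smooth). -/
noncomputable def z (y : ℝ) : ℝ := (r.L : ℝ) * Ph (Real.pi / 8) y + ∑ k, Th (y - r.x k)

/-- Derivative of `z`. -/
noncomputable def dz (y : ℝ) : ℝ := (r.L : ℝ) * pk (Real.pi / 8) y + ∑ k, K (y - r.x k)

/-- Centred number of roots in (-oo, y] (right continuous). -/
noncomputable def N0 (y : ℝ) : ℝ := ((Finset.univ.filter fun k => r.x k ≤ y).card : ℝ) - (r.m : ℝ) / 2

/-- `v = N0 - L R`. -/
noncomputable def v (y : ℝ) : ℝ := r.N0 y - (r.L : ℝ) * R y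

/-- `w = z - L R` (smooth). -/
noncomputable def w (y : ℝ) : ℝ := r.z y - (r.L : ℝ) * R y

/-- `S = z - N0`, derivative `dz` off the roots, from 1/2 to -1/2 at each root. -/
noncomputable def S (y : ℝ) : ℝ := r.z y - r.N0 y

/-- `P = S^2/2 - 1/24`: continuous, derivative `S dz` off the roots. -/
noncomputable def P (y : ℝ) : ℝ := r.S y ^ 2 / 2 - 1 / 24

/-- `Q = S^3/6 - S/24`: continuous, derivative `P dz` off the roots. -/
noncomputable def Q (y : ℝ) : ℝ := r.S y ^ 3 / 6 - r.S y / 24

/-- Logarithm of the normalised largest eigenvalue in terms of the roots. (`e0 0 = 0` in Lean,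
so the root 0, present iff `m` is odd, does not contribute to the sum.) -/
noncomputable def elog : ℝ :=
  (r.L : ℝ) * Real.log (Real.sin (Real.pi / 8) * Real.sin (Real.pi / 4) / Real.sin (3 * Real.pi / 8))
  + (if Even r.m then Real.log 2 else Real.log (2 * Real.pi * r.dz 0 * Real.sin (Real.pi / 4)))
  + ∑ j, e0 (r.x j)

end Roots

/-- The filter `L → ∞` on the solutions with fixed `l`. -/
def FL (l : ℕ) : Filter (Roots l) := Filter.comap (fun r : Roots l => r.L) Filter.atTop

/-- The bulk constant; it turns out to be 0 (from the boundedness of the eigenvalue). -/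
noncomputable def cE : ℝ :=
  Real.log (Real.sin (Real.pi / 8) * Real.sin (Real.pi / 4) / Real.sin (3 * Real.pi / 8))
  + ∫ t, eps t * pk (Real.pi / 8) t

theorem mem_FL {l : ℕ} {p : Roots l → Prop} :
    (∀ᶠ r in FL l, p r) ↔ ∃ n : ℕ, ∀ r : Roots l, n ≤ r.L → p r := by
  unfold FL
  rw [Filter.eventually_comap, Filter.eventually_atTop]
  constructor
  · rintro ⟨n, hn⟩
    exact ⟨n, fun r hr => hn r.L hr r rfl⟩
  · rintro ⟨n, hn⟩
    refine ⟨n, fun b hb a hab => hn a ?_⟩
    rw [hab]
    exact hb

theorem tendsto_L (l : ℕ) : Filter.Tendsto (fun r : Roots l => (r.L : ℝ)) (FL l) Filter.atTop :=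
  tendsto_natCast_atTop_atTop.comp Filter.tendsto_comap

end Pool.Agent.CYL
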