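import Pool.Agent.CYL.C.EnDefs

/-!
# CYL, part C: the deterministic constant is o(1/L)

`Fs L u = log (2 sin (pi u/L))`; `sin (pi u/L) = cos (pi (1/2 - u/L))`.
For `u = L/2 + a`, `|a| <= A`: `0 <= log 2 - Fs L u <= C A^2/L^2`.
(1) the `l` terms of the sum have `a = (1-l)/2 + i`; (2) the second term has `a = -l/8`;
(3) `int_0^(L/2) Fs L = 0` (`integral_log_sin_zero_pi_div_two` is in Mathlib), so
`2 int_0^(L/2 - l/8) Fs L = -2 int_(L/2-l/8)^(L/2) Fs L = -(l/4) log 2 + O(1/L^2)`.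
Sum: `l log 2 - (3l/4) log 2 - (l/4) log 2 = 0`, up to `O(1/L^2)`.
-/

open Filter Topology

namespace Pool.Agent.CYL

private theorem EnA_log_cos {y : ℝ} (hy : |y| ≤ 1) : |Real.log (Real.cos y)| ≤ y ^ 2 := by
  have h0 : y ^ 2 ≤ 1 := by
    rw [← sq_abs]
    exact pow_le_one₀ (abs_nonneg y) hy
  have h1 : 1 - y ^ 2 / 2 ≤ Real.cos y := Real.one_sub_sq_div_two_le_cos
  have h2 : Real.cos y ≤ 1 := Real.cos_le_one y
  have h3 : 0 < Real.cos y := by linarith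
  have h4 : Real.log (Real.cos y) ≤ 0 := Real.log_nonpos h3.le h2
  rw [abs_of_nonpos h4]
  have h5 := Real.one_sub_inv_le_log_of_pos h3
  have h6 : (Real.cos y)⁻¹ ≤ 1 + y ^ 2 := by
    rw [inv_le_comm₀ h3 (by positivity), inv_eq_one_div, div_le_iff₀ (by positivity)]
    nlinarith [sq_nonneg y, mul_nonneg (sq_nonneg y) (sub_nonneg.2 h0)]
  linarith

private theorem EnA_Fs {L : ℕ} (hL : 0 < L) {a : ℝ} (ha : Real.pi * |a| ≤ L) :
    |Fs L ((L : ℝ) / 2 + a) - Real.log 2| ≤ Real.pi ^ 2 * a ^ 2 / (L : ℝ) ^ 2 := by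
  have hL' : (0 : ℝ) < L := by exact_mod_cast hL
  have hy : |Real.pi * a / L| ≤ 1 := by
    rw [abs_div, abs_mul, abs_of_pos Real.pi_pos, abs_of_pos hL', div_le_one hL']
    exact ha
  have h1 : Real.sin (Real.pi * ((L : ℝ) / 2 + a) / L) = Real.cos (Real.pi * a / L) := by
    have h2 : Real.pi * ((L : ℝ) / 2 + a) / L = Real.pi * a / L + Real.pi / 2 := by
      field_simp
      ring
    rw [h2, Real.sin_add_pi_div_two]
  have h3 : 0 < Real.cos (Real.pi * a / L) := by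
    have h4 : 1 - (Real.pi * a / L) ^ 2 / 2 ≤ Real.cos (Real.pi * a / L) :=
      Real.one_sub_sq_div_two_le_cos
    have h5 : (Real.pi * a / L) ^ 2 ≤ 1 := by
      rw [← sq_abs]
      exact pow_le_one₀ (abs_nonneg _) hy
    linarith
  unfold Fs
  rw [h1, Real.log_mul two_ne_zero h3.ne', add_sub_cancel_left]
  refine (EnA_log_cos hy).trans (le_of_eq ?_)
  ring

private theorem EnA_int {b : ℝ} (hb : 0 ≤ b) (hb' : b ≤ 1) :
    |(∫ x in (0 : ℝ)..(Real.pi / 2 - b), Real.log (2 * Real.sin x)) + b * Real.log 2| ≤ b ^ 3 := by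
  have hp := Real.pi_gt_three
  have h0 : (0 : ℝ) ≤ Real.pi / 2 - b := by linarith
  have h1 : (∫ x in (0 : ℝ)..(Real.pi / 2 - b), Real.log (2 * Real.sin x)) =
      ∫ x in (0 : ℝ)..(Real.pi / 2 - b), (Real.log 2 + Real.log (Real.sin x)) := by
    refine intervalIntegral.integral_congr_ae (Filter.Eventually.of_forall fun x hx => ?_)
    rw [Set.uIoc_of_le h0] at hx
    have h2 : 0 < Real.sin x := Real.sin_pos_of_pos_of_lt_pi hx.1 (by linarith [hx.2])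
    exact Real.log_mul two_ne_zero h2.ne'
  have hi : ∀ c d : ℝ, IntervalIntegrable (fun x => Real.log (Real.sin x)) MeasureTheory.volume c d :=
    fun c d => intervalIntegrable_log_sin
  rw [h1, intervalIntegral.integral_add intervalIntegrable_const (hi _ _),
    intervalIntegral.integral_const, smul_eq_mul]
  have h3 : (∫ x in (0 : ℝ)..(Real.pi / 2 - b), Real.log (Real.sin x)) =
      -Real.log 2 * Real.pi / 2 - ∫ x in (Real.pi / 2 - b)..(Real.pi / 2), Real.log (Real.sin x) := by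
    rw [← integral_log_sin_zero_pi_div_two, ← intervalIntegral.integral_add_adjacent_intervals
      (hi 0 (Real.pi / 2 - b)) (hi (Real.pi / 2 - b) (Real.pi / 2))]
    ring
  rw [h3]
  have h4 : ‖∫ x in (Real.pi / 2 - b)..(Real.pi / 2), Real.log (Real.sin x)‖ ≤
      b ^ 2 * |Real.pi / 2 - (Real.pi / 2 - b)| := by
    refine intervalIntegral.norm_integral_le_of_norm_le_const fun x hx => ?_
    rw [Set.uIoc_of_le (by linarith)] at hx
    have h5 : Real.sin x = Real.cos (Real.pi / 2 - x) := (Real.cos_pi_div_two_sub x).symm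
    rw [h5, Real.norm_eq_abs]
    have h6 : |Real.pi / 2 - x| ≤ b := by
      rw [abs_le]
      constructor <;> linarith [hx.1, hx.2]
    refine (EnA_log_cos (h6.trans hb')).trans ?_
    rw [← sq_abs]
    exact pow_le_pow_left₀ (abs_nonneg _) h6 2
  have h7 : |Real.pi / 2 - (Real.pi / 2 - b)| = b := by
    rw [sub_sub_cancel, abs_of_nonneg hb]
  rw [h7, Real.norm_eq_abs] at h4
  have h8 : (Real.pi / 2 - b - 0) * Real.log 2 + (-Real.log 2 * Real.pi / 2 -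
      ∫ x in (Real.pi / 2 - b)..(Real.pi / 2), Real.log (Real.sin x)) + b * Real.log 2 =
      -∫ x in (Real.pi / 2 - b)..(Real.pi / 2), Real.log (Real.sin x) := by ring
  rw [h8, abs_neg]
  refine h4.trans (le_of_eq ?_)
  ring

private theorem EnA_intFs {l L : ℕ} (hL : 4 * l + 1 ≤ L) :
    |2 * (∫ u in (0 : ℝ)..((L : ℝ) / 2 - (l : ℝ) / 8), Fs L u) + (l : ℝ) / 4 * Real.log 2| ≤
      Real.pi ^ 2 * (l : ℝ) ^ 3 / (L : ℝ) ^ 2 := by
  have hL' : (4 * l + 1 : ℝ) ≤ L := by exact_mod_cast hL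
  have hl : (0 : ℝ) ≤ l := Nat.cast_nonneg l
  have hL0 : (0 : ℝ) < L := by linarith
  have hp := Real.pi_pos
  have hp4 := Real.pi_lt_four
  set b : ℝ := Real.pi * l / (8 * L) with hb
  have hb0 : 0 ≤ b := by positivity
  have hb1 : b ≤ 1 := by
    rw [hb, div_le_one (by positivity)]
    nlinarith
  have h1 : (∫ u in (0 : ℝ)..((L : ℝ) / 2 - (l : ℝ) / 8), Fs L u) =
      ((L : ℝ) / Real.pi) * ∫ x in (0 : ℝ)..(Real.pi / 2 - b), Real.log (2 * Real.sin x) := by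
    have h2 := intervalIntegral.integral_comp_div (a := (0 : ℝ)) (b := (L : ℝ) / 2 - (l : ℝ) / 8)
      (fun x => Real.log (2 * Real.sin x)) (c := (L : ℝ) / Real.pi) (by positivity)
    have h3 : ((L : ℝ) / 2 - (l : ℝ) / 8) / ((L : ℝ) / Real.pi) = Real.pi / 2 - b := by
      rw [hb]
      field_simp
    rw [zero_div, h3, smul_eq_mul] at h2
    rw [← h2]
    refine intervalIntegral.integral_congr fun u _ => ?_
    unfold Fs
    have h4 : Real.pi * u / L = u / ((L : ℝ) / Real.pi) := by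
      field_simp
    simp only [h4]
  have h5 := EnA_int hb0 hb1
  have h6 : 2 * (∫ u in (0 : ℝ)..((L : ℝ) / 2 - (l : ℝ) / 8), Fs L u) + (l : ℝ) / 4 * Real.log 2 =
      (2 * L / Real.pi) * ((∫ x in (0 : ℝ)..(Real.pi / 2 - b), Real.log (2 * Real.sin x)) +
        b * Real.log 2) := by
    rw [h1]
    generalize (∫ x in (0 : ℝ)..(Real.pi / 2 - b), Real.log (2 * Real.sin x)) = J
    rw [hb]
    field_simp
    ring
  rw [h6, abs_mul, abs_of_pos (by positivity : (0 : ℝ) < 2 * L / Real.pi)]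
  calc 2 * L / Real.pi * |(∫ x in (0 : ℝ)..(Real.pi / 2 - b), Real.log (2 * Real.sin x)) +
        b * Real.log 2| ≤ 2 * L / Real.pi * b ^ 3 := by gcongr
    _ = Real.pi ^ 2 * (l : ℝ) ^ 3 / (L : ℝ) ^ 2 / 256 := by
        rw [hb]
        field_simp
        ring
    _ ≤ Real.pi ^ 2 * (l : ℝ) ^ 3 / (L : ℝ) ^ 2 := by
        have h7 : 0 ≤ Real.pi ^ 2 * (l : ℝ) ^ 3 / (L : ℝ) ^ 2 := by positivity
        linarith

private theorem EnA_bound {l L : ℕ} (hL : 4 * l + 1 ≤ L) :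
    |AL l L| ≤ 3 * Real.pi ^ 2 * (l : ℝ) ^ 3 / (L : ℝ) ^ 2 := by
  have hL' : (4 * l + 1 : ℝ) ≤ L := by exact_mod_cast hL
  have hl : (0 : ℝ) ≤ l := Nat.cast_nonneg l
  have hL0 : (0 : ℝ) < L := by linarith
  have hLN : 0 < L := by omega
  have hp := Real.pi_pos
  have hp4 := Real.pi_lt_four
  have hC : 0 ≤ Real.pi ^ 2 / (L : ℝ) ^ 2 := by positivity
  have key : ∀ a : ℝ, |a| ≤ l → |Fs L ((L : ℝ) / 2 + a) - Real.log 2| ≤
      Real.pi ^ 2 * (l : ℝ) ^ 2 / (L : ℝ) ^ 2 := by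
    intro a ha
    have h1 : Real.pi * |a| ≤ L := by nlinarith [abs_nonneg a]
    refine (EnA_Fs hLN h1).trans ?_
    have h2 : a ^ 2 ≤ (l : ℝ) ^ 2 := by
      rw [← sq_abs]
      exact pow_le_pow_left₀ (abs_nonneg _) ha 2
    gcongr
  have hsum : |∑ i : Fin l, (Fs L (((L : ℝ) - l + 1) / 2 + i) - Real.log 2)| ≤
      (l : ℝ) * (Real.pi ^ 2 * (l : ℝ) ^ 2 / (L : ℝ) ^ 2) := by
    refine (Finset.abs_sum_le_sum_abs _ _).trans ?_
    refine (Finset.sum_le_card_nsmul _ _ (Real.pi ^ 2 * (l : ℝ) ^ 2 / (L : ℝ) ^ 2) ?_).trans ?_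
    · intro i _
      have hi : (i : ℝ) + 1 ≤ l := by exact_mod_cast i.2
      have hi0 : (0 : ℝ) ≤ (i : ℝ) := Nat.cast_nonneg _
      have h1 : ((L : ℝ) - l + 1) / 2 + i = (L : ℝ) / 2 + ((1 - l) / 2 + i) := by ring
      rw [h1]
      apply key
      rw [abs_le]
      constructor <;> linarith
    · rw [Finset.card_univ, Fintype.card_fin, nsmul_eq_mul]
  have h2 : |Fs L ((L : ℝ) / 2 - (l : ℝ) / 8) - Real.log 2| ≤
      Real.pi ^ 2 * (l : ℝ) ^ 2 / (L : ℝ) ^ 2 := by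
    have h3 : (L : ℝ) / 2 - (l : ℝ) / 8 = (L : ℝ) / 2 + (-((l : ℝ) / 8)) := by ring
    rw [h3]
    apply key
    rw [abs_neg, abs_of_nonneg (by positivity)]
    linarith
  have h4 := EnA_intFs hL
  have h5 : AL l L = (∑ i : Fin l, (Fs L (((L : ℝ) - l + 1) / 2 + i) - Real.log 2)) -
      3 * (l : ℝ) / 4 * (Fs L ((L : ℝ) / 2 - (l : ℝ) / 8) - Real.log 2) +
      (2 * (∫ u in (0 : ℝ)..((L : ℝ) / 2 - (l : ℝ) / 8), Fs L u) + (l : ℝ) / 4 * Real.log 2) := by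
    unfold AL
    rw [Finset.sum_sub_distrib, Finset.sum_const, Finset.card_univ, Fintype.card_fin, nsmul_eq_mul]
    ring
  rw [h5]
  refine (abs_add_le _ _).trans ?_
  have h6 := abs_sub (∑ i : Fin l, (Fs L (((L : ℝ) - l + 1) / 2 + i) - Real.log 2))
    (3 * (l : ℝ) / 4 * (Fs L ((L : ℝ) / 2 - (l : ℝ) / 8) - Real.log 2))
  have h7 : |3 * (l : ℝ) / 4 * (Fs L ((L : ℝ) / 2 - (l : ℝ) / 8) - Real.log 2)| ≤
      (l : ℝ) * (Real.pi ^ 2 * (l : ℝ) ^ 2 / (L : ℝ) ^ 2) := by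
    rw [abs_mul, abs_of_nonneg (by positivity : (0 : ℝ) ≤ 3 * (l : ℝ) / 4)]
    refine mul_le_mul ?_ h2 (abs_nonneg _) hl
    linarith
  have h8 : (l : ℝ) * (Real.pi ^ 2 * (l : ℝ) ^ 2 / (L : ℝ) ^ 2) =
      Real.pi ^ 2 * (l : ℝ) ^ 3 / (L : ℝ) ^ 2 := by ring
  have h9 : 3 * Real.pi ^ 2 * (l : ℝ) ^ 3 / (L : ℝ) ^ 2 =
      3 * (Real.pi ^ 2 * (l : ℝ) ^ 3 / (L : ℝ) ^ 2) := by ring
  rw [h8] at hsum h7
  rw [h9]
  linarith

theorem tendsto_AL (l : ℕ) : Tendsto (fun L : ℕ => (L : ℝ) * AL l L) atTop (𝓝 0) := by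
  have h1 : Tendsto (fun L : ℕ => 3 * Real.pi ^ 2 * (l : ℝ) ^ 3 / (L : ℝ)) atTop (𝓝 0) :=
    tendsto_const_div_atTop_nhds_zero_nat _
  refine squeeze_zero_norm' ?_ h1
  filter_upwards [eventually_ge_atTop (4 * l + 1)] with L hL
  have hL' : (4 * l + 1 : ℝ) ≤ L := by exact_mod_cast hL
  have hl : (0 : ℝ) ≤ l := Nat.cast_nonneg l
  have hL0 : (0 : ℝ) < L := by linarith
  rw [Real.norm_eq_abs, abs_mul, abs_of_pos hL0]
  calc (L : ℝ) * |AL l L| ≤ L * (3 * Real.pi ^ 2 * (l : ℝ) ^ 3 / (L : ℝ) ^ 2) := by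
        gcongr
        exact EnA_bound hL
    _ = 3 * Real.pi ^ 2 * (l : ℝ) ^ 3 / (L : ℝ) := by
        field_simp

end Pool.Agent.CYL
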