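import Pool.Agent.CYL.C.EnLim

/-!
# CYL, part C: the remainder `Er` tends to 0 in `L^1`

Proved in `EnLim.lean`: `Roots.measurable_Er`, `Roots.integrable_Er`, `Roots.tendsto_Er`.
-/
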