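import Pool.Agent.CYL.C.KerB

/-! # The function `H`

`H x = (tanh (8/3 x) + tanh (4/3 x))/2`; `deriv eps + pi cot(pi R) rho = - sqrt 3 pi rho H`. -/

namespace Pool.Agent.CYL

open MeasureTheory Filter Topology Set

/-- The weight `H` (smooth, odd, limit 1 at infinity). -/
noncomputable def H (x : ℝ) : ℝ := (Real.tanh (8 / 3 * x) + Real.tanh (4 / 3 * x)) / 2

/-- The derivative of `H`. -/
noncomputable def dH (x : ℝ) : ℝ :=
  ((8 / 3) / Real.cosh (8 / 3 * x) ^ 2 + (4 / 3) / Real.cosh (4 / 3 * x) ^ 2) / 2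

private lemma hf_tanh (x : ℝ) : HasDerivAt Real.tanh (1 / Real.cosh x ^ 2) x := by
  have hc := Real.cosh_pos x
  have h := (Real.hasDerivAt_sinh x).div (Real.hasDerivAt_cosh x) hc.ne'
  have e : (Real.sinh / Real.cosh : ℝ → ℝ) = Real.tanh := by
    funext y
    simp [Real.tanh_eq_sinh_div_cosh]
  rw [e] at h
  have h4 := Real.cosh_sq_sub_sinh_sq x
  rwa [show Real.cosh x * Real.cosh x - Real.sinh x * Real.sinh x = 1 by linarith] at h

private lemma hf_tanh_mul (s x : ℝ) :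
    HasDerivAt (fun x => Real.tanh (s * x)) (s / Real.cosh (s * x) ^ 2) x := by
  have h := (hf_tanh (s * x)).comp x ((hasDerivAt_id x).const_mul s)
  refine h.congr_deriv ?_
  simp only [mul_one]
  ring

theorem hasDerivAt_H (x : ℝ) : HasDerivAt H (dH x) x :=
  ((hf_tanh_mul (8 / 3) x).add (hf_tanh_mul (4 / 3) x)).div_const 2

theorem contDiff_dH : ContDiff ℝ (⊤ : ℕ∞) dH := by
  unfold dH
  refine ContDiff.div_const (ContDiff.add (ContDiff.div contDiff_const ?_ fun x => ?_)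
    (ContDiff.div contDiff_const ?_ fun x => ?_)) 2
  · exact (Real.contDiff_cosh.comp (contDiff_const.mul contDiff_id)).pow 2
  · have := Real.cosh_pos (8 / 3 * x)
    positivity
  · exact (Real.contDiff_cosh.comp (contDiff_const.mul contDiff_id)).pow 2
  · have := Real.cosh_pos (4 / 3 * x)
    positivity

theorem H_neg (x : ℝ) : H (-x) = - H x := by
  unfold H
  rw [mul_neg, mul_neg, Real.tanh_neg, Real.tanh_neg]
  ring

theorem dH_neg (x : ℝ) : dH (-x) = dH x := by
  unfold dH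
  rw [mul_neg, mul_neg, Real.cosh_neg, Real.cosh_neg]

theorem abs_H_le (x : ℝ) : |H x| ≤ 1 := by
  have h1 := Real.tanh_lt_one (8 / 3 * x)
  have h2 := Real.neg_one_lt_tanh (8 / 3 * x)
  have h3 := Real.tanh_lt_one (4 / 3 * x)
  have h4 := Real.neg_one_lt_tanh (4 / 3 * x)
  unfold H
  rw [abs_le]
  constructor <;> linarith

theorem dH_pos (x : ℝ) : 0 < dH x := by
  have h1 := Real.cosh_pos (8 / 3 * x)
  have h2 := Real.cosh_pos (4 / 3 * x)
  unfold dH
  positivity

private lemma hf_cosh (s x : ℝ) (hs : 0 < s) :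
    s / Real.cosh (s * x) ^ 2 ≤ 4 * s * Real.exp (-(2 * s * |x|)) := by
  have hc := Real.cosh_pos (s * x)
  have h1 : Real.exp (s * |x|) ≤ 2 * Real.cosh (s * x) := by
    rw [← Real.cosh_abs, abs_mul, abs_of_pos hs, Real.cosh_eq]
    have := Real.exp_pos (-(s * |x|))
    linarith
  have h2 : Real.exp (2 * s * |x|) ≤ 4 * Real.cosh (s * x) ^ 2 := by
    have e : Real.exp (2 * s * |x|) = Real.exp (s * |x|) ^ 2 := by
      rw [← Real.exp_nat_mul]; congr 1; push_cast; ring
    rw [e]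
    have := Real.exp_pos (s * |x|)
    nlinarith
  rw [Real.exp_neg, ← div_eq_mul_inv, div_le_div_iff₀ (by positivity) (Real.exp_pos _)]
  nlinarith

theorem dH_bound : ∃ C, 0 ≤ C ∧ ∀ x, dH x ≤ C * Real.exp (-2 * |x|) := by
  refine ⟨8, by norm_num, fun x => ?_⟩
  have h1 := hf_cosh (8 / 3) x (by norm_num)
  have h2 := hf_cosh (4 / 3) x (by norm_num)
  have hx := abs_nonneg x
  have h3 : Real.exp (-(2 * (8 / 3) * |x|)) ≤ Real.exp (-2 * |x|) :=
    Real.exp_le_exp.mpr (by nlinarith)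
  have h4 : Real.exp (-(2 * (4 / 3) * |x|)) ≤ Real.exp (-2 * |x|) :=
    Real.exp_le_exp.mpr (by nlinarith)
  unfold dH
  linarith

private lemma hf_exp (c : ℝ) (hc : 0 < c) : Integrable (fun x : ℝ => Real.exp (-c * |x|)) := by
  rw [← integrableOn_univ, ← Iic_union_Ioi (a := (0:ℝ)), integrableOn_union]
  constructor
  · refine (integrableOn_exp_mul_Iic (a := c) hc 0).congr_fun ?_ measurableSet_Iic
    intro x hx
    have hx' : x ≤ 0 := hx
    simp only
    rw [abs_of_nonpos hx']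
    congr 1; ring
  · refine (integrableOn_exp_mul_Ioi (a := -c) (by linarith) 0).congr_fun ?_ measurableSet_Ioi
    intro x hx
    have hx' : 0 < x := hx
    simp only
    rw [abs_of_pos hx']

theorem integrable_dH : Integrable dH := by
  obtain ⟨C, hC, hb⟩ := dH_bound
  refine ((hf_exp 2 two_pos).const_mul C).mono' contDiff_dH.continuous.aestronglyMeasurable
    (Eventually.of_forall fun x => ?_)
  rw [Real.norm_eq_abs, abs_of_pos (dH_pos x)]
  exact hb x

private lemma hf_one_sub_tanh (y : ℝ) : 1 - Real.tanh y ≤ 2 * Real.exp (-(2 * y)) := by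
  have h1 := Real.exp_pos y
  have h2 := Real.exp_pos (-y)
  have e1 : Real.exp (-(2 * y)) = Real.exp (-y) * Real.exp (-y) := by
    rw [← Real.exp_add]; congr 1; ring
  have e2 : Real.exp y * Real.exp (-y) = 1 := by rw [← Real.exp_add]; simp
  rw [Real.tanh_eq_sinh_div_cosh, Real.sinh_eq, Real.cosh_eq, e1]
  have h3 : 1 - (Real.exp y - Real.exp (-y)) / 2 / ((Real.exp y + Real.exp (-y)) / 2) =
      2 * Real.exp (-y) / (Real.exp y + Real.exp (-y)) := by
    field_simp
    ring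
  rw [h3, div_le_iff₀ (by positivity)]
  nlinarith [mul_pos h2 h2, mul_pos (mul_pos h2 h2) h2]

private lemma hf_tail {x : ℝ} (hx : 0 ≤ x) : 1 - H x ≤ 2 * Real.exp (-2 * x) := by
  have h1 := hf_one_sub_tanh (8 / 3 * x)
  have h2 := hf_one_sub_tanh (4 / 3 * x)
  have h3 : Real.exp (-(2 * (8 / 3 * x))) ≤ Real.exp (-2 * x) :=
    Real.exp_le_exp.mpr (by nlinarith)
  have h4 : Real.exp (-(2 * (4 / 3 * x))) ≤ Real.exp (-2 * x) :=
    Real.exp_le_exp.mpr (by nlinarith)
  unfold H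
  linarith

theorem one_sub_H_le : ∃ C, 0 ≤ C ∧ ∀ x, 0 ≤ x → 1 - H x ≤ C * Real.exp (-2 * x) :=
  ⟨2, by norm_num, fun _ hx => hf_tail hx⟩

theorem tendsto_H : Tendsto H atTop (𝓝 1) := by
  have h1 : Tendsto (fun x : ℝ => Real.exp (-2 * x)) atTop (𝓝 0) :=
    Real.tendsto_exp_atBot.comp (tendsto_id.const_mul_atTop_of_neg (by norm_num))
  have h2 : Tendsto (fun x : ℝ => 1 - 2 * Real.exp (-2 * x)) atTop (𝓝 1) := by
    have := (tendsto_const_nhds (x := (1:ℝ))).sub (h1.const_mul 2)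
    simpa using this
  refine tendsto_of_tendsto_of_tendsto_of_le_of_le' h2 tendsto_const_nhds ?_ ?_
  · filter_upwards [eventually_ge_atTop 0] with x hx
    have := hf_tail hx
    linarith
  · exact Eventually.of_forall fun x => (abs_le.mp (abs_H_le x)).2

theorem tendsto_H_bot : Tendsto H atBot (𝓝 (-1)) := by
  have h := (tendsto_H.comp tendsto_neg_atBot_atTop).neg
  refine h.congr fun x => ?_
  simp [H_neg]

theorem integral_dH : ∫ x, dH x = 2 := by
  rw [integral_of_hasDerivAt_of_tendsto hasDerivAt_H integrable_dH tendsto_H_bot tendsto_H]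
  norm_num

private lemma hf_diff_pos {x y : ℝ} (hy : 0 ≤ y) : |H x - H y| ≤ 2 * Real.exp (|x - y| - |y|) := by
  rw [abs_of_nonneg hy]
  have hHx := abs_le.mp (abs_H_le x)
  have hHy := abs_le.mp (abs_H_le y)
  rcases le_or_gt y |x - y| with h | h
  · have h1 : 1 ≤ Real.exp (|x - y| - y) := Real.one_le_exp (by linarith)
    have h2 : |H x - H y| ≤ 2 := abs_le.mpr ⟨by linarith, by linarith⟩
    linarith
  · have h1 := neg_abs_le (x - y)
    have hx : 0 ≤ x := by linarith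
    have t1 := hf_tail hx
    have t2 := hf_tail hy
    have e1 : Real.exp (-2 * x) ≤ Real.exp (|x - y| - y) := Real.exp_le_exp.mpr (by linarith)
    have e2 : Real.exp (-2 * y) ≤ Real.exp (|x - y| - y) :=
      Real.exp_le_exp.mpr (by have := abs_nonneg (x - y); linarith)
    rw [abs_le]
    constructor <;> linarith

private lemma hf_diff (x y : ℝ) : |H x - H y| ≤ 2 * Real.exp (|x - y| - |y|) := by
  rcases le_total 0 y with h | h
  · exact hf_diff_pos h
  · have h1 := hf_diff_pos (x := -x) (y := -y) (by linarith)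
    rw [H_neg, H_neg, abs_neg, show -H x - -H y = -(H x - H y) by ring,
      show -x - -y = -(x - y) by ring, abs_neg, abs_neg] at h1
    exact h1

/-- `|H x - H y| |K'(x - y)|` is integrable on the plane. -/
theorem integrable_HK : Integrable (fun p : ℝ × ℝ => (H p.1 - H p.2) * deriv K (p.1 - p.2)) := by
  obtain ⟨C, hC, hb⟩ := K_bound 1
  simp only [iteratedDeriv_one] at hb
  have hf : Integrable (fun y : ℝ => Real.exp (-1 * |y|)) := hf_exp 1 one_pos
  have hg := Integrable.convolution_integrand (ContinuousLinearMap.mul ℝ ℝ) hf hf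
  have hHc : Continuous H := by
    rw [continuous_iff_continuousAt]
    exact fun x => (hasDerivAt_H x).continuousAt
  have hKc : Continuous (deriv K) := contDiff_K.continuous_deriv (by simp)
  refine (hg.const_mul (2 * C)).mono' ?_ (Eventually.of_forall fun p => ?_)
  · exact ((hHc.comp continuous_fst).sub (hHc.comp continuous_snd)).mul
      (hKc.comp (continuous_fst.sub continuous_snd)) |>.aestronglyMeasurable
  · rw [Real.norm_eq_abs, abs_mul]
    have h1 := hf_diff p.1 p.2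
    have h2 := hb (p.1 - p.2)
    have h3 : Real.exp (|p.1 - p.2| - |p.2|) * Real.exp (-2 * |p.1 - p.2|) =
        Real.exp (-1 * |p.2|) * Real.exp (-1 * |p.1 - p.2|) := by
      rw [← Real.exp_add, ← Real.exp_add]; congr 1; ring
    calc |H p.1 - H p.2| * |deriv K (p.1 - p.2)| ≤
        (2 * Real.exp (|p.1 - p.2| - |p.2|)) * (C * Real.exp (-2 * |p.1 - p.2|)) :=
          mul_le_mul h1 h2 (abs_nonneg _) (by positivity)
      _ = 2 * C * (Real.exp (|p.1 - p.2| - |p.2|) * Real.exp (-2 * |p.1 - p.2|)) := by ring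
      _ = _ := by rw [h3]; simp [ContinuousLinearMap.mul_apply']


private lemma hf_cot (x : ℝ) (hx : x ≠ 0) :
    Real.cos (Real.pi * R x) / Real.sin (Real.pi * R x) =
      Real.sqrt 3 / (2 * Real.sinh (8 / 3 * x)) := by
  have hp := Real.pi_pos
  have h3 : 0 < Real.sqrt 3 := Real.sqrt_pos.mpr (by norm_num)
  have e : Real.pi * R x = Real.arctan (2 * Real.sinh (8 / 3 * x) / Real.sqrt 3) := by
    unfold R
    field_simp
  have hs : Real.sinh (8 / 3 * x) ≠ 0 := by
    rw [Ne, Real.sinh_eq_zero]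
    positivity
  rw [e, Real.cos_arctan, Real.sin_arctan]
  set z := 2 * Real.sinh (8 / 3 * x) / Real.sqrt 3 with hz
  have hr : 0 < Real.sqrt (1 + z ^ 2) := Real.sqrt_pos.mpr (by positivity)
  rw [div_div_div_cancel_right₀ hr.ne', hz, one_div_div]

private lemma hf_half (x : ℝ) (hx : x ≠ 0) :
    Real.tanh (4 / 3 * x) = (Real.cosh (8 / 3 * x) - 1) / Real.sinh (8 / 3 * x) := by
  have hc := Real.cosh_pos (4 / 3 * x)
  have hs : Real.sinh (4 / 3 * x) ≠ 0 := by
    rw [Ne, Real.sinh_eq_zero]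
    positivity
  have h4 := Real.cosh_sq_sub_sinh_sq (4 / 3 * x)
  rw [show 8 / 3 * x = 2 * (4 / 3 * x) by ring, Real.cosh_two_mul, Real.sinh_two_mul,
    Real.tanh_eq_sinh_div_cosh, div_eq_div_iff hc.ne' (by positivity)]
  linear_combination (Real.cosh (4 / 3 * x)) * h4 - 2 * (Real.cosh (4 / 3 * x)) * h4 

private lemma hf_alg (c s q : ℝ) (hc1 : 1 < c) (hs : s ≠ 0) (h4 : c ^ 2 - s ^ 2 = 1) (hq : 0 < q) (h3s : q ^ 2 = 3) (p : ℝ) (hp : 0 < p) :
  ((s * (8 / 3) * (c + 1) + (c + 1 / 2) * (s * (8 / 3))) * ((c - 1) * (c - 1 / 2)) -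
      (c + 1 / 2) * (c + 1) * (s * (8 / 3) * (c - 1 / 2) + (c - 1) * (s * (8 / 3)))) /
    ((c - 1) * (c - 1 / 2)) ^ 2 / ((c + 1 / 2) * (c + 1) / ((c - 1) * (c - 1 / 2))) / 2 =
    -(q * p * (q * (8 / 3) / p * c / (c ^ 2 + s ^ 2 + 1 / 2)) * ((s / c + (c - 1) / s) / 2)) -
      p * (q / (2 * s)) * (q * (8 / 3) / p * c / (c ^ 2 + s ^ 2 + 1 / 2)) := by
  have e1 : c ^ 2 + s ^ 2 + 1 / 2 = 2 * ((c - 1 / 2) * (c + 1 / 2)) := by linarith
  have a1 : c - 1 ≠ 0 := by linarith
  have a2 : c - 1 / 2 ≠ 0 := by linarith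
  have a3 : c + 1 / 2 ≠ 0 := by linarith
  have a4 : c + 1 ≠ 0 := by linarith
  have a5 : c ≠ 0 := by linarith
  have hs2 : (c - 1) * (c + 1) = s ^ 2 := by linarith
  have L : ((s * (8 / 3) * (c + 1) + (c + 1 / 2) * (s * (8 / 3))) * ((c - 1) * (c - 1 / 2)) -
      (c + 1 / 2) * (c + 1) * (s * (8 / 3) * (c - 1 / 2) + (c - 1) * (s * (8 / 3)))) /
    ((c - 1) * (c - 1 / 2)) ^ 2 / ((c + 1 / 2) * (c + 1) / ((c - 1) * (c - 1 / 2))) / 2 =
      (s * (8 / 3) * (- 3 * c ^ 2 + 3 / 2)) / (2 * ((c - 1) * (c + 1)) * ((c - 1 / 2) * (c + 1 / 2))) := by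
    rw [div_div_eq_mul_div, div_mul_eq_mul_div, div_div, div_div, div_eq_div_iff (by positivity) (by positivity)]
    ring
  rw [L, e1, hs2]
  have R : -(q * p * (q * (8 / 3) / p * c / (2 * ((c - 1 / 2) * (c + 1 / 2)))) * ((s / c + (c - 1) / s) / 2)) -
      p * (q / (2 * s)) * (q * (8 / 3) / p * c / (2 * ((c - 1 / 2) * (c + 1 / 2)))) =
      - (q ^ 2 * (8 / 3) * (s ^ 2 + c ^ 2)) / (4 * s * ((c - 1 / 2) * (c + 1 / 2))) := by
    have : s / c + (c - 1) / s = (s ^ 2 + c * (c - 1)) / (c * s) := by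
      rw [div_add_div _ _ a5 hs]; ring
    rw [this]
    have a6 : (c - 1 / 2) * (c + 1 / 2) ≠ 0 := mul_ne_zero a2 a3
    generalize (c - 1 / 2) * (c + 1 / 2) = D at *
    field_simp
    ring
  rw [R, h3s, div_eq_div_iff (by positivity) (by positivity)]
  linear_combination (-16 * s ^ 2 * ((c - 1 / 2) * (c + 1 / 2))) * h4

/-- For `x ≠ 0`. -/
theorem hasDerivAt_eps (x : ℝ) (hx : x ≠ 0) :
    HasDerivAt eps (-(Real.sqrt 3 * Real.pi * rho x * H x)
      - Real.pi * (Real.cos (Real.pi * R x) / Real.sin (Real.pi * R x)) * rho x) x := by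
  have hp := Real.pi_pos
  have h3 : 0 < Real.sqrt 3 := Real.sqrt_pos.mpr (by norm_num)
  have h3s : Real.sqrt 3 ^ 2 = 3 := Real.sq_sqrt (by norm_num)
  have hs : Real.sinh (8 / 3 * x) ≠ 0 := by
    rw [Ne, Real.sinh_eq_zero]
    positivity
  have hc1 : 1 < Real.cosh (8 / 3 * x) := by
    rw [Real.one_lt_cosh]
    positivity
  have h4 := Real.cosh_sq_sub_sinh_sq (8 / 3 * x)
  have hch : HasDerivAt (fun x : ℝ => Real.cosh (8 / 3 * x)) (Real.sinh (8 / 3 * x) * (8 / 3)) x := by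
    have := ((hasDerivAt_id x).const_mul (8 / 3)).cosh
    simpa using this
  have hN := (hch.add_const (1 / 2)).mul (hch.add_const 1)
  have hD := (hch.sub_const 1).mul (hch.sub_const (1 / 2))
  have hQ := hN.div hD (by
    have : 0 < (Real.cosh (8 / 3 * x) - 1) * (Real.cosh (8 / 3 * x) - 1 / 2) :=
      mul_pos (by linarith) (by linarith)
    exact this.ne')
  have hL := (hQ.log (by
    have : 0 < ((Real.cosh (8 / 3 * x) + 1 / 2) * (Real.cosh (8 / 3 * x) + 1)) /
      ((Real.cosh (8 / 3 * x) - 1) * (Real.cosh (8 / 3 * x) - 1 / 2)) :=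
      div_pos (mul_pos (by linarith) (by linarith)) (mul_pos (by linarith) (by linarith))
    exact this.ne')).div_const 2
  refine HasDerivAt.congr_deriv (f := eps) hL ?_
  rw [hf_cot x hx]
  unfold H rho
  rw [hf_half x hx, Real.tanh_eq_sinh_div_cosh (8 / 3 * x),
    show 16 / 3 * x = 2 * (8 / 3 * x) by ring, Real.cosh_two_mul]
  simp only [Pi.mul_apply, Pi.div_apply]
  exact hf_alg _ _ _ hc1 hs h4 h3 h3s _ hp

end Pool.Agent.CYL
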