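import Pool.Agent.CYL.C.WBd

/-! # Tails of `v` and `dw`

PROOFS. `v_tail`: let `x >= 0`. If `x` is beyond the last root (`N0 x = m/2`), `v x + l/2 = L (1/2 - R x)
<= C L exp(-(8/3) x)` (`R_tail`), and it is `>= 0`. Otherwise `x <= X`, `X` the last root; at `X`:
`L (1/2 - R X) = v X + l/2 = w X + 1/2 + l/2 >= 1/5` because `|w| <= (3/10)(l/2 + 1)`
(`w_eq`, `conv_abs_le`, `integral_abs_K`, `abs_v_le`), so `C L exp(-(8/3) x) >= C L exp(-(8/3) X) >= 1/5` and
`|v x + l/2| <= l + 1 <= 5 (l+1) C L exp(-(8/3) x)`.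
`dw_tail`: `dw` is even; for `x >= 0`, as `INT deriv K = 0`,
`dw x = INT K'(x-t) (v t + l/2) dt`, `|K' s| <= C exp(-2|s|)`; the part `t >= 0` is at most
`C L INT_{t>=0} exp(-2|x-t|) exp(-(8/3) t) dt <= C' L exp(-2x)` (8/3 > 2), the part `t < 0` at most
`C (l+1) INT_{t<0} exp(-2(x-t)) dt <= C exp(-2x)`, and `L >= 1` unless `v = 0` identically
(`L = 0` forces `m = l = 0`). -/

namespace Pool.Agent.CYL.Roots

open MeasureTheory Filter Topology Set

/-- A uniform bound of `w` with an explicit constant. -/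
theorem Tails_abs_w_le {l : ℕ} (r : Roots l) (x : ℝ) : |r.w x| ≤ 3 / 10 * ((l : ℝ) / 2 + 1) := by
  rw [r.w_eq]
  refine (conv_abs_le integrable_K r.measurable_v r.abs_v_le x).trans ?_
  have hl : (0 : ℝ) ≤ (l : ℝ) / 2 + 1 := by positivity
  exact mul_le_mul_of_nonneg_right integral_abs_K hl

theorem Tails_cast {l : ℕ} (r : Roots l) : (r.m : ℝ) + (l : ℝ) = (r.L : ℝ) := by
  exact_mod_cast congrArg (Nat.cast (R := ℝ)) r.hL

theorem Tails_N0_all {l : ℕ} (r : Roots l) (x : ℝ) (h : ∀ k, r.x k ≤ x) : r.N0 x = (r.m : ℝ) / 2 := by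
  unfold N0
  rw [Finset.filter_true_of_mem (fun k _ => h k)]
  simp
  ring

theorem v_tail (l : ℕ) : ∃ C, 0 ≤ C ∧ ∀ (r : Roots l) (x : ℝ), 0 ≤ x →
    |r.v x + (l : ℝ) / 2| ≤ C * (r.L : ℝ) * Real.exp (-(8 / 3) * x) := by
  obtain ⟨C0, hC0, hR⟩ := R_tail
  have hl : (0 : ℝ) ≤ (l : ℝ) := Nat.cast_nonneg l
  refine ⟨5 * ((l : ℝ) + 1) * C0, by positivity, fun r x hx => ?_⟩
  have hL : (0 : ℝ) ≤ (r.L : ℝ) := Nat.cast_nonneg _
  have hcast := Tails_cast r
  by_cases h : ∀ k, r.x k ≤ x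
  · have h1 : r.v x + (l : ℝ) / 2 = (r.L : ℝ) * (1 / 2 - R x) := by
      unfold v
      rw [Tails_N0_all r x h]
      linarith
    have h2 : 0 ≤ 1 / 2 - R x := by
      have := (abs_lt.mp (abs_R_lt x)).2
      linarith
    rw [h1, abs_of_nonneg (mul_nonneg hL h2)]
    have h3 := mul_le_mul_of_nonneg_left (hR x hx) hL
    have h4 : (0 : ℝ) ≤ C0 * (r.L : ℝ) * Real.exp (-(8 / 3) * x) := by positivity
    have h5 : (1 : ℝ) ≤ 5 * ((l : ℝ) + 1) := by linarith
    calc (r.L : ℝ) * (1 / 2 - R x) ≤ (r.L : ℝ) * (C0 * Real.exp (-(8 / 3) * x)) := h3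
      _ = 1 * (C0 * (r.L : ℝ) * Real.exp (-(8 / 3) * x)) := by ring
      _ ≤ 5 * ((l : ℝ) + 1) * (C0 * (r.L : ℝ) * Real.exp (-(8 / 3) * x)) :=
        mul_le_mul_of_nonneg_right h5 h4
      _ = _ := by ring
  · push Not at h
    obtain ⟨k, hk⟩ := h
    have hm : 0 < r.m := k.pos
    set j : Fin r.m := ⟨r.m - 1, by omega⟩ with hj
    have hkj : r.x k ≤ r.x j := r.mono.monotone (by
      rw [Fin.le_def]
      have := k.isLt
      simp only [hj]
      omega)
    have hxX : x < r.x j := lt_of_lt_of_le hk hkj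
    have hX0 : 0 ≤ r.x j := hx.trans hxX.le
    have hjv : ((j : ℕ) : ℝ) = (r.m : ℝ) - 1 := by
      simp only [hj]
      push_cast [Nat.cast_sub (show 1 ≤ r.m by omega)]
      ring
    have hN : r.N0 (r.x j) = (r.m : ℝ) / 2 := by
      rw [r.N0_root, hjv]; ring
    have hz : r.z (r.x j) = ((r.m : ℝ) - 1) / 2 := by
      rw [r.z_root, hjv]; ring
    have hw : r.w (r.x j) = ((r.m : ℝ) - 1) / 2 - (r.L : ℝ) * R (r.x j) := by
      unfold w; rw [hz]
    have hwb := abs_le.mp (Tails_abs_w_le r (r.x j))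
    have hRX : (1 : ℝ) / 5 ≤ (r.L : ℝ) * (1 / 2 - R (r.x j)) := by
      nlinarith [hwb.1, hwb.2]
    have h3 := mul_le_mul_of_nonneg_left (hR (r.x j) hX0) hL
    have hexp : Real.exp (-(8 / 3) * r.x j) ≤ Real.exp (-(8 / 3) * x) := by
      apply Real.exp_le_exp.mpr
      nlinarith
    have h5 : (1 : ℝ) / 5 ≤ C0 * (r.L : ℝ) * Real.exp (-(8 / 3) * x) := by
      calc (1 : ℝ) / 5 ≤ (r.L : ℝ) * (C0 * Real.exp (-(8 / 3) * r.x j)) := hRX.trans h3
        _ ≤ (r.L : ℝ) * (C0 * Real.exp (-(8 / 3) * x)) := by gcongr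
        _ = _ := by ring
    have h6 : |r.v x + (l : ℝ) / 2| ≤ (l : ℝ) + 1 := by
      have := r.abs_v_le x
      calc |r.v x + (l : ℝ) / 2| ≤ |r.v x| + |(l : ℝ) / 2| := abs_add_le _ _
        _ ≤ ((l : ℝ) / 2 + 1) + (l : ℝ) / 2 := by
          rw [abs_of_nonneg (by positivity : (0 : ℝ) ≤ (l : ℝ) / 2)]
          linarith
        _ = _ := by ring
    calc |r.v x + (l : ℝ) / 2| ≤ (l : ℝ) + 1 := h6
      _ = 5 * ((l : ℝ) + 1) * (1 / 5) := by ring
      _ ≤ 5 * ((l : ℝ) + 1) * (C0 * (r.L : ℝ) * Real.exp (-(8 / 3) * x)) := by gcongr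
      _ = _ := by ring

theorem Tails_dK : ∃ C, 0 ≤ C ∧ ∀ x, |deriv K x| ≤ C * Real.exp (-2 * |x|) := by
  obtain ⟨C, hC, h⟩ := K_bound 1
  refine ⟨C, hC, fun x => ?_⟩
  have := h x
  rwa [iteratedDeriv_one] at this

theorem Tails_K0 : ∃ C, 0 ≤ C ∧ ∀ x, |K x| ≤ C * Real.exp (-2 * |x|) := by
  obtain ⟨C, hC, h⟩ := K_bound 0
  refine ⟨C, hC, fun x => ?_⟩
  have := h x
  rwa [iteratedDeriv_zero] at this

theorem Tails_continuous_dK : Continuous (deriv K) :=
  contDiff_K.continuous_deriv (by norm_cast)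

theorem Tails_tendsto_exp_abs_top : Tendsto (fun x : ℝ => Real.exp (-2 * |x|)) atTop (𝓝 0) := by
  refine Real.tendsto_exp_atBot.comp ?_
  have : Tendsto (fun x : ℝ => |x|) atTop atTop := tendsto_abs_atTop_atTop
  exact this.const_mul_atTop_of_neg (by norm_num)

theorem Tails_tendsto_exp_abs_bot : Tendsto (fun x : ℝ => Real.exp (-2 * |x|)) atBot (𝓝 0) := by
  refine Real.tendsto_exp_atBot.comp ?_
  have : Tendsto (fun x : ℝ => |x|) atBot atTop := tendsto_abs_atBot_atTop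
  exact this.const_mul_atTop_of_neg (by norm_num)

theorem Tails_integrable_dK : Integrable (deriv K) := by
  obtain ⟨C, hC, h⟩ := Tails_dK
  exact integrable_of_exp Tails_continuous_dK (by norm_num : (0 : ℝ) < 2) h

theorem Tails_integral_dK : ∫ x, deriv K x = 0 := by
  obtain ⟨C, hC, h⟩ := Tails_K0
  have hd : ∀ x, HasDerivAt K (deriv K x) x := fun x =>
    (contDiff_K.differentiable (by norm_cast)).differentiableAt.hasDerivAt
  have ht : Tendsto K atTop (𝓝 0) := by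
    refine squeeze_zero_norm (fun x => h x) ?_
    simpa using Tails_tendsto_exp_abs_top.const_mul C
  have hb : Tendsto K atBot (𝓝 0) := by
    refine squeeze_zero_norm (fun x => h x) ?_
    simpa using Tails_tendsto_exp_abs_bot.const_mul C
  rw [integral_of_hasDerivAt_of_tendsto hd Tails_integrable_dK hb ht]
  simp

theorem Tails_integral_dK_sub (x : ℝ) : ∫ t, deriv K (x - t) = 0 := by
  rw [integral_sub_left_eq_self (fun t => deriv K t) volume x]
  exact Tails_integral_dK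

theorem Tails_dw_neg {l : ℕ} (r : Roots l) (x : ℝ) : r.dw (-x) = r.dw x := by
  unfold dw
  rw [r.dz_neg, rho_neg]

theorem Tails_dw_shift {l : ℕ} (r : Roots l) (x : ℝ) :
    r.dw x = ∫ t, deriv K (x - t) * (r.v t + (l : ℝ) / 2) := by
  obtain ⟨C, hC, h⟩ := Tails_dK
  have h1 : Integrable (fun t => deriv K (x - t) * r.v t) :=
    conv_integrable Tails_continuous_dK (by norm_num : (0 : ℝ) < 2) h r.measurable_v r.abs_v_le x
  have h2 : Integrable (fun t => deriv K (x - t) * ((l : ℝ) / 2)) :=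
    (Tails_integrable_dK.comp_sub_left x).mul_const _
  simp_rw [mul_add]
  rw [integral_add h1 h2, integral_mul_const, Tails_integral_dK_sub, zero_mul, add_zero, r.dw_eq]

theorem Tails_dw_nonneg (l : ℕ) : ∃ C, 0 ≤ C ∧ ∀ (r : Roots l) (x : ℝ), 0 ≤ x →
    |r.dw x| ≤ C * (r.L : ℝ) * Real.exp (-2 * x) := by
  obtain ⟨C1, hC1, h1⟩ := Tails_dK
  obtain ⟨C2, hC2, h2⟩ := v_tail l
  have hl : (0 : ℝ) ≤ (l : ℝ) := Nat.cast_nonneg l
  refine ⟨C1 * (C2 + ((l : ℝ) + 1)) * 3, by positivity, fun r x hx => ?_⟩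
  have hcast := Tails_cast r
  have hint : Integrable (fun t : ℝ => Real.exp (-(2 / 3) * |t|)) :=
    integrable_exp_neg_abs (by norm_num : (0 : ℝ) < 2 / 3)
  rcases Nat.eq_zero_or_pos r.L with h0 | hpos
  · have hm0 : r.m = 0 := by have := r.hL; omega
    have hl0 : l = 0 := by have := r.hL; omega
    have hv : ∀ t, r.v t + (l : ℝ) / 2 = 0 := by
      intro t
      have : r.N0 t = (r.m : ℝ) / 2 := Tails_N0_all r t (fun k => absurd k.isLt (by omega))
      unfold v
      rw [this, h0, hm0, hl0]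
      simp
    rw [Tails_dw_shift]
    simp_rw [hv]
    simp [h0]
  · have hL1 : (1 : ℝ) ≤ (r.L : ℝ) := by exact_mod_cast hpos
    have hL : (0 : ℝ) ≤ (r.L : ℝ) := by linarith
    have hbound : ∀ t : ℝ, |r.v t + (l : ℝ) / 2| * Real.exp (2 * t) ≤
        (C2 + ((l : ℝ) + 1)) * (r.L : ℝ) * Real.exp (-(2 / 3) * |t|) := by
      intro t
      rcases le_or_gt 0 t with ht | ht
      · have h3 := h2 r t ht
        have h4 : Real.exp (-(8 / 3) * t) * Real.exp (2 * t) = Real.exp (-(2 / 3) * |t|) := by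
          rw [← Real.exp_add, abs_of_nonneg ht]
          congr 1; ring
        calc |r.v t + (l : ℝ) / 2| * Real.exp (2 * t)
            ≤ (C2 * (r.L : ℝ) * Real.exp (-(8 / 3) * t)) * Real.exp (2 * t) := by gcongr
          _ = C2 * (r.L : ℝ) * Real.exp (-(2 / 3) * |t|) := by rw [mul_assoc, h4]
          _ ≤ (C2 + ((l : ℝ) + 1)) * (r.L : ℝ) * Real.exp (-(2 / 3) * |t|) := by
            gcongr
            linarith
      · have h6 : |r.v t + (l : ℝ) / 2| ≤ (l : ℝ) + 1 := by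
          have := r.abs_v_le t
          calc |r.v t + (l : ℝ) / 2| ≤ |r.v t| + |(l : ℝ) / 2| := abs_add_le _ _
            _ ≤ ((l : ℝ) / 2 + 1) + (l : ℝ) / 2 := by
              rw [abs_of_nonneg (by positivity : (0 : ℝ) ≤ (l : ℝ) / 2)]
              linarith
            _ = _ := by ring
        have h4 : Real.exp (2 * t) ≤ Real.exp (-(2 / 3) * |t|) := by
          apply Real.exp_le_exp.mpr
          rw [abs_of_neg ht]
          linarith
        calc |r.v t + (l : ℝ) / 2| * Real.exp (2 * t)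
            ≤ ((l : ℝ) + 1) * Real.exp (-(2 / 3) * |t|) := by gcongr
          _ = (((l : ℝ) + 1) * 1) * Real.exp (-(2 / 3) * |t|) := by ring
          _ ≤ ((C2 + ((l : ℝ) + 1)) * (r.L : ℝ)) * Real.exp (-(2 / 3) * |t|) :=
            mul_le_mul_of_nonneg_right
              (mul_le_mul (by linarith) hL1 zero_le_one (by positivity)) (Real.exp_pos _).le
    have hpt : ∀ t : ℝ, ‖deriv K (x - t) * (r.v t + (l : ℝ) / 2)‖ ≤
        C1 * (C2 + ((l : ℝ) + 1)) * (r.L : ℝ) * Real.exp (-2 * x) * Real.exp (-(2 / 3) * |t|) := by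
      intro t
      rw [Real.norm_eq_abs, abs_mul]
      have h3 : |deriv K (x - t)| ≤ C1 * (Real.exp (-2 * x) * Real.exp (2 * t)) := by
        refine (h1 (x - t)).trans ?_
        have : Real.exp (-2 * |x - t|) ≤ Real.exp (-2 * x) * Real.exp (2 * t) := by
          rw [← Real.exp_add]
          apply Real.exp_le_exp.mpr
          have := le_abs_self (x - t)
          linarith
        gcongr
      calc |deriv K (x - t)| * |r.v t + (l : ℝ) / 2|
          ≤ (C1 * (Real.exp (-2 * x) * Real.exp (2 * t))) * |r.v t + (l : ℝ) / 2| := by gcongr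
        _ = C1 * Real.exp (-2 * x) * (|r.v t + (l : ℝ) / 2| * Real.exp (2 * t)) := by ring
        _ ≤ C1 * Real.exp (-2 * x) *
            ((C2 + ((l : ℝ) + 1)) * (r.L : ℝ) * Real.exp (-(2 / 3) * |t|)) :=
          mul_le_mul_of_nonneg_left (hbound t) (by positivity)
        _ = _ := by ring
    rw [Tails_dw_shift, ← Real.norm_eq_abs]
    refine (norm_integral_le_of_norm_le (hint.const_mul _) (Eventually.of_forall hpt)).trans ?_
    rw [integral_const_mul, integral_exp_neg_abs (by norm_num : (0 : ℝ) < 2 / 3)]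
    apply le_of_eq
    ring

theorem dw_tail (l : ℕ) : ∃ C, 0 ≤ C ∧ ∀ (r : Roots l) (x : ℝ),
    |r.dw x| ≤ C * (r.L : ℝ) * Real.exp (-2 * |x|) := by
  obtain ⟨C, hC, h⟩ := Tails_dw_nonneg l
  refine ⟨C, hC, fun r x => ?_⟩
  rcases le_or_gt 0 x with hx | hx
  · rw [abs_of_nonneg hx]
    exact h r x hx
  · have := h r (-x) (by linarith)
    rw [Tails_dw_neg] at this
    rwa [abs_of_neg hx]

theorem integrable_dw {l : ℕ} (r : Roots l) : Integrable r.dw := by
  obtain ⟨C, hC, h⟩ := dw_tail l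
  exact integrable_of_exp r.continuous_dw (by norm_num : (0 : ℝ) < 2) (h r)

theorem integrable_dz {l : ℕ} (r : Roots l) : Integrable r.dz := by
  have : r.dz = fun y => (r.L : ℝ) * rho y + r.dw y := by
    funext y
    exact r.dz_eq y
  rw [this]
  exact (integrable_rho.const_mul _).add (integrable_dw r)

/-- `v + l R` is integrable on the line. -/
theorem integrable_v_add {l : ℕ} (r : Roots l) : Integrable (fun x => r.v x + (l : ℝ) * R x) := by
  obtain ⟨C, hC, h⟩ := v_tail l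
  obtain ⟨C0, hC0, hR⟩ := R_tail
  have hl : (0 : ℝ) ≤ (l : ℝ) := Nat.cast_nonneg l
  have hRc : Continuous R := contDiff_R.continuous
  have hpos : ∀ x : ℝ, 0 ≤ x → |r.v x + (l : ℝ) * R x| ≤
      (C * (r.L : ℝ) + (l : ℝ) * C0) * Real.exp (-(8 / 3) * x) := by
    intro x hx
    have h1 := h r x hx
    have h2 := hR x hx
    have h3 : 0 ≤ 1 / 2 - R x := by
      have := (abs_lt.mp (abs_R_lt x)).2
      linarith
    have h4 : r.v x + (l : ℝ) * R x = (r.v x + (l : ℝ) / 2) - (l : ℝ) * (1 / 2 - R x) := by ring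
    rw [h4]
    calc |(r.v x + (l : ℝ) / 2) - (l : ℝ) * (1 / 2 - R x)|
        ≤ |r.v x + (l : ℝ) / 2| + |(l : ℝ) * (1 / 2 - R x)| := abs_sub _ _
      _ ≤ C * (r.L : ℝ) * Real.exp (-(8 / 3) * x) + (l : ℝ) * (C0 * Real.exp (-(8 / 3) * x)) := by
        rw [abs_of_nonneg (mul_nonneg hl h3)]
        gcongr
      _ = _ := by ring
  have hg : Integrable (fun x : ℝ => (C * (r.L : ℝ) + (l : ℝ) * C0) * Real.exp (-(8 / 3) * |x|)) :=
    (integrable_exp_neg_abs (by norm_num : (0 : ℝ) < 8 / 3)).const_mul _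
  refine hg.mono' (r.measurable_v.add (hRc.measurable.const_mul _)).aestronglyMeasurable ?_
  have hfin : (Set.range (fun k => - r.x k)).Countable := (Set.finite_range _).countable
  filter_upwards [hfin.ae_notMem volume] with x hx
  rw [Real.norm_eq_abs]
  rcases le_or_gt 0 x with h0 | h0
  · rw [abs_of_nonneg h0]
    exact hpos x h0
  · have h1 : r.v x = - r.v (-x) := by
      have := r.v_neg (-x) (fun k hk => hx ⟨k, by simp [hk]⟩)
      rw [neg_neg] at this
      exact this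
    have h2 : R x = - R (-x) := by
      rw [R_neg]; ring
    have h3 : r.v x + (l : ℝ) * R x = -(r.v (-x) + (l : ℝ) * R (-x)) := by
      rw [h1, h2]; ring
    rw [h3, abs_neg, abs_of_neg h0]
    exact hpos (-x) (by linarith)

end Pool.Agent.CYL.Roots
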