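import Pool.Agent.CYL.C.Osc
import Pool.Agent.CYL.C.Tails
import Pool.Agent.CYL.C.Hf

/-! # Limit (A) (owner: helper77)

PROOF. `INT_{-b}^b H S dz = P b H b - P (-b) H (-b) - INT_{-b}^b P dH` (`ibp_S`), `P` even, `H` odd; `b -> oo`:
`P -> (3l/8)^2/2 - 1/24`, `H -> 1`: `INT H S dz = (3l/8)^2 - 1/12 - INT P dH`; `rl_P`. -/

namespace Pool.Agent.CYL.Roots

open MeasureTheory Filter Topology Set

private theorem quadA_hdH (x : ℝ) : HasDerivAt dH (deriv dH x) x :=
  (contDiff_dH.differentiable (by simp) x).hasDerivAt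

private theorem quadA_cdH : Continuous (deriv dH) :=
  contDiff_dH.continuous_deriv (by norm_cast)

private theorem quadA_cH : Continuous H := continuous_iff_continuousAt.2 fun x => (hasDerivAt_H x).continuousAt

private theorem quadA_exact {l : ℕ} (r : Roots l) :
    ∫ x, H x * r.S x * r.dz x = (3 * (l : ℝ) / 8) ^ 2 - 1 / 12 - ∫ x, dH x * r.P x := by
  obtain ⟨CS, hCS, hS⟩ := S_bd l
  obtain ⟨CP, hCP, hP⟩ := P_bd l
  have hi : Integrable (fun x => H x * r.S x * r.dz x) := by
    have h := (integrable_dz r).bdd_mul (c := CS) (f := fun x => H x * r.S x)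
      (quadA_cH.measurable.mul r.measurable_S).aestronglyMeasurable (Eventually.of_forall fun x => by
        rw [norm_mul, Real.norm_eq_abs, Real.norm_eq_abs]
        calc |H x| * |r.S x| ≤ 1 * CS := mul_le_mul (abs_H_le x) (hS r x) (abs_nonneg _) zero_le_one
          _ = CS := one_mul _)
    exact h
  have hj : Integrable (fun x => dH x * r.P x) := by
    have h := integrable_dH.mul_bdd (c := CP) (g := fun x => r.P x)
      r.continuous_P.aestronglyMeasurable (Eventually.of_forall fun x => hP r x)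
    exact h
  have h1 : Tendsto (fun b : ℝ => ∫ x in (-b)..b, H x * r.S x * r.dz x) atTop
      (𝓝 (∫ x, H x * r.S x * r.dz x)) :=
    intervalIntegral_tendsto_integral hi tendsto_neg_atTop_atBot tendsto_id
  have h2 : Tendsto (fun b : ℝ => ∫ x in (-b)..b, dH x * r.P x) atTop (𝓝 (∫ x, dH x * r.P x)) :=
    intervalIntegral_tendsto_integral hj tendsto_neg_atTop_atBot tendsto_id
  have hPl : Tendsto r.P atTop (𝓝 ((3 * (l : ℝ) / 8) ^ 2 / 2 - 1 / 24)) := by
    have := ((r.tendsto_S.pow 2).div_const 2).sub_const (1 / 24)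
    exact this
  have h3 : Tendsto (fun b : ℝ => 2 * (r.P b * H b) - ∫ x in (-b)..b, dH x * r.P x) atTop
      (𝓝 (2 * (((3 * (l : ℝ) / 8) ^ 2 / 2 - 1 / 24) * 1) - ∫ x, dH x * r.P x)) :=
    ((hPl.mul tendsto_H).const_mul 2).sub h2
  have h4 : (fun b : ℝ => ∫ x in (-b)..b, H x * r.S x * r.dz x) =ᶠ[atTop]
      fun b : ℝ => 2 * (r.P b * H b) - ∫ x in (-b)..b, dH x * r.P x := by
    filter_upwards [eventually_ge_atTop 0] with b hb
    have h5 := r.ibp_S (a := -b) (b := b) (by linarith) (G := H) (G' := dH) quadA_cH.continuousOn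
      (fun x _ => hasDerivAt_H x) (integrable_dH.intervalIntegrable)
    have h6 : ∫ x in (-b)..b, H x * r.S x * r.dz x = ∫ x in (-b)..b, r.S x * r.dz x * H x := by
      refine intervalIntegral.integral_congr fun x _ => ?_
      ring
    have h7 : ∫ x in (-b)..b, dH x * r.P x = ∫ x in (-b)..b, r.P x * dH x := by
      refine intervalIntegral.integral_congr fun x _ => ?_
      ring
    rw [h6, h5, h7, r.P_neg, H_neg]
    ring
  have h8 := tendsto_nhds_unique (h1.congr' h4) h3
  rw [h8]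
  ring

theorem quadA (l : ℕ) : Tendsto (fun r : Roots l => ∫ x, H x * r.S x * r.dz x) (FL l)
    (𝓝 ((3 * (l : ℝ) / 8) ^ 2 - 1 / 12)) := by
  have h1 := rl_P l (φ := dH) (φ' := deriv dH) quadA_hdH quadA_cdH integrable_dH
  have h2 : Tendsto (fun r : Roots l => (3 * (l : ℝ) / 8) ^ 2 - 1 / 12 - ∫ x, dH x * r.P x) (FL l)
      (𝓝 ((3 * (l : ℝ) / 8) ^ 2 - 1 / 12 - 0)) := tendsto_const_nhds.sub h1
  rw [sub_zero] at h2
  exact h2.congr fun r => (quadA_exact r).symm

end Pool.Agent.CYL.Roots
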