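import Mathlib

/-!
# CYL, part C: the conditionally convergent double integral

`anti_lim`: for `F' = k`, `F` even decaying, `k` odd with exponential decay, `v` bounded measurable with `v -> c`:
`int_0^R v(x) int_(t > 0) k(x-t) v(t) dt dx -> c^2 int_(a > 0) F a` as `R -> oo`.
On the square `(0,R]^2` the integrand is antisymmetric; what remains is `x < R < t`.
-/

namespace Pool.Agent.CYL

open MeasureTheory Set Filter Topology

private theorem anti_exp_int (c : ℝ) : IntegrableOn (fun b : ℝ => c * Real.exp (-b)) (Ioi 0) :=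
  (integrableOn_exp_neg_Ioi 0).const_mul c

private theorem anti_pt {k v : ℝ → ℝ} {M C : ℝ} (hkb : ∀ x, |k x| ≤ C * Real.exp (-|x|))
    (hM : ∀ x, |v x| ≤ M) (R : ℝ) {a : ℝ} (ha : 0 ≤ a) {b : ℝ} (hb : b ∈ Ioi (0:ℝ)) :
    ‖v (R + b) * k (-(a + b))‖ ≤ M * C * Real.exp (-a) * Real.exp (-b) := by
  have hM0 : 0 ≤ M := (abs_nonneg _).trans (hM 0)
  have hb' : (0:ℝ) < b := hb
  rw [norm_mul, Real.norm_eq_abs, Real.norm_eq_abs]
  have h2 := hkb (-(a + b))
  have h3 : |-(a + b)| = a + b := by rw [abs_neg, abs_of_nonneg (by linarith)]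
  rw [h3] at h2
  have h4 : Real.exp (-(a + b)) = Real.exp (-a) * Real.exp (-b) := by rw [← Real.exp_add]; congr 1; ring
  rw [h4] at h2
  calc |v (R + b)| * |k (-(a + b))| ≤ M * (C * (Real.exp (-a) * Real.exp (-b))) :=
        mul_le_mul (hM _) h2 (abs_nonneg _) hM0
    _ = _ := by ring

/-- inner tail integral: bound -/
private theorem anti_inner {k v : ℝ → ℝ} {M C : ℝ}
    (hkb : ∀ x, |k x| ≤ C * Real.exp (-|x|)) (hM : ∀ x, |v x| ≤ M) (R : ℝ) {a : ℝ}
    (ha : 0 ≤ a) :
    |∫ b in Ioi 0, v (R + b) * k (-(a + b))| ≤ M * C * Real.exp (-a) := by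
  have h5 : IntegrableOn (fun b => M * C * Real.exp (-a) * Real.exp (-b)) (Ioi 0) := anti_exp_int _
  have h6 := norm_integral_le_of_norm_le h5 (f := fun b => v (R + b) * k (-(a + b)))
    ((ae_restrict_iff' measurableSet_Ioi).2 (Eventually.of_forall fun b hb => anti_pt hkb hM R ha hb))
  rw [Real.norm_eq_abs] at h6
  refine h6.trans (le_of_eq ?_)
  rw [integral_const_mul, integral_exp_neg_Ioi_zero, mul_one]

private theorem anti_inner_lim {k v : ℝ → ℝ} {M C c : ℝ} (hk : Continuous k)
    (hkb : ∀ x, |k x| ≤ C * Real.exp (-|x|)) (hv : Measurable v) (hM : ∀ x, |v x| ≤ M)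
    (hlim : Tendsto v atTop (𝓝 c)) {a : ℝ} (ha : 0 ≤ a) :
    Tendsto (fun R => ∫ b in Ioi 0, v (R + b) * k (-(a + b))) atTop (𝓝 (∫ b in Ioi 0, c * k (-(a + b)))) := by
  refine tendsto_integral_filter_of_dominated_convergence
    (fun b => M * C * Real.exp (-a) * Real.exp (-b)) ?_ ?_ (anti_exp_int _) ?_
  · refine Eventually.of_forall fun R => ?_
    exact ((hv.comp (measurable_const.add measurable_id)).mul
      (hk.measurable.comp ((measurable_const.add measurable_id).neg))).aestronglyMeasurable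
  · refine Eventually.of_forall fun R => ?_
    exact (ae_restrict_iff' measurableSet_Ioi).2 (Eventually.of_forall fun b hb => anti_pt hkb hM R ha hb)
  · refine Eventually.of_forall fun b => ?_
    refine Tendsto.mul_const _ ?_
    exact hlim.comp (tendsto_atTop_add_const_right _ _ tendsto_id)

private theorem anti_shift (f : ℝ → ℝ) (R : ℝ) : ∫ t in Ioi R, f t = ∫ b in Ioi 0, f (R + b) := by
  rw [← integral_indicator measurableSet_Ioi, ← integral_indicator measurableSet_Ioi,
    ← integral_add_left_eq_self (indicator (Ioi R) f) R]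
  refine integral_congr_ae (Eventually.of_forall fun b => ?_)
  simp only [indicator, mem_Ioi]
  by_cases hb : 0 < b
  · rw [if_pos hb, if_pos (by linarith)]
  · rw [if_neg hb, if_neg (by linarith)]

/-- the far part -/
private theorem anti_far {k v : ℝ → ℝ} {M C c : ℝ} (hk : Continuous k)
    (hkb : ∀ x, |k x| ≤ C * Real.exp (-|x|)) (hv : Measurable v) (hM : ∀ x, |v x| ≤ M)
    (hlim : Tendsto v atTop (𝓝 c)) :
    Tendsto (fun R => ∫ x in (0:ℝ)..R, v x * ∫ t in Ioi R, k (x - t) * v t) atTop
      (𝓝 (∫ a in Ioi 0, c * ∫ b in Ioi 0, c * k (-(a + b)))) := by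
  have hM0 : 0 ≤ M := (abs_nonneg _).trans (hM 0)
  have h1 : ∀ R : ℝ, 0 < R → ∫ x in (0:ℝ)..R, v x * ∫ t in Ioi R, k (x - t) * v t =
      ∫ a in Ioi 0, (Iic R).indicator (fun a => v (R - a) * ∫ b in Ioi 0, v (R + b) * k (-(a + b))) a := by
    intro R hR
    have h2 : ∫ x in (0:ℝ)..R, v x * ∫ t in Ioi R, k (x - t) * v t =
        ∫ a in (0:ℝ)..R, v (R - a) * ∫ t in Ioi R, k (R - a - t) * v t := by
      have := intervalIntegral.integral_comp_sub_left (a := 0) (b := R)
        (fun x => v x * ∫ t in Ioi R, k (x - t) * v t) R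
      rw [sub_self, sub_zero] at this
      exact this.symm
    rw [h2, intervalIntegral.integral_of_le hR.le, integral_indicator measurableSet_Iic,
      Measure.restrict_restrict measurableSet_Iic]
    have h3 : Iic R ∩ Ioi 0 = Ioc 0 R := by
      ext x
      simp only [mem_inter_iff, mem_Iic, mem_Ioi, mem_Ioc]
      tauto
    rw [h3]
    refine integral_congr_ae (Eventually.of_forall fun a => ?_)
    simp only
    rw [anti_shift]
    congr 1
    refine integral_congr_ae (Eventually.of_forall fun b => ?_)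
    simp only
    rw [mul_comm]
    congr 2
    ring
  have h4 : Tendsto (fun R : ℝ => ∫ a in Ioi 0, (Iic R).indicator
      (fun a => v (R - a) * ∫ b in Ioi 0, v (R + b) * k (-(a + b))) a) atTop
      (𝓝 (∫ a in Ioi 0, c * ∫ b in Ioi 0, c * k (-(a + b)))) := by
    refine tendsto_integral_filter_of_dominated_convergence
      (fun a => M * (M * C) * Real.exp (-a)) ?_ ?_ (anti_exp_int _) ?_
    · refine Eventually.of_forall fun R => ?_
      have hJ : StronglyMeasurable (fun a : ℝ => ∫ b in Ioi 0, v (R + b) * k (-(a + b))) := by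
        have hm : Measurable (fun p : ℝ × ℝ => v (R + p.2) * k (-(p.1 + p.2))) :=
          (hv.comp (measurable_const.add measurable_snd)).mul
            (hk.measurable.comp ((measurable_fst.add measurable_snd).neg))
        exact hm.stronglyMeasurable.integral_prod_right (ν := volume.restrict (Ioi 0))
      have hm2 : Measurable (fun a : ℝ => v (R - a)) := hv.comp (measurable_const.sub measurable_id)
      exact ((hm2.stronglyMeasurable.mul hJ).indicator measurableSet_Iic).aestronglyMeasurable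
    · refine Eventually.of_forall fun R => ?_
      refine (ae_restrict_iff' measurableSet_Ioi).2 (Eventually.of_forall fun a ha => ?_)
      have ha' : (0:ℝ) < a := ha
      refine (norm_indicator_le_norm_self _ _).trans ?_
      rw [norm_mul, Real.norm_eq_abs, Real.norm_eq_abs]
      calc |v (R - a)| * |∫ b in Ioi 0, v (R + b) * k (-(a + b))| ≤ M * (M * C * Real.exp (-a)) :=
            mul_le_mul (hM _) (anti_inner hkb hM R ha'.le) (abs_nonneg _) hM0
        _ = _ := by ring
    · refine (ae_restrict_iff' measurableSet_Ioi).2 (Eventually.of_forall fun a ha => ?_)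
      have ha' : (0:ℝ) < a := ha
      have h5 : Tendsto (fun R : ℝ => v (R - a) * ∫ b in Ioi 0, v (R + b) * k (-(a + b))) atTop
          (𝓝 (c * ∫ b in Ioi 0, c * k (-(a + b)))) :=
        (hlim.comp (tendsto_atTop_add_const_right _ (-a) tendsto_id)).mul
          (anti_inner_lim hk hkb hv hM hlim ha'.le)
      refine h5.congr' ?_
      filter_upwards [eventually_ge_atTop a] with R hR
      rw [indicator_of_mem (show a ∈ Iic R from hR)]
  refine h4.congr' ?_
  filter_upwards [eventually_gt_atTop 0] with R hR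
  exact (h1 R hR).symm

/-- antisymmetric part vanishes on a square -/
private theorem anti_square {k v : ℝ → ℝ} {M : ℝ} (hk : Continuous k) (hodd : ∀ x, k (-x) = -k x)
    (hv : Measurable v) (hM : ∀ x, |v x| ≤ M) (R : ℝ) :
    ∫ x in Ioc 0 R, v x * ∫ t in Ioc 0 R, k (x - t) * v t = 0 := by
  set μ : Measure ℝ := volume.restrict (Ioc 0 R) with hμ
  have : IsFiniteMeasure μ := ⟨by rw [hμ, Measure.restrict_apply_univ]; exact measure_Ioc_lt_top⟩
  have h0 : ∀ x, v x * ∫ t, k (x - t) * v t ∂μ = ∫ t, v x * (k (x - t) * v t) ∂μ := fun x =>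
    (integral_const_mul _ _).symm
  have hint : Integrable (fun p : ℝ × ℝ => v p.1 * (k (p.1 - p.2) * v p.2)) (μ.prod μ) := by
    obtain ⟨C, hC⟩ : ∃ C, ∀ x ∈ Icc (-|R|) |R|, |k x| ≤ C := by
      obtain ⟨C, hC⟩ := isCompact_Icc.exists_bound_of_continuousOn (s := Icc (-|R|) |R|) hk.continuousOn
      exact ⟨C, fun x hx => hC x hx⟩
    have hmeas : Measurable (fun p : ℝ × ℝ => v p.1 * (k (p.1 - p.2) * v p.2)) :=
      (hv.comp measurable_fst).mul (((hk.measurable).comp (measurable_fst.sub measurable_snd)).mul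
        (hv.comp measurable_snd))
    have hM0 : 0 ≤ M := (abs_nonneg _).trans (hM 0)
    refine Integrable.of_bound hmeas.aestronglyMeasurable (M * (C * M)) ?_
    have hae : ∀ᵐ p ∂(μ.prod μ), p ∈ Ioc 0 R ×ˢ Ioc 0 R := by
      rw [hμ, Measure.prod_restrict]
      exact ae_restrict_mem (measurableSet_Ioc.prod measurableSet_Ioc)
    filter_upwards [hae] with p hp
    rw [norm_mul, norm_mul, Real.norm_eq_abs, Real.norm_eq_abs, Real.norm_eq_abs]
    have h1 : |k (p.1 - p.2)| ≤ C := by
      apply hC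
      have h2 := hp.1
      have h3 := hp.2
      have h4 := le_abs_self R
      constructor <;> linarith [h2.1, h2.2, h3.1, h3.2]
    have hC0 : 0 ≤ C := (abs_nonneg _).trans h1
    exact mul_le_mul (hM _) (mul_le_mul h1 (hM _) (abs_nonneg _) hC0)
      (mul_nonneg (abs_nonneg _) (abs_nonneg _)) hM0
  have h1 : ∫ x, ∫ t, v x * (k (x - t) * v t) ∂μ ∂μ = ∫ t, ∫ x, v x * (k (x - t) * v t) ∂μ ∂μ :=
    integral_integral_swap hint
  have h2 : ∫ t, ∫ x, v x * (k (x - t) * v t) ∂μ ∂μ = -∫ x, ∫ t, v x * (k (x - t) * v t) ∂μ ∂μ := by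
    rw [← integral_neg]
    refine integral_congr_ae (Eventually.of_forall fun x => ?_)
    simp only
    rw [← integral_neg]
    refine integral_congr_ae (Eventually.of_forall fun t => ?_)
    simp only
    have h3 : k (t - x) = -k (x - t) := by rw [← hodd]; congr 1; ring
    rw [h3]
    ring
  have h3 : ∫ x, v x * ∫ t, k (x - t) * v t ∂μ ∂μ = ∫ x, ∫ t, v x * (k (x - t) * v t) ∂μ ∂μ :=
    integral_congr_ae (Eventually.of_forall h0)
  rw [h3]
  linarith [h1, h2]


private theorem anti_on {k v : ℝ → ℝ} {M : ℝ} (hki : Integrable k) (hv : Measurable v) (hM : ∀ x, |v x| ≤ M)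
    (x : ℝ) : Integrable (fun t => k (x - t) * v t) := by
  have h3 : Integrable (fun t => k (x - t)) := hki.comp_sub_left x
  have h4 := h3.bdd_mul (c := M) hv.aestronglyMeasurable (Eventually.of_forall hM)
  refine h4.congr (Eventually.of_forall fun t => ?_)
  simp only
  ring

private theorem anti_bd {k v : ℝ → ℝ} {M : ℝ} (hki : Integrable k) (hM : ∀ x, |v x| ≤ M) (x : ℝ) (s : Set ℝ) : |∫ t in s, k (x - t) * v t| ≤ M * ∫ t, |k t| := by
  have h3 : Integrable (fun t => k (x - t)) := hki.comp_sub_left x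
  have h1 : ‖∫ t in s, k (x - t) * v t‖ ≤ ∫ t in s, M * |k (x - t)| := by
    refine norm_integral_le_of_norm_le (h3.norm.const_mul M).integrableOn (Eventually.of_forall fun t => ?_)
    rw [norm_mul, mul_comm]
    exact mul_le_mul_of_nonneg_right (hM t) (norm_nonneg _)
  have hM0 : 0 ≤ M := (abs_nonneg _).trans (hM 0)
  refine h1.trans ?_
  have h2 : ∫ t in s, M * |k (x - t)| ≤ ∫ t, M * |k (x - t)| :=
    setIntegral_le_integral (h3.norm.const_mul M)
      (Eventually.of_forall fun t => mul_nonneg hM0 (abs_nonneg _))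
  refine h2.trans (le_of_eq ?_)
  rw [integral_const_mul, integral_sub_left_eq_self (fun t => |k t|) volume x]

private theorem anti_meas {k v : ℝ → ℝ} (hk : Continuous k) (hv : Measurable v) (s : Set ℝ) :
    Measurable (fun x => v x * ∫ t in s, k (x - t) * v t) := by
  have hm : Measurable (fun p : ℝ × ℝ => k (p.1 - p.2) * v p.2) :=
    (hk.measurable.comp (measurable_fst.sub measurable_snd)).mul (hv.comp measurable_snd)
  exact hv.mul (hm.stronglyMeasurable.integral_prod_right (ν := volume.restrict s)).measurable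

private theorem anti_ii {k v : ℝ → ℝ} {M : ℝ} (hk : Continuous k) (hki : Integrable k) (hv : Measurable v)
    (hM : ∀ x, |v x| ≤ M) (s : Set ℝ) (a b : ℝ) :
    IntervalIntegrable (fun x => v x * ∫ t in s, k (x - t) * v t) volume a b := by
  have hM0 : 0 ≤ M := (abs_nonneg _).trans (hM 0)
  have h : ∀ x, ‖v x * ∫ t in s, k (x - t) * v t‖ ≤ M * (M * ∫ t, |k t|) := by
    intro x
    rw [norm_mul]
    exact mul_le_mul (hM x) (anti_bd hki hM x s) (norm_nonneg _) hM0
  have h2 : IntervalIntegrable (fun _ : ℝ => M * (M * ∫ t, |k t|)) volume a b := intervalIntegrable_const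
  exact h2.mono_fun (anti_meas hk hv s).aestronglyMeasurable (Eventually.of_forall fun x =>
    (h x).trans (le_abs_self _))

/-- **the conditionally convergent double integral** -/
theorem anti_lim {F k v : ℝ → ℝ} {M C c : ℝ} (hF : ∀ x, HasDerivAt F (k x) x) (hF0 : Tendsto F atTop (𝓝 0))
    (hk : Continuous k) (hki : Integrable k) (hodd : ∀ x, k (-x) = -k x)
    (hkb : ∀ x, |k x| ≤ C * Real.exp (-|x|)) (hv : Measurable v) (hM : ∀ x, |v x| ≤ M)
    (hlim : Tendsto v atTop (𝓝 c)) :
    Tendsto (fun R => ∫ x in (0:ℝ)..R, v x * ∫ t in Ioi 0, k (x - t) * v t) atTop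
      (𝓝 (c ^ 2 * ∫ a in Ioi 0, F a)) := by
  have h1 := anti_far hk hkb hv hM hlim
  have h2 : (∫ a in Ioi 0, c * ∫ b in Ioi 0, c * k (-(a + b))) = c ^ 2 * ∫ a in Ioi 0, F a := by
    rw [← integral_const_mul]
    refine integral_congr_ae (Eventually.of_forall fun a => ?_)
    simp only
    have h3 : ∫ b in Ioi 0, k (a + b) = 0 - F a := by
      rw [← anti_shift]
      exact integral_Ioi_of_hasDerivAt_of_tendsto' (fun x _ => hF x) hki.integrableOn hF0
    have h4 : ∫ b in Ioi 0, c * k (-(a + b)) = -c * ∫ b in Ioi 0, k (a + b) := by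
      rw [← integral_const_mul]
      refine integral_congr_ae (Eventually.of_forall fun b => ?_)
      simp only
      rw [hodd]
      ring
    rw [h4, h3]
    ring
  rw [h2] at h1
  refine h1.congr' ?_
  filter_upwards [eventually_gt_atTop 0] with R hR
  have h5 : ∀ x, v x * ∫ t in Ioi 0, k (x - t) * v t =
      (v x * ∫ t in Ioc 0 R, k (x - t) * v t) + v x * ∫ t in Ioi R, k (x - t) * v t := by
    intro x
    have h6 : Ioi (0:ℝ) = Ioc 0 R ∪ Ioi R := (Ioc_union_Ioi_eq_Ioi hR.le).symm
    rw [h6, setIntegral_union (Ioc_disjoint_Ioi le_rfl) measurableSet_Ioi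
      (anti_on hki hv hM x).integrableOn (anti_on hki hv hM x).integrableOn, mul_add]
  have h7 : ∫ x in (0:ℝ)..R, v x * ∫ t in Ioi 0, k (x - t) * v t =
      (∫ x in (0:ℝ)..R, v x * ∫ t in Ioc 0 R, k (x - t) * v t) +
        ∫ x in (0:ℝ)..R, v x * ∫ t in Ioi R, k (x - t) * v t := by
    rw [← intervalIntegral.integral_add (anti_ii hk hki hv hM _ _ _)
      (anti_ii hk hki hv hM _ _ _)]
    exact intervalIntegral.integral_congr fun x _ => h5 x
  rw [h7, intervalIntegral.integral_of_le hR.le (f := fun x => v x * ∫ t in Ioc 0 R, k (x - t) * v t),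
    anti_square hk hodd hv hM R, zero_add]

end Pool.Agent.CYL
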