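import Pool.Agent.CYL.C.Loc
import Pool.Agent.CYL.C.Tails
import Pool.Agent.CYL.C.Hf
import Pool.Agent.CYL.C.Anti

/-! # Limit (B) (owner: helper77)

PROOF. `S = w - v`. `INT H w dw = (l/8)^2 - INT dH w^2/2 -> l^2/64` (dominated convergence, `tendsto_w_pt`).
`INT H v dw`: `v` is odd off the roots, so it is `2 INT_{x > 0} v dw + 2 INT_{x > 0} (H - 1) v dw`; the second
integral tends to 0 (`dw -> 0` pointwise).
`dw x = INT_{t > 0} K'(x-t) v t - INT_{t > 0} K'(x+t) v t`, so by `anti_lim` the first integral is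
`(l/2)^2 INT_{x > 0} K - INT_{x > 0} v x INT_{t > 0} K'(x+t) v t = l^2/32 - J`, and `J -> 0`
(`v = w - S`, dominated convergence, and the Riemann-Lebesgue lemma for `S` on the half line). -/

namespace Pool.Agent.CYL.Roots

open MeasureTheory Filter Topology Set

private theorem quadB_cg (l : ℕ) : (FL l).IsCountablyGenerated := by
  unfold FL
  infer_instance

private theorem quadB_cH : Continuous H := continuous_iff_continuousAt.2 fun x => (hasDerivAt_H x).continuousAt

private theorem quadB_kc : Continuous (deriv K) := Tails_continuous_dK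

private theorem quadB_kki (x : ℝ) : HasDerivAt K (deriv K x) x :=
  (contDiff_K.differentiable (by simp) x).hasDerivAt

private theorem quadB_kk' (x : ℝ) : HasDerivAt (deriv K) (deriv (deriv K) x) x := by
  have h : ContDiff ℝ (⊤ : ℕ∞) (deriv K) := by
    have e : (((⊤ : ℕ∞) : WithTop ℕ∞) + 1) = ((⊤ : ℕ∞) : WithTop ℕ∞) := rfl
    have h2 := contDiff_K
    rw [← e] at h2
    exact ((contDiff_succ_iff_deriv).1 h2).2.2
  exact (h.differentiable (by simp) x).hasDerivAt

private theorem quadB_kc'' : Continuous (deriv (deriv K)) := by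
  have h : ContDiff ℝ (⊤ : ℕ∞) (deriv K) := by
    have e : (((⊤ : ℕ∞) : WithTop ℕ∞) + 1) = ((⊤ : ℕ∞) : WithTop ℕ∞) := rfl
    have h2 := contDiff_K
    rw [← e] at h2
    exact ((contDiff_succ_iff_deriv).1 h2).2.2
  exact h.continuous_deriv (by norm_cast)

private theorem quadB_kodd (x : ℝ) : deriv K (-x) = -deriv K x := by
  have h1 : HasDerivAt (fun y => K (-y)) (-deriv K (-x)) x := by
    have := (quadB_kki (-x)).comp x (hasDerivAt_neg x)
    refine this.congr_deriv ?_
    ring
  have h2 : (fun y => K (-y)) = K := funext K_neg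
  rw [h2] at h1
  have h3 := h1.unique (quadB_kki x)
  linarith

/-- exponential bound with rate 1 -/
private theorem quadB_kb : ∃ C, 0 ≤ C ∧ ∀ x, |deriv K x| ≤ C * Real.exp (-|x|) := by
  obtain ⟨C, hC, h⟩ := Tails_dK
  refine ⟨C, hC, fun x => (h x).trans (mul_le_mul_of_nonneg_left (Real.exp_le_exp.2 ?_) hC)⟩
  have := abs_nonneg x
  linarith

private theorem quadB_ki : Integrable (deriv K) := Tails_integrable_dK

private theorem quadB_K0 : Tendsto K atTop (𝓝 0) := by
  obtain ⟨C, hC, h⟩ := Tails_K0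
  rw [tendsto_zero_iff_abs_tendsto_zero]
  have h2 : Tendsto (fun x : ℝ => C * Real.exp (-2 * |x|)) atTop (𝓝 (C * 0)) :=
    Tails_tendsto_exp_abs_top.const_mul C
  rw [mul_zero] at h2
  exact squeeze_zero (fun x => abs_nonneg _) h h2

private theorem quadB_halfK : ∫ x in Ioi 0, K x = 1 / 8 := by
  have h1 : ∫ x, K x = (∫ x in Iic 0, K x) + ∫ x in Ioi 0, K x :=
    (intervalIntegral.integral_Iic_add_Ioi integrable_K.integrableOn integrable_K.integrableOn).symm
  have h2 : ∫ x in Iic 0, K x = ∫ x in Ioi 0, K x := by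
    have := integral_comp_neg_Ioi 0 K
    rw [neg_zero] at this
    rw [← this]
    exact integral_congr_ae (Eventually.of_forall fun x => K_neg x)
  rw [h2, integral_K] at h1
  linarith

private theorem quadB_notroot {l : ℕ} (r : Roots l) : ∀ᵐ x : ℝ, ∀ k, r.x k ≠ x := by
  have h : (Set.range r.x).Countable := Set.countable_range _
  have h2 := h.ae_notMem volume
  filter_upwards [h2] with x hx k hk
  exact hx ⟨k, hk⟩

/-- Riemann-Lebesgue on the half line -/
private theorem quadB_rl (l : ℕ) {φ φ' : ℝ → ℝ} (h : ∀ x, HasDerivAt φ (φ' x) x) (hc : Continuous φ')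
    (hi : Integrable φ) {A : ℝ} (hA : ∀ x, |φ x| ≤ A) :
    Tendsto (fun r : Roots l => ∫ x in Ioi 0, φ x * r.S x) (FL l) (𝓝 0) := by
  obtain ⟨CS, hCS, hS⟩ := S_bd l
  have hA0 : 0 ≤ A := (abs_nonneg _).trans (hA 0)
  have hφc : Continuous φ := continuous_iff_continuousAt.2 fun x => (h x).continuousAt
  rw [Metric.tendsto_nhds]
  intro η hη
  set δ : ℝ := η / (2 * (A * CS + 1)) with hδ
  have hδ0 : 0 < δ := by positivity
  -- the smooth step
  set χ : ℝ → ℝ := fun x => Real.smoothTransition (x / δ) with hχ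
  have hχd : ContDiff ℝ (⊤ : ℕ∞) χ := Real.smoothTransition.contDiff.comp (contDiff_id.div_const δ)
  have hχh : ∀ x, HasDerivAt χ (deriv χ x) x := fun x => (hχd.differentiable (by simp) x).hasDerivAt
  have hχ1 : ∀ x, |χ x| ≤ 1 := fun x => by
    rw [abs_of_nonneg (Real.smoothTransition.nonneg _)]
    exact Real.smoothTransition.le_one _
  have hψ : ∀ x, HasDerivAt (fun x => χ x * φ x) (deriv χ x * φ x + χ x * φ' x) x := fun x => (hχh x).mul (h x)
  have hψi : Integrable (fun x => χ x * φ x) :=
    hi.bdd_mul hχd.continuous.aestronglyMeasurable (Eventually.of_forall fun x => hχ1 x)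
  have h1 := rl_S l hψ (((hχd.continuous_deriv (by norm_cast)).mul hφc).add (hχd.continuous.mul hc)) hψi
  have h2 := (Metric.tendsto_nhds.1 h1) (η / 2) (half_pos hη)
  filter_upwards [h2] with r hr
  rw [Real.dist_eq, sub_zero] at hr ⊢
  have hint : Integrable (fun x => φ x * r.S x) :=
    hi.mul_bdd r.measurable_S.aestronglyMeasurable (Eventually.of_forall fun x => hS r x)
  have hint2 : Integrable (fun x => χ x * φ x * r.S x) :=
    hψi.mul_bdd r.measurable_S.aestronglyMeasurable (Eventually.of_forall fun x => hS r x)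
  have h3 : (∫ x in Ioi 0, φ x * r.S x) - ∫ x, χ x * φ x * r.S x =
      ∫ x in Ioc 0 δ, (1 - χ x) * (φ x * r.S x) := by
    have e1 : ∫ x, χ x * φ x * r.S x = ∫ x in Ioi 0, χ x * φ x * r.S x := by
      rw [← integral_indicator measurableSet_Ioi]
      refine integral_congr_ae (Eventually.of_forall fun x => ?_)
      simp only [indicator, mem_Ioi]
      split_ifs with hx
      · rfl
      · have : χ x = 0 := Real.smoothTransition.zero_of_nonpos
          (div_nonpos_of_nonpos_of_nonneg (not_lt.1 hx) hδ0.le)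
        rw [this, zero_mul, zero_mul]
    rw [e1, ← integral_sub hint.integrableOn hint2.integrableOn, ← integral_indicator measurableSet_Ioi,
      ← integral_indicator measurableSet_Ioc]
    refine integral_congr_ae (Eventually.of_forall fun x => ?_)
    simp only [indicator, mem_Ioi, mem_Ioc]
    by_cases hx : 0 < x
    · by_cases hx2 : x ≤ δ
      · rw [if_pos hx, if_pos ⟨hx, hx2⟩]
        ring
      · rw [if_pos hx, if_neg (fun h => hx2 h.2)]
        have : χ x = 1 := Real.smoothTransition.one_of_one_le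
          ((one_le_div hδ0).2 (not_le.1 hx2).le)
        rw [this]
        ring
    · rw [if_neg hx, if_neg (fun h => hx h.1)]
  have h4 : |∫ x in Ioc 0 δ, (1 - χ x) * (φ x * r.S x)| ≤ A * CS * δ := by
    have h5 := norm_setIntegral_le_of_norm_le_const (μ := volume) (s := Ioc 0 δ)
      (f := fun x => (1 - χ x) * (φ x * r.S x)) (C := A * CS) (by simp) (fun x _ => by
        rw [norm_mul, norm_mul, Real.norm_eq_abs, Real.norm_eq_abs, Real.norm_eq_abs]
        have e1 : |1 - χ x| ≤ 1 := by
          rw [abs_of_nonneg (by have := Real.smoothTransition.le_one (x / δ); simp only [hχ]; linarith)]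
          have := Real.smoothTransition.nonneg (x / δ)
          simp only [hχ]
          linarith
        calc |1 - χ x| * (|φ x| * |r.S x|) ≤ 1 * (A * CS) :=
              mul_le_mul e1 (mul_le_mul (hA x) (hS r x) (abs_nonneg _) hA0)
                (mul_nonneg (abs_nonneg _) (abs_nonneg _)) zero_le_one
          _ = A * CS := one_mul _)
    rw [Real.norm_eq_abs] at h5
    refine h5.trans (le_of_eq ?_)
    rw [measureReal_def, Real.volume_Ioc, sub_zero, ENNReal.toReal_ofReal hδ0.le]
  have h6 : A * CS * δ < η / 2 := by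
    have e : (A * CS + 1) * δ = η / 2 := by
      rw [hδ]
      field_simp
    nlinarith
  have h7 : |∫ x in Ioi 0, φ x * r.S x| ≤ |∫ x, χ x * φ x * r.S x| +
      |(∫ x in Ioi 0, φ x * r.S x) - ∫ x, χ x * φ x * r.S x| := by
    have := abs_add_le (∫ x, χ x * φ x * r.S x) ((∫ x in Ioi 0, φ x * r.S x) - ∫ x, χ x * φ x * r.S x)
    rw [add_sub_cancel] at this
    exact this
  rw [h3] at h7
  linarith

/-- the inner cross integral -/
private noncomputable def quadB_B {l : ℕ} (r : Roots l) (x : ℝ) : ℝ := ∫ t in Ioi 0, deriv K (x + t) * r.v t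

private theorem quadB_B_tendsto (l : ℕ) (x : ℝ) : Tendsto (fun r : Roots l => quadB_B r x) (FL l) (𝓝 0) := by
  obtain ⟨Ck, hCk, hk⟩ := quadB_kb
  obtain ⟨Cw, hCw, hw⟩ := w_bd l
  have hφi : Integrable (fun t => deriv K (x + t)) := quadB_ki.comp_add_left x
  have hφh : ∀ t, HasDerivAt (fun t => deriv K (x + t)) (deriv (deriv K) (x + t)) t := fun t => by
    have := (quadB_kk' (x + t)).comp t ((hasDerivAt_id t).const_add x)
    refine this.congr_deriv ?_
    simp
  have hA : ∀ t, |deriv K (x + t)| ≤ Ck := fun t => (hk _).trans (by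
    have : Real.exp (-|x + t|) ≤ 1 := Real.exp_le_one_iff.2 (by have := abs_nonneg (x + t); linarith)
    nlinarith)
  have h1 := quadB_rl l hφh (quadB_kc''.comp (continuous_const.add continuous_id)) hφi hA
  have h2 : Tendsto (fun r : Roots l => ∫ t in Ioi 0, deriv K (x + t) * r.w t) (FL l)
      (𝓝 (∫ t in Ioi (0:ℝ), (0:ℝ))) := by
    have := quadB_cg l
    refine tendsto_integral_filter_of_dominated_convergence (fun t => |deriv K (x + t)| * Cw) ?_ ?_ ?_ ?_
    · refine Eventually.of_forall fun r => ?_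
      exact ((quadB_kc.comp (continuous_const.add continuous_id)).mul (continuous_w r)).aestronglyMeasurable
    · refine Eventually.of_forall fun r => Eventually.of_forall fun t => ?_
      rw [norm_mul]
      exact mul_le_mul_of_nonneg_left (hw r t) (norm_nonneg _)
    · exact (hφi.abs.mul_const Cw).integrableOn
    · refine Eventually.of_forall fun t => ?_
      have := (tendsto_w_pt l t).const_mul (deriv K (x + t))
      rwa [mul_zero] at this
  rw [integral_zero] at h2
  have h3 := h2.sub h1
  rw [sub_zero] at h3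
  refine h3.congr fun r => ?_
  obtain ⟨CS, hCS, hS⟩ := S_bd l
  have i1 : Integrable (fun t => deriv K (x + t) * r.w t) :=
    hφi.mul_bdd (continuous_w r).aestronglyMeasurable (Eventually.of_forall fun t => hw r t)
  have i2 : Integrable (fun t => deriv K (x + t) * r.S t) :=
    hφi.mul_bdd r.measurable_S.aestronglyMeasurable (Eventually.of_forall fun t => hS r t)
  rw [quadB_B, ← integral_sub i1.integrableOn i2.integrableOn]
  refine integral_congr_ae (Eventually.of_forall fun t => ?_)
  simp only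
  rw [r.S_eq]
  ring

private theorem quadB_B_bd (l : ℕ) : ∃ C, 0 ≤ C ∧ ∀ (r : Roots l) (x : ℝ), 0 ≤ x →
    |quadB_B r x| ≤ C * Real.exp (-x) := by
  obtain ⟨Ck, hCk, hk⟩ := quadB_kb
  refine ⟨Ck * ((l : ℝ) / 2 + 1), by positivity, fun r x hx => ?_⟩
  have h5 : IntegrableOn (fun b : ℝ => Ck * ((l : ℝ) / 2 + 1) * Real.exp (-x) * Real.exp (-b)) (Ioi 0) :=
    (integrableOn_exp_neg_Ioi 0).const_mul _
  have h6 := norm_integral_le_of_norm_le h5 (f := fun t => deriv K (x + t) * r.v t)
    ((ae_restrict_iff' measurableSet_Ioi).2 (Eventually.of_forall fun t ht => by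
      have ht' : (0:ℝ) < t := ht
      rw [norm_mul, Real.norm_eq_abs, Real.norm_eq_abs]
      have h2 := hk (x + t)
      rw [abs_of_nonneg (by linarith : (0:ℝ) ≤ x + t)] at h2
      have h4 : Real.exp (-(x + t)) = Real.exp (-x) * Real.exp (-t) := by
        rw [← Real.exp_add]; congr 1; ring
      rw [h4] at h2
      calc |deriv K (x + t)| * |r.v t| ≤ (Ck * (Real.exp (-x) * Real.exp (-t))) * ((l : ℝ) / 2 + 1) :=
            mul_le_mul h2 (r.abs_v_le t) (abs_nonneg _) (by positivity)
        _ = _ := by ring))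
  rw [Real.norm_eq_abs] at h6
  refine h6.trans (le_of_eq ?_)
  rw [integral_const_mul, integral_exp_neg_Ioi_zero, mul_one]

private theorem quadB_B_meas {l : ℕ} (r : Roots l) : Measurable (quadB_B r) := by
  have hm : Measurable (fun p : ℝ × ℝ => deriv K (p.1 + p.2) * r.v p.2) :=
    (quadB_kc.measurable.comp (measurable_fst.add measurable_snd)).mul (r.measurable_v.comp measurable_snd)
  exact (hm.stronglyMeasurable.integral_prod_right (ν := volume.restrict (Ioi 0))).measurable

private theorem quadB_J (l : ℕ) : Tendsto (fun r : Roots l => ∫ x in Ioi 0, r.v x * quadB_B r x) (FL l) (𝓝 0) := by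
  obtain ⟨C, hC, hB⟩ := quadB_B_bd l
  have h : Tendsto (fun r : Roots l => ∫ x in Ioi 0, r.v x * quadB_B r x) (FL l)
      (𝓝 (∫ x in Ioi (0:ℝ), (0:ℝ))) := by
    have := quadB_cg l
    refine tendsto_integral_filter_of_dominated_convergence
      (fun x => ((l : ℝ) / 2 + 1) * C * Real.exp (-x)) ?_ ?_ ?_ ?_
    · exact Eventually.of_forall fun r => (r.measurable_v.mul (quadB_B_meas r)).aestronglyMeasurable
    · refine Eventually.of_forall fun r => (ae_restrict_iff' measurableSet_Ioi).2
        (Eventually.of_forall fun x hx => ?_)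
      have hx' : (0:ℝ) < x := hx
      rw [norm_mul, Real.norm_eq_abs, Real.norm_eq_abs]
      calc |r.v x| * |quadB_B r x| ≤ ((l : ℝ) / 2 + 1) * (C * Real.exp (-x)) :=
            mul_le_mul (r.abs_v_le x) (hB r x hx'.le) (abs_nonneg _) (by positivity)
        _ = _ := by ring
    · exact (integrableOn_exp_neg_Ioi 0).const_mul _
    · refine Eventually.of_forall fun x => ?_
      have h2 : Tendsto (fun r : Roots l => ((l : ℝ) / 2 + 1) * |quadB_B r x|) (FL l)
          (𝓝 (((l : ℝ) / 2 + 1) * 0)) := by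
        have := (quadB_B_tendsto l x).abs
        rw [abs_zero] at this
        exact this.const_mul _
      rw [mul_zero] at h2
      rw [tendsto_zero_iff_abs_tendsto_zero]
      refine squeeze_zero (fun r => abs_nonneg _) (fun r => ?_) h2
      simp only [Function.comp, abs_mul]
      exact mul_le_mul_of_nonneg_right (r.abs_v_le x) (abs_nonneg _)
  rwa [integral_zero] at h

private theorem quadB_dw {l : ℕ} (r : Roots l) (x : ℝ) :
    r.dw x = (∫ t in Ioi 0, deriv K (x - t) * r.v t) - quadB_B r x := by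
  have hi : Integrable (fun t => deriv K (x - t) * r.v t) :=
    (quadB_ki.comp_sub_left x).mul_bdd r.measurable_v.aestronglyMeasurable
      (Eventually.of_forall fun t => r.abs_v_le t)
  rw [dw_eq, ← intervalIntegral.integral_Iic_add_Ioi (b := 0) hi.integrableOn hi.integrableOn]
  have h1 := integral_comp_neg_Ioi 0 (fun t => deriv K (x - t) * r.v t)
  rw [neg_zero] at h1
  have h2 : ∫ t in Ioi 0, deriv K (x - -t) * r.v (-t) = - quadB_B r x := by
    rw [quadB_B, ← integral_neg]
    refine integral_congr_ae (ae_restrict_of_ae ?_)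
    filter_upwards [quadB_notroot r] with t ht
    rw [r.v_neg t ht, sub_neg_eq_add]
    ring
  rw [← h1, h2]
  ring

private theorem quadB_half {l : ℕ} (r : Roots l) :
    ∫ x in Ioi 0, r.v x * r.dw x = (l : ℝ) ^ 2 / 32 - ∫ x in Ioi 0, r.v x * quadB_B r x := by
  obtain ⟨Ck, hCk, hk⟩ := quadB_kb
  obtain ⟨CB, hCB, hB⟩ := quadB_B_bd l
  have i1 : Integrable (fun x => r.v x * r.dw x) :=
    (integrable_dw r).bdd_mul r.measurable_v.aestronglyMeasurable (Eventually.of_forall fun t => r.abs_v_le t)
  have i2 : IntegrableOn (fun x => r.v x * quadB_B r x) (Ioi 0) := by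
    have h5 : IntegrableOn (fun b : ℝ => ((l : ℝ) / 2 + 1) * CB * Real.exp (-b)) (Ioi 0) :=
      (integrableOn_exp_neg_Ioi 0).const_mul _
    refine Integrable.mono' h5 (r.measurable_v.mul (quadB_B_meas r)).aestronglyMeasurable
      ((ae_restrict_iff' measurableSet_Ioi).2 (Eventually.of_forall fun x hx => ?_))
    have hx' : (0:ℝ) < x := hx
    rw [norm_mul, Real.norm_eq_abs, Real.norm_eq_abs]
    calc |r.v x| * |quadB_B r x| ≤ ((l : ℝ) / 2 + 1) * (CB * Real.exp (-x)) :=
          mul_le_mul (r.abs_v_le x) (hB r x hx'.le) (abs_nonneg _) (by positivity)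
      _ = _ := by ring
  have h1 : Tendsto (fun R : ℝ => ∫ x in (0:ℝ)..R, r.v x * r.dw x) atTop
      (𝓝 (∫ x in Ioi 0, r.v x * r.dw x)) :=
    intervalIntegral_tendsto_integral_Ioi 0 i1.integrableOn tendsto_id
  have h2 : Tendsto (fun R : ℝ => ∫ x in (0:ℝ)..R, r.v x * quadB_B r x) atTop
      (𝓝 (∫ x in Ioi 0, r.v x * quadB_B r x)) :=
    intervalIntegral_tendsto_integral_Ioi 0 i2 tendsto_id
  have h3 := anti_lim quadB_kki quadB_K0 quadB_kc quadB_ki quadB_kodd hk r.measurable_v
    (fun x => r.abs_v_le x) r.tendsto_v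
  rw [quadB_halfK] at h3
  have h4 := h3.sub h2
  have h5 : (fun R : ℝ => (∫ x in (0:ℝ)..R, r.v x * ∫ t in Ioi 0, deriv K (x - t) * r.v t) -
      ∫ x in (0:ℝ)..R, r.v x * quadB_B r x) =ᶠ[atTop] fun R => ∫ x in (0:ℝ)..R, r.v x * r.dw x := by
    filter_upwards [eventually_ge_atTop 0] with R hR
    have j1 : IntervalIntegrable (fun x => r.v x * r.dw x) volume 0 R := i1.intervalIntegrable
    have j2 : IntervalIntegrable (fun x => r.v x * quadB_B r x) volume 0 R :=
      (intervalIntegrable_iff_integrableOn_Ioc_of_le hR).2 (i2.mono_set Ioc_subset_Ioi_self)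
    have e : ∀ x, r.v x * ∫ t in Ioi 0, deriv K (x - t) * r.v t = r.v x * r.dw x + r.v x * quadB_B r x := by
      intro x
      rw [quadB_dw]
      ring
    rw [intervalIntegral.integral_congr (g := fun x => r.v x * r.dw x + r.v x * quadB_B r x) (fun x _ => e x),
      intervalIntegral.integral_add j1 j2]
    ring
  have h6 := tendsto_nhds_unique (h4.congr' h5) h1
  rw [← h6]
  ring

private theorem quadB_v (l : ℕ) : Tendsto (fun r : Roots l => ∫ x, H x * r.v x * r.dw x) (FL l)
    (𝓝 ((l : ℝ) ^ 2 / 16)) := by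
  obtain ⟨Cd, hCd, hd⟩ := dw_bd l
  obtain ⟨CH, hCH, hH⟩ := one_sub_H_le
  -- the part with `1 - H`
  have h1 : Tendsto (fun r : Roots l => ∫ x in Ioi 0, (1 - H x) * (r.v x * r.dw x)) (FL l)
      (𝓝 (∫ x in Ioi (0:ℝ), (0:ℝ))) := by
    have := quadB_cg l
    refine tendsto_integral_filter_of_dominated_convergence
      (fun x => CH * (((l : ℝ) / 2 + 1) * Cd) * Real.exp (-2 * x)) ?_ ?_ ?_ ?_
    · exact Eventually.of_forall fun r => ((measurable_const.sub quadB_cH.measurable).mul
        (r.measurable_v.mul (continuous_dw r).measurable)).aestronglyMeasurable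
    · refine Eventually.of_forall fun r => (ae_restrict_iff' measurableSet_Ioi).2
        (Eventually.of_forall fun x hx => ?_)
      have hx' : (0:ℝ) < x := hx
      have e1 : |1 - H x| ≤ CH * Real.exp (-2 * x) := by
        rw [abs_of_nonneg (by have := (abs_le.1 (abs_H_le x)).2; linarith)]
        exact hH x hx'.le
      rw [norm_mul, norm_mul, Real.norm_eq_abs, Real.norm_eq_abs, Real.norm_eq_abs]
      calc |1 - H x| * (|r.v x| * |r.dw x|) ≤ (CH * Real.exp (-2 * x)) * (((l : ℝ) / 2 + 1) * Cd) :=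
            mul_le_mul e1 (mul_le_mul (r.abs_v_le x) (hd r x) (abs_nonneg _) (by positivity))
              (mul_nonneg (abs_nonneg _) (abs_nonneg _)) (by positivity)
        _ = _ := by ring
    · have := (integrableOn_exp_mul_Ioi (a := -2) (by norm_num) 0)
      exact this.const_mul _
    · refine Eventually.of_forall fun x => ?_
      have h2 : Tendsto (fun r : Roots l => |1 - H x| * (((l : ℝ) / 2 + 1) * |r.dw x|)) (FL l)
          (𝓝 (|1 - H x| * (((l : ℝ) / 2 + 1) * 0))) := by
        have := (tendsto_dw_pt l x).abs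
        rw [abs_zero] at this
        exact (this.const_mul _).const_mul _
      rw [mul_zero, mul_zero] at h2
      rw [tendsto_zero_iff_abs_tendsto_zero]
      refine squeeze_zero (fun r => abs_nonneg _) (fun r => ?_) h2
      simp only [Function.comp, abs_mul]
      exact mul_le_mul_of_nonneg_left (mul_le_mul_of_nonneg_right (r.abs_v_le x) (abs_nonneg _)) (abs_nonneg _)
  rw [integral_zero] at h1
  have h2 : Tendsto (fun r : Roots l => 2 * ((l : ℝ) ^ 2 / 32 - ∫ x in Ioi 0, r.v x * quadB_B r x) -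
      2 * ∫ x in Ioi 0, (1 - H x) * (r.v x * r.dw x)) (FL l) (𝓝 (2 * ((l : ℝ) ^ 2 / 32 - 0) - 2 * 0)) :=
    ((tendsto_const_nhds.sub (quadB_J l)).const_mul 2).sub (h1.const_mul 2)
  have e0 : 2 * ((l : ℝ) ^ 2 / 32 - 0) - 2 * 0 = (l : ℝ) ^ 2 / 16 := by ring
  rw [e0] at h2
  refine h2.congr fun r => ?_
  have i1 : Integrable (fun x => r.v x * r.dw x) :=
    (integrable_dw r).bdd_mul r.measurable_v.aestronglyMeasurable (Eventually.of_forall fun t => r.abs_v_le t)
  have i2 : Integrable (fun x => H x * (r.v x * r.dw x)) :=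
    i1.bdd_mul quadB_cH.aestronglyMeasurable (Eventually.of_forall fun x => abs_H_le x)
  have i3 : Integrable (fun x => H x * r.v x * r.dw x) := by
    refine i2.congr (Eventually.of_forall fun x => ?_)
    simp only
    ring
  have h3 : ∫ x, H x * r.v x * r.dw x = 2 * ∫ x in Ioi 0, H x * r.v x * r.dw x := by
    rw [← intervalIntegral.integral_Iic_add_Ioi (b := 0) i3.integrableOn i3.integrableOn]
    have h4 := integral_comp_neg_Ioi 0 (fun x => H x * r.v x * r.dw x)
    rw [neg_zero] at h4
    have h5 : ∫ x in Ioi 0, H (-x) * r.v (-x) * r.dw (-x) = ∫ x in Ioi 0, H x * r.v x * r.dw x := by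
      refine integral_congr_ae (ae_restrict_of_ae ?_)
      filter_upwards [quadB_notroot r] with x hx
      rw [r.v_neg x hx, H_neg, Tails_dw_neg]
      ring
    rw [← h4, h5]
    ring
  have h6 : ∫ x in Ioi 0, H x * r.v x * r.dw x = (∫ x in Ioi 0, r.v x * r.dw x) -
      ∫ x in Ioi 0, (1 - H x) * (r.v x * r.dw x) := by
    have i4 : Integrable (fun x => (1 - H x) * (r.v x * r.dw x)) := by
      refine (i1.sub i2).congr (Eventually.of_forall fun x => ?_)
      simp only [Pi.sub_apply]
      ring
    rw [← integral_sub i1.integrableOn i4.integrableOn]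
    refine integral_congr_ae (Eventually.of_forall fun x => ?_)
    simp only
    ring
  rw [h3, h6, quadB_half]
  ring

private theorem quadB_w (l : ℕ) : Tendsto (fun r : Roots l => ∫ x, H x * r.w x * r.dw x) (FL l)
    (𝓝 ((l : ℝ) ^ 2 / 64)) := by
  obtain ⟨Cw, hCw, hw⟩ := w_bd l
  have h1 : Tendsto (fun r : Roots l => ∫ x, dH x * r.w x ^ 2) (FL l) (𝓝 (∫ _x : ℝ, (0:ℝ))) := by
    have := quadB_cg l
    refine tendsto_integral_filter_of_dominated_convergence (fun x => dH x * Cw ^ 2) ?_ ?_
      (integrable_dH.mul_const _) ?_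
    · exact Eventually.of_forall fun r => (contDiff_dH.continuous.mul ((continuous_w r).pow 2)).aestronglyMeasurable
    · refine Eventually.of_forall fun r => Eventually.of_forall fun x => ?_
      rw [norm_mul, Real.norm_eq_abs, abs_of_pos (dH_pos x), norm_pow]
      exact mul_le_mul_of_nonneg_left (pow_le_pow_left₀ (norm_nonneg _) (hw r x) 2) (dH_pos x).le
    · refine Eventually.of_forall fun x => ?_
      have := ((tendsto_w_pt l x).pow 2).const_mul (dH x)
      rwa [zero_pow two_ne_zero, mul_zero] at this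
  rw [integral_zero] at h1
  have h2 : Tendsto (fun r : Roots l => (l : ℝ) ^ 2 / 64 - (1 / 2) * ∫ x, dH x * r.w x ^ 2) (FL l)
      (𝓝 ((l : ℝ) ^ 2 / 64 - (1 / 2) * 0)) := tendsto_const_nhds.sub (h1.const_mul _)
  rw [mul_zero, sub_zero] at h2
  refine h2.congr fun r => ?_
  have i1 : Integrable (fun x => H x * r.w x * r.dw x) :=
    (integrable_dw r).bdd_mul (c := Cw) (quadB_cH.mul (continuous_w r)).aestronglyMeasurable
      (Eventually.of_forall fun x => by
        rw [norm_mul, Real.norm_eq_abs, Real.norm_eq_abs]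
        calc |H x| * |r.w x| ≤ 1 * Cw := mul_le_mul (abs_H_le x) (hw r x) (abs_nonneg _) zero_le_one
          _ = Cw := one_mul _)
  have i2 : Integrable (fun x => dH x * r.w x ^ 2) :=
    integrable_dH.mul_bdd (c := Cw ^ 2) ((continuous_w r).pow 2).aestronglyMeasurable
      (Eventually.of_forall fun x => by
        rw [norm_pow]
        exact pow_le_pow_left₀ (norm_nonneg _) (hw r x) 2)
  have hd : ∀ x, HasDerivAt (fun x => H x * (r.w x ^ 2 / 2))
      ((1 / 2) * (dH x * r.w x ^ 2) + H x * r.w x * r.dw x) x := by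
    intro x
    have h3 := (hasDerivAt_H x).mul (((r.hasDerivAt_w x).pow 2).div_const 2)
    refine h3.congr_deriv ?_
    simp only [Nat.cast_ofNat, Nat.add_one_sub_one, pow_one, Pi.pow_apply]
    ring
  have t1 : Tendsto (fun x => H x * (r.w x ^ 2 / 2)) atTop (𝓝 (1 * ((-(l : ℝ) / 8) ^ 2 / 2))) :=
    tendsto_H.mul ((r.tendsto_w.pow 2).div_const 2)
  have t2 : Tendsto (fun x => H x * (r.w x ^ 2 / 2)) atBot (𝓝 (-1 * ((-(l : ℝ) / 8) ^ 2 / 2))) := by
    have h4 := (t1.comp tendsto_neg_atBot_atTop).neg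
    have e : -(1 * ((-(l : ℝ) / 8) ^ 2 / 2)) = -1 * ((-(l : ℝ) / 8) ^ 2 / 2) := by ring
    rw [e] at h4
    refine h4.congr fun x => ?_
    simp only [Function.comp]
    rw [H_neg, r.w_neg]
    ring
  have h5 := integral_of_hasDerivAt_of_tendsto hd ((i2.const_mul (1 / 2)).add i1) t2 t1
  rw [integral_add (i2.const_mul (1 / 2)) i1, integral_const_mul] at h5
  have e : 1 * ((-(l : ℝ) / 8) ^ 2 / 2) - -1 * ((-(l : ℝ) / 8) ^ 2 / 2) = (l : ℝ) ^ 2 / 64 := by ring
  rw [e] at h5
  linarith

theorem quadB (l : ℕ) : Tendsto (fun r : Roots l => ∫ x, H x * r.S x * r.dw x) (FL l)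
    (𝓝 ((l : ℝ) ^ 2 / 64 - (l : ℝ) ^ 2 / 16)) := by
  obtain ⟨Cw, hCw, hw⟩ := w_bd l
  refine ((quadB_w l).sub (quadB_v l)).congr fun r => ?_
  have i1 : Integrable (fun x => H x * r.w x * r.dw x) :=
    (integrable_dw r).bdd_mul (c := Cw) (quadB_cH.mul (continuous_w r)).aestronglyMeasurable
      (Eventually.of_forall fun x => by
        rw [norm_mul, Real.norm_eq_abs, Real.norm_eq_abs]
        calc |H x| * |r.w x| ≤ 1 * Cw := mul_le_mul (abs_H_le x) (hw r x) (abs_nonneg _) zero_le_one
          _ = Cw := one_mul _)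
  have i2 : Integrable (fun x => H x * r.v x * r.dw x) :=
    (integrable_dw r).bdd_mul (c := (l : ℝ) / 2 + 1) (quadB_cH.measurable.mul r.measurable_v).aestronglyMeasurable
      (Eventually.of_forall fun x => by
        rw [norm_mul, Real.norm_eq_abs, Real.norm_eq_abs]
        calc |H x| * |r.v x| ≤ 1 * ((l : ℝ) / 2 + 1) :=
              mul_le_mul (abs_H_le x) (r.abs_v_le x) (abs_nonneg _) zero_le_one
          _ = (l : ℝ) / 2 + 1 := one_mul _)
  rw [← integral_sub i1 i2]
  refine integral_congr_ae (Eventually.of_forall fun x => ?_)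
  simp only
  rw [r.S_eq]
  ring

end Pool.Agent.CYL.Roots
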