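import Pool.Agent.CYL.C.EnId
import Pool.Agent.CYL.C.EnA
import Pool.Agent.CYL.C.EnE
import Pool.Agent.CYL.C.QuadA
import Pool.Agent.CYL.C.QuadB

/-!
# CYL, part C: the final limit
-/

open Filter Topology MeasureTheory

namespace Pool.Agent.CYL.Roots

variable {l : ℕ}

/-- The limit of `L * INT dphi S`. -/
noncomputable def gInf (l : ℕ) : ℝ := -(Real.sqrt 3 * Real.pi * (9 * (l : ℝ) ^ 2 - 4) / 48)

theorem continuous_H : Continuous H :=
  continuous_iff_continuousAt.2 fun x => (hasDerivAt_H x).continuousAt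

theorem integrable_HS {g : ℝ → ℝ} (r : Roots l) (hg : Integrable g) :
    Integrable (fun x => H x * r.S x * g x) := by
  obtain ⟨C, hC0, hC⟩ := S_bd l
  refine hg.bdd_mul (c := C) ?_ ?_
  · exact continuous_H.measurable.aestronglyMeasurable.mul r.measurable_S.aestronglyMeasurable
  · refine Eventually.of_forall fun x => ?_
    rw [Real.norm_eq_abs, abs_mul]
    calc |H x| * |r.S x| ≤ 1 * C := mul_le_mul (abs_H_le x) (hC r x) (abs_nonneg _) zero_le_one
      _ = C := one_mul C

theorem integrable_Er_S {r : Roots l} (h : Integrable r.Er) :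
    Integrable (fun x => r.Er x * r.S x) := by
  obtain ⟨C, hC0, hC⟩ := S_bd l
  have := h.bdd_mul (c := C) r.measurable_S.aestronglyMeasurable
    (Eventually.of_forall fun x => by simpa using hC r x)
  simpa [mul_comm] using this

theorem tendsto_Er_S (l : ℕ) :
    Tendsto (fun r : Roots l => ∫ x, r.Er x * r.S x) (FL l) (𝓝 0) := by
  obtain ⟨C, hC0, hC⟩ := S_bd l
  have h1 : Tendsto (fun r : Roots l => (∫ x, |r.Er x|) * C) (FL l) (𝓝 0) := by
    simpa using (tendsto_Er l).mul_const C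
  refine squeeze_zero_norm' ?_ h1
  filter_upwards [integrable_Er l] with r hr
  calc ‖∫ x, r.Er x * r.S x‖ ≤ ∫ x, ‖r.Er x * r.S x‖ := norm_integral_le_integral_norm _
    _ ≤ ∫ x, |r.Er x| * C := by
        refine integral_mono (integrable_Er_S hr).norm (hr.abs.mul_const C) fun x => ?_
        simp only [Real.norm_eq_abs, abs_mul]
        exact mul_le_mul_of_nonneg_left (hC r x) (abs_nonneg _)
    _ = (∫ x, |r.Er x|) * C := integral_mul_const C _

theorem L_mul_integral {r : Roots l} (h : r.Good) (hE : Integrable r.Er) :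
    (r.L : ℝ) * ∫ x, r.dphi x * r.S x =
      -(Real.sqrt 3 * Real.pi) * ((∫ x, H x * r.S x * r.dz x) - ∫ x, H x * r.S x * r.dw x)
        + ∫ x, r.Er x * r.S x := by
  have i1 := integrable_HS r (integrable_dz r)
  have i2 := integrable_HS r (integrable_dw r)
  have i3 := integrable_Er_S hE
  rw [← integral_sub i1 i2, ← integral_const_mul, ← integral_const_mul, ← integral_add]
  · refine integral_congr_ae (Eventually.of_forall fun x => ?_)
    have := L_mul_dphi r h.L_pos x
    simp only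
    linear_combination r.S x * this
  · exact (i1.sub i2).const_mul _
  · exact i3

theorem tendsto_main (l : ℕ) :
    Tendsto (fun r : Roots l => (r.L : ℝ) * ∫ x, r.dphi x * r.S x) (FL l) (𝓝 (gInf l)) := by
  have h1 := (((quadA l).sub (quadB l)).const_mul (-(Real.sqrt 3 * Real.pi))).add (tendsto_Er_S l)
  have h2 : -(Real.sqrt 3 * Real.pi) * ((3 * (l : ℝ) / 8) ^ 2 - 1 / 12
      - ((l : ℝ) ^ 2 / 64 - (l : ℝ) ^ 2 / 16)) + 0 = gInf l := by
    unfold gInf
    ring
  rw [h2] at h1
  refine h1.congr' ?_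
  filter_upwards [eventually_good l, integrable_Er l] with r hg hE
  exact (L_mul_integral hg hE).symm

theorem tendsto_AL_FL (l : ℕ) :
    Tendsto (fun r : Roots l => (r.L : ℝ) * AL l r.L) (FL l) (𝓝 0) :=
  (tendsto_AL l).comp tendsto_comap

/-- `L elog - L^2 cE` converges along `L -> oo`. -/
theorem tendsto_elog_sub (l : ℕ) :
    Tendsto (fun r : Roots l => (r.L : ℝ) * r.elog - (r.L : ℝ) ^ 2 * cE) (FL l) (𝓝 (gInf l)) := by
  have h1 := (tendsto_AL_FL l).add (tendsto_main l)
  rw [zero_add] at h1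
  refine h1.congr' ?_
  filter_upwards [eventually_good l] with r hg
  rw [elog_eq hg]
  ring

/-- FINAL THEOREM OF PART C. -/
theorem elog_limit (l : ℕ) (r : ℕ → Roots l) (hL : Tendsto (fun n => (r n).L) atTop atTop)
    (hB : ∃ B : ℝ, ∀ n, |(r n).elog| ≤ B) :
    Tendsto (fun n => ((r n).L : ℝ) * (r n).elog) atTop
      (𝓝 (-(Real.sqrt 3 * Real.pi * (9 * (l : ℝ) ^ 2 - 4) / 48))) := by
  have hF : Tendsto r atTop (FL l) := by
    unfold FL
    rw [tendsto_comap_iff]
    exact hL
  have h1 := (tendsto_elog_sub l).comp hF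
  have hLr : Tendsto (fun n => ((r n).L : ℝ)) atTop atTop := tendsto_natCast_atTop_atTop.comp hL
  obtain ⟨B, hB⟩ := hB
  -- cE = 0
  have hc : cE = 0 := by
    have hinv : Tendsto (fun n => ((r n).L : ℝ)⁻¹) atTop (𝓝 0) := tendsto_inv_atTop_zero.comp hLr
    have h2 : Tendsto (fun n => (((r n).L : ℝ) * (r n).elog - ((r n).L : ℝ) ^ 2 * cE)
        * (((r n).L : ℝ)⁻¹ * ((r n).L : ℝ)⁻¹)) atTop (𝓝 0) := by
      simpa using h1.mul (hinv.mul hinv)
    have h3 : Tendsto (fun n => (r n).elog * ((r n).L : ℝ)⁻¹) atTop (𝓝 0) := by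
      have hb : Tendsto (fun n => B * ((r n).L : ℝ)⁻¹) atTop (𝓝 0) := by
        simpa using hinv.const_mul B
      refine squeeze_zero_norm (fun n => ?_) hb
      rw [norm_mul, Real.norm_eq_abs, Real.norm_eq_abs, abs_inv, Nat.abs_cast]
      exact mul_le_mul_of_nonneg_right (hB n) (by positivity)
    have h4 : Tendsto (fun n => (r n).elog * ((r n).L : ℝ)⁻¹
        - (((r n).L : ℝ) * (r n).elog - ((r n).L : ℝ) ^ 2 * cE)
        * (((r n).L : ℝ)⁻¹ * ((r n).L : ℝ)⁻¹)) atTop (𝓝 0) := by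
      simpa using h3.sub h2
    have h5 : Tendsto (fun _ : ℕ => cE) atTop (𝓝 0) := by
      refine h4.congr' ?_
      filter_upwards [hLr.eventually_gt_atTop 0] with n hn
      have hn' : ((r n).L : ℝ) ≠ 0 := hn.ne'
      field_simp
      ring
    exact tendsto_nhds_unique tendsto_const_nhds h5
  refine h1.congr fun n => ?_
  simp only [Function.comp, hc, mul_zero, sub_zero]

/-- The export of part C in the form of the skeleton. -/
theorem part_C {l : ℕ} (r : ℕ → Roots l)
    (hr : Tendsto (fun k => ((r k).L : ℝ)) atTop atTop) (C : ℝ) (hC : ∀ k, |(r k).elog| ≤ C) :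
    Tendsto (fun k => ((r k).L : ℝ) * (r k).elog) atTop
      (𝓝 (-(Real.sqrt 3 * Real.pi * (9 * (l : ℝ) ^ 2 - 4) / 48))) :=
  elog_limit l r (tendsto_natCast_atTop_iff.1 hr) ⟨C, hC⟩

end Pool.Agent.CYL.Roots
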