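import Pool.Agent.CYL.C.KerB

/-! # Elementary facts on the solutions `r : Roots l`

PROOFS. `N0 y` counts the roots `≤ y`; `x` is strictly increasing, so on `[x j, x (j+1))` it is
`j + 1 - m/2`. `z` is odd: `Ph` odd, and `sum_k Th (-y - x k) = sum_k Th (-y + x (rev k))`
(reindex by `Fin.rev`, `x (rev k) = - x k`). At a root `S` jumps from 1/2 to -1/2 (`z_root`,
`N0_root`, left limit `N0_root - 1`), so `P = S^2/2 - 1/24` and `Q = S^3/6 - S/24` (zero at both
values +-1/2) are continuous. Off the roots `N0` is locally constant.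
Limits at infinity: `Ph -> 3/8`, `Th -> 1/8`: `z -> 3 L/8 + m/8 = L/2 - l/8` (m = L - l). -/

namespace Pool.Agent.CYL.Roots

open MeasureTheory Filter Topology

variable {l : ℕ} (r : Roots l)

theorem hasDerivAt_z (y : ℝ) : HasDerivAt r.z (r.dz y) y := by
  have hpi := Real.pi_pos
  have h1 : HasDerivAt (fun y => (r.L : ℝ) * Ph (Real.pi / 8) y) ((r.L : ℝ) * pk (Real.pi / 8) y) y :=
    (hasDerivAt_Ph (Real.pi / 8) (by positivity) (by linarith) y).const_mul _
  have h2 : HasDerivAt (fun y => ∑ k, Th (y - r.x k)) (∑ k, K (y - r.x k)) y := by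
    apply HasDerivAt.fun_sum
    intro k _
    have := (hasDerivAt_Th (y - r.x k)).comp y ((hasDerivAt_id y).sub_const (r.x k))
    rw [mul_one] at this
    exact this
  exact h1.add h2

theorem continuous_z : Continuous r.z :=
  continuous_iff_continuousAt.mpr fun y => (r.hasDerivAt_z y).continuousAt

theorem continuous_dz : Continuous r.dz := by
  have hpi := Real.pi_pos
  unfold dz
  have h1 : Continuous (pk (Real.pi / 8)) :=
    (contDiff_pk (Real.pi / 8) (by positivity) (by linarith)).continuous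
  have h2 : Continuous K := contDiff_K.continuous
  fun_prop

theorem sum_rev {f : ℝ → ℝ} : ∑ k, f (r.x k) = ∑ k, f (- r.x k) := by
  rw [← Equiv.sum_comp Fin.revPerm]
  refine Finset.sum_congr rfl fun k _ => ?_
  rw [Fin.revPerm_apply, r.symm k]

theorem z_neg (y : ℝ) : r.z (-y) = - r.z y := by
  unfold z
  rw [Ph_neg, r.sum_rev (f := fun t => Th (-y - t)), neg_add, ← Finset.sum_neg_distrib]
  congr 1
  · ring
  · refine Finset.sum_congr rfl fun k _ => ?_
    rw [← Th_neg]
    congr 1
    ring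

theorem dz_neg (y : ℝ) : r.dz (-y) = r.dz y := by
  unfold dz
  rw [pk_neg, r.sum_rev (f := fun t => K (-y - t))]
  congr 1
  refine Finset.sum_congr rfl fun k _ => ?_
  rw [← K_neg]
  congr 1
  ring

theorem z_root (j : Fin r.m) : r.z (r.x j) = (j : ℝ) - ((r.m : ℝ) - 1) / 2 := r.bethe j

theorem filter_root (j : Fin r.m) : (Finset.univ.filter fun k => r.x k ≤ r.x j) = Finset.Iic j := by
  ext k
  simp [r.mono.le_iff_le]

theorem filter_root_lt (j : Fin r.m) : (Finset.univ.filter fun k => r.x k < r.x j) = Finset.Iio j := by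
  ext k
  simp [r.mono.lt_iff_lt]

theorem N0_root (j : Fin r.m) : r.N0 (r.x j) = (j : ℝ) + 1 - (r.m : ℝ) / 2 := by
  unfold N0
  rw [filter_root, Fin.card_Iic]
  push_cast
  ring

/-- Every point is left of all roots, or in `[x j, x (j+1))` for some `j`
(with `x m = oo`). -/
theorem N0_cases (y : ℝ) : (r.N0 y = - (r.m : ℝ) / 2 ∧ ∀ k, y < r.x k) ∨
    ∃ j : Fin r.m, r.x j ≤ y ∧ r.N0 y = (j : ℝ) + 1 - (r.m : ℝ) / 2 ∧ ∀ k, j < k → y < r.x k := by
  by_cases h : ∀ k, y < r.x k
  · left
    refine ⟨?_, h⟩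
    unfold N0
    have : (Finset.univ.filter fun k => r.x k ≤ y) = ∅ := by
      ext k
      simp [h k]
    rw [this]
    simp
    ring
  · right
    push Not at h
    obtain ⟨k0, hk0⟩ := h
    have hne : (Finset.univ.filter fun k => r.x k ≤ y).Nonempty := ⟨k0, by simpa using hk0⟩
    set j := (Finset.univ.filter fun k => r.x k ≤ y).max' hne with hj
    have hjm : r.x j ≤ y := by
      have := Finset.max'_mem _ hne
      simpa using this
    have hmax : ∀ k, r.x k ≤ y → k ≤ j := fun k hk => Finset.le_max' _ k (by simpa using hk)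
    refine ⟨j, hjm, ?_, ?_⟩
    · unfold N0
      have : (Finset.univ.filter fun k => r.x k ≤ y) = Finset.Iic j := by
        ext k
        simp only [Finset.mem_filter, Finset.mem_univ, true_and, Finset.mem_Iic]
        exact ⟨hmax k, fun hk => (r.mono.monotone hk).trans hjm⟩
      rw [this, Fin.card_Iic]
      push_cast
      ring
    · intro k hk
      by_contra hcon
      push Not at hcon
      exact absurd (hmax k hcon) (not_le.mpr hk)

theorem N0_neg (y : ℝ) (hy : ∀ k, r.x k ≠ y) : r.N0 (-y) = - r.N0 y := by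
  unfold N0
  have h1 : (Finset.univ.filter fun k => r.x k ≤ -y).card =
      (Finset.univ.filter fun k => ¬ r.x k ≤ y).card := by
    apply Finset.card_bij (fun k _ => Fin.rev k)
    · intro k hk
      simp only [Finset.mem_filter, Finset.mem_univ, true_and, not_le] at hk ⊢
      rw [r.symm]
      have : r.x k ≠ -y := by
        intro h
        apply hy (Fin.rev k)
        rw [r.symm, h]; ring
      have := lt_of_le_of_ne hk this
      linarith
    · intro a _ b _ hab
      exact Fin.rev_injective hab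
    · intro b hb
      refine ⟨Fin.rev b, ?_, Fin.rev_rev b⟩
      simp only [Finset.mem_filter, Finset.mem_univ, true_and, not_le] at hb ⊢
      rw [r.symm]
      linarith
  have h2 := Finset.card_filter_add_card_filter_not (s := (Finset.univ : Finset (Fin r.m))) (fun k => r.x k ≤ y)
  rw [Finset.card_univ, Fintype.card_fin] at h2
  rw [h1]
  have h3 : ((Finset.univ.filter fun k => r.x k ≤ y).card : ℝ) +
      ((Finset.univ.filter fun k => ¬ r.x k ≤ y).card : ℝ) = r.m := by exact_mod_cast h2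
  linarith

theorem abs_N0_le (y : ℝ) : |r.N0 y| ≤ (r.m : ℝ) / 2 := by
  unfold N0
  have h1 : (Finset.univ.filter fun k => r.x k ≤ y).card ≤ r.m := by
    have := Finset.card_filter_le (Finset.univ : Finset (Fin r.m)) (fun k => r.x k ≤ y)
    rwa [Finset.card_univ, Fintype.card_fin] at this
  have h2 : ((Finset.univ.filter fun k => r.x k ≤ y).card : ℝ) ≤ r.m := by exact_mod_cast h1
  have h3 : (0 : ℝ) ≤ ((Finset.univ.filter fun k => r.x k ≤ y).card : ℝ) := Nat.cast_nonneg _
  rw [abs_le]
  constructor <;> linarith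

theorem N0_mono : Monotone r.N0 := by
  intro a b hab
  unfold N0
  have : (Finset.univ.filter fun k => r.x k ≤ a).card ≤ (Finset.univ.filter fun k => r.x k ≤ b).card := by
    apply Finset.card_le_card
    intro k hk
    simp only [Finset.mem_filter, Finset.mem_univ, true_and] at hk ⊢
    exact hk.trans hab
  have h2 : ((Finset.univ.filter fun k => r.x k ≤ a).card : ℝ) ≤
      ((Finset.univ.filter fun k => r.x k ≤ b).card : ℝ) := by exact_mod_cast this
  linarith

theorem measurable_N0 : Measurable r.N0 := r.N0_mono.measurable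

theorem measurable_v : Measurable r.v := by
  unfold v
  exact r.measurable_N0.sub ((contDiff_R.continuous.measurable).const_mul _)

theorem measurable_S : Measurable r.S := by
  unfold S
  exact r.continuous_z.measurable.sub r.measurable_N0

/-- Beyond the last root. -/
theorem N0_large : ∃ X : ℝ, 0 < X ∧ ∀ y, X ≤ y → r.N0 y = (r.m : ℝ) / 2 := by
  refine ⟨1 + ∑ k, |r.x k|, by positivity, ?_⟩
  intro y hy
  unfold N0
  have : (Finset.univ.filter fun k => r.x k ≤ y) = Finset.univ := by
    ext k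
    simp only [Finset.mem_filter, Finset.mem_univ, true_and, iff_true]
    have h1 : |r.x k| ≤ ∑ k, |r.x k| :=
      Finset.single_le_sum (f := fun k => |r.x k|) (fun _ _ => abs_nonneg _) (Finset.mem_univ k)
    have h2 := le_abs_self (r.x k)
    linarith
  rw [this, Finset.card_univ, Fintype.card_fin]
  ring

theorem v_neg (y : ℝ) (hy : ∀ k, r.x k ≠ y) : r.v (-y) = - r.v y := by
  unfold v
  rw [r.N0_neg y hy, R_neg]
  ring

theorem S_neg (y : ℝ) (hy : ∀ k, r.x k ≠ y) : r.S (-y) = - r.S y := by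
  unfold S
  rw [r.N0_neg y hy, r.z_neg]
  ring

theorem w_neg (y : ℝ) : r.w (-y) = - r.w y := by
  unfold w
  rw [R_neg, r.z_neg]
  ring

theorem S_eq (y : ℝ) : r.S y = r.w y - r.v y := by
  unfold S w v
  ring

theorem tendsto_z : Tendsto r.z atTop (𝓝 ((r.L : ℝ) / 2 - (l : ℝ) / 8)) := by
  have h1 : Tendsto (fun y => (r.L : ℝ) * Ph (Real.pi / 8) y) atTop (𝓝 ((r.L : ℝ) * (3 / 8))) :=
    tendsto_Ph.const_mul _
  have h2 : Tendsto (fun y => ∑ k, Th (y - r.x k)) atTop (𝓝 (∑ _k : Fin r.m, (1 / 8 : ℝ))) := by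
    apply tendsto_finsetSum
    intro k _
    exact tendsto_Th.comp (tendsto_atTop_add_const_right _ _ tendsto_id)
  have h3 := h1.add h2
  have h4 : (r.L : ℝ) * (3 / 8) + ∑ _k : Fin r.m, (1 / 8 : ℝ) = (r.L : ℝ) / 2 - (l : ℝ) / 8 := by
    have h5 : (r.L : ℝ) = r.m + l := by exact_mod_cast r.hL.symm
    rw [Finset.sum_const, Finset.card_univ, Fintype.card_fin, nsmul_eq_mul, h5]
    ring
  rw [h4] at h3
  exact h3

theorem tendsto_w : Tendsto r.w atTop (𝓝 (- (l : ℝ) / 8)) := by
  have h := r.tendsto_z.sub (tendsto_R.const_mul (r.L : ℝ))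
  have h4 : (r.L : ℝ) / 2 - (l : ℝ) / 8 - (r.L : ℝ) * (1 / 2) = - (l : ℝ) / 8 := by ring
  rw [h4] at h
  exact h

theorem tendsto_N0 : Tendsto r.N0 atTop (𝓝 ((r.m : ℝ) / 2)) := by
  obtain ⟨X, _, hX⟩ := r.N0_large
  refine tendsto_const_nhds.congr' ?_
  filter_upwards [eventually_ge_atTop X] with y hy
  exact (hX y hy).symm

theorem tendsto_v : Tendsto r.v atTop (𝓝 (- (l : ℝ) / 2)) := by
  have h := r.tendsto_N0.sub (tendsto_R.const_mul (r.L : ℝ))
  have h4 : (r.m : ℝ) / 2 - (r.L : ℝ) * (1 / 2) = - (l : ℝ) / 2 := by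
    have h5 : (r.L : ℝ) = r.m + l := by exact_mod_cast r.hL.symm
    rw [h5]; ring
  rw [h4] at h
  exact h

theorem tendsto_S : Tendsto r.S atTop (𝓝 (3 * (l : ℝ) / 8)) := by
  have h := r.tendsto_z.sub r.tendsto_N0
  have h4 : (r.L : ℝ) / 2 - (l : ℝ) / 8 - (r.m : ℝ) / 2 = 3 * (l : ℝ) / 8 := by
    have h5 : (r.L : ℝ) = r.m + l := by exact_mod_cast r.hL.symm
    rw [h5]; ring
  rw [h4] at h
  exact h

theorem N0_right (y : ℝ) : ∀ᶠ t in 𝓝[≥] y, r.N0 t = r.N0 y := by
  have h : ∀ᶠ t in 𝓝[≥] y, ∀ k, (r.x k ≤ t ↔ r.x k ≤ y) := by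
    rw [eventually_all]
    intro k
    rcases le_or_gt (r.x k) y with hk | hk
    · filter_upwards [self_mem_nhdsWithin] with t ht
      exact ⟨fun _ => hk, fun _ => hk.trans ht⟩
    · have : ∀ᶠ t in 𝓝 y, t < r.x k := eventually_lt_nhds hk
      filter_upwards [mem_nhdsWithin_of_mem_nhds this] with t ht
      exact ⟨fun h => absurd h (not_le.mpr ht), fun h => absurd h (not_le.mpr hk)⟩
  filter_upwards [h] with t ht
  unfold N0
  simp only [ht]

theorem N0_left (y : ℝ) : ∀ᶠ t in 𝓝[<] y,
    r.N0 t = ((Finset.univ.filter fun k => r.x k < y).card : ℝ) - (r.m : ℝ) / 2 := by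
  have h : ∀ᶠ t in 𝓝[<] y, ∀ k, (r.x k ≤ t ↔ r.x k < y) := by
    rw [eventually_all]
    intro k
    rcases lt_or_ge (r.x k) y with hk | hk
    · have : ∀ᶠ t in 𝓝 y, r.x k < t := eventually_gt_nhds hk
      filter_upwards [mem_nhdsWithin_of_mem_nhds this] with t ht
      exact ⟨fun _ => hk, fun _ => ht.le⟩
    · filter_upwards [self_mem_nhdsWithin] with t ht
      have ht' : t < y := ht
      exact ⟨fun h => absurd (hk.trans h) (not_le.mpr ht'), fun h => absurd h (not_lt.mpr hk)⟩
  filter_upwards [h] with t ht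
  unfold N0
  simp only [ht]

theorem N0_nhds (y : ℝ) (hy : ∀ k, r.x k ≠ y) : ∀ᶠ t in 𝓝 y, r.N0 t = r.N0 y := by
  rw [← nhdsLT_sup_nhdsGE, eventually_sup]
  refine ⟨?_, r.N0_right y⟩
  filter_upwards [r.N0_left y] with t ht
  rw [ht]
  unfold N0
  congr 3
  ext k
  simp only [Finset.mem_filter, Finset.mem_univ, true_and]
  exact ⟨fun h => h.le, fun h => lt_of_le_of_ne h (hy k)⟩

theorem N0_left_root (j : Fin r.m) : ∀ᶠ t in 𝓝[<] (r.x j), r.N0 t = r.N0 (r.x j) - 1 := by
  filter_upwards [r.N0_left (r.x j)] with t ht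
  rw [ht, r.N0_root, r.filter_root_lt, Fin.card_Iio]
  ring

theorem S_root (j : Fin r.m) : r.S (r.x j) = - (1 / 2) := by
  unfold S
  rw [r.z_root, r.N0_root]
  ring

theorem continuous_of_S {f : ℝ → ℝ} (hf : Continuous f) (h : f (1 / 2) = f (- (1 / 2))) :
    Continuous fun y => f (r.S y) := by
  rw [continuous_iff_continuousAt]
  intro y
  have hR : ContinuousWithinAt (fun y => f (r.S y)) (Set.Ici y) y := by
    have h1 : ContinuousWithinAt (fun t => f (r.z t - r.N0 y)) (Set.Ici y) y :=
      (hf.comp (r.continuous_z.sub continuous_const)).continuousWithinAt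
    refine h1.congr_of_eventuallyEq ?_ rfl
    filter_upwards [r.N0_right y] with t ht
    unfold S
    rw [ht]
  have hL : ContinuousWithinAt (fun y => f (r.S y)) (Set.Iio y) y := by
    by_cases hy : ∀ k, r.x k ≠ y
    · have h1 : ContinuousAt (fun t => f (r.z t - r.N0 y)) y :=
        (hf.comp (r.continuous_z.sub continuous_const)).continuousAt
      refine (h1.congr ?_).continuousWithinAt
      filter_upwards [r.N0_nhds y hy] with t ht
      unfold S
      rw [ht]
    · push Not at hy
      obtain ⟨j, rfl⟩ := hy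
      have h1 : ContinuousWithinAt (fun t => f (r.z t - (r.N0 (r.x j) - 1))) (Set.Iio (r.x j)) (r.x j) :=
        (hf.comp (r.continuous_z.sub continuous_const)).continuousWithinAt
      refine h1.congr_of_eventuallyEq ?_ ?_
      · filter_upwards [r.N0_left_root j] with t ht
        unfold S
        rw [ht]
      · have h2 : r.z (r.x j) - (r.N0 (r.x j) - 1) = 1 / 2 := by
          have := r.S_root j
          unfold S at this
          linarith
        rw [h2, r.S_root, h]
  exact continuousAt_iff_continuous_left'_right'.mpr ⟨hL, hR.mono Set.Ioi_subset_Ici_self⟩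

theorem continuous_P : Continuous r.P :=
  r.continuous_of_S (f := fun s => s ^ 2 / 2 - 1 / 24) (by fun_prop) (by norm_num)

theorem continuous_Q : Continuous r.Q :=
  r.continuous_of_S (f := fun s => s ^ 3 / 6 - s / 24) (by fun_prop) (by norm_num)

theorem hasDerivAt_S (y : ℝ) (hy : ∀ k, r.x k ≠ y) : HasDerivAt r.S (r.dz y) y := by
  have h1 : HasDerivAt (fun t => r.z t - r.N0 y) (r.dz y) y := (r.hasDerivAt_z y).sub_const _
  refine h1.congr_of_eventuallyEq ?_
  filter_upwards [r.N0_nhds y hy] with t ht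
  unfold S
  rw [ht]

theorem hasDerivAt_P (y : ℝ) (hy : ∀ k, r.x k ≠ y) : HasDerivAt r.P (r.S y * r.dz y) y := by
  have h := (((r.hasDerivAt_S y hy).pow 2).div_const 2).sub_const (1 / 24)
  refine h.congr_deriv ?_
  push_cast
  ring

theorem hasDerivAt_Q (y : ℝ) (hy : ∀ k, r.x k ≠ y) : HasDerivAt r.Q (r.P y * r.dz y) y := by
  have h := (((r.hasDerivAt_S y hy).pow 3).div_const 6).sub ((r.hasDerivAt_S y hy).div_const 24)
  refine h.congr_deriv ?_
  unfold P
  push_cast
  ring

/-- `P` is even everywhere (continuity at the roots). -/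
theorem P_neg (y : ℝ) : r.P (-y) = r.P y := by
  unfold P
  by_cases hy : ∀ k, r.x k ≠ y
  · rw [r.S_neg y hy]
    ring
  · push Not at hy
    obtain ⟨j, rfl⟩ := hy
    rw [← r.symm j, r.S_root, r.S_root]

end Pool.Agent.CYL.Roots
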