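import Pool.Agent.CYL.C.Defs

/-! # Convolution of an exponentially decaying smooth kernel with a bounded function

PROOFS. `|f (y - t) u t| ≤ C B exp(-c |y - t|)`, integrable in `t` with integral `2 C B / c`.
Derivative: `hasDerivAt_integral_of_dominated_loc_of_deriv_le` with the domination
`|f' (y' - t) u t| ≤ C B exp(c) exp(-c |y - t|)` for `|y' - y| ≤ 1`. -/

namespace Pool.Agent.CYL

open MeasureTheory

theorem integrable_exp_neg_abs {c : ℝ} (hc : 0 < c) : Integrable (fun x : ℝ => Real.exp (-c * |x|)) := by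
  rw [← integrableOn_univ, ← Set.Iic_union_Ioi (a := (0 : ℝ))]
  refine IntegrableOn.union ?_ ?_
  · refine (integrableOn_exp_mul_Iic hc 0).congr_fun (fun x hx => ?_) measurableSet_Iic
    have hx' : x ≤ 0 := hx
    simp only
    rw [abs_of_nonpos hx']
    congr 1
    ring
  · refine (integrableOn_exp_mul_Ioi (neg_lt_zero.2 hc) 0).congr_fun (fun x hx => ?_) measurableSet_Ioi
    have hx' : 0 < x := hx
    simp only
    rw [abs_of_pos hx']

theorem integral_exp_neg_abs {c : ℝ} (hc : 0 < c) : ∫ x : ℝ, Real.exp (-c * |x|) = 2 / c := by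
  have h1 := integral_comp_abs (f := fun x : ℝ => Real.exp (-c * x))
  rw [h1, integral_exp_mul_Ioi (neg_lt_zero.2 hc) 0, mul_zero, Real.exp_zero, neg_div_neg_eq]
  ring

theorem integrable_of_exp {f : ℝ → ℝ} (hf : Continuous f) {C c : ℝ} (hc : 0 < c)
    (hb : ∀ x, |f x| ≤ C * Real.exp (-c * |x|)) : Integrable f :=
  Integrable.mono' ((integrable_exp_neg_abs hc).const_mul C) hf.aestronglyMeasurable
    (Filter.Eventually.of_forall hb)

private theorem Conv_int {f u : ℝ → ℝ} (hf : Integrable f) {B : ℝ} (hu : Measurable u)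
    (huB : ∀ x, |u x| ≤ B) (y : ℝ) : Integrable (fun t => f (y - t) * u t) := by
  have h1 : Integrable (fun t => f (y - t)) := hf.comp_sub_left y
  refine Integrable.mono' (h1.norm.mul_const B) (h1.aestronglyMeasurable.mul hu.aestronglyMeasurable)
    (Filter.Eventually.of_forall fun t => ?_)
  rw [norm_mul]
  exact mul_le_mul_of_nonneg_left (huB t) (norm_nonneg _)

theorem conv_integrable {f u : ℝ → ℝ} (hf : Continuous f) {C c B : ℝ} (hc : 0 < c)
    (hb : ∀ x, |f x| ≤ C * Real.exp (-c * |x|)) (hu : Measurable u) (huB : ∀ x, |u x| ≤ B) (y : ℝ) :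
    Integrable (fun t => f (y - t) * u t) :=
  Conv_int (integrable_of_exp hf hc hb) hu huB y

theorem conv_bound {f u : ℝ → ℝ} (hf : Continuous f) {C c B : ℝ} (hc : 0 < c)
    (hb : ∀ x, |f x| ≤ C * Real.exp (-c * |x|)) (hu : Measurable u) (huB : ∀ x, |u x| ≤ B) (y : ℝ) :
    |∫ t, f (y - t) * u t| ≤ 2 * C / c * B := by
  have hB : 0 ≤ B := (abs_nonneg _).trans (huB 0)
  have hfi := integrable_of_exp hf hc hb
  have h1 : Integrable (fun t => |f (y - t)| * B) := ((hfi.comp_sub_left y).norm).mul_const B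
  have h2 : |∫ t, f (y - t) * u t| ≤ ∫ t, |f (y - t)| * B :=
    norm_integral_le_of_norm_le (f := fun t => f (y - t) * u t) h1
      (Filter.Eventually.of_forall fun t => by
        rw [Real.norm_eq_abs, abs_mul]
        exact mul_le_mul_of_nonneg_left (huB t) (abs_nonneg _))
  refine h2.trans ?_
  rw [integral_mul_const, integral_sub_left_eq_self (fun x => |f x|) volume y]
  refine mul_le_mul_of_nonneg_right ?_ hB
  have h3 : ∫ x, |f x| ≤ ∫ x, C * Real.exp (-c * |x|) :=
    integral_mono hfi.norm ((integrable_exp_neg_abs hc).const_mul C) hb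
  rw [integral_const_mul, integral_exp_neg_abs hc] at h3
  refine h3.trans (le_of_eq ?_)
  ring

theorem conv_abs_le {f u : ℝ → ℝ} (hf : Integrable f) {B : ℝ} (hu : Measurable u)
    (huB : ∀ x, |u x| ≤ B) (y : ℝ) : |∫ t, f (y - t) * u t| ≤ (∫ x, |f x|) * B := by
  have h1 : Integrable (fun t => |f (y - t)| * B) := ((hf.comp_sub_left y).norm).mul_const B
  have h2 : |∫ t, f (y - t) * u t| ≤ ∫ t, |f (y - t)| * B :=
    norm_integral_le_of_norm_le (f := fun t => f (y - t) * u t) h1
      (Filter.Eventually.of_forall fun t => by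
        rw [Real.norm_eq_abs, abs_mul]
        exact mul_le_mul_of_nonneg_left (huB t) (abs_nonneg _))
  refine h2.trans (le_of_eq ?_)
  rw [integral_mul_const, integral_sub_left_eq_self (fun x => |f x|) volume y]

theorem conv_hasDerivAt {f f' u : ℝ → ℝ} (hf : ∀ x, HasDerivAt f (f' x) x) (hf' : Continuous f')
    {C c B : ℝ} (hc : 0 < c) (hb : ∀ x, |f x| ≤ C * Real.exp (-c * |x|))
    (hb' : ∀ x, |f' x| ≤ C * Real.exp (-c * |x|)) (hu : Measurable u) (huB : ∀ x, |u x| ≤ B) (y : ℝ) :
    HasDerivAt (fun y => ∫ t, f (y - t) * u t) (∫ t, f' (y - t) * u t) y := by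
  have hB : 0 ≤ B := (abs_nonneg _).trans (huB 0)
  have hC : 0 ≤ C := by
    have h1 := (abs_nonneg _).trans (hb 0)
    have h2 := Real.exp_pos (-c * |(0 : ℝ)|)
    by_contra h3
    have h4 := mul_neg_of_neg_of_pos (not_le.1 h3) h2
    linarith
  have hfc : Continuous f := continuous_iff_continuousAt.2 fun x => (hf x).continuousAt
  have hint := conv_integrable hfc hc hb hu huB
  have hint' := conv_integrable hf' hc hb' hu huB
  refine (hasDerivAt_integral_of_dominated_loc_of_deriv_le
    (F := fun y t => f (y - t) * u t) (F' := fun y t => f' (y - t) * u t)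
    (bound := fun t => C * Real.exp c * B * Real.exp (-c * |y - t|))
    (Metric.ball_mem_nhds y one_pos) (Filter.Eventually.of_forall fun z =>
      (hint z).aestronglyMeasurable) (hint y) (hint' y).aestronglyMeasurable
    (Filter.Eventually.of_forall fun t z hz => ?_) ?_
    (Filter.Eventually.of_forall fun t z _ => ?_)).2
  · rw [Metric.mem_ball, Real.dist_eq] at hz
    have h1 : |y - t| ≤ |z - t| + 1 := by
      have h2 : y - t = (z - t) - (z - y) := by ring
      rw [h2]
      refine (abs_sub _ _).trans ?_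
      linarith
    have h3 : Real.exp (-c * |z - t|) ≤ Real.exp c * Real.exp (-c * |y - t|) := by
      rw [← Real.exp_add]
      refine Real.exp_le_exp.2 ?_
      nlinarith
    rw [norm_mul]
    calc ‖f' (z - t)‖ * ‖u t‖ ≤ (C * Real.exp (-c * |z - t|)) * B :=
          mul_le_mul (hb' _) (huB t) (norm_nonneg _) (by positivity)
      _ ≤ (C * (Real.exp c * Real.exp (-c * |y - t|))) * B := by gcongr
      _ = C * Real.exp c * B * Real.exp (-c * |y - t|) := by ring
  · exact ((integrable_exp_neg_abs hc).comp_sub_left y).const_mul _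
  · have h1 : HasDerivAt (fun z => z - t) 1 z := (hasDerivAt_id z).sub_const t
    have h2 := ((hf (z - t)).comp z h1).mul_const (u t)
    rw [mul_one] at h2
    exact h2

end Pool.Agent.CYL
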