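import Pool.Agent.CYL.C.EnDefs

/-!
# CYL, part C: elementary bounds for `R` and `z`

`R` is odd, increasing, `R' = rho`, `rho` even, positive, continuous: on `[0,1]`
`R x >= x min_[0,1] rho`, `R x <= x max rho`. `z = L R + w`, `|w| <= C`, `|dw| <= C`, `w 0 = 0`,
so `|w x| <= C min x 1` for `x >= 0`.
-/

open Filter Topology

namespace Pool.Agent.CYL

private theorem EnCot_mvt {f f' : ℝ → ℝ} {C : ℝ} (h : ∀ x, HasDerivAt f (f' x) x)
    (hb : ∀ x, |f' x| ≤ C) (h0 : f 0 = 0) (x : ℝ) : |f x| ≤ C * |x| := by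
  have h1 := Convex.norm_image_sub_le_of_norm_hasDerivWithin_le (f := f) (f' := f') (C := C)
    (s := Set.univ) (x := 0) (y := x) (fun y _ => (h y).hasDerivWithinAt)
    (fun y _ => by rw [Real.norm_eq_abs]; exact hb y) convex_univ (Set.mem_univ _) (Set.mem_univ _)
  simpa [h0] using h1

theorem R_lower : ∃ c : ℝ, 0 < c ∧ c ≤ 1 / 2 ∧ ∀ x : ℝ, 0 ≤ x → c * min x 1 ≤ R x := by
  obtain ⟨c₀, hc₀, h⟩ := rho_lower
  set c : ℝ := c₀ * Real.exp (-(8 / 3)) with hc
  have hcpos : 0 < c := by positivity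
  have hmono : MonotoneOn (fun y => R y - c * y) (Set.Icc 0 1) := by
    have hd : ∀ y : ℝ, HasDerivAt (fun y => R y - c * y) (rho y - c) y := fun y =>
      HasDerivAt.congr_deriv (f := fun y => R y - c * y)
        ((hasDerivAt_R y).sub ((hasDerivAt_id y).const_mul c)) (by ring)
    refine monotoneOn_of_deriv_nonneg (convex_Icc 0 1) ?_ ?_ ?_
    · exact fun y _ => (hd y).continuousAt.continuousWithinAt
    · exact fun y _ => (hd y).differentiableAt.differentiableWithinAt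
    · intro y hy
      rw [interior_Icc] at hy
      rw [(hd y).deriv]
      have h1 := h y
      have h2 : Real.exp (-(8 / 3)) ≤ Real.exp (-(8 / 3) * |y|) := by
        refine Real.exp_le_exp.2 ?_
        rw [abs_of_pos hy.1]
        linarith [hy.2]
      have h3 : c ≤ c₀ * Real.exp (-(8 / 3) * |y|) := mul_le_mul_of_nonneg_left h2 hc₀.le
      linarith
  have h01 : ∀ x : ℝ, 0 ≤ x → x ≤ 1 → c * x ≤ R x := by
    intro x hx hx1
    have h0 : R 0 = 0 := by
      have := R_neg 0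
      rw [neg_zero] at this
      linarith
    have := hmono (Set.left_mem_Icc.2 zero_le_one) ⟨hx, hx1⟩ hx
    simp only [h0] at this
    linarith
  refine ⟨c, hcpos, ?_, fun x hx => ?_⟩
  · have h1 := h01 1 zero_le_one le_rfl
    have h2 := (abs_lt.1 (abs_R_lt 1)).2
    linarith
  · rcases le_total x 1 with h1 | h1
    · rw [min_eq_left h1]
      exact h01 x hx h1
    · rw [min_eq_right h1]
      exact (h01 1 zero_le_one le_rfl).trans (R_strictMono.monotone h1)

theorem R_upper : ∃ C : ℝ, 0 < C ∧ ∀ x : ℝ, |R x| ≤ C * |x| := by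
  obtain ⟨C, hC, h⟩ := rho_bound 0
  refine ⟨C + 1, by linarith, fun x => ?_⟩
  refine EnCot_mvt hasDerivAt_R (fun y => ?_) ?_ x
  · have h1 := h y
    rw [iteratedDeriv_zero] at h1
    have h2 : Real.exp (-(8 / 3) * |y|) ≤ 1 := Real.exp_le_one_iff.2 (by
      have := abs_nonneg y
      linarith)
    have h3 := mul_le_mul_of_nonneg_left h2 hC
    linarith
  · have := R_neg 0
    rw [neg_zero] at this
    linarith

namespace Roots

theorem z_zero {l : ℕ} (r : Roots l) : r.z 0 = 0 := by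
  have := r.z_neg 0
  rw [neg_zero] at this
  linarith

theorem w_zero {l : ℕ} (r : Roots l) : r.w 0 = 0 := by
  have := r.w_neg 0
  rw [neg_zero] at this
  linarith

theorem abs_w_le_min (l : ℕ) : ∃ C, 0 ≤ C ∧ ∀ (r : Roots l) (x : ℝ), |r.w x| ≤ C * min |x| 1 := by
  obtain ⟨C, hC, h⟩ := w_bd l
  obtain ⟨D, hD, h'⟩ := dw_bd l
  refine ⟨C + D, by positivity, fun r x => ?_⟩
  have h1 := h r x
  have h2 := EnCot_mvt (r.hasDerivAt_w) (h' r) r.w_zero x
  have h3 := abs_nonneg x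
  rcases le_total |x| 1 with h4 | h4
  · rw [min_eq_left h4]
    nlinarith
  · rw [min_eq_right h4]
    linarith

/-- `z` is at most linear. -/
theorem abs_z_le {l : ℕ} (r : Roots l) : ∃ C, 0 ≤ C ∧ ∀ x : ℝ, |r.z x| ≤ C * |x| := by
  obtain ⟨C, hC, h⟩ := dz_upper l
  exact ⟨C * ((r.L : ℝ) + 1), by positivity, fun x => EnCot_mvt r.hasDerivAt_z (h r) r.z_zero x⟩

theorem z_lower (l : ℕ) : ∃ c, 0 < c ∧ ∀ᶠ r : Roots l in FL l, ∀ x, 0 ≤ x →
    c * (r.L : ℝ) * min x 1 ≤ r.z x := by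
  obtain ⟨c, hc, -, hR⟩ := R_lower
  obtain ⟨C, hC, hw⟩ := abs_w_le_min l
  refine ⟨c / 2, by positivity, ?_⟩
  filter_upwards [(tendsto_L l).eventually_ge_atTop (2 * C / c)] with r hr x hx
  have h1 : r.z x = (r.L : ℝ) * R x + r.w x := by unfold w; ring
  have h2 := hR x hx
  have h3 := (abs_le.1 (hw r x)).1
  rw [abs_of_nonneg hx] at h3
  have h4 : 0 ≤ min x 1 := le_min hx zero_le_one
  have h5 : C ≤ c / 2 * (r.L : ℝ) := by
    rw [div_le_iff₀ hc] at hr
    linarith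
  have h6 := mul_le_mul_of_nonneg_left h2 (Nat.cast_nonneg (α := ℝ) r.L)
  have h7 := mul_le_mul_of_nonneg_right h5 h4
  rw [h1]
  nlinarith

theorem z_upper (l : ℕ) : ∃ C, 0 ≤ C ∧ ∀ (r : Roots l) (x : ℝ), r.z x ≤ (r.L : ℝ) / 2 + C := by
  obtain ⟨C, hC, h⟩ := w_bd l
  refine ⟨C, hC, fun r x => ?_⟩
  have h1 : r.z x = (r.L : ℝ) * R x + r.w x := by unfold w; ring
  have h2 := (abs_le.1 (h r x)).2
  have h3 := (abs_lt.1 (abs_R_lt x)).2
  have h4 := mul_le_mul_of_nonneg_left h3.le (Nat.cast_nonneg (α := ℝ) r.L)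
  rw [h1]
  linarith

theorem eventually_good (l : ℕ) : ∀ᶠ r : Roots l in FL l, r.Good := by
  obtain ⟨c, hc, hz⟩ := z_lower l
  obtain ⟨C, hC, hu⟩ := z_upper l
  obtain ⟨c', hc', hd⟩ := dz_lower l 0
  filter_upwards [hz, hd, (tendsto_L l).eventually_ge_atTop 1,
    (tendsto_L l).eventually_gt_atTop (2 * C), (tendsto_L l).eventually_gt_atTop (l : ℝ)]
    with r h1 h2 h3 h4 h5
  have hL : (0:ℝ) < (r.L : ℝ) := by linarith
  refine ⟨by exact_mod_cast hL, fun x hx => ?_, fun x => ?_, ?_, ?_⟩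
  · have h6 := h1 x hx.le
    have h7 : 0 < min x 1 := lt_min hx one_pos
    have : 0 < c * (r.L : ℝ) * min x 1 := by positivity
    linarith
  · have := hu r x
    linarith
  · have h6 := h2 0 (by simp)
    have : 0 < c' * (r.L : ℝ) := by positivity
    linarith
  · have : (0:ℝ) ≤ (l : ℝ) := Nat.cast_nonneg _
    linarith

end Roots

end Pool.Agent.CYL
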