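import Pool.Agent.CYL.C.Sup

/-! # `w` and its derivatives: formulas and uniform bounds

PROOFS. `w = K * v` (`w_eq`), `|v| <= l/2 + 1` (`abs_v_le`), `conv_hasDerivAt` with `f = K`, `deriv K`
(`contDiff_K`, `K_bound 0, 1, 2, 3`) and `conv_bound`. `hasDerivAt_w` also follows from
`hasDerivAt_z`, `hasDerivAt_R`; uniqueness of derivatives gives `dw_eq`. -/

namespace Pool.Agent.CYL.Roots

open MeasureTheory Filter Topology

variable {l : ℕ} (r : Roots l)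

private theorem WBd_cont (n : ℕ) : Continuous (iteratedDeriv n K) :=
  contDiff_K.continuous_iteratedDeriv n (by exact_mod_cast le_top)

private theorem WBd_hd (n : ℕ) (x : ℝ) :
    HasDerivAt (iteratedDeriv n K) (iteratedDeriv (n + 1) K x) x := by
  rw [iteratedDeriv_succ]
  have h : Differentiable ℝ (iteratedDeriv n K) :=
    contDiff_K.differentiable_iteratedDeriv n (by exact_mod_cast ENat.natCast_lt_top n)
  exact (h x).hasDerivAt

private theorem WBd_conv (n : ℕ) (y : ℝ) :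
    HasDerivAt (fun y => ∫ t, iteratedDeriv n K (y - t) * r.v t)
      (∫ t, iteratedDeriv (n + 1) K (y - t) * r.v t) y := by
  obtain ⟨C, hC, h⟩ := K_bound n
  obtain ⟨C', hC', h'⟩ := K_bound (n + 1)
  refine conv_hasDerivAt (C := C + C') (c := 2) (B := (l : ℝ) / 2 + 1) (WBd_hd n) (WBd_cont (n + 1))
    two_pos (fun x => (h x).trans ?_) (fun x => (h' x).trans ?_) r.measurable_v r.abs_v_le y
  · exact mul_le_mul_of_nonneg_right (by linarith) (Real.exp_pos _).le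
  · exact mul_le_mul_of_nonneg_right (by linarith) (Real.exp_pos _).le

private theorem WBd_bd (l n : ℕ) : ∃ C, 0 ≤ C ∧ ∀ (r : Roots l) (y : ℝ),
    |∫ t, iteratedDeriv n K (y - t) * r.v t| ≤ C := by
  obtain ⟨C, hC, h⟩ := K_bound n
  refine ⟨2 * C / 2 * ((l : ℝ) / 2 + 1), by positivity, fun r y => ?_⟩
  exact conv_bound (WBd_cont n) two_pos h r.measurable_v r.abs_v_le y

/-- The derivative of `w`. -/
noncomputable def dw (y : ℝ) : ℝ := r.dz y - (r.L : ℝ) * rho y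

/-- The second derivative of `w`. -/
noncomputable def ddw (y : ℝ) : ℝ := ∫ t, deriv (deriv K) (y - t) * r.v t

theorem hasDerivAt_w (y : ℝ) : HasDerivAt r.w (r.dw y) y :=
  (r.hasDerivAt_z y).sub ((hasDerivAt_R y).const_mul _)

private theorem WBd_w : r.w = fun y => ∫ t, iteratedDeriv 0 K (y - t) * r.v t := by
  funext y
  rw [iteratedDeriv_zero]
  exact r.w_eq y

theorem dw_eq (y : ℝ) : r.dw y = ∫ t, deriv K (y - t) * r.v t := by
  have h1 := WBd_conv r 0 y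
  rw [← WBd_w, zero_add, iteratedDeriv_one] at h1
  exact (r.hasDerivAt_w y).unique h1

private theorem WBd_dw : r.dw = fun y => ∫ t, iteratedDeriv 1 K (y - t) * r.v t := by
  funext y
  rw [iteratedDeriv_one]
  exact r.dw_eq y

private theorem WBd_ddw : r.ddw = fun y => ∫ t, iteratedDeriv 2 K (y - t) * r.v t := by
  funext y
  have h : iteratedDeriv 2 K = deriv (deriv K) := by
    rw [iteratedDeriv_succ, iteratedDeriv_one]
  rw [h]
  rfl

theorem hasDerivAt_dw (y : ℝ) : HasDerivAt r.dw (r.ddw y) y := by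
  have h1 := WBd_conv r 1 y
  rw [← WBd_dw] at h1
  rw [WBd_ddw]
  exact h1

theorem continuous_w : Continuous r.w :=
  continuous_iff_continuousAt.2 fun y => (r.hasDerivAt_w y).continuousAt

theorem continuous_dw : Continuous r.dw :=
  continuous_iff_continuousAt.2 fun y => (r.hasDerivAt_dw y).continuousAt

theorem continuous_ddw : Continuous r.ddw := by
  rw [WBd_ddw]
  exact continuous_iff_continuousAt.2 fun y => (WBd_conv r 2 y).continuousAt

theorem dz_eq (y : ℝ) : r.dz y = (r.L : ℝ) * rho y + r.dw y := by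
  unfold dw
  ring

private theorem WBd_rho (y : ℝ) : HasDerivAt rho (deriv rho y) y := by
  have h : Differentiable ℝ rho := contDiff_rho.differentiable (by simp)
  exact (h y).hasDerivAt

theorem hasDerivAt_dz (y : ℝ) : HasDerivAt r.dz ((r.L : ℝ) * deriv rho y + r.ddw y) y := by
  have h1 : r.dz = fun y => (r.L : ℝ) * rho y + r.dw y := funext r.dz_eq
  rw [h1]
  exact ((WBd_rho y).const_mul _).add (r.hasDerivAt_dw y)

theorem w_bd (l : ℕ) : ∃ C, 0 ≤ C ∧ ∀ (r : Roots l) (y : ℝ), |r.w y| ≤ C := by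
  obtain ⟨C, hC, h⟩ := WBd_bd l 0
  refine ⟨C, hC, fun r y => ?_⟩
  rw [WBd_w]
  exact h r y

theorem dw_bd (l : ℕ) : ∃ C, 0 ≤ C ∧ ∀ (r : Roots l) (y : ℝ), |r.dw y| ≤ C := by
  obtain ⟨C, hC, h⟩ := WBd_bd l 1
  refine ⟨C, hC, fun r y => ?_⟩
  rw [WBd_dw]
  exact h r y

theorem ddw_bd (l : ℕ) : ∃ C, 0 ≤ C ∧ ∀ (r : Roots l) (y : ℝ), |r.ddw y| ≤ C := by
  obtain ⟨C, hC, h⟩ := WBd_bd l 2
  refine ⟨C, hC, fun r y => ?_⟩
  rw [WBd_ddw]
  exact h r y

theorem S_bd (l : ℕ) : ∃ C, 0 ≤ C ∧ ∀ (r : Roots l) (y : ℝ), |r.S y| ≤ C := by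
  obtain ⟨C, hC, h⟩ := w_bd l
  refine ⟨C + ((l : ℝ) / 2 + 1), by positivity, fun r y => ?_⟩
  rw [r.S_eq y]
  exact (abs_sub _ _).trans (add_le_add (h r y) (r.abs_v_le y))

theorem P_bd (l : ℕ) : ∃ C, 0 ≤ C ∧ ∀ (r : Roots l) (y : ℝ), |r.P y| ≤ C := by
  obtain ⟨C, hC, h⟩ := S_bd l
  refine ⟨C ^ 2 / 2 + 1 / 24, by positivity, fun r y => ?_⟩
  unfold P
  have h1 : r.S y ^ 2 ≤ C ^ 2 := by
    rw [← sq_abs (r.S y)]
    exact pow_le_pow_left₀ (abs_nonneg _) (h r y) 2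
  have h2 : 0 ≤ r.S y ^ 2 := sq_nonneg _
  rw [abs_le]
  constructor <;> linarith

theorem Q_bd (l : ℕ) : ∃ C, 0 ≤ C ∧ ∀ (r : Roots l) (y : ℝ), |r.Q y| ≤ C := by
  obtain ⟨C, hC, h⟩ := S_bd l
  refine ⟨C ^ 3 / 6 + C / 24, by positivity, fun r y => ?_⟩
  unfold Q
  refine (abs_sub _ _).trans ?_
  rw [abs_div, abs_div, abs_pow, abs_of_pos (by norm_num : (0 : ℝ) < 6),
    abs_of_pos (by norm_num : (0 : ℝ) < 24)]
  have h1 : |r.S y| ^ 3 ≤ C ^ 3 := pow_le_pow_left₀ (abs_nonneg _) (h r y) 3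
  have h2 := h r y
  linarith

/-- Lower bound of `dz` on compact intervals. -/
theorem dz_lower (l : ℕ) (b : ℝ) : ∃ c, 0 < c ∧ ∀ᶠ r : Roots l in FL l, ∀ y, |y| ≤ b →
    c * (r.L : ℝ) ≤ r.dz y := by
  obtain ⟨c₀, hc₀, h₀⟩ := rho_lower
  obtain ⟨C, hC, h⟩ := dw_bd l
  set c : ℝ := c₀ * Real.exp (-(8 / 3) * b) / 2 with hc
  have hcpos : 0 < c := by positivity
  refine ⟨c, hcpos, ?_⟩
  have h1 : ∀ᶠ r : Roots l in FL l, C / c ≤ (r.L : ℝ) := (tendsto_L l).eventually_ge_atTop _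
  filter_upwards [h1] with r hr y hy
  rw [r.dz_eq y]
  have h2 : 2 * c ≤ rho y := by
    refine le_trans ?_ (h₀ y)
    have h3 : Real.exp (-(8 / 3) * b) ≤ Real.exp (-(8 / 3) * |y|) :=
      Real.exp_le_exp.2 (by nlinarith)
    calc 2 * c = c₀ * Real.exp (-(8 / 3) * b) := by rw [hc]; ring
      _ ≤ c₀ * Real.exp (-(8 / 3) * |y|) := mul_le_mul_of_nonneg_left h3 hc₀.le
  have h4 : C ≤ c * (r.L : ℝ) := by
    rw [div_le_iff₀ hcpos] at hr
    linarith
  have h5 := (abs_le.1 (h r y)).1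
  have h6 : (r.L : ℝ) * (2 * c) ≤ (r.L : ℝ) * rho y :=
    mul_le_mul_of_nonneg_left h2 (Nat.cast_nonneg _)
  nlinarith

theorem dz_upper (l : ℕ) : ∃ C, 0 ≤ C ∧ ∀ (r : Roots l) (y : ℝ), |r.dz y| ≤ C * ((r.L : ℝ) + 1) := by
  obtain ⟨C, hC, h⟩ := dw_bd l
  obtain ⟨C₁, hC₁, h₁⟩ := rho_bound 0
  refine ⟨C + C₁, by positivity, fun r y => ?_⟩
  rw [r.dz_eq y]
  have h2 : |rho y| ≤ C₁ := by
    have h3 := h₁ y
    rw [iteratedDeriv_zero] at h3
    refine h3.trans (mul_le_of_le_one_right hC₁ ?_)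
    refine Real.exp_le_one_iff.2 ?_
    nlinarith [abs_nonneg y]
  have hL : (0 : ℝ) ≤ r.L := Nat.cast_nonneg _
  refine (abs_add_le _ _).trans ?_
  rw [abs_mul, abs_of_nonneg hL]
  have h4 := h r y
  nlinarith [mul_le_mul_of_nonneg_left h2 hL, mul_nonneg hC hL]

theorem ddz_upper (l : ℕ) : ∃ C, 0 ≤ C ∧ ∀ (r : Roots l) (y : ℝ),
    |(r.L : ℝ) * deriv rho y + r.ddw y| ≤ C * ((r.L : ℝ) + 1) := by
  obtain ⟨C, hC, h⟩ := ddw_bd l
  obtain ⟨C₁, hC₁, h₁⟩ := rho_bound 1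
  refine ⟨C + C₁, by positivity, fun r y => ?_⟩
  have h2 : |deriv rho y| ≤ C₁ := by
    have h3 := h₁ y
    rw [iteratedDeriv_one] at h3
    refine h3.trans (mul_le_of_le_one_right hC₁ ?_)
    refine Real.exp_le_one_iff.2 ?_
    nlinarith [abs_nonneg y]
  have hL : (0 : ℝ) ≤ r.L := Nat.cast_nonneg _
  refine (abs_add_le _ _).trans ?_
  rw [abs_mul, abs_of_nonneg hL]
  have h4 := h r y
  nlinarith [mul_le_mul_of_nonneg_left h2 hL, mul_nonneg hC hL]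

end Pool.Agent.CYL.Roots
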