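import Pool.Agent.CYL.C.Hf
import Pool.Agent.CYL.C.WBd

/-!
# CYL, part C: definitions of the energy side (owner: helper40)

`F_L(u) = log (2 sin (pi u / L))` regularises the logarithmic singularity of `eps` at 0:
`phi = eps + F_L(z)` is continuous, with derivative `dphi` off 0.

PLAN of the energy identity (fixed `r`, `Good r`; zi = L/2 - l/8, N0 = z - S):
`elog = L cE - INT eps dz + sum_j phi (x j) + sum_(extra) F_L` (EnFub, EnSin, EnPar),
`sum_j phi (x j) = m F_L(zi) - INT dphi N0` (EnSum), `INT deps z = - INT eps dz` (EnIBP),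
`INT (pi/L) ct dz z = 2 (zi F_L(zi) - INT_0^zi F_L)` (EnU), so
`elog = L cE + AL + INT dphi S` (EnId), and `L dphi = - sqrt 3 pi H (dz - dw) + Er`, `Er -> 0` in L^1 (EnE).
-/

namespace Pool.Agent.CYL

/-- Derivative of `eps` off 0 (value 0 at 0). -/
noncomputable def deps (x : ℝ) : ℝ :=
  -(Real.sqrt 3 * Real.pi * rho x * H x)
      - Real.pi * (Real.cos (Real.pi * R x) / Real.sin (Real.pi * R x)) * rho x

/-- `log |2 sin (pi u / L)|`. -/
noncomputable def Fs (L : ℕ) (u : ℝ) : ℝ := Real.log (2 * Real.sin (Real.pi * u / L))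

/-- The deterministic constant of the energy formula. -/
noncomputable def AL (l L : ℕ) : ℝ :=
  ∑ i : Fin l, Fs L (((L : ℝ) - l + 1) / 2 + i)
  - 3 * (l : ℝ) / 4 * Fs L ((L : ℝ) / 2 - (l : ℝ) / 8)
  + 2 * ∫ u in (0 : ℝ)..((L : ℝ) / 2 - (l : ℝ) / 8), Fs L u

namespace Roots

variable {l : ℕ} (r : Roots l)

/-- `cot (pi z / L)`. -/
noncomputable def ct (x : ℝ) : ℝ :=
  Real.cos (Real.pi * r.z x / r.L) / Real.sin (Real.pi * r.z x / r.L)

/-- Derivative of the regularised energy. -/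
noncomputable def dphi (x : ℝ) : ℝ := deps x + Real.pi / r.L * r.ct x * r.dz x

/-- Value of the regularised energy at 0. -/
noncomputable def phi0 : ℝ :=
  Real.log (2 * Real.pi * r.dz 0 / r.L * (3 * Real.sqrt 3 / 4))

/-- The regularised energy. -/
noncomputable def phi (x : ℝ) : ℝ := if x = 0 then r.phi0 else eps x + Fs r.L (r.z x)

/-- The remainder. -/
noncomputable def Er (x : ℝ) : ℝ :=
  Real.pi * r.dz x * r.ct x -
    Real.pi * (r.L * rho x) * (Real.cos (Real.pi * R x) / Real.sin (Real.pi * R x))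

/-- Solutions with `z` in `(0, L)` on the positive axis (true for large `L`). -/
structure Good : Prop where
  L_pos : 0 < r.L
  z_pos : ∀ x, 0 < x → 0 < r.z x
  z_lt : ∀ x, r.z x < r.L
  dz_pos : 0 < r.dz 0
  zi_pos : 0 < (r.L : ℝ) / 2 - (l : ℝ) / 8

theorem L_mul_dphi (hL : 0 < r.L) (x : ℝ) :
    (r.L : ℝ) * r.dphi x = -(Real.sqrt 3 * Real.pi * (H x * (r.dz x - r.dw x))) + r.Er x := by
  have hL' : (r.L : ℝ) ≠ 0 := by positivity
  unfold dphi deps Er dw
  field_simp
  ring

end Roots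

end Pool.Agent.CYL
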