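import Pool.Agent.CYL.C.EnDefs

/-!
# CYL, part C: `eps`, `e0`, `deps` at 0 and at infinity

With `c = cosh (8/3 x)`: `eps = (1/2) log ((c+1/2)(c+1)/((c-1)(c-1/2)))`.
At 0: `(cosh y - 1)/y^2 -> 1/2`, so `eps + log |x| -> (1/2) log ((3/2) 2/((32/9) (1/2)))
= (1/2) log (27/16) = log (3 sqrt 3/4)`; `e0 + log |x| -> (1/2) log (1/2)`.
`deps = -(sqrt 3 pi rho H) - pi cot(pi R) rho`, `cot (pi R) = sqrt 3/(2 sinh (8/3 x))`
(`tan (pi R) = 2 sinh (8/3 x)/sqrt 3`), `pi cot(pi R) rho = 1/x + O(x)` at 0 (`rho 0 = 16 sqrt 3/(9 pi)`).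
-/

open Filter Topology

namespace Pool.Agent.CYL

theorem cot_R {x : ℝ} (hx : x ≠ 0) :
    Real.cos (Real.pi * R x) / Real.sin (Real.pi * R x) =
      Real.sqrt 3 / (2 * Real.sinh (8 / 3 * x)) := by
  have hp := Real.pi_pos
  have h3 : 0 < Real.sqrt 3 := Real.sqrt_pos.mpr (by norm_num)
  have e : Real.pi * R x = Real.arctan (2 * Real.sinh (8 / 3 * x) / Real.sqrt 3) := by
    unfold R
    field_simp
  have hs : Real.sinh (8 / 3 * x) ≠ 0 := by
    rw [Ne, Real.sinh_eq_zero]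
    positivity
  rw [e, Real.cos_arctan, Real.sin_arctan]
  set z := 2 * Real.sinh (8 / 3 * x) / Real.sqrt 3 with hz
  have hr : 0 < Real.sqrt (1 + z ^ 2) := Real.sqrt_pos.mpr (by positivity)
  rw [div_div_div_cancel_right₀ hr.ne', hz, one_div_div]

theorem deps_neg (x : ℝ) : deps (-x) = - deps x := by
  unfold deps
  rw [rho_neg, H_neg, R_neg, mul_neg (Real.pi) (R x), Real.cos_neg, Real.sin_neg]
  ring

private lemma ee_tanh (x : ℝ) (hx : x ≠ 0) :
    Real.tanh (4 / 3 * x) = (Real.cosh (8 / 3 * x) - 1) / Real.sinh (8 / 3 * x) := by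
  have hc := Real.cosh_pos (4 / 3 * x)
  have hs : Real.sinh (4 / 3 * x) ≠ 0 := by
    rw [Ne, Real.sinh_eq_zero]
    positivity
  have h4 := Real.cosh_sq_sub_sinh_sq (4 / 3 * x)
  rw [show 8 / 3 * x = 2 * (4 / 3 * x) by ring, Real.cosh_two_mul, Real.sinh_two_mul,
    Real.tanh_eq_sinh_div_cosh, div_eq_div_iff hc.ne' (by positivity)]
  linear_combination (-(Real.cosh (4 / 3 * x))) * h4

private lemma ee_alg (c s q : ℝ) (hc1 : 1 < c) (hs : s ≠ 0) (h4 : c ^ 2 - s ^ 2 = 1)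
    (h3s : q ^ 2 = 3) (p : ℝ) (hp : 0 < p) :
    -(q * p * (q * (8 / 3) / p * c / (c ^ 2 + s ^ 2 + 1 / 2)) * ((s / c + (c - 1) / s) / 2)) -
      p * (q / (2 * s)) * (q * (8 / 3) / p * c / (c ^ 2 + s ^ 2 + 1 / 2)) =
    -(8 * (c ^ 2 + s ^ 2)) / (s * (2 * (c ^ 2 + s ^ 2) + 1)) := by
  have e1 : c ^ 2 + s ^ 2 + 1 / 2 = 2 * ((c - 1 / 2) * (c + 1 / 2)) := by linarith
  have e2 : 2 * (c ^ 2 + s ^ 2) + 1 = 4 * ((c - 1 / 2) * (c + 1 / 2)) := by linarith
  have a2 : c - 1 / 2 ≠ 0 := by linarith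
  have a3 : c + 1 / 2 ≠ 0 := by linarith
  have a5 : c ≠ 0 := by linarith
  rw [e1, e2]
  have : s / c + (c - 1) / s = (s ^ 2 + c * (c - 1)) / (c * s) := by
    rw [div_add_div _ _ a5 hs]; ring
  rw [this]
  have a6 : (c - 1 / 2) * (c + 1 / 2) ≠ 0 := mul_ne_zero a2 a3
  generalize (c - 1 / 2) * (c + 1 / 2) = D at *
  have h5 : -(q * p * (q * (8 / 3) / p * c / (2 * D)) * ((s ^ 2 + c * (c - 1)) / (c * s) / 2)) -
      p * (q / (2 * s)) * (q * (8 / 3) / p * c / (2 * D)) =
      -(q ^ 2 * (8 / 3) * (c ^ 2 + s ^ 2)) / (s * (4 * D)) := by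
    field_simp
    ring
  rw [h5, h3s]
  congr 2
  ring

/-- closed form of `deps` -/
theorem deps_closed {x : ℝ} (hx : x ≠ 0) :
    deps x = -(8 * Real.cosh (2 * (8 / 3 * x))) /
      (Real.sinh (8 / 3 * x) * (2 * Real.cosh (2 * (8 / 3 * x)) + 1)) := by
  have hp := Real.pi_pos
  have h3s : Real.sqrt 3 ^ 2 = 3 := Real.sq_sqrt (by norm_num)
  have hs : Real.sinh (8 / 3 * x) ≠ 0 := by
    rw [Ne, Real.sinh_eq_zero]
    positivity
  have hc1 : 1 < Real.cosh (8 / 3 * x) := by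
    rw [Real.one_lt_cosh]
    positivity
  unfold deps
  rw [cot_R hx]
  unfold H rho
  rw [ee_tanh x hx, Real.tanh_eq_sinh_div_cosh (8 / 3 * x),
    show 16 / 3 * x = 2 * (8 / 3 * x) by ring, Real.cosh_two_mul]
  exact ee_alg _ _ _ hc1 hs (Real.cosh_sq_sub_sinh_sq _) h3s _ hp

private lemma ee_slope (α : ℝ) : Tendsto (fun v : ℝ => v⁻¹ * Real.sinh (α * v)) (𝓝[≠] 0) (𝓝 α) := by
  have h : HasDerivAt (fun v : ℝ => Real.sinh (α * v)) α 0 := by
    have := ((hasDerivAt_id (0:ℝ)).const_mul α).sinh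
    simpa using this
  have := h.tendsto_slope_zero
  simpa using this

private lemma ee_ratio {α : ℝ} (hα : α ≠ 0) :
    Tendsto (fun x : ℝ => x ^ 2 / (Real.cosh (2 * (α * x)) - 1)) (𝓝[≠] 0) (𝓝 (1 / (2 * α ^ 2))) := by
  have h1 := (((ee_slope α).pow 2).const_mul 2).inv₀ (by positivity)
  rw [one_div]
  refine h1.congr' ?_
  filter_upwards [self_mem_nhdsWithin] with x hx
  have hx' : x ≠ 0 := hx
  have hs : Real.sinh (α * x) ≠ 0 := by
    rw [Ne, Real.sinh_eq_zero]
    exact mul_ne_zero hα hx'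
  have h4 := Real.cosh_sq_sub_sinh_sq (α * x)
  have e : Real.cosh (2 * (α * x)) - 1 = 2 * Real.sinh (α * x) ^ 2 := by
    rw [Real.cosh_two_mul]; linarith
  rw [e]
  field_simp

private lemma ee_log {Q : ℝ → ℝ} {q l : ℝ} (hq : 0 < q) (hQ : ∀ x : ℝ, x ≠ 0 → 0 < Q x)
    (h : Tendsto (fun x => Q x * x ^ 2) (𝓝[≠] 0) (𝓝 q)) (hl : Real.log q / 2 = l) :
    Tendsto (fun x => Real.log (Q x) / 2 + Real.log |x|) (𝓝[≠] 0) (𝓝 l) := by
  have h1 := ((Real.continuousAt_log hq.ne').tendsto.comp h).div_const 2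
  rw [hl] at h1
  refine h1.congr' ?_
  filter_upwards [self_mem_nhdsWithin] with x hx
  have hx' : x ≠ 0 := hx
  simp only [Function.comp_apply]
  rw [Real.log_mul (hQ x hx').ne' (by positivity), Real.log_pow, ← Real.log_abs x]
  push_cast
  ring

theorem tendsto_eps_zero :
    Tendsto (fun x => eps x + Real.log |x|) (𝓝[≠] 0) (𝓝 (Real.log (3 * Real.sqrt 3 / 4))) := by
  have hl : Real.log (27 / 16) / 2 = Real.log (3 * Real.sqrt 3 / 4) := by
    have h3s : Real.sqrt 3 ^ 2 = 3 := Real.sq_sqrt (by norm_num)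
    have : (27 / 16 : ℝ) = (3 * Real.sqrt 3 / 4) ^ 2 := by
      rw [div_pow, mul_pow, h3s]; norm_num
    rw [this, Real.log_pow]
    push_cast
    ring
  have hc : ∀ x : ℝ, x ≠ 0 → 1 < Real.cosh (8 / 3 * x) := by
    intro x hx
    rw [Real.one_lt_cosh]
    positivity
  refine ee_log (Q := fun x => (Real.cosh (8 / 3 * x) + 1 / 2) * (Real.cosh (8 / 3 * x) + 1) /
    ((Real.cosh (8 / 3 * x) - 1) * (Real.cosh (8 / 3 * x) - 1 / 2))) (by norm_num : (0:ℝ) < 27 / 16)
    (fun x hx => ?_) ?_ hl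
  · have := hc x hx
    exact div_pos (mul_pos (by linarith) (by linarith)) (mul_pos (by linarith) (by linarith))
  · have h1 := ee_ratio (α := 4 / 3) (by norm_num)
    have h2 : Tendsto (fun x : ℝ => Real.cosh (8 / 3 * x)) (𝓝[≠] 0) (𝓝 1) := by
      have : Continuous fun x : ℝ => Real.cosh (8 / 3 * x) := by fun_prop
      have h := (this.tendsto 0).mono_left (nhdsWithin_le_nhds (s := {0}ᶜ))
      simpa using h
    have h3 := (((h2.add_const (1 / 2)).mul (h2.add_const 1)).div (h2.sub_const (1 / 2))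
      (by norm_num)).mul h1
    have e : ((1:ℝ) + 1 / 2) * (1 + 1) / (1 - 1 / 2) * (1 / (2 * (4 / 3) ^ 2)) = 27 / 16 := by
      norm_num
    rw [e] at h3
    refine h3.congr' ?_
    filter_upwards [self_mem_nhdsWithin] with x hx
    have hx' : x ≠ 0 := hx
    have := hc x hx'
    have a1 : Real.cosh (8 / 3 * x) - 1 ≠ 0 := by linarith
    have a2 : Real.cosh (8 / 3 * x) - 1 / 2 ≠ 0 := by linarith
    simp only [Pi.div_apply]
    rw [show 2 * (4 / 3 * x) = 8 / 3 * x by ring]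
    field_simp

theorem tendsto_e0_zero :
    Tendsto (fun x => e0 x + Real.log |x|) (𝓝[≠] 0) (𝓝 (-(Real.log 2 / 2))) := by
  have hl : Real.log (1 / 2) / 2 = -(Real.log 2 / 2) := by
    rw [one_div, Real.log_inv]
    ring
  have hc : ∀ x : ℝ, x ≠ 0 → 1 < Real.cosh (2 * x) := by
    intro x hx
    rw [Real.one_lt_cosh]
    positivity
  refine ee_log (Q := fun x => Real.cosh (2 * x) / (Real.cosh (2 * x) - 1))
    (by norm_num : (0:ℝ) < 1 / 2) (fun x hx => ?_) ?_ hl
  · have := hc x hx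
    exact div_pos (by linarith) (by linarith)
  · have h1 := ee_ratio (α := 1) (by norm_num)
    have h2 : Tendsto (fun x : ℝ => Real.cosh (2 * x)) (𝓝[≠] 0) (𝓝 1) := by
      have : Continuous fun x : ℝ => Real.cosh (2 * x) := by fun_prop
      have h := (this.tendsto 0).mono_left (nhdsWithin_le_nhds (s := {0}ᶜ))
      simpa using h
    have h3 := h2.mul h1
    have e : (1:ℝ) * (1 / (2 * 1 ^ 2)) = 1 / 2 := by norm_num
    rw [e] at h3
    refine h3.congr' ?_
    filter_upwards [self_mem_nhdsWithin] with x hx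
    have hx' : x ≠ 0 := hx
    have := hc x hx'
    have a1 : Real.cosh (2 * x) - 1 ≠ 0 := by linarith
    rw [one_mul]
    field_simp

theorem tendsto_eps_atTop : Tendsto eps atTop (𝓝 0) := by
  have hc : Tendsto (fun x : ℝ => Real.cosh (8 / 3 * x)) atTop atTop := by
    have h0 : Tendsto (fun x : ℝ => Real.exp (8 / 3 * x) / 2) atTop atTop :=
      (Real.tendsto_exp_atTop.comp (tendsto_id.const_mul_atTop (by norm_num))).atTop_div_const
        two_pos
    refine tendsto_atTop_mono (fun x => ?_) h0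
    rw [Real.cosh_eq]
    have := Real.exp_pos (-(8 / 3 * x))
    linarith
  have hi := tendsto_inv_atTop_zero.comp hc
  have h1 : Tendsto (fun x : ℝ => (1 + 1 / 2 * (Real.cosh (8 / 3 * x))⁻¹) *
      (1 + (Real.cosh (8 / 3 * x))⁻¹) /
      ((1 - (Real.cosh (8 / 3 * x))⁻¹) * (1 - 1 / 2 * (Real.cosh (8 / 3 * x))⁻¹))) atTop (𝓝 1) := by
    have h2 := ((((hi.const_mul (1 / 2)).const_add 1).mul (hi.const_add 1)).div
      ((hi.const_sub 1).mul ((hi.const_mul (1 / 2)).const_sub 1)) (by norm_num))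
    have e : (1 + 1 / 2 * (0:ℝ)) * (1 + 0) / ((1 - 0) * (1 - 1 / 2 * 0)) = 1 := by norm_num
    rw [e] at h2
    exact h2
  have h3 := ((Real.continuousAt_log one_ne_zero).tendsto.comp h1).div_const 2
  rw [Real.log_one, zero_div] at h3
  refine h3.congr fun x => ?_
  have h4 := Real.cosh_pos (8 / 3 * x)
  unfold eps
  simp only [Function.comp_apply]
  congr 2
  have e1 : 1 + 1 / 2 * (Real.cosh (8 / 3 * x))⁻¹ = (Real.cosh (8 / 3 * x) + 1 / 2) /
      Real.cosh (8 / 3 * x) := by field_simp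
  have e2 : 1 + (Real.cosh (8 / 3 * x))⁻¹ = (Real.cosh (8 / 3 * x) + 1) /
      Real.cosh (8 / 3 * x) := by field_simp
  have e3 : 1 - (Real.cosh (8 / 3 * x))⁻¹ = (Real.cosh (8 / 3 * x) - 1) /
      Real.cosh (8 / 3 * x) := by field_simp
  have e4 : 1 - 1 / 2 * (Real.cosh (8 / 3 * x))⁻¹ = (Real.cosh (8 / 3 * x) - 1 / 2) /
      Real.cosh (8 / 3 * x) := by field_simp
  rw [e1, e2, e3, e4, div_mul_div_comm, div_mul_div_comm, div_div_div_cancel_right₀ (by positivity)]

theorem eps_zero : eps 0 = 0 := by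
  unfold eps
  simp

theorem e0_zero : e0 0 = 0 := by
  unfold e0
  simp

private lemma ee_g1 {y : ℝ} (hy : 0 ≤ y) : Real.sinh y ≤ y * Real.cosh y := by
  have hd : ∀ y : ℝ, HasDerivAt (fun y => y * Real.cosh y - Real.sinh y) (y * Real.sinh y) y := by
    intro y
    refine (((hasDerivAt_id y).mul (Real.hasDerivAt_cosh y)).sub
      (Real.hasDerivAt_sinh y)).congr_deriv ?_
    simp
  have hm : MonotoneOn (fun y => y * Real.cosh y - Real.sinh y) (Set.Ici 0) := by
    refine monotoneOn_of_deriv_nonneg (convex_Ici 0) ?_ ?_ ?_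
    · exact fun y _ => (hd y).continuousAt.continuousWithinAt
    · exact fun y _ => (hd y).differentiableAt.differentiableWithinAt
    · intro y hy
      rw [interior_Ici] at hy
      have hy' : 0 < y := hy
      rw [(hd y).deriv]
      have := Real.sinh_pos_iff.mpr hy'
      positivity
  have := hm (Set.mem_Ici.mpr le_rfl) (Set.mem_Ici.mpr hy) hy
  simp at this
  linarith

private lemma ee_g2 {y : ℝ} (hy : 0 ≤ y) : Real.cosh y - 1 ≤ y * Real.sinh y := by
  have hd : ∀ y : ℝ, HasDerivAt (fun y => y * Real.sinh y - Real.cosh y) (y * Real.cosh y) y := by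
    intro y
    refine (((hasDerivAt_id y).mul (Real.hasDerivAt_sinh y)).sub
      (Real.hasDerivAt_cosh y)).congr_deriv ?_
    simp
  have hm : MonotoneOn (fun y => y * Real.sinh y - Real.cosh y) (Set.Ici 0) := by
    refine monotoneOn_of_deriv_nonneg (convex_Ici 0) ?_ ?_ ?_
    · exact fun y _ => (hd y).continuousAt.continuousWithinAt
    · exact fun y _ => (hd y).differentiableAt.differentiableWithinAt
    · intro y hy
      rw [interior_Ici] at hy
      have hy' : 0 < y := hy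
      rw [(hd y).deriv]
      have := Real.cosh_pos y
      positivity
  have := hm (Set.mem_Ici.mpr le_rfl) (Set.mem_Ici.mpr hy) hy
  simp at this
  linarith

private lemma ee_near_pos {x : ℝ} (hx : 0 < x) : |deps x + 1 / x| ≤ 64 / 9 * x := by
  rw [deps_closed hx.ne']
  set y := 8 / 3 * x with hy
  have hy0 : 0 < y := by positivity
  have hs : 0 < Real.sinh y := Real.sinh_pos_iff.mpr hy0
  have hc := Real.cosh_pos y
  have h2 := Real.one_le_cosh (2 * y)
  have h4 := Real.cosh_sq_sub_sinh_sq y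
  have hsy : y ≤ Real.sinh y := Real.self_le_sinh_iff.mpr hy0.le
  have e : -(8 * Real.cosh (2 * y)) / (Real.sinh y * (2 * Real.cosh (2 * y) + 1)) + 1 / x =
      8 / 3 * ((Real.sinh y - y) / (y * Real.sinh y) -
        2 * Real.sinh y / (2 * Real.cosh (2 * y) + 1)) := by
    have e1 : Real.cosh (2 * y) = 1 + 2 * Real.sinh y ^ 2 := by
      rw [Real.cosh_two_mul]; linarith
    have e3 : 1 / x = 8 / 3 * (1 / y) := by
      rw [hy]; field_simp
    rw [e3, e1]
    have e4 : 2 * (1 + 2 * Real.sinh y ^ 2) + 1 ≠ 0 := by positivity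
    field_simp
    ring
  rw [e]
  have f1 : 0 ≤ (Real.sinh y - y) / (y * Real.sinh y) :=
    div_nonneg (by linarith) (by positivity)
  have f2 : (Real.sinh y - y) / (y * Real.sinh y) ≤ y := by
    -- sinh y ≤ y cosh y
    have g1 : Real.sinh y ≤ y * Real.cosh y := ee_g1 hy0.le
    have g2 : Real.cosh y - 1 ≤ y * Real.sinh y := ee_g2 hy0.le
    rw [div_le_iff₀ (by positivity)]
    nlinarith
  have f3 : 0 ≤ 2 * Real.sinh y / (2 * Real.cosh (2 * y) + 1) := by positivity
  have f4 : 2 * Real.sinh y / (2 * Real.cosh (2 * y) + 1) ≤ y := by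
    have g1 : Real.sinh y ≤ y * Real.cosh y := ee_g1 hy0.le
    have g3 : Real.cosh y ≤ Real.cosh (2 * y) := by
      rw [Real.cosh_le_cosh, abs_of_pos hy0, abs_of_pos (by positivity)]
      linarith
    rw [div_le_iff₀ (by positivity)]
    nlinarith
  rw [abs_le]
  have hyx : 64 / 9 * x = 8 / 3 * y := by rw [hy]; ring
  rw [hyx]
  constructor <;> linarith

/-- near 0 : `deps = -1/x + O(x)`. -/
theorem deps_near : ∃ C : ℝ, 0 < C ∧ ∀ x : ℝ, x ≠ 0 → |x| ≤ 1 → |deps x + 1 / x| ≤ C * |x| := by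
  refine ⟨64 / 9, by norm_num, fun x hx _ => ?_⟩
  rcases lt_or_gt_of_ne hx with h | h
  · have h1 := ee_near_pos (x := -x) (by linarith)
    rw [deps_neg] at h1
    rw [abs_of_neg h]
    have e : deps x + 1 / x = -(-deps x + 1 / -x) := by
      rw [one_div, one_div, inv_neg]; ring
    rw [e, abs_neg]
    exact h1
  · rw [abs_of_pos h]
    exact ee_near_pos h

private lemma ee_bd_pos {x : ℝ} (hx : 0 < x) : |x * deps x| ≤ 12 * Real.exp (-2 * x) := by
  rw [deps_closed hx.ne']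
  set y := 8 / 3 * x with hy
  have hy0 : 0 < y := by positivity
  have hs : 0 < Real.sinh y := Real.sinh_pos_iff.mpr hy0
  have h2 := Real.one_le_cosh (2 * y)
  -- sinh y ≥ y exp (3 y/4) / 8
  have hey : 0 < Real.exp y := Real.exp_pos y
  have k1 : y * Real.exp (3 / 4 * y) ≤ 8 * Real.sinh y := by
    have q1 : 1 + 2 * y ≤ Real.exp (2 * y) := by
      have := Real.add_one_le_exp (2 * y); linarith
    have q2 : 1 + 2 * y ≤ 8 * Real.exp (1 / 4 * y) := by
      have := Real.add_one_le_exp (1 / 4 * y); linarith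
    have q3 : Real.exp y = Real.exp (3 / 4 * y) * Real.exp (1 / 4 * y) := by
      rw [← Real.exp_add]; congr 1; ring
    have q4 : Real.exp (2 * y) * Real.exp (-y) = Real.exp y := by
      rw [← Real.exp_add]; congr 1; ring
    -- (1+2y) exp(-y) ≤ exp y, so (1 + 2 y) * 2 sinh y ≥ 2 y exp y
    have q5 : (1 + 2 * y) * Real.exp (-y) ≤ Real.exp y := by
      rw [← q4]
      exact mul_le_mul_of_nonneg_right q1 (Real.exp_pos _).le
    have q6 : y * Real.exp y ≤ (1 + 2 * y) * Real.sinh y := by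
      rw [Real.sinh_eq]
      nlinarith
    have q7 : (1 + 2 * y) * (y * Real.exp (3 / 4 * y)) ≤ (1 + 2 * y) * (8 * Real.sinh y) := by
      calc (1 + 2 * y) * (y * Real.exp (3 / 4 * y)) ≤
          (8 * Real.exp (1 / 4 * y)) * (y * Real.exp (3 / 4 * y)) :=
            mul_le_mul_of_nonneg_right q2 (by positivity)
        _ = 8 * (y * Real.exp y) := by rw [q3]; ring
        _ ≤ 8 * ((1 + 2 * y) * Real.sinh y) := by linarith
        _ = _ := by ring
    exact le_of_mul_le_mul_left q7 (by positivity)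
  have e : x * (-(8 * Real.cosh (2 * y)) / (Real.sinh y * (2 * Real.cosh (2 * y) + 1))) =
      -(8 * x * Real.cosh (2 * y) / (Real.sinh y * (2 * Real.cosh (2 * y) + 1))) := by ring
  rw [e, abs_neg, abs_of_nonneg (by positivity), div_le_iff₀ (by positivity)]
  have e2 : Real.exp (-2 * x) * Real.exp (3 / 4 * y) = 1 := by
    rw [← Real.exp_add, hy, show -2 * x + 3 / 4 * (8 / 3 * x) = 0 by ring, Real.exp_zero]
  have k2 : y ≤ 8 * Real.sinh y * Real.exp (-2 * x) := by
    calc y = y * (Real.exp (-2 * x) * Real.exp (3 / 4 * y)) := by rw [e2, mul_one]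
      _ = y * Real.exp (3 / 4 * y) * Real.exp (-2 * x) := by ring
      _ ≤ _ := mul_le_mul_of_nonneg_right k1 (Real.exp_pos _).le
  have hxy : 8 * x = 3 * y := by rw [hy]; ring
  rw [hxy]
  have h5 : 0 < Real.exp (-2 * x) := Real.exp_pos _
  have h6 : 0 < Real.sinh y * Real.exp (-2 * x) := by positivity
  nlinarith

/-- global bound. -/
theorem deps_bd : ∃ C : ℝ, 0 < C ∧ ∀ x : ℝ, |x * deps x| ≤ C * Real.exp (-2 * |x|) := by
  refine ⟨12, by norm_num, fun x => ?_⟩
  rcases lt_trichotomy x 0 with h | h | h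
  · have h1 := ee_bd_pos (x := -x) (by linarith)
    rw [deps_neg, neg_mul_neg] at h1
    rw [abs_of_neg h]
    exact h1
  · subst h
    simp
  · rw [abs_of_pos h]
    exact ee_bd_pos h

theorem continuousOn_deps : ContinuousOn deps {0}ᶜ := by
  have h : ContinuousOn (fun x => -(8 * Real.cosh (2 * (8 / 3 * x))) /
      (Real.sinh (8 / 3 * x) * (2 * Real.cosh (2 * (8 / 3 * x)) + 1))) {0}ᶜ := by
    refine ContinuousOn.div (by fun_prop) (by fun_prop) fun x hx => ?_
    have hx' : x ≠ 0 := hx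
    have hs : Real.sinh (8 / 3 * x) ≠ 0 := by
      rw [Ne, Real.sinh_eq_zero]
      positivity
    have := Real.cosh_pos (2 * (8 / 3 * x))
    exact mul_ne_zero hs (by positivity)
  exact h.congr fun x hx => deps_closed hx

end Pool.Agent.CYL
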