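import Pool.Agent.CYL.C.Defs

/-! # CYL, part C: cosine transform of the Poisson kernel of a strip

`pk a x = sin 2a / (π (cosh 2x - cos 2a))`. We prove
`∫ pk a x cos (ω x) dx * sinh (ω π / 2) = sinh (ω (π / 2 - a))` for `0 < a < π` and
`∫ pk a x dx = 1 - 2 a / π` for `0 < a < π / 2`. The proof is the ordinary differential equation
`h'' = ω ^ 2 h` in the variable `a` (the kernel is harmonic in `(x, a)`). -/

open MeasureTheory Filter Topology Set

namespace Pool.Agent.CYL.Ker

private lemma one_sub_cos_pos {a : ℝ} (h0 : 0 < a) (h1 : a < Real.pi) :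
    0 < 1 - Real.cos (2 * a) := by
  have hs : 0 < Real.sin a := Real.sin_pos_of_pos_of_lt_pi h0 h1
  have : Real.cos (2 * a) = 1 - 2 * Real.sin a ^ 2 := by
    rw [Real.cos_two_mul]
    have := Real.sin_sq_add_cos_sq a
    linarith
  rw [this]
  nlinarith [mul_pos hs hs]

private lemma cosh_ge (x : ℝ) : 1 + x ^ 2 ≤ Real.cosh (2 * x) := by
  have h1 : Real.cosh (2 * x) = 1 + 2 * Real.sinh x ^ 2 := by
    rw [Real.cosh_two_mul, Real.cosh_sq]
    ring
  have h2 : x ^ 2 ≤ Real.sinh x ^ 2 := by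
    rcases le_total 0 x with hx | hx
    · have := Real.self_le_sinh_iff.2 hx
      nlinarith
    · have := Real.sinh_le_self_iff.2 hx
      nlinarith
  rw [h1]
  nlinarith [sq_nonneg (Real.sinh x)]

private lemma den_pos {a : ℝ} (h0 : 0 < a) (h1 : a < Real.pi) (x : ℝ) :
    0 < Real.cosh (2 * x) - Real.cos (2 * a) := by
  have := one_sub_cos_pos h0 h1
  have := Real.one_le_cosh (2 * x)
  linarith

private lemma dom {a : ℝ} (h0 : 0 < a) (h1 : a < Real.pi) :
    ∃ c : ℝ, 0 < c ∧ c ≤ 1 ∧ ∀ᶠ b in 𝓝 a, (0 < b ∧ b < Real.pi) ∧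
      ∀ x : ℝ, c * Real.cosh (2 * x) ≤ Real.cosh (2 * x) - Real.cos (2 * b) := by
  have hp := one_sub_cos_pos h0 h1
  have hc1 : -1 ≤ Real.cos (2 * a) := Real.neg_one_le_cos _
  refine ⟨(1 - Real.cos (2 * a)) / 2, by linarith, by linarith, ?_⟩
  have hcont : ContinuousAt (fun b : ℝ => 1 - Real.cos (2 * b)) a := by fun_prop
  have h3 : ∀ᶠ b in 𝓝 a, (1 - Real.cos (2 * a)) / 2 < 1 - Real.cos (2 * b) :=
    hcont.eventually_const_lt (by linarith)
  filter_upwards [h3, Ioo_mem_nhds h0 h1] with b hb hb'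
  refine ⟨hb', fun x => ?_⟩
  have h4 := Real.one_le_cosh (2 * x)
  have h5 : 0 ≤ 1 - (1 - Real.cos (2 * a)) / 2 := by linarith
  nlinarith [mul_nonneg h5 (by linarith : (0:ℝ) ≤ Real.cosh (2 * x) - 1)]

private noncomputable def P (a x : ℝ) : ℝ :=
  Real.sin (2 * a) / (Real.cosh (2 * x) - Real.cos (2 * a))

private noncomputable def R (a x : ℝ) : ℝ :=
  2 * (Real.cos (2 * a) * Real.cosh (2 * x) - 1) / (Real.cosh (2 * x) - Real.cos (2 * a)) ^ 2

private noncomputable def R2 (a x : ℝ) : ℝ :=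
  Real.sin (2 * a) * (8 - 4 * Real.cosh (2 * x) ^ 2 - 4 * Real.cosh (2 * x) * Real.cos (2 * a)) /
    (Real.cosh (2 * x) - Real.cos (2 * a)) ^ 3

private noncomputable def Px (a x : ℝ) : ℝ :=
  -2 * Real.sin (2 * a) * Real.sinh (2 * x) / (Real.cosh (2 * x) - Real.cos (2 * a)) ^ 2

private lemma hasDeriv_P_a {a : ℝ} (h0 : 0 < a) (h1 : a < Real.pi) (x : ℝ) :
    HasDerivAt (fun b => P b x) (R a x) a := by
  have hD := (den_pos h0 h1 x).ne'
  have hs : HasDerivAt (fun b : ℝ => Real.sin (2 * b)) (Real.cos (2 * a) * 2) a := by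
    simpa using ((hasDerivAt_id a).const_mul 2).sin
  have hc : HasDerivAt (fun b : ℝ => Real.cosh (2 * x) - Real.cos (2 * b))
      (Real.sin (2 * a) * 2) a := by
    have := (((hasDerivAt_id a).const_mul 2).cos).const_sub (Real.cosh (2 * x))
    simpa using this
  have := hs.div hc hD
  refine this.congr_deriv ?_
  unfold R
  have h2 := Real.sin_sq_add_cos_sq (2 * a)
  rw [div_eq_div_iff (pow_ne_zero 2 hD) (pow_ne_zero 2 hD)]
  have : Real.sin (2 * a) ^ 2 = 1 - Real.cos (2 * a) ^ 2 := by linarith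
  ring_nf
  rw [show (2:ℝ) * a = a * 2 by ring] at this
  rw [this]
  ring

private lemma hasDeriv_R_a {a : ℝ} (h0 : 0 < a) (h1 : a < Real.pi) (x : ℝ) :
    HasDerivAt (fun b => R b x) (R2 a x) a := by
  have hD := (den_pos h0 h1 x).ne'
  have hn : HasDerivAt (fun b : ℝ => 2 * (Real.cos (2 * b) * Real.cosh (2 * x) - 1))
      (2 * (-(Real.sin (2 * a) * 2) * Real.cosh (2 * x))) a := by
    have := ((((hasDerivAt_id a).const_mul 2).cos.mul_const (Real.cosh (2 * x))).sub_const
      1).const_mul 2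
    simpa using this
  have hc : HasDerivAt (fun b : ℝ => Real.cosh (2 * x) - Real.cos (2 * b))
      (Real.sin (2 * a) * 2) a := by
    have := (((hasDerivAt_id a).const_mul 2).cos).const_sub (Real.cosh (2 * x))
    simpa using this
  have := hn.div (hc.pow 2) (pow_ne_zero 2 hD)
  refine this.congr_deriv ?_
  unfold R2
  simp only [Pi.pow_apply]
  rw [div_eq_div_iff (pow_ne_zero 2 (pow_ne_zero 2 hD)) (pow_ne_zero 3 hD)]
  ring

private lemma hasDeriv_P_x {a : ℝ} (h0 : 0 < a) (h1 : a < Real.pi) (x : ℝ) :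
    HasDerivAt (fun y => P a y) (Px a x) x := by
  have hD := (den_pos h0 h1 x).ne'
  have hc : HasDerivAt (fun y : ℝ => Real.cosh (2 * y) - Real.cos (2 * a))
      (Real.sinh (2 * x) * 2) x := by
    have := (((hasDerivAt_id x).const_mul 2).cosh).sub_const (Real.cos (2 * a))
    simpa using this
  have := (hasDerivAt_const x (Real.sin (2 * a))).div hc hD
  refine this.congr_deriv ?_
  unfold Px
  rw [div_eq_div_iff (pow_ne_zero 2 hD) (pow_ne_zero 2 hD)]
  ring

private lemma hasDeriv_Px_x {a : ℝ} (h0 : 0 < a) (h1 : a < Real.pi) (x : ℝ) :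
    HasDerivAt (fun y => Px a y) (-R2 a x) x := by
  have hD := (den_pos h0 h1 x).ne'
  have hc : HasDerivAt (fun y : ℝ => Real.cosh (2 * y) - Real.cos (2 * a))
      (Real.sinh (2 * x) * 2) x := by
    have := (((hasDerivAt_id x).const_mul 2).cosh).sub_const (Real.cos (2 * a))
    simpa using this
  have hn : HasDerivAt (fun y : ℝ => -2 * Real.sin (2 * a) * Real.sinh (2 * y))
      (-2 * Real.sin (2 * a) * (Real.cosh (2 * x) * 2)) x := by
    have := (((hasDerivAt_id x).const_mul 2).sinh).const_mul (-2 * Real.sin (2 * a))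
    simpa using this
  have := hn.div (hc.pow 2) (pow_ne_zero 2 hD)
  refine this.congr_deriv ?_
  unfold R2
  simp only [Pi.pow_apply]
  have h2 := Real.cosh_sq (2 * x)
  have h3 : Real.sinh (2 * x) ^ 2 = Real.cosh (2 * x) ^ 2 - 1 := by linarith
  rw [← neg_div, div_eq_div_iff (pow_ne_zero 2 (pow_ne_zero 2 hD)) (pow_ne_zero 3 hD)]
  generalize Real.cosh (2 * x) = C at *
  generalize Real.sinh (2 * x) = S at *
  generalize Real.cos (2 * a) = c at *
  generalize Real.sin (2 * a) = s at *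
  have : S ^ 2 = C ^ 2 - 1 := h3
  linear_combination (-8 * s * (C - c) ^ 4) * this * (-1)

private lemma int_bd {f : ℝ → ℝ} (hf : Continuous f) {K : ℝ}
    (hK : ∀ x, |f x| ≤ K / Real.cosh (2 * x)) : Integrable f := by
  have hK0 : 0 ≤ K := by
    have := (abs_nonneg _).trans (hK 0)
    simpa using this
  refine (integrable_inv_one_add_sq.const_mul K).mono' hf.aestronglyMeasurable ?_
  refine ae_of_all _ fun x => ?_
  rw [Real.norm_eq_abs]
  refine (hK x).trans ?_
  rw [div_eq_mul_inv]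
  have h1 := cosh_ge x
  have : (0:ℝ) < 1 + x ^ 2 := by positivity
  exact mul_le_mul_of_nonneg_left (inv_anti₀ this h1) hK0

private lemma cont_den {a : ℝ} :
    Continuous fun x : ℝ => Real.cosh (2 * x) - Real.cos (2 * a) := by
  have := Real.continuous_cosh
  fun_prop

private lemma cont_P {a : ℝ} (h0 : 0 < a) (h1 : a < Real.pi) : Continuous (P a) :=
  continuous_const.div cont_den fun x => (den_pos h0 h1 x).ne'

private lemma cont_R {a : ℝ} (h0 : 0 < a) (h1 : a < Real.pi) : Continuous (R a) := by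
  have := Real.continuous_cosh
  refine Continuous.div (by fun_prop) (cont_den.pow 2) fun x => pow_ne_zero 2 (den_pos h0 h1 x).ne'

private lemma cont_R2 {a : ℝ} (h0 : 0 < a) (h1 : a < Real.pi) : Continuous (R2 a) := by
  have := Real.continuous_cosh
  refine Continuous.div (by fun_prop) (cont_den.pow 3) fun x => pow_ne_zero 3 (den_pos h0 h1 x).ne'

private lemma cont_Px {a : ℝ} (h0 : 0 < a) (h1 : a < Real.pi) : Continuous (Px a) := by
  have := Real.continuous_sinh
  refine Continuous.div (by fun_prop) (cont_den.pow 2) fun x => pow_ne_zero 2 (den_pos h0 h1 x).ne'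

private lemma bd_P {a c : ℝ} (hc : 0 < c) (x : ℝ)
    (h : c * Real.cosh (2 * x) ≤ Real.cosh (2 * x) - Real.cos (2 * a)) :
    |P a x| ≤ (1 / c) / Real.cosh (2 * x) := by
  have hC : 0 < Real.cosh (2 * x) := Real.cosh_pos _
  have hD : 0 < Real.cosh (2 * x) - Real.cos (2 * a) := lt_of_lt_of_le (by positivity) h
  unfold P
  rw [abs_div, abs_of_pos hD, div_div]
  exact div_le_div₀ zero_le_one (Real.abs_sin_le_one _) (by positivity) h

private lemma bd_R {a c : ℝ} (hc : 0 < c) (x : ℝ)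
    (h : c * Real.cosh (2 * x) ≤ Real.cosh (2 * x) - Real.cos (2 * a)) :
    |R a x| ≤ (4 / c ^ 2) / Real.cosh (2 * x) := by
  have hC : 1 ≤ Real.cosh (2 * x) := Real.one_le_cosh _
  have hD : 0 < Real.cosh (2 * x) - Real.cos (2 * a) := lt_of_lt_of_le (by positivity) h
  have h5 := Real.neg_one_le_cos (2 * a)
  have h6 := Real.cos_le_one (2 * a)
  unfold R
  rw [abs_div, abs_of_pos (pow_pos hD 2), div_div]
  have hnum : |2 * (Real.cos (2 * a) * Real.cosh (2 * x) - 1)| ≤ 4 * Real.cosh (2 * x) := by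
    rw [abs_le]
    constructor <;> nlinarith
  calc |2 * (Real.cos (2 * a) * Real.cosh (2 * x) - 1)| /
        (Real.cosh (2 * x) - Real.cos (2 * a)) ^ 2
      ≤ 4 * Real.cosh (2 * x) / (c * Real.cosh (2 * x)) ^ 2 := by
        refine div_le_div₀ (by positivity) hnum (by positivity) ?_
        exact pow_le_pow_left₀ (by positivity) h 2
    _ = 4 / (c ^ 2 * Real.cosh (2 * x)) := by
        field_simp

private lemma bd_Px {a c : ℝ} (hc : 0 < c) (x : ℝ)
    (h : c * Real.cosh (2 * x) ≤ Real.cosh (2 * x) - Real.cos (2 * a)) :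
    |Px a x| ≤ (2 / c ^ 2) / Real.cosh (2 * x) := by
  have hC : 1 ≤ Real.cosh (2 * x) := Real.one_le_cosh _
  have hD : 0 < Real.cosh (2 * x) - Real.cos (2 * a) := lt_of_lt_of_le (by positivity) h
  unfold Px
  rw [abs_div, abs_of_pos (pow_pos hD 2), div_div]
  have hsc : |Real.sinh (2 * x)| ≤ Real.cosh (2 * x) := by
    rw [abs_le]
    have h1 := Real.cosh_sq (2 * x)
    constructor
    · have := Real.cosh_add_sinh (2 * x)
      have := Real.exp_pos (2 * x)
      linarith
    · have := Real.cosh_sub_sinh (2 * x)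
      have := Real.exp_pos (-(2 * x))
      linarith
  have hnum : |-2 * Real.sin (2 * a) * Real.sinh (2 * x)| ≤ 2 * Real.cosh (2 * x) := by
    rw [abs_mul, abs_mul]
    have h1 := Real.abs_sin_le_one (2 * a)
    have h2 : |(-2:ℝ)| = 2 := by norm_num
    rw [h2]
    calc 2 * |Real.sin (2 * a)| * |Real.sinh (2 * x)| ≤ 2 * 1 * Real.cosh (2 * x) := by
          gcongr
      _ = 2 * Real.cosh (2 * x) := by ring
  calc |-2 * Real.sin (2 * a) * Real.sinh (2 * x)| /
        (Real.cosh (2 * x) - Real.cos (2 * a)) ^ 2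
      ≤ 2 * Real.cosh (2 * x) / (c * Real.cosh (2 * x)) ^ 2 := by
        refine div_le_div₀ (by positivity) hnum (by positivity) ?_
        exact pow_le_pow_left₀ (by positivity) h 2
    _ = 2 / (c ^ 2 * Real.cosh (2 * x)) := by
        field_simp

private lemma bd_R2 {a c : ℝ} (hc : 0 < c) (x : ℝ)
    (h : c * Real.cosh (2 * x) ≤ Real.cosh (2 * x) - Real.cos (2 * a)) :
    |R2 a x| ≤ (16 / c ^ 3) / Real.cosh (2 * x) := by
  have hC : 1 ≤ Real.cosh (2 * x) := Real.one_le_cosh _
  have hD : 0 < Real.cosh (2 * x) - Real.cos (2 * a) := lt_of_lt_of_le (by positivity) h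
  have h5 := Real.neg_one_le_cos (2 * a)
  have h6 := Real.cos_le_one (2 * a)
  unfold R2
  rw [abs_div, abs_of_pos (pow_pos hD 3), div_div]
  have hin : |8 - 4 * Real.cosh (2 * x) ^ 2 - 4 * Real.cosh (2 * x) * Real.cos (2 * a)| ≤
      16 * Real.cosh (2 * x) ^ 2 := by
    rw [abs_le]
    constructor <;> nlinarith
  have hnum : |Real.sin (2 * a) * (8 - 4 * Real.cosh (2 * x) ^ 2 -
      4 * Real.cosh (2 * x) * Real.cos (2 * a))| ≤ 16 * Real.cosh (2 * x) ^ 2 := by
    rw [abs_mul]
    have h1 := Real.abs_sin_le_one (2 * a)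
    calc |Real.sin (2 * a)| * |8 - 4 * Real.cosh (2 * x) ^ 2 -
          4 * Real.cosh (2 * x) * Real.cos (2 * a)| ≤ 1 * (16 * Real.cosh (2 * x) ^ 2) := by
          gcongr
      _ = 16 * Real.cosh (2 * x) ^ 2 := by ring
  calc |Real.sin (2 * a) * (8 - 4 * Real.cosh (2 * x) ^ 2 -
          4 * Real.cosh (2 * x) * Real.cos (2 * a))| /
        (Real.cosh (2 * x) - Real.cos (2 * a)) ^ 3
      ≤ 16 * Real.cosh (2 * x) ^ 2 / (c * Real.cosh (2 * x)) ^ 3 := by
        refine div_le_div₀ (by positivity) hnum (by positivity) ?_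
        exact pow_le_pow_left₀ (by positivity) h 3
    _ = 16 / (c ^ 3 * Real.cosh (2 * x)) := by
        field_simp

private lemma dom0 {a : ℝ} (h0 : 0 < a) (h1 : a < Real.pi) :
    ∃ c : ℝ, 0 < c ∧ ∀ x : ℝ, c * Real.cosh (2 * x) ≤ Real.cosh (2 * x) - Real.cos (2 * a) := by
  obtain ⟨c, hc, -, h⟩ := dom h0 h1
  exact ⟨c, hc, h.self_of_nhds.2⟩

private lemma int_cos {f : ℝ → ℝ} (hf : Integrable f) (w : ℝ) :
    Integrable fun x => f x * Real.cos (w * x) := by
  refine hf.mul_bdd (c := 1) (by fun_prop) ?_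
  exact ae_of_all _ fun x => by
    rw [Real.norm_eq_abs]; exact Real.abs_cos_le_one _

private lemma int_sin {f : ℝ → ℝ} (hf : Integrable f) (w : ℝ) :
    Integrable fun x => f x * Real.sin (w * x) := by
  refine hf.mul_bdd (c := 1) (by fun_prop) ?_
  exact ae_of_all _ fun x => by
    rw [Real.norm_eq_abs]; exact Real.abs_sin_le_one _

private lemma int_P {a : ℝ} (h0 : 0 < a) (h1 : a < Real.pi) : Integrable (P a) := by
  obtain ⟨c, hc, h⟩ := dom0 h0 h1
  exact int_bd (cont_P h0 h1) fun x => bd_P hc x (h x)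

private lemma int_Px {a : ℝ} (h0 : 0 < a) (h1 : a < Real.pi) : Integrable (Px a) := by
  obtain ⟨c, hc, h⟩ := dom0 h0 h1
  exact int_bd (cont_Px h0 h1) fun x => bd_Px hc x (h x)

private lemma int_R {a : ℝ} (h0 : 0 < a) (h1 : a < Real.pi) : Integrable (R a) := by
  obtain ⟨c, hc, h⟩ := dom0 h0 h1
  exact int_bd (cont_R h0 h1) fun x => bd_R hc x (h x)

private lemma int_R2 {a : ℝ} (h0 : 0 < a) (h1 : a < Real.pi) : Integrable (R2 a) := by
  obtain ⟨c, hc, h⟩ := dom0 h0 h1
  exact int_bd (cont_R2 h0 h1) fun x => bd_R2 hc x (h x)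

private noncomputable def h (w a : ℝ) : ℝ := ∫ x, P a x * Real.cos (w * x)
private noncomputable def h1 (w a : ℝ) : ℝ := ∫ x, R a x * Real.cos (w * x)
private noncomputable def h2 (w a : ℝ) : ℝ := ∫ x, R2 a x * Real.cos (w * x)

private lemma der_gen {F G : ℝ → ℝ → ℝ} (w : ℝ) {a : ℝ} {k : ℝ} {p : ℕ} {c : ℝ}
    (hev : ∀ᶠ b in 𝓝 a, (0 < b ∧ b < Real.pi) ∧
      ∀ x : ℝ, c * Real.cosh (2 * x) ≤ Real.cosh (2 * x) - Real.cos (2 * b))
    (hFi : ∀ b, 0 < b → b < Real.pi → Integrable (F b))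
    (hGi : ∀ b, 0 < b → b < Real.pi → Integrable (G b))
    (hd : ∀ b, 0 < b → b < Real.pi → ∀ x, HasDerivAt (fun t => F t x) (G b x) b)
    (hbd : ∀ b, 0 < b → b < Real.pi →
      (∀ x : ℝ, c * Real.cosh (2 * x) ≤ Real.cosh (2 * x) - Real.cos (2 * b)) →
      ∀ x, |G b x| ≤ (k / c ^ p) / Real.cosh (2 * x)) (hkc : 0 ≤ k / c ^ p) :
    HasDerivAt (fun b => ∫ x, F b x * Real.cos (w * x))
      (∫ x, G a x * Real.cos (w * x)) a := by
  obtain ⟨s, hs, hs2⟩ := hev.exists_mem
  have ha := (hs2 a (mem_of_mem_nhds hs)).1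
  refine (hasDerivAt_integral_of_dominated_loc_of_deriv_le (μ := volume)
    (F := fun b x => F b x * Real.cos (w * x)) (F' := fun b x => G b x * Real.cos (w * x))
    (bound := fun x => (k / c ^ p) * (1 + x ^ 2)⁻¹) (s := s) hs ?_ ?_ ?_ ?_ ?_ ?_).2
  · filter_upwards [hev] with b hb
    exact (int_cos (hFi b hb.1.1 hb.1.2) w).aestronglyMeasurable
  · exact int_cos (hFi a ha.1 ha.2) w
  · exact (int_cos (hGi a ha.1 ha.2) w).aestronglyMeasurable
  · refine ae_of_all _ fun x b hb => ?_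
    have hb' := hs2 b hb
    rw [Real.norm_eq_abs, abs_mul]
    have h3 := hbd b hb'.1.1 hb'.1.2 hb'.2 x
    have h4 : (k / c ^ p) / Real.cosh (2 * x) ≤ (k / c ^ p) * (1 + x ^ 2)⁻¹ := by
      rw [div_eq_mul_inv (k / c ^ p)]
      have : (0:ℝ) < 1 + x ^ 2 := by positivity
      exact mul_le_mul_of_nonneg_left (inv_anti₀ this (cosh_ge x)) hkc
    calc |G b x| * |Real.cos (w * x)| ≤ |G b x| * 1 := by
          exact mul_le_mul_of_nonneg_left (Real.abs_cos_le_one _) (abs_nonneg _)
      _ ≤ _ := by rw [mul_one]; exact h3.trans h4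
  · exact integrable_inv_one_add_sq.const_mul _
  · refine ae_of_all _ fun x b hb => ?_
    have hb' := hs2 b hb
    exact (hd b hb'.1.1 hb'.1.2 x).mul_const _

private lemma der_h (w : ℝ) {a : ℝ} (ha : 0 < a) (ha' : a < Real.pi) :
    HasDerivAt (h w) (h1 w a) a := by
  obtain ⟨c, hc, -, hev⟩ := dom ha ha'
  exact der_gen (k := 4) (p := 2) (c := c) w hev (fun b hb hb' => int_P hb hb')
    (fun b hb hb' => int_R hb hb') (fun b hb hb' x => hasDeriv_P_a hb hb' x)
    (fun b _ _ hh x => bd_R hc x (hh x)) (by positivity)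

private lemma der_h1 (w : ℝ) {a : ℝ} (ha : 0 < a) (ha' : a < Real.pi) :
    HasDerivAt (h1 w) (h2 w a) a := by
  obtain ⟨c, hc, -, hev⟩ := dom ha ha'
  exact der_gen (k := 16) (p := 3) (c := c) w hev (fun b hb hb' => int_R hb hb')
    (fun b hb hb' => int_R2 hb hb') (fun b hb hb' x => hasDeriv_R_a hb hb' x)
    (fun b _ _ hh x => bd_R2 hc x (hh x)) (by positivity)

private lemma h2_eq (w : ℝ) {a : ℝ} (ha : 0 < a) (ha' : a < Real.pi) :
    h2 w a = w ^ 2 * h w a := by
  have hcos : ∀ x : ℝ, HasDerivAt (fun y => Real.cos (w * y)) (-(w * Real.sin (w * x))) x := by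
    intro x
    have := ((hasDerivAt_id x).const_mul w).cos
    refine this.congr_deriv ?_
    simp
    ring
  have hsin : ∀ x : ℝ, HasDerivAt (fun y => Real.sin (w * y)) (w * Real.cos (w * x)) x := by
    intro x
    have := ((hasDerivAt_id x).const_mul w).sin
    refine this.congr_deriv ?_
    simp
    ring
  have e1 : ∫ x, Real.cos (w * x) * (-R2 a x) =
      - ∫ x, (-(w * Real.sin (w * x))) * Px a x := by
    refine integral_mul_deriv_eq_deriv_mul_of_integrable (fun x _ => hcos x)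
      (fun x _ => hasDeriv_Px_x ha ha' x) ?_ ?_ ?_
    · have := (int_cos (int_R2 ha ha') w).neg
      refine this.congr (ae_of_all _ fun x => ?_)
      simp only [Pi.neg_apply, Pi.mul_apply]
      ring
    · have := ((int_sin (int_Px ha ha') w).const_mul w).neg
      refine this.congr (ae_of_all _ fun x => ?_)
      simp only [Pi.neg_apply, Pi.mul_apply]
      ring
    · have := (int_cos (int_Px ha ha') w)
      refine this.congr (ae_of_all _ fun x => ?_)
      simp only [Pi.mul_apply]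
      ring
  have e2 : ∫ x, Real.sin (w * x) * Px a x =
      - ∫ x, (w * Real.cos (w * x)) * P a x := by
    refine integral_mul_deriv_eq_deriv_mul_of_integrable (fun x _ => hsin x)
      (fun x _ => hasDeriv_P_x ha ha' x) ?_ ?_ ?_
    · have := (int_sin (int_Px ha ha') w)
      refine this.congr (ae_of_all _ fun x => ?_)
      simp only [Pi.mul_apply]
      ring
    · have := ((int_cos (int_P ha ha') w).const_mul w)
      refine this.congr (ae_of_all _ fun x => ?_)
      simp only [Pi.mul_apply]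
      ring
    · have := (int_sin (int_P ha ha') w)
      refine this.congr (ae_of_all _ fun x => ?_)
      simp only [Pi.mul_apply]
      ring
  have e3 : ∫ x, Real.cos (w * x) * (-R2 a x) = - h2 w a := by
    unfold h2
    rw [← integral_neg]
    exact integral_congr_ae (ae_of_all _ fun x => by ring)
  have e4 : ∫ x, (-(w * Real.sin (w * x))) * Px a x =
      -(w * ∫ x, Real.sin (w * x) * Px a x) := by
    rw [← integral_const_mul, ← integral_neg]
    exact integral_congr_ae (ae_of_all _ fun x => by ring)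
  have e5 : ∫ x, (w * Real.cos (w * x)) * P a x = w * h w a := by
    unfold h
    rw [← integral_const_mul]
    exact integral_congr_ae (ae_of_all _ fun x => by ring)
  rw [e3, e4, e2, e5] at e1
  linear_combination -e1

private lemma hasDeriv_T {a : ℝ} (ha : 0 < a) (ha' : a < Real.pi / 2) (x : ℝ) :
    HasDerivAt (fun y => Real.arctan ((Real.exp (2 * y) - Real.cos (2 * a)) / Real.sin (2 * a)))
      (P a x) x := by
  have hs : 0 < Real.sin (2 * a) := Real.sin_pos_of_pos_of_lt_pi (by linarith) (by linarith)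
  have hD := den_pos ha (by linarith [Real.pi_pos]) x
  have h1 : HasDerivAt (fun y : ℝ => (Real.exp (2 * y) - Real.cos (2 * a)) / Real.sin (2 * a))
      (Real.exp (2 * x) * 2 / Real.sin (2 * a)) x := by
    have := ((((hasDerivAt_id x).const_mul 2).exp).sub_const (Real.cos (2 * a))).div_const
      (Real.sin (2 * a))
    simpa using this
  refine h1.arctan.congr_deriv ?_
  unfold P
  have h2 := Real.sin_sq_add_cos_sq (2 * a)
  have hE : 0 < Real.exp (2 * x) := Real.exp_pos _
  have h3 : Real.cosh (2 * x) = (Real.exp (2 * x) + (Real.exp (2 * x))⁻¹) / 2 := by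
    rw [Real.cosh_eq, Real.exp_neg]
  rw [h3] at hD ⊢
  have hD' : 0 < Real.exp (2 * x) ^ 2 + 1 - 2 * Real.exp (2 * x) * Real.cos (2 * a) := by
    have := mul_pos (mul_pos two_pos hE) hD
    have e : 2 * Real.exp (2 * x) * ((Real.exp (2 * x) + (Real.exp (2 * x))⁻¹) / 2 -
      Real.cos (2 * a)) = Real.exp (2 * x) ^ 2 + 1 - 2 * Real.exp (2 * x) * Real.cos (2 * a) := by
      field_simp
    linarith
  have e1 : (Real.exp (2 * x) + (Real.exp (2 * x))⁻¹) / 2 - Real.cos (2 * a) =
      (Real.exp (2 * x) ^ 2 + 1 - 2 * Real.exp (2 * x) * Real.cos (2 * a)) /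
        (2 * Real.exp (2 * x)) := by
    field_simp
  have e2 : 1 + ((Real.exp (2 * x) - Real.cos (2 * a)) / Real.sin (2 * a)) ^ 2 =
      (Real.exp (2 * x) ^ 2 + 1 - 2 * Real.exp (2 * x) * Real.cos (2 * a)) /
        (Real.sin (2 * a)) ^ 2 := by
    field_simp
    linear_combination h2
  rw [e1, e2]
  field_simp

private lemma mass {a : ℝ} (ha : 0 < a) (ha' : a < Real.pi / 2) :
    ∫ x, P a x = Real.pi - 2 * a := by
  have hs : 0 < Real.sin (2 * a) := Real.sin_pos_of_pos_of_lt_pi (by linarith) (by linarith)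
  have hbot : Tendsto (fun y : ℝ => Real.arctan ((Real.exp (2 * y) - Real.cos (2 * a)) /
      Real.sin (2 * a))) atBot (𝓝 (2 * a - Real.pi / 2)) := by
    have e : 2 * a - Real.pi / 2 = Real.arctan ((0 - Real.cos (2 * a)) / Real.sin (2 * a)) := by
      rw [← Real.arctan_tan (x := 2 * a - Real.pi / 2) (by linarith) (by linarith)]
      congr 1
      rw [Real.tan_eq_sin_div_cos, Real.sin_sub_pi_div_two, Real.cos_sub_pi_div_two]
      ring
    rw [e]
    refine (Real.continuous_arctan.tendsto _).comp ?_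
    refine Tendsto.div_const (Tendsto.sub_const ?_ _) _
    exact Real.tendsto_exp_atBot.comp (tendsto_id.const_mul_atBot (by norm_num : (0:ℝ) < 2))
  have htop : Tendsto (fun y : ℝ => Real.arctan ((Real.exp (2 * y) - Real.cos (2 * a)) /
      Real.sin (2 * a))) atTop (𝓝 (Real.pi / 2)) := by
    refine (tendsto_nhds_of_tendsto_nhdsWithin Real.tendsto_arctan_atTop).comp ?_
    refine Tendsto.atTop_div_const hs ?_
    refine tendsto_atTop_add_const_right _ _ ?_
    exact Real.tendsto_exp_atTop.comp (tendsto_id.const_mul_atTop (by norm_num : (0:ℝ) < 2))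
  rw [integral_of_hasDerivAt_of_tendsto (fun x => hasDeriv_T ha ha' x)
    (int_P ha (by linarith [Real.pi_pos])) hbot htop]
  ring

private lemma half_eq_zero (w : ℝ) : h w (Real.pi / 2) = 0 := by
  unfold h
  have : ∀ x : ℝ, P (Real.pi / 2) x * Real.cos (w * x) = 0 := by
    intro x
    unfold P
    rw [show 2 * (Real.pi / 2) = Real.pi by ring, Real.sin_pi]
    simp
  simp [this]

private lemma P_pos {a : ℝ} (ha : 0 < a) (ha' : a < Real.pi / 2) (x : ℝ) : 0 < P a x :=
  div_pos (Real.sin_pos_of_pos_of_lt_pi (by linarith) (by linarith))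
    (den_pos ha (by linarith [Real.pi_pos]) x)

private lemma near_zero (w : ℝ) {a : ℝ} (ha : 0 < a) (ha' : a < Real.pi / 2) :
    |h w a - (Real.pi - 2 * a)| ≤ Real.sin (2 * a) * (w ^ 2 * ∫ x : ℝ, (1 + x ^ 2)⁻¹) := by
  have hpi := Real.pi_pos
  have hs : 0 < Real.sin (2 * a) := Real.sin_pos_of_pos_of_lt_pi (by linarith) (by linarith)
  have hi := int_P ha (by linarith)
  rw [← mass ha ha']
  unfold h
  rw [← integral_sub (int_cos hi w) hi]
  have e0 : Real.sin (2 * a) * (w ^ 2 * ∫ x : ℝ, (1 + x ^ 2)⁻¹) =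
      ∫ x : ℝ, Real.sin (2 * a) * (w ^ 2 * (1 + x ^ 2)⁻¹) := by
    rw [integral_const_mul, integral_const_mul]
  rw [e0, ← Real.norm_eq_abs]
  refine norm_integral_le_of_norm_le
    ((integrable_inv_one_add_sq.const_mul (w ^ 2)).const_mul (Real.sin (2 * a)))
    (ae_of_all _ ?_)
  intro x
  rw [Real.norm_eq_abs]
  have e : P a x * Real.cos (w * x) - P a x = -(P a x * (1 - Real.cos (w * x))) := by ring
  have hP := P_pos ha ha' x
  have hc1 := Real.cos_le_one (w * x)
  have hc2 := Real.one_sub_sq_div_two_le_cos (x := w * x)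
  rw [e, abs_neg, abs_of_nonneg (mul_nonneg hP.le (by linarith))]
  by_cases hx : x = 0
  · subst hx
    simp
    positivity
  have hD := den_pos ha (by linarith) x
  -- cosh 2x - 1 >= 2 x^2 (1 + x^2/4) * ...
  have hk : x ^ 2 * (1 + x ^ 2) / 2 ≤ Real.cosh (2 * x) - 1 := by
    have h1 : Real.cosh (2 * x) - 1 = 2 * Real.sinh x ^ 2 := by
      rw [Real.cosh_two_mul, Real.cosh_sq]
      ring
    have h2 : Real.sinh x = 2 * Real.sinh (x / 2) * Real.cosh (x / 2) := by
      have := Real.sinh_two_mul (x / 2)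
      rwa [show 2 * (x / 2) = x by ring] at this
    have h3 : Real.cosh (x / 2) ^ 2 = 1 + Real.sinh (x / 2) ^ 2 := by
      rw [Real.cosh_sq]
      ring
    have h4 : (x / 2) ^ 2 ≤ Real.sinh (x / 2) ^ 2 := by
      rcases le_total 0 x with hx | hx
      · have := Real.self_le_sinh_iff.2 (by linarith : 0 ≤ x / 2)
        nlinarith
      · have := Real.sinh_le_self_iff.2 (by linarith : x / 2 ≤ 0)
        nlinarith
    have h5 : Real.cosh (2 * x) - 1 = 8 * Real.sinh (x / 2) ^ 2 * (1 + Real.sinh (x / 2) ^ 2) := by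
      rw [h1, h2, mul_pow, mul_pow, h3]
      ring
    rw [h5]
    have h6 : x ^ 2 * (1 + x ^ 2) / 2 ≤ 8 * (x / 2) ^ 2 * (1 + (x / 2) ^ 2) := by
      nlinarith [sq_nonneg x, sq_nonneg (x ^ 2)]
    refine h6.trans ?_
    gcongr
  have hden : x ^ 2 * (1 + x ^ 2) / 2 ≤ Real.cosh (2 * x) - Real.cos (2 * a) := by
    linarith [Real.cos_le_one (2 * a)]
  have hx2 : 0 < x ^ 2 := by positivity
  unfold P
  calc Real.sin (2 * a) / (Real.cosh (2 * x) - Real.cos (2 * a)) * (1 - Real.cos (w * x))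
      ≤ Real.sin (2 * a) / (x ^ 2 * (1 + x ^ 2) / 2) * ((w * x) ^ 2 / 2) := by
        gcongr
        linarith
    _ = Real.sin (2 * a) * (w ^ 2 * (1 + x ^ 2)⁻¹) := by
        field_simp

private lemma lim_zero (w : ℝ) : Tendsto (h w) (𝓝[>] 0) (𝓝 Real.pi) := by
  have hpi := Real.pi_pos
  have h1 : Tendsto (fun a : ℝ => Real.sin (2 * a) * (w ^ 2 * ∫ x : ℝ, (1 + x ^ 2)⁻¹))
      (𝓝[>] 0) (𝓝 0) := by
    have : Continuous (fun a : ℝ => Real.sin (2 * a) * (w ^ 2 * ∫ x : ℝ, (1 + x ^ 2)⁻¹)) := by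
      fun_prop
    have h := (this.tendsto 0).mono_left (nhdsWithin_le_nhds (s := Set.Ioi (0:ℝ)))
    simpa using h
  have h2 : Tendsto (fun a : ℝ => h w a - (Real.pi - 2 * a)) (𝓝[>] 0) (𝓝 0) := by
    refine squeeze_zero_norm' ?_ h1
    filter_upwards [Ioo_mem_nhdsGT (by linarith : (0:ℝ) < Real.pi / 2)] with a ha
    rw [Real.norm_eq_abs]
    exact near_zero w ha.1 ha.2
  have h3 : Tendsto (fun a : ℝ => (Real.pi - 2 * a)) (𝓝[>] 0) (𝓝 Real.pi) := by
    have : Continuous (fun a : ℝ => (Real.pi - 2 * a)) := by fun_prop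
    have h := (this.tendsto 0).mono_left (nhdsWithin_le_nhds (s := Set.Ioi (0:ℝ)))
    simpa using h
  have := h2.add h3
  simpa using this

private lemma ode (w : ℝ) (hw : w ≠ 0) {a : ℝ} (ha : 0 < a) (ha' : a < Real.pi) :
    h w a * Real.sinh (w * Real.pi / 2) = Real.pi * Real.sinh (w * (Real.pi / 2 - a)) := by
  have hpi := Real.pi_pos
  set A : ℝ → ℝ := fun t => h1 w t * Real.cosh (w * (t - Real.pi / 2)) -
    w * h w t * Real.sinh (w * (t - Real.pi / 2)) with hA
  set B : ℝ → ℝ := fun t => w * h w t * Real.cosh (w * (t - Real.pi / 2)) -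
    h1 w t * Real.sinh (w * (t - Real.pi / 2)) with hB
  have hin : ∀ t : ℝ, HasDerivAt (fun t => w * (t - Real.pi / 2)) w t := by
    intro t
    have := ((hasDerivAt_id t).sub_const (Real.pi / 2)).const_mul w
    simpa using this
  have hdA : ∀ t ∈ Ioo 0 Real.pi, HasDerivAt A 0 t := by
    intro t ht
    have e1 := (der_h1 w ht.1 ht.2).mul (hin t).cosh
    have e2 := ((der_h w ht.1 ht.2).const_mul w).mul (hin t).sinh
    refine (e1.sub e2).congr_deriv ?_
    rw [h2_eq w ht.1 ht.2]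
    ring
  have hdB : ∀ t ∈ Ioo 0 Real.pi, HasDerivAt B 0 t := by
    intro t ht
    have e1 := (der_h1 w ht.1 ht.2).mul (hin t).sinh
    have e2 := ((der_h w ht.1 ht.2).const_mul w).mul (hin t).cosh
    refine (e2.sub e1).congr_deriv ?_
    rw [h2_eq w ht.1 ht.2]
    ring
  have hmid : Real.pi / 2 ∈ Ioo 0 Real.pi := ⟨by linarith, by linarith⟩
  have cst : ∀ F : ℝ → ℝ, (∀ t ∈ Ioo 0 Real.pi, HasDerivAt F 0 t) →
      ∀ t ∈ Ioo 0 Real.pi, F t = F (Real.pi / 2) := by
    intro F hF t ht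
    exact isOpen_Ioo.is_const_of_deriv_eq_zero isPreconnected_Ioo
      (fun s hs => (hF s hs).differentiableAt.differentiableWithinAt)
      (fun s hs => (hF s hs).deriv) ht hmid
  have hB0 : B (Real.pi / 2) = 0 := by
    simp [hB, half_eq_zero]
  -- w h = alpha sinh
  have key : ∀ t ∈ Ioo 0 Real.pi,
      w * h w t = A (Real.pi / 2) * Real.sinh (w * (t - Real.pi / 2)) := by
    intro t ht
    have h1' := cst A hdA t ht
    have h2' := (cst B hdB t ht).trans hB0
    rw [← h1']
    have h3 := Real.cosh_sq (w * (t - Real.pi / 2))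
    simp only [hA, hB] at h2' ⊢
    linear_combination (Real.cosh (w * (t - Real.pi / 2))) * h2' - w * h w t * h3
  have hlim : w * Real.pi = A (Real.pi / 2) * Real.sinh (w * (0 - Real.pi / 2)) := by
    have l1 : Tendsto (fun t => w * h w t) (𝓝[>] 0) (𝓝 (w * Real.pi)) :=
      (lim_zero w).const_mul w
    have l2 : Tendsto (fun t => A (Real.pi / 2) * Real.sinh (w * (t - Real.pi / 2)))
        (𝓝[>] 0) (𝓝 (A (Real.pi / 2) * Real.sinh (w * (0 - Real.pi / 2)))) := by
      have : Continuous (fun t : ℝ => A (Real.pi / 2) * Real.sinh (w * (t - Real.pi / 2))) := by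
        have := Real.continuous_sinh
        fun_prop
      exact (this.tendsto 0).mono_left nhdsWithin_le_nhds
    refine tendsto_nhds_unique (l1.congr' ?_) l2
    filter_upwards [Ioo_mem_nhdsGT hpi] with t ht
    exact key t ht
  have k1 := key a ⟨ha, ha'⟩
  have s1 : Real.sinh (w * (0 - Real.pi / 2)) = - Real.sinh (w * Real.pi / 2) := by
    rw [← Real.sinh_neg]
    congr 1
    ring
  have s2 : Real.sinh (w * (a - Real.pi / 2)) = - Real.sinh (w * (Real.pi / 2 - a)) := by
    rw [← Real.sinh_neg]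
    congr 1
    ring
  rw [s1] at hlim
  rw [s2] at k1
  have : w * (h w a * Real.sinh (w * Real.pi / 2)) =
      w * (Real.pi * Real.sinh (w * (Real.pi / 2 - a))) := by
    linear_combination (Real.sinh (w * Real.pi / 2)) * k1 -
      Real.sinh (w * (Real.pi / 2 - a)) * hlim
  exact mul_left_cancel₀ hw this

private lemma pk_eq (a x : ℝ) : pk a x = (1 / Real.pi) * P a x := by
  unfold pk P
  have hpi := Real.pi_pos.ne'
  rw [one_div, ← div_eq_inv_mul, div_div, mul_comm Real.pi]

/-- the kernel is continuous -/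
theorem pk_continuous {a : ℝ} (h0 : 0 < a) (h1 : a < Real.pi) : Continuous (pk a) := by
  have : pk a = fun x => (1 / Real.pi) * P a x := funext (pk_eq a)
  rw [this]
  exact continuous_const.mul (cont_P h0 h1)

/-- the kernel is integrable -/
theorem pk_integrable {a : ℝ} (h0 : 0 < a) (h1 : a < Real.pi) : Integrable (pk a) := by
  have : pk a = fun x => (1 / Real.pi) * P a x := funext (pk_eq a)
  rw [this]
  exact (int_P h0 h1).const_mul _

theorem pk_pos {a : ℝ} (h0 : 0 < a) (h1 : a < Real.pi / 2) (x : ℝ) : 0 < pk a x := by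
  rw [pk_eq]
  have := Real.pi_pos
  exact mul_pos (by positivity) (P_pos h0 h1 x)

theorem pk_even (a x : ℝ) : pk a (-x) = pk a x := by
  unfold pk
  rw [show 2 * -x = -(2 * x) by ring, Real.cosh_neg]

/-- the mass of the kernel -/
theorem pk_mass {a : ℝ} (h0 : 0 < a) (h1 : a < Real.pi / 2) :
    ∫ x, pk a x = 1 - 2 * a / Real.pi := by
  simp_rw [pk_eq]
  rw [integral_const_mul, mass h0 h1]
  have := Real.pi_pos.ne'
  field_simp

/-- **Cosine transform of the kernel.** -/
theorem pk_cos {a : ℝ} (w : ℝ) (h0 : 0 < a) (h1 : a < Real.pi) :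
    (∫ x, pk a x * Real.cos (w * x)) * Real.sinh (w * Real.pi / 2) =
      Real.sinh (w * (Real.pi / 2 - a)) := by
  by_cases hw : w = 0
  · subst hw
    simp
  have e : (∫ x, pk a x * Real.cos (w * x)) = (1 / Real.pi) * h w a := by
    unfold h
    rw [← integral_const_mul]
    refine integral_congr_ae (ae_of_all _ fun x => ?_)
    simp only [pk_eq]
    ring
  rw [e, mul_assoc, ode w hw h0 h1]
  have := Real.pi_pos.ne'
  field_simp

end Pool.Agent.CYL.Ker
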