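import Pool.Agent.CYL.C.Defs
import Pool.Agent.CYL.C.KerFT

/-!
# CYL, part C: the L^1 norm of the scattering kernel (helper83)

`K > 0` iff `cosh 2x < 1 + sqrt 2`; hence `INT |K| = 4 Th(x0) - 1/4 <= 3/10`.
-/

open MeasureTheory Filter Topology Set

namespace Pool.Agent.CYL

private lemma sq2 : Real.sqrt 2 ^ 2 = 2 := Real.sq_sqrt (by norm_num)

private lemma s_lo : (1.4142 : ℝ) < Real.sqrt 2 :=
  Real.lt_sqrt_of_sq_lt (by norm_num)

private lemma s_hi : Real.sqrt 2 < 1.41422 :=
  (Real.sqrt_lt' (by norm_num)).mpr (by norm_num)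

private lemma K_eq (x : ℝ) : K x = (1 - Real.sqrt 2 / 2) * (1 + Real.sqrt 2 - Real.cosh (2 * x)) /
    (Real.pi * (Real.cosh (2 * x) * (Real.cosh (2 * x) - Real.sqrt 2 / 2))) := by
  have hp := Real.pi_pos
  have h1 := Real.one_le_cosh (2 * x)
  have h2 := s_hi
  have h3 : 0 < Real.cosh (2 * x) - Real.sqrt 2 / 2 := by linarith
  unfold K pk
  rw [show 2 * (Real.pi / 8) = Real.pi / 4 by ring, show 2 * (Real.pi / 4) = Real.pi / 2 by ring,
    Real.sin_pi_div_four, Real.cos_pi_div_four, Real.sin_pi_div_two, Real.cos_pi_div_two, sub_zero]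
  rw [div_sub_div _ _ (by positivity) (by positivity), div_eq_div_iff (by positivity)
    (by positivity)]
  have h4 := sq2
  linear_combination (Real.pi ^ 2 * (2 * Real.cosh (2 * x) ^ 2 -
    Real.sqrt 2 * Real.cosh (2 * x)) / 4) * h4

private lemma K_cont : Continuous K := by
  have hp := Real.pi_pos
  have h1 : Continuous (pk (Real.pi / 8)) := Ker.pk_continuous (by positivity) (by linarith)
  have h2 : Continuous (pk (Real.pi / 4)) := Ker.pk_continuous (by positivity) (by linarith)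
  exact h1.sub h2

private lemma K_int : Integrable K := by
  have hp := Real.pi_pos
  have h1 : Integrable (pk (Real.pi / 8)) := Ker.pk_integrable (by positivity) (by linarith)
  have h2 : Integrable (pk (Real.pi / 4)) := Ker.pk_integrable (by positivity) (by linarith)
  exact h1.sub h2

private lemma K_integral : ∫ x, K x = 1 / 4 := by
  have hp := Real.pi_pos
  have h1 : Integrable (pk (Real.pi / 8)) := Ker.pk_integrable (by positivity) (by linarith)
  have h2 : Integrable (pk (Real.pi / 4)) := Ker.pk_integrable (by positivity) (by linarith)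
  have m1 : ∫ x, pk (Real.pi / 8) x = 1 - 2 * (Real.pi / 8) / Real.pi :=
    Ker.pk_mass (by positivity) (by linarith)
  have m2 : ∫ x, pk (Real.pi / 4) x = 1 - 2 * (Real.pi / 4) / Real.pi :=
    Ker.pk_mass (by positivity) (by linarith)
  have : ∫ x, K x = (∫ x, pk (Real.pi / 8) x) - ∫ x, pk (Real.pi / 4) x := integral_sub h1 h2
  rw [this, m1, m2]
  field_simp
  norm_num

private lemma cot8 : Real.cos (Real.pi / 8) / Real.sin (Real.pi / 8) = 1 + Real.sqrt 2 := by
  have hp := Real.pi_pos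
  have hs : 0 < Real.sin (Real.pi / 8) :=
    Real.sin_pos_of_pos_of_lt_pi (by positivity) (by linarith)
  have e1 : Real.sqrt 2 / 2 = 2 * Real.sin (Real.pi / 8) * Real.cos (Real.pi / 8) := by
    rw [← Real.sin_pi_div_four, ← Real.sin_two_mul]; congr 1; ring
  have e2 : Real.sqrt 2 / 2 = 2 * Real.cos (Real.pi / 8) ^ 2 - 1 := by
    rw [← Real.cos_pi_div_four, ← Real.cos_two_mul]; congr 1; ring
  rw [div_eq_iff hs.ne']
  linear_combination Real.sqrt 2 * Real.cos (Real.pi / 8) * e1 -
    Real.sqrt 2 * Real.sin (Real.pi / 8) * e2 -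
    (Real.cos (Real.pi / 8) - Real.sin (Real.pi / 8)) / 2 * sq2

private lemma hasDerivAt_tanh' (x : ℝ) : HasDerivAt Real.tanh (1 / Real.cosh x ^ 2) x := by
  have hc := Real.cosh_pos x
  have h := (Real.hasDerivAt_sinh x).div (Real.hasDerivAt_cosh x) hc.ne'
  have e : (Real.sinh / Real.cosh : ℝ → ℝ) = Real.tanh := by
    funext y
    simp [Real.tanh_eq_sinh_div_cosh]
  rw [e] at h
  have h4 := Real.cosh_sq_sub_sinh_sq x
  rwa [show Real.cosh x * Real.cosh x - Real.sinh x * Real.sinh x = 1 by linarith] at h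

private lemma hasDerivAt_Ph' {a : ℝ} (h0 : 0 < a) (h1 : a < Real.pi) (x : ℝ) :
    HasDerivAt (Ph a) (pk a x) x := by
  have hp := Real.pi_pos
  have hc := Real.cosh_pos x
  have hs : 0 < Real.sin a := Real.sin_pos_of_pos_of_lt_pi h0 h1
  have h := (((hasDerivAt_tanh' x).const_mul (Real.cos a / Real.sin a)).arctan).div_const Real.pi
  have h4 := Real.cosh_sq_sub_sinh_sq x
  have h5 := Real.sin_sq_add_cos_sq a
  have e : 1 / (1 + (Real.cos a / Real.sin a * Real.tanh x) ^ 2) *
      (Real.cos a / Real.sin a * (1 / Real.cosh x ^ 2)) / Real.pi = pk a x := by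
    unfold pk
    have hd : Real.cosh (2 * x) - Real.cos (2 * a) =
        2 * ((Real.sin a * Real.cosh x) ^ 2 + (Real.cos a * Real.sinh x) ^ 2) := by
      rw [Real.cosh_two_mul, Real.cos_two_mul, mul_pow, mul_pow]
      have h6 : Real.sin a ^ 2 = 1 - Real.cos a ^ 2 := by linarith
      have h7 : Real.cosh x ^ 2 = 1 + Real.sinh x ^ 2 := by linarith
      rw [h6, h7]
      ring
    rw [hd, Real.sin_two_mul, Real.tanh_eq_sinh_div_cosh]
    have hpos : 0 < (Real.sin a * Real.cosh x) ^ 2 + (Real.cos a * Real.sinh x) ^ 2 := by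
      positivity
    have hpos2 : (Real.sin a * Real.cosh x) ^ 2 + (Real.cos a * Real.sinh x) ^ 2 ≠ 0 := hpos.ne'
    have e3 : 1 + (Real.cos a / Real.sin a * (Real.sinh x / Real.cosh x)) ^ 2 =
        ((Real.sin a * Real.cosh x) ^ 2 + (Real.cos a * Real.sinh x) ^ 2) /
          (Real.sin a * Real.cosh x) ^ 2 := by
      field_simp
    rw [e3]
    field_simp
  unfold Ph
  rw [← e]
  exact h

private lemma hasDerivAt_Th' (x : ℝ) : HasDerivAt Th (K x) x := by
  have hp := Real.pi_pos
  exact (hasDerivAt_Ph' (by positivity) (by linarith) x).sub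
    (hasDerivAt_Ph' (by positivity) (by linarith) x)

private lemma Th_neg' (x : ℝ) : Th (-x) = -Th x := by
  unfold Th Ph
  rw [Real.tanh_neg, mul_neg, mul_neg, Real.arctan_neg, Real.arctan_neg]
  ring

private lemma tan_lo : (0.4551 : ℝ) < Real.tan 0.43 := by
  have h1 := abs_le.mp (Real.sin_bound (x := 0.43) (by rw [abs_of_pos (by norm_num)]; norm_num))
  have h2 := abs_le.mp (Real.cos_bound (x := 0.43) (by rw [abs_of_pos (by norm_num)]; norm_num))
  rw [abs_of_pos (by norm_num : (0:ℝ) < 0.43)] at h1 h2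
  have hc : 0 < Real.cos 0.43 := by
    have := h2.1
    norm_num at this ⊢
    linarith
  rw [Real.tan_eq_sin_div_cos, lt_div_iff₀ hc]
  have h3 := h1.1
  have h4 := h2.2
  norm_num at h3 h4 ⊢
  linarith

private lemma x0_ex : ∃ x0 : ℝ, 0 ≤ x0 ∧ Real.cosh (2 * x0) = 1 + Real.sqrt 2 := by
  have h : (1:ℝ) ≤ 1 + Real.sqrt 2 := by
    have := Real.sqrt_nonneg 2
    linarith
  refine ⟨Real.arcosh (1 + Real.sqrt 2) / 2, ?_, ?_⟩
  · have := Real.arcosh_nonneg h
    positivity
  · rw [mul_div_cancel₀ _ two_ne_zero, Real.cosh_arcosh h]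

private lemma K_sign {x0 : ℝ} (h0 : 0 ≤ x0) (hx0 : Real.cosh (2 * x0) = 1 + Real.sqrt 2) (x : ℝ) :
    (|x| ≤ x0 → 0 ≤ K x) ∧ (x0 ≤ |x| → K x ≤ 0) := by
  have hp := Real.pi_pos
  have h1 := Real.one_le_cosh (2 * x)
  have h2 := s_hi
  have h3 : 0 < Real.cosh (2 * x) - Real.sqrt 2 / 2 := by linarith
  have h4 : 0 < 1 - Real.sqrt 2 / 2 := by linarith
  constructor
  · intro h
    have h5 : Real.cosh (2 * x) ≤ Real.cosh (2 * x0) := by
      rw [Real.cosh_le_cosh, abs_mul, abs_mul, abs_of_nonneg h0]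
      exact mul_le_mul_of_nonneg_left h (abs_nonneg _)
    rw [K_eq]
    apply div_nonneg
    · apply mul_nonneg h4.le
      linarith
    · positivity
  · intro h
    have h5 : Real.cosh (2 * x0) ≤ Real.cosh (2 * x) := by
      rw [Real.cosh_le_cosh, abs_mul, abs_mul, abs_of_nonneg h0]
      exact mul_le_mul_of_nonneg_left h (abs_nonneg _)
    rw [K_eq]
    apply div_nonpos_of_nonpos_of_nonneg
    · apply mul_nonpos_of_nonneg_of_nonpos h4.le
      linarith
    · positivity

private lemma Th_x0 {x0 : ℝ} (h0 : 0 ≤ x0) (hx0 : Real.cosh (2 * x0) = 1 + Real.sqrt 2) :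
    Th x0 ≤ 11 / 80 := by
  have hp := Real.pi_pos
  have hlo := s_lo
  have hhi := s_hi
  have hsq := sq2
  have hc := Real.cosh_pos x0
  set v := Real.tanh x0 with hv
  have hv0 : 0 ≤ v := by
    rw [hv, Real.tanh_eq_sinh_div_cosh]
    exact div_nonneg (Real.sinh_nonneg_iff.mpr h0) hc.le
  have hv2 : v ^ 2 = Real.sqrt 2 - 1 := by
    rw [hv, Real.tanh_eq_sinh_div_cosh, div_pow, div_eq_iff (by positivity)]
    rw [Real.cosh_two_mul] at hx0
    have h4 := Real.cosh_sq_sub_sinh_sq x0
    have h5 : 2 * Real.cosh x0 ^ 2 = 2 + Real.sqrt 2 := by linarith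
    have h6 : 2 * Real.sinh x0 ^ 2 = Real.sqrt 2 := by linarith
    nlinarith
  have hTh : Th x0 = Real.arctan (Real.sqrt 2 * v / 2) / Real.pi := by
    unfold Th Ph
    rw [cot8, Real.cos_pi_div_four, Real.sin_pi_div_four, div_self (by positivity), one_mul,
      ← sub_div, ← hv]
    congr 1
    rw [sub_eq_add_neg, ← Real.arctan_neg, Real.arctan_add]
    · congr 1
      have e : (1 + Real.sqrt 2) * v * v = 1 := by
        rw [mul_assoc, ← sq, hv2]
        linarith
      have e2 : 1 - (1 + Real.sqrt 2) * v * -v = 2 := by linarith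
      rw [e2]
      ring
    · have : 0 ≤ (1 + Real.sqrt 2) * v * v := by positivity
      linarith
  have hy : Real.sqrt 2 * v / 2 ≤ 0.4551 := by
    have : (Real.sqrt 2 * v / 2) ^ 2 ≤ (0.4551:ℝ) ^ 2 := by
      rw [div_pow, mul_pow, hv2, hsq]
      norm_num
      linarith
    exact (le_abs_self _).trans (abs_le_of_sq_le_sq this (by norm_num))
  have hat : Real.arctan (Real.sqrt 2 * v / 2) ≤ 0.43 := by
    have h1 : Real.arctan (Real.sqrt 2 * v / 2) ≤ Real.arctan (Real.tan 0.43) :=
      Real.arctan_strictMono.monotone (hy.trans tan_lo.le)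
    rwa [Real.arctan_tan (by linarith) (by have := Real.pi_gt_three; linarith)] at h1
  rw [hTh, div_le_iff₀ hp]
  have := Real.pi_gt_d2
  linarith

/-- **The L^1 norm of the scattering kernel** -/
theorem integral_abs_K : ∫ x, |K x| ≤ 3 / 10 := by
  obtain ⟨x0, h0, hx0⟩ := x0_ex
  have hI := K_int
  have hA := hI.abs
  have hms : MeasurableSet (Ioc (-x0) x0) := measurableSet_Ioc
  have e1 : ∫ x in Ioc (-x0) x0, |K x| = ∫ x in Ioc (-x0) x0, K x := by
    refine setIntegral_congr_fun hms fun x hx => ?_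
    exact abs_of_nonneg ((K_sign h0 hx0 x).1 (abs_le.mpr ⟨hx.1.le, hx.2⟩))
  have e2 : ∫ x in (Ioc (-x0) x0)ᶜ, |K x| = - ∫ x in (Ioc (-x0) x0)ᶜ, K x := by
    rw [← integral_neg]
    refine setIntegral_congr_fun hms.compl fun x hx => ?_
    refine abs_of_nonpos ((K_sign h0 hx0 x).2 ?_)
    rcases le_or_gt x (-x0) with h | h
    · rw [le_abs]; right; linarith
    · rcases le_or_gt x x0 with h' | h'
      · exact absurd ⟨h, h'⟩ hx
      · exact h'.le.trans (le_abs_self x)
  have e3 := integral_add_compl hms hI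
  have e4 : ∫ x in Ioc (-x0) x0, K x = Th x0 - Th (-x0) := by
    rw [← intervalIntegral.integral_of_le (by linarith)]
    exact intervalIntegral.integral_eq_sub_of_hasDerivAt (fun x _ => hasDerivAt_Th' x)
      (K_cont.intervalIntegrable _ _)
  rw [← integral_add_compl hms hA, e1, e2]
  rw [K_integral, e4, Th_neg'] at e3
  rw [e4, Th_neg']
  have := Th_x0 h0 hx0
  linarith

end Pool.Agent.CYL
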