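import Pool.Agent.CYL.C.KerRho

/-!
# The dressed energy (project CYL, part C)

`integrable_eps`, `eps_conv`.
-/

open MeasureTheory Set Filter Topology

namespace Pool.Agent.CYL

namespace Strip

/-- Antiderivative of the strip kernel in the angle. -/
noncomputable def lg (w x b : ℝ) : ℝ :=
  Real.log (Real.cosh (Real.pi * x / w) - Real.cos (Real.pi * b / w)) / (2 * Real.pi)

theorem lg_pos {w x : ℝ} (hw : 0 < w) (hx : x ≠ 0) (b : ℝ) :
    0 < Real.cosh (Real.pi * x / w) - Real.cos (Real.pi * b / w) := by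
  have h1 : 1 < Real.cosh (Real.pi * x / w) := by
    rw [Real.one_lt_cosh]
    have := Real.pi_pos.ne'
    exact div_ne_zero (mul_ne_zero this hx) hw.ne'
  have h2 := Real.cos_le_one (Real.pi * b / w)
  linarith

theorem hasDerivAt_lg {w x : ℝ} (hw : 0 < w) (hx : x ≠ 0) (b : ℝ) :
    HasDerivAt (lg w x) (ker w b x) b := by
  have hp := Real.pi_pos.ne'
  have h0 := lg_pos hw hx b
  have h1 : HasDerivAt (fun y : ℝ => Real.pi * y / w) (Real.pi / w) b := by
    have := ((hasDerivAt_id b).const_mul Real.pi).div_const w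
    simpa using this
  have h2 : HasDerivAt (fun y : ℝ => Real.cosh (Real.pi * x / w) - Real.cos (Real.pi * y / w))
      (Real.sin (Real.pi * b / w) * (Real.pi / w)) b := by
    have := (h1.cos).const_sub (Real.cosh (Real.pi * x / w))
    simpa using this
  have h3 := (h2.log h0.ne').div_const (2 * Real.pi)
  have e : Real.sin (Real.pi * b / w) * (Real.pi / w)
      / (Real.cosh (Real.pi * x / w) - Real.cos (Real.pi * b / w)) / (2 * Real.pi) = ker w b x := by
    unfold ker
    field_simp
  rw [e] at h3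
  exact h3

theorem measurable_ker2 (w : ℝ) : Measurable fun p : ℝ × ℝ => ker w p.1 p.2 := by
  unfold ker
  have h1 : Measurable fun p : ℝ × ℝ => Real.sin (Real.pi * p.1 / w) :=
    (by fun_prop : Continuous fun p : ℝ × ℝ => Real.sin (Real.pi * p.1 / w)).measurable
  have h2 : Measurable fun p : ℝ × ℝ =>
      2 * w * (Real.cosh (Real.pi * p.2 / w) - Real.cos (Real.pi * p.1 / w)) :=
    (by fun_prop : Continuous fun p : ℝ × ℝ =>
      2 * w * (Real.cosh (Real.pi * p.2 / w) - Real.cos (Real.pi * p.1 / w))).measurable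
  exact h1.div h2

theorem measurable_kerg {g : ℝ → ℝ} (hg : Continuous g) (w : ℝ) :
    Measurable fun p : ℝ × ℝ => ker w (g p.1) p.2 := by
  have h1 : Measurable fun p : ℝ × ℝ => (g p.1, p.2) :=
    (hg.measurable.comp measurable_fst).prodMk measurable_snd
  have h2 := (measurable_ker2 w).comp h1
  exact h2

theorem measurable_rhoA2 : Measurable fun p : ℝ × ℝ => rhoA p.1 p.2 := by
  have m1 := measurable_kerg (g := fun a => Real.pi / 8 - a) (by fun_prop) (3 * Real.pi / 8)
  have m2 := measurable_kerg (g := fun a => Real.pi / 8 + a) (by fun_prop) (3 * Real.pi / 8)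
  have m3 := measurable_kerg (g := fun a => Real.pi / 4 - a) (by fun_prop) (3 * Real.pi / 8)
  have m4 := measurable_kerg (g := fun a => Real.pi / 4 + a) (by fun_prop) (3 * Real.pi / 8)
  have m5 := (((m1.add m2).add m3).add m4).const_mul (1 / 2)
  have e : (fun p : ℝ × ℝ => rhoA p.1 p.2) = fun p : ℝ × ℝ => (1 / 2) *
      ((((fun p : ℝ × ℝ => ker (3 * Real.pi / 8) (Real.pi / 8 - p.1) p.2)
      + fun p : ℝ × ℝ => ker (3 * Real.pi / 8) (Real.pi / 8 + p.1) p.2)
      + fun p : ℝ × ℝ => ker (3 * Real.pi / 8) (Real.pi / 4 - p.1) p.2)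
      + fun p : ℝ × ℝ => ker (3 * Real.pi / 8) (Real.pi / 4 + p.1) p.2) p := by
    funext p
    rfl
  rw [e]
  exact m5

theorem ker_nonneg {w b : ℝ} (hw : 0 < w) (hb : 0 < b) (hbw : b ≤ w) (x : ℝ) : 0 ≤ ker w b x := by
  have h1 := den_pos hb (by linarith : b < 2 * w) x
  unfold ker
  refine div_nonneg (Real.sin_nonneg_of_nonneg_of_le_pi (by positivity) ?_) (by positivity)
  rw [div_le_iff₀ hw]
  exact mul_le_mul_of_nonneg_left hbw Real.pi_pos.le

theorem rhoA_nonneg {a : ℝ} (ha : |a| < Real.pi / 8) (x : ℝ) : 0 ≤ rhoA a x := by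
  have h := abs_lt.1 ha
  unfold rhoA
  have hw : 0 < 3 * Real.pi / 8 := by positivity
  have h1 := ker_nonneg hw (rg1 ha) (by linarith) x
  have h2 := ker_nonneg hw (rg3 ha) (by linarith) x
  have h3 := ker_nonneg hw (rg5 ha) (by linarith) x
  have h4 := ker_nonneg hw (rg7 ha) (by linarith) x
  positivity

theorem integral_rhoA {a : ℝ} (ha : |a| < Real.pi / 8) : ∫ x, rhoA a x = 1 := by
  have h := cos_rhoA ha 0
  simp only [zero_mul, Real.cos_zero, one_mul] at h
  rw [h]
  unfold mR mult
  rw [if_pos rfl, if_pos rfl, if_pos rfl, if_pos rfl]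
  have hp := Real.pi_pos.ne'
  field_simp
  ring

/-- The measure of the shifts. -/
noncomputable def nu : Measure ℝ := volume.restrict (Ioo 0 (Real.pi / 8))

theorem nu_ae : ∀ᵐ a ∂nu, |a| < Real.pi / 8 := by
  unfold nu
  refine (ae_restrict_iff' measurableSet_Ioo).2 (Eventually.of_forall fun a ha => ?_)
  rw [abs_of_pos ha.1]
  exact ha.2

instance : IsFiniteMeasure nu := by
  unfold nu
  infer_instance

theorem integrable_prod_rhoA : Integrable (fun p : ℝ × ℝ => rhoA p.1 p.2) (nu.prod volume) := by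
  rw [integrable_prod_iff measurable_rhoA2.aestronglyMeasurable]
  constructor
  · filter_upwards [nu_ae] with a ha
    exact integrable_rhoA ha
  · have h1 : (fun a : ℝ => ∫ t, ‖rhoA a t‖) =ᵐ[nu] fun _ => (1:ℝ) := by
      filter_upwards [nu_ae] with a ha
      have e : ∀ t, ‖rhoA a t‖ = rhoA a t := fun t => by
        rw [Real.norm_eq_abs, abs_of_nonneg (rhoA_nonneg ha t)]
      simp only [e]
      exact integral_rhoA ha
    exact (integrable_congr h1).2 (integrable_const _)

/-- The dressed energy as an integral over the shifts. -/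
theorem eps_eq {x : ℝ} (hx : x ≠ 0) : eps x = 2 * Real.pi * ∫ a, rhoA a x ∂nu := by
  have hp := Real.pi_pos
  have hw : 0 < 3 * Real.pi / 8 := by positivity
  set w : ℝ := 3 * Real.pi / 8 with hwd
  have hd : ∀ a : ℝ, HasDerivAt (fun a => (1 / 2) * (-(lg w x (Real.pi / 8 - a))
      + lg w x (Real.pi / 8 + a) + -(lg w x (Real.pi / 4 - a)) + lg w x (Real.pi / 4 + a)))
      (rhoA a x) a := by
    intro a
    have m1 : ∀ c : ℝ, HasDerivAt (fun a : ℝ => -(lg w x (c - a))) (ker w (c - a) x) a := by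
      intro c
      have h2 := (HasDerivAt.comp_const_sub c a (hasDerivAt_lg hw hx (c - a))).neg
      rwa [neg_neg] at h2
    have m2 : ∀ c : ℝ, HasDerivAt (fun a : ℝ => lg w x (c + a)) (ker w (c + a) x) a := by
      intro c
      exact HasDerivAt.comp_const_add c a (hasDerivAt_lg hw hx (c + a))
    exact ((((m1 (Real.pi / 8)).add (m2 (Real.pi / 8))).add (m1 (Real.pi / 4))).add
      (m2 (Real.pi / 4))).const_mul (1 / 2)
  have hcont : Continuous fun a => rhoA a x := by
    have hk : ∀ g : ℝ → ℝ, Continuous g → Continuous fun a => ker w (g a) x := by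
      intro g hg
      unfold ker
      refine Continuous.div (by fun_prop) (by fun_prop) fun a => ?_
      exact mul_ne_zero (by positivity) (lg_pos hw hx (g a)).ne'
    unfold rhoA
    exact ((((hk _ (by fun_prop)).add (hk _ (by fun_prop))).add (hk _ (by fun_prop))).add
      (hk _ (by fun_prop))).const_mul _
  have hF := intervalIntegral.integral_eq_sub_of_hasDerivAt (a := 0) (b := Real.pi / 8)
    (fun a _ => hd a) (hcont.intervalIntegrable _ _)
  have e1 : ∫ a, rhoA a x ∂nu = ∫ a in (0:ℝ)..(Real.pi / 8), rhoA a x := by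
    rw [intervalIntegral.integral_of_le (by positivity)]
    unfold nu
    exact setIntegral_congr_set Ioo_ae_eq_Ioc
  rw [e1, hF]
  simp only [sub_zero, add_zero, sub_self]
  have c1 : 1 < Real.cosh (8 / 3 * x) := by
    rw [Real.one_lt_cosh]
    exact mul_ne_zero (by norm_num) hx
  have hlg : ∀ b : ℝ, lg w x b = Real.log (Real.cosh (8 / 3 * x) - Real.cos (Real.pi * b / w))
      / (2 * Real.pi) := by
    intro b
    unfold lg
    have e3 : Real.pi * x / w = 8 / 3 * x := by rw [hwd]; field_simp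
    rw [e3]
  have b0 : Real.cos (Real.pi * 0 / w) = 1 := by simp
  have b1 : Real.cos (Real.pi * (Real.pi / 8) / w) = 1 / 2 := by
    have : Real.pi * (Real.pi / 8) / w = Real.pi / 3 := by rw [hwd]; field_simp
    rw [this, Real.cos_pi_div_three]
  have b2 : Real.cos (Real.pi * (Real.pi / 4) / w) = -(1 / 2) := by
    have : Real.pi * (Real.pi / 4) / w = Real.pi - Real.pi / 3 := by rw [hwd]; field_simp; ring
    rw [this, Real.cos_pi_sub, Real.cos_pi_div_three]
  have b3 : Real.cos (Real.pi * (Real.pi / 4 + Real.pi / 8) / w) = -1 := by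
    have : Real.pi * (Real.pi / 4 + Real.pi / 8) / w = Real.pi := by rw [hwd]; field_simp; ring
    rw [this, Real.cos_pi]
  have f1 : Real.pi / 8 + Real.pi / 8 = Real.pi / 4 := by ring
  have f2 : Real.pi / 4 - Real.pi / 8 = Real.pi / 8 := by ring
  rw [f1, f2]
  rw [hlg 0, hlg (Real.pi / 8), hlg (Real.pi / 4), hlg (Real.pi / 4 + Real.pi / 8), b0, b1, b2, b3]
  unfold eps
  rw [Real.log_div, Real.log_mul, Real.log_mul]
  · rw [sub_neg_eq_add, sub_neg_eq_add]
    field_simp
    ring
  · linarith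
  · linarith
  · have : 0 < Real.cosh (8 / 3 * x) + 1 / 2 := by linarith
    exact this.ne'
  · have : 0 < Real.cosh (8 / 3 * x) + 1 := by linarith
    exact this.ne'
  · have h1 : 0 < Real.cosh (8 / 3 * x) + 1 / 2 := by linarith
    have h2 : 0 < Real.cosh (8 / 3 * x) + 1 := by linarith
    exact (mul_pos h1 h2).ne'
  · have h1 : 0 < Real.cosh (8 / 3 * x) - 1 := by linarith
    have h2 : 0 < Real.cosh (8 / 3 * x) - 1 / 2 := by linarith
    exact (mul_pos h1 h2).ne'

/-- The bare energy as an integral over the shifts. -/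
theorem e0_eq {x : ℝ} (hx : x ≠ 0) :
    e0 x = 2 * Real.pi * ∫ a, (1 / 2) * (ker (Real.pi / 2) (Real.pi / 8 - a) x
      + ker (Real.pi / 2) (Real.pi / 8 + a) x) ∂nu := by
  have hp := Real.pi_pos
  have hw : 0 < Real.pi / 2 := by positivity
  set w : ℝ := Real.pi / 2 with hwd
  have hd : ∀ a : ℝ, HasDerivAt (fun a => (1 / 2) * (-(lg w x (Real.pi / 8 - a))
      + lg w x (Real.pi / 8 + a)))
      ((1 / 2) * (ker w (Real.pi / 8 - a) x + ker w (Real.pi / 8 + a) x)) a := by
    intro a
    have m1 : ∀ c : ℝ, HasDerivAt (fun a : ℝ => -(lg w x (c - a))) (ker w (c - a) x) a := by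
      intro c
      have h2 := (HasDerivAt.comp_const_sub c a (hasDerivAt_lg hw hx (c - a))).neg
      rwa [neg_neg] at h2
    have m2 : ∀ c : ℝ, HasDerivAt (fun a : ℝ => lg w x (c + a)) (ker w (c + a) x) a := by
      intro c
      exact HasDerivAt.comp_const_add c a (hasDerivAt_lg hw hx (c + a))
    exact ((m1 (Real.pi / 8)).add (m2 (Real.pi / 8))).const_mul (1 / 2)
  have hcont : Continuous fun a => (1 / 2) * (ker w (Real.pi / 8 - a) x
      + ker w (Real.pi / 8 + a) x) := by
    have hk : ∀ g : ℝ → ℝ, Continuous g → Continuous fun a => ker w (g a) x := by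
      intro g hg
      unfold ker
      refine Continuous.div (by fun_prop) (by fun_prop) fun a => ?_
      exact mul_ne_zero (by positivity) (lg_pos hw hx (g a)).ne'
    exact ((hk _ (by fun_prop)).add (hk _ (by fun_prop))).const_mul _
  have hF := intervalIntegral.integral_eq_sub_of_hasDerivAt (a := 0) (b := Real.pi / 8)
    (fun a _ => hd a) (hcont.intervalIntegrable _ _)
  have e1 : ∫ a, (1 / 2) * (ker w (Real.pi / 8 - a) x + ker w (Real.pi / 8 + a) x) ∂nu
      = ∫ a in (0:ℝ)..(Real.pi / 8), (1 / 2) * (ker w (Real.pi / 8 - a) x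
        + ker w (Real.pi / 8 + a) x) := by
    rw [intervalIntegral.integral_of_le (by positivity)]
    unfold nu
    exact setIntegral_congr_set Ioo_ae_eq_Ioc
  rw [e1, hF]
  simp only [sub_zero, add_zero, sub_self]
  have c1 : 1 < Real.cosh (2 * x) := by
    rw [Real.one_lt_cosh]
    exact mul_ne_zero (by norm_num) hx
  have hlg : ∀ b : ℝ, lg w x b = Real.log (Real.cosh (2 * x) - Real.cos (Real.pi * b / w))
      / (2 * Real.pi) := by
    intro b
    unfold lg
    have e3 : Real.pi * x / w = 2 * x := by rw [hwd]; field_simp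
    rw [e3]
  have b0 : Real.cos (Real.pi * 0 / w) = 1 := by simp
  have b2 : Real.cos (Real.pi * (Real.pi / 8 + Real.pi / 8) / w) = 0 := by
    have : Real.pi * (Real.pi / 8 + Real.pi / 8) / w = Real.pi / 2 := by
      rw [hwd]; field_simp; norm_num
    rw [this, Real.cos_pi_div_two]
  rw [hlg 0, hlg (Real.pi / 8 + Real.pi / 8), b0, b2]
  unfold e0
  rw [Real.log_div, sub_zero]
  · field_simp
    ring
  · linarith
  · linarith

end Strip

open Strip

theorem integrable_eps : Integrable eps := by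
  have h1 := (integrable_prod_rhoA.integral_prod_right).const_mul (2 * Real.pi)
  refine h1.congr ?_
  have h0 : ∀ᵐ x : ℝ, x ≠ 0 := by
    simp [ae_iff, measure_singleton]
  filter_upwards [h0] with x hx
  exact (eps_eq hx).symm

/-- The renewal identity of the energies. -/
theorem eps_conv (x : ℝ) (hx : x ≠ 0) : eps x = e0 x + ∫ t, K (x - t) * eps t := by
  obtain ⟨C, hC⟩ : ∃ C, ∀ y, |kK y| ≤ C := by
    have hp := Real.pi_pos
    obtain ⟨C1, h1⟩ := ker_bdd (w := Real.pi / 2) (b := Real.pi / 8) (by positivity)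
      (by linarith)
    obtain ⟨C2, h2⟩ := ker_bdd (w := Real.pi / 2) (b := Real.pi / 4) (by positivity)
      (by linarith)
    exact ⟨C1 + C2, fun y => (abs_sub _ _).trans (add_le_add (h1 y) (h2 y))⟩
  have hprod : Integrable (fun p : ℝ × ℝ => kK (x - p.2) * rhoA p.1 p.2) (nu.prod volume) := by
    refine Integrable.bdd_mul (c := C) integrable_prod_rhoA ?_ ?_
    · exact (continuous_kK.comp (by fun_prop)).aestronglyMeasurable
    · exact Eventually.of_forall fun p => by simpa using hC (x - p.2)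
  have h1 : ∫ a, (∫ t, kK (x - t) * rhoA a t) ∂nu
      = ∫ t, (∫ a, kK (x - t) * rhoA a t ∂nu) :=
    integral_integral_swap (f := fun a t => kK (x - t) * rhoA a t) hprod
  have h2 : ∫ a, (∫ t, kK (x - t) * rhoA a t) ∂nu
      = ∫ a, (rhoA a x - (1 / 2) * (Strip.ker (Real.pi / 2) (Real.pi / 8 - a) x
        + Strip.ker (Real.pi / 2) (Real.pi / 8 + a) x)) ∂nu := by
    refine integral_congr_ae ?_
    filter_upwards [nu_ae] with a ha
    exact renewal ha x
  have hp := Real.pi_pos
  have hk : ∀ (w : ℝ) (g : ℝ → ℝ), 0 < w → Continuous g → Continuous fun a => Strip.ker w (g a) x := by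
    intro w g hw hg
    unfold Strip.ker
    refine Continuous.div (by fun_prop) (by fun_prop) fun a => ?_
    exact mul_ne_zero (by positivity) (lg_pos hw hx (g a)).ne'
  have hnu : ∀ f : ℝ → ℝ, Continuous f → Integrable f nu := by
    intro f hf
    unfold nu
    exact (hf.integrableOn_Icc (a := 0) (b := Real.pi / 8)).mono_set Ioo_subset_Icc_self
  have w1 : 0 < 3 * Real.pi / 8 := by positivity
  have w2 : 0 < Real.pi / 2 := by positivity
  have i1 : Integrable (fun a => rhoA a x) nu := by
    refine hnu _ ?_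
    unfold rhoA
    exact ((((hk _ _ w1 (by fun_prop)).add (hk _ _ w1 (by fun_prop))).add
      (hk _ _ w1 (by fun_prop))).add (hk _ _ w1 (by fun_prop))).const_mul _
  have i2 : Integrable (fun a => (1 / 2) * (Strip.ker (Real.pi / 2) (Real.pi / 8 - a) x
        + Strip.ker (Real.pi / 2) (Real.pi / 8 + a) x)) nu :=
    hnu _ (((hk _ _ w2 (by fun_prop)).add (hk _ _ w2 (by fun_prop))).const_mul _)
  rw [integral_sub i1 i2] at h2
  have h3 : ∫ t, (∫ a, kK (x - t) * rhoA a t ∂nu) = ∫ t, kK (x - t) * (eps t / (2 * Real.pi)) := by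
    refine integral_congr_ae ?_
    have h0 : ∀ᵐ t : ℝ, t ≠ 0 := by
      simp [ae_iff, measure_singleton]
    filter_upwards [h0] with t ht
    rw [integral_const_mul, eps_eq ht]
    field_simp
  have h4 : ∫ t, kK (x - t) * (eps t / (2 * Real.pi)) = (∫ t, K (x - t) * eps t) / (2 * Real.pi) := by
    rw [K_eq, ← integral_div]
    congr 1
    funext t
    ring
  rw [eps_eq hx, e0_eq hx]
  rw [h1, h3, h4] at h2
  have h5 : (∫ t, K (x - t) * eps t) = 2 * Real.pi * ((∫ a, rhoA a x ∂nu)
      - ∫ a, (1 / 2) * (Strip.ker (Real.pi / 2) (Real.pi / 8 - a) x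
        + Strip.ker (Real.pi / 2) (Real.pi / 8 + a) x) ∂nu) := by
    rw [← h2]
    field_simp
  rw [h5]
  ring

end Pool.Agent.CYL
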