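import Pool.Agent.CYL.C.Strip3

/-!
# The renewal identity of the strip kernels (project CYL, part C)

`lam = pi / 8`, `K = ker (4 lam) lam - ker (4 lam) (2 lam)`,
`rhoA a = (1/2) (ker (3 lam) (lam - a) + ker (3 lam) (lam + a) + ker (3 lam) (2 lam - a)
  + ker (3 lam) (2 lam + a))`. For `|a| < lam`:
`int K (x - t) rhoA a t dt = rhoA a x - (1/2) (ker (4 lam) (lam - a) x + ker (4 lam) (lam + a) x)`.
-/

open MeasureTheory Set Filter Topology Real

namespace Pool.Agent.CYL.Strip

/-- The kernel `K`. -/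
noncomputable def kK (x : ℝ) : ℝ := ker (π / 2) (π / 8) x - ker (π / 2) (π / 4) x

/-- The shifted densities. -/
noncomputable def rhoA (a x : ℝ) : ℝ :=
  (1 / 2) * (ker (3 * π / 8) (π / 8 - a) x + ker (3 * π / 8) (π / 8 + a) x
    + ker (3 * π / 8) (π / 4 - a) x + ker (3 * π / 8) (π / 4 + a) x)

/-- The multiplier of `K`. -/
noncomputable def mK (om : ℝ) : ℝ := mult (π / 2) (π / 8) om - mult (π / 2) (π / 4) om

/-- The multiplier of `rhoA a`. -/
noncomputable def mR (a om : ℝ) : ℝ :=
  (1 / 2) * (mult (3 * π / 8) (π / 8 - a) om + mult (3 * π / 8) (π / 8 + a) om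
    + mult (3 * π / 8) (π / 4 - a) om + mult (3 * π / 8) (π / 4 + a) om)

theorem continuous_kK : Continuous kK :=
  (continuous_ker (by positivity) (by linarith [Real.pi_pos])).sub
    (continuous_ker (by positivity) (by linarith [Real.pi_pos]))

theorem integrable_kK : Integrable kK :=
  (integrable_ker (by positivity) (by linarith [Real.pi_pos])).sub
    (integrable_ker (by positivity) (by linarith [Real.pi_pos]))

theorem kK_neg (x : ℝ) : kK (-x) = kK x := by
  unfold kK
  rw [ker_neg, ker_neg]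

theorem integrable_mK : Integrable mK :=
  (integrable_mult (by positivity) (by linarith [Real.pi_pos])).sub
    (integrable_mult (by positivity) (by linarith [Real.pi_pos]))

theorem mK_cos (x : ℝ) : 2 * π * kK x = ∫ om, Real.cos (om * x) * mK om := by
  unfold kK mK
  simp only [mul_sub]
  have h1 : (0:ℝ) < π / 8 := by positivity
  have h2 : π / 8 < 2 * (π / 2) := by linarith [Real.pi_pos]
  have h3 : (0:ℝ) < π / 4 := by positivity
  have h4 : π / 4 < 2 * (π / 2) := by linarith [Real.pi_pos]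
  rw [integral_sub (integrable_cos_mul (integrable_mult h1 h2) x)
    (integrable_cos_mul (integrable_mult h3 h4) x), cos_mult h1 h2, cos_mult h3 h4]

theorem integral_kK : ∫ x, kK x = 1 / 4 := by
  have h1 : (0:ℝ) < π / 8 := by positivity
  have h2 : π / 8 < 2 * (π / 2) := by linarith [Real.pi_pos]
  have h3 : (0:ℝ) < π / 4 := by positivity
  have h4 : π / 4 < 2 * (π / 2) := by linarith [Real.pi_pos]
  have e1 := cos_ker h1 h2 0
  have e2 := cos_ker h3 h4 0
  simp only [zero_mul, Real.cos_zero, one_mul] at e1 e2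
  unfold kK
  rw [integral_sub (integrable_ker h1 h2) (integrable_ker h3 h4), e1, e2]
  unfold mult
  rw [if_pos rfl, if_pos rfl]
  have := Real.pi_pos.ne'
  field_simp
  norm_num

section Shift

variable {a : ℝ} (ha : |a| < π / 8)

include ha

theorem rg1 : 0 < π / 8 - a := by have := abs_lt.1 ha; linarith
theorem rg2 : π / 8 - a < 2 * (3 * π / 8) := by have := abs_lt.1 ha; linarith
theorem rg3 : 0 < π / 8 + a := by have := abs_lt.1 ha; linarith
theorem rg4 : π / 8 + a < 2 * (3 * π / 8) := by have := abs_lt.1 ha; linarith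
theorem rg5 : 0 < π / 4 - a := by have := abs_lt.1 ha; linarith
theorem rg6 : π / 4 - a < 2 * (3 * π / 8) := by have := abs_lt.1 ha; linarith
theorem rg7 : 0 < π / 4 + a := by have := abs_lt.1 ha; linarith
theorem rg8 : π / 4 + a < 2 * (3 * π / 8) := by have := abs_lt.1 ha; linarith
theorem rg9 : π / 8 - a < 2 * (π / 2) := by have := abs_lt.1 ha; linarith
theorem rg10 : π / 8 + a < 2 * (π / 2) := by have := abs_lt.1 ha; linarith

theorem continuous_rhoA : Continuous (rhoA a) := by
  unfold rhoA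
  exact ((((continuous_ker (rg1 ha) (rg2 ha)).add (continuous_ker (rg3 ha) (rg4 ha))).add
    (continuous_ker (rg5 ha) (rg6 ha))).add (continuous_ker (rg7 ha) (rg8 ha))).const_mul _

theorem integrable_rhoA : Integrable (rhoA a) := by
  unfold rhoA
  exact ((((integrable_ker (rg1 ha) (rg2 ha)).add (integrable_ker (rg3 ha) (rg4 ha))).add
    (integrable_ker (rg5 ha) (rg6 ha))).add (integrable_ker (rg7 ha) (rg8 ha))).const_mul _

omit ha in
theorem rhoA_neg (x : ℝ) : rhoA a (-x) = rhoA a x := by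
  unfold rhoA
  rw [ker_neg, ker_neg, ker_neg, ker_neg]

theorem integrable_mR : Integrable (mR a) := by
  unfold mR
  exact ((((integrable_mult (rg1 ha) (rg2 ha)).add (integrable_mult (rg3 ha) (rg4 ha))).add
    (integrable_mult (rg5 ha) (rg6 ha))).add (integrable_mult (rg7 ha) (rg8 ha))).const_mul _

theorem cos_rhoA (om : ℝ) : ∫ x, Real.cos (om * x) * rhoA a x = mR a om := by
  have hi : ∀ {w b : ℝ}, 0 < b → b < 2 * w →
      Integrable fun x => Real.cos (om * x) * ker w b x := by
    intro w b hb hb2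
    have := integrable_cos_mul (integrable_ker hb hb2) om
    simpa [mul_comm] using this
  have e : ∀ x, Real.cos (om * x) * rhoA a x
      = (1 / 2) * (Real.cos (om * x) * ker (3 * π / 8) (π / 8 - a) x
        + Real.cos (om * x) * ker (3 * π / 8) (π / 8 + a) x
        + Real.cos (om * x) * ker (3 * π / 8) (π / 4 - a) x
        + Real.cos (om * x) * ker (3 * π / 8) (π / 4 + a) x) := by
    intro x
    unfold rhoA
    ring
  simp only [e]
  rw [integral_const_mul, integral_add, integral_add, integral_add,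
    cos_ker (rg1 ha) (rg2 ha), cos_ker (rg3 ha) (rg4 ha), cos_ker (rg5 ha) (rg6 ha),
    cos_ker (rg7 ha) (rg8 ha)]
  · rfl
  · exact hi (rg1 ha) (rg2 ha)
  · exact hi (rg3 ha) (rg4 ha)
  · exact (hi (rg1 ha) (rg2 ha)).add (hi (rg3 ha) (rg4 ha))
  · exact hi (rg5 ha) (rg6 ha)
  · exact ((hi (rg1 ha) (rg2 ha)).add (hi (rg3 ha) (rg4 ha))).add (hi (rg5 ha) (rg6 ha))
  · exact hi (rg7 ha) (rg8 ha)

theorem mR_cos (x : ℝ) : ∫ om, Real.cos (om * x) * mR a om = 2 * π * rhoA a x := by
  have hi : ∀ {w b : ℝ}, 0 < b → b < 2 * w →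
      Integrable fun om => Real.cos (om * x) * mult w b om := by
    intro w b hb hb2
    exact integrable_cos_mul (integrable_mult hb hb2) x
  have e : ∀ om, Real.cos (om * x) * mR a om
      = (1 / 2) * (Real.cos (om * x) * mult (3 * π / 8) (π / 8 - a) om
        + Real.cos (om * x) * mult (3 * π / 8) (π / 8 + a) om
        + Real.cos (om * x) * mult (3 * π / 8) (π / 4 - a) om
        + Real.cos (om * x) * mult (3 * π / 8) (π / 4 + a) om) := by
    intro om
    unfold mR
    ring
  simp only [e]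
  rw [integral_const_mul, integral_add, integral_add, integral_add,
    cos_mult (rg1 ha) (rg2 ha), cos_mult (rg3 ha) (rg4 ha), cos_mult (rg5 ha) (rg6 ha),
    cos_mult (rg7 ha) (rg8 ha)]
  · unfold rhoA
    ring
  · exact hi (rg1 ha) (rg2 ha)
  · exact hi (rg3 ha) (rg4 ha)
  · exact (hi (rg1 ha) (rg2 ha)).add (hi (rg3 ha) (rg4 ha))
  · exact hi (rg5 ha) (rg6 ha)
  · exact ((hi (rg1 ha) (rg2 ha)).add (hi (rg3 ha) (rg4 ha))).add (hi (rg5 ha) (rg6 ha))
  · exact hi (rg7 ha) (rg8 ha)

end Shift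

/-- The algebraic identity of the multipliers. -/
theorem mult_identity (a : ℝ) {om : ℝ} (hom : om ≠ 0) :
    mK om * mR a om = mR a om
      - (1 / 2) * (mult (π / 2) (π / 8 - a) om + mult (π / 2) (π / 8 + a) om) := by
  unfold mK mR
  simp only [mult_eq hom]
  set s : ℝ := π / 8 * om with hs
  set u : ℝ := a * om with hu
  have hs0 : s ≠ 0 := mul_ne_zero (by positivity) hom
  have e1 : (π / 2 - π / 8) * om = 3 * s := by rw [hs]; ring
  have e2 : π / 2 * om = 4 * s := by rw [hs]; ring
  have e3 : (π / 2 - π / 4) * om = 2 * s := by rw [hs]; ring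
  have e4 : (3 * π / 8 - (π / 8 - a)) * om = 2 * s + u := by rw [hs, hu]; ring
  have e5 : (3 * π / 8 - (π / 8 + a)) * om = 2 * s - u := by rw [hs, hu]; ring
  have e6 : (3 * π / 8 - (π / 4 - a)) * om = s + u := by rw [hs, hu]; ring
  have e7 : (3 * π / 8 - (π / 4 + a)) * om = s - u := by rw [hs, hu]; ring
  have e8 : 3 * π / 8 * om = 3 * s := by rw [hs]; ring
  have e9 : (π / 2 - (π / 8 - a)) * om = 3 * s + u := by rw [hs, hu]; ring
  have e10 : (π / 2 - (π / 8 + a)) * om = 3 * s - u := by rw [hs, hu]; ring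
  rw [e1, e2, e3, e4, e5, e6, e7, e8, e9, e10]
  have h4 : Real.sinh (4 * s) ≠ 0 := by
    rw [Real.sinh_ne_zero]; exact mul_ne_zero (by norm_num) hs0
  have h3 : Real.sinh (3 * s) ≠ 0 := by
    rw [Real.sinh_ne_zero]; exact mul_ne_zero (by norm_num) hs0
  have key : (Real.sinh (3 * s) - Real.sinh (2 * s)) * (Real.sinh (2 * s) + Real.sinh s)
      = Real.sinh (4 * s) * (Real.sinh (2 * s) + Real.sinh s) - Real.sinh (3 * s) ^ 2 := by
    have x1 : Real.sinh (4 * s) = 2 * Real.sinh (2 * s) * Real.cosh (2 * s) := by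
      rw [show 4 * s = 2 * (2 * s) by ring, Real.sinh_two_mul]
    have x2 : Real.sinh (3 * s) = 4 * Real.sinh s ^ 3 + 3 * Real.sinh s := Real.sinh_three_mul s
    rw [x1, x2, Real.sinh_two_mul, Real.cosh_two_mul]
    have x3 : Real.cosh s ^ 2 = Real.sinh s ^ 2 + 1 := Real.cosh_sq s
    have x4 : Real.cosh s ^ 3 = Real.cosh s * (Real.sinh s ^ 2 + 1) := by
      rw [← x3]; ring
    have x5 : Real.cosh s ^ 4 = (Real.sinh s ^ 2 + 1) ^ 2 := by
      rw [← x3]; ring
    ring_nf
    simp only [x3, x4, x5]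
    ring
  have a1 : Real.sinh (2 * s + u) + Real.sinh (2 * s - u) = 2 * Real.sinh (2 * s) * Real.cosh u := by
    rw [Real.sinh_add, Real.sinh_sub]; ring
  have a2 : Real.sinh (s + u) + Real.sinh (s - u) = 2 * Real.sinh s * Real.cosh u := by
    rw [Real.sinh_add, Real.sinh_sub]; ring
  have a3 : Real.sinh (3 * s + u) + Real.sinh (3 * s - u) = 2 * Real.sinh (3 * s) * Real.cosh u := by
    rw [Real.sinh_add, Real.sinh_sub]; ring
  have b1 : Real.sinh (2 * s + u) / Real.sinh (3 * s) + Real.sinh (2 * s - u) / Real.sinh (3 * s)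
      + Real.sinh (s + u) / Real.sinh (3 * s) + Real.sinh (s - u) / Real.sinh (3 * s)
      = 2 * Real.cosh u * (Real.sinh (2 * s) + Real.sinh s) / Real.sinh (3 * s) := by
    rw [← add_div, a1, add_assoc, ← add_div, a2, ← add_div]
    congr 1
    ring
  have b2 : Real.sinh (3 * s + u) / Real.sinh (4 * s) + Real.sinh (3 * s - u) / Real.sinh (4 * s)
      = 2 * Real.cosh u * Real.sinh (3 * s) / Real.sinh (4 * s) := by
    rw [← add_div, a3]
    congr 1
    ring
  rw [b1, b2]
  clear b1 b2 a1 a2 a3 e1 e2 e3 e4 e5 e6 e7 e8 e9 e10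
  revert key h3 h4
  generalize Real.sinh (4 * s) = S4
  generalize Real.sinh (3 * s) = S3
  generalize Real.sinh (2 * s) = S2
  generalize Real.sinh s = S1
  generalize Real.cosh u = c
  intro h4 h3 key
  field_simp
  linear_combination c * key

/-- The renewal identity. -/
theorem renewal {a : ℝ} (ha : |a| < π / 8) (x : ℝ) :
    ∫ t, kK (x - t) * rhoA a t
      = rhoA a x - (1 / 2) * (ker (π / 2) (π / 8 - a) x + ker (π / 2) (π / 8 + a) x) := by
  have h := cos_convolution integrable_mK mK_cos (integrable_rhoA ha) rhoA_neg (cos_rhoA ha) x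
  have e : ∀ᵐ om : ℝ, Real.cos (om * x) * (mK om * mR a om)
      = Real.cos (om * x) * mR a om
        - (1 / 2) * (Real.cos (om * x) * mult (π / 2) (π / 8 - a) om
          + Real.cos (om * x) * mult (π / 2) (π / 8 + a) om) := by
    have h0 : ∀ᵐ om : ℝ, om ≠ 0 := by
      simp [ae_iff, measure_singleton]
    filter_upwards [h0] with om hom
    rw [mult_identity a hom]
    ring
  have i1 := integrable_cos_mul (integrable_mult (rg1 ha) (rg9 ha)) x
  have i2 := integrable_cos_mul (integrable_mult (rg3 ha) (rg10 ha)) x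
  have i3 : Integrable fun om : ℝ => (1 / 2) * (Real.cos (om * x) * mult (π / 2) (π / 8 - a) om
      + Real.cos (om * x) * mult (π / 2) (π / 8 + a) om) := (i1.add i2).const_mul (1 / 2)
  rw [integral_congr_ae e, integral_sub (integrable_cos_mul (integrable_mR ha) x)
    i3, integral_const_mul, integral_add i1 i2, mR_cos ha,
    cos_mult (rg1 ha) (rg9 ha), cos_mult (rg3 ha) (rg10 ha)] at h
  have hp : (2 * π : ℝ) ≠ 0 := by positivity
  refine mul_left_cancel₀ hp ?_
  rw [h]
  ring

end Pool.Agent.CYL.Strip
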