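import Pool.Agent.CYL.C.Defs
import Pool.Agent.CYL.C.Strip4

/-!
# Identities of the density and of its primitive (project CYL, part C)

`rho_conv`, `R_conv`, `integral_K`.
-/

open MeasureTheory Set Filter Topology

namespace Pool.Agent.CYL

namespace Strip

theorem pk_eq_ker (a x : ℝ) : pk a x = ker (Real.pi / 2) a x := by
  unfold pk ker
  have hp := Real.pi_pos.ne'
  have e1 : Real.pi * a / (Real.pi / 2) = 2 * a := by field_simp
  have e2 : Real.pi * x / (Real.pi / 2) = 2 * x := by field_simp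
  have e3 : 2 * (Real.pi / 2) = Real.pi := by ring
  rw [e1, e2, e3]

theorem K_eq_kK (x : ℝ) : K x = kK x := by
  unfold K kK
  rw [pk_eq_ker, pk_eq_ker]

theorem K_eq : K = kK := funext K_eq_kK

theorem rho_eq_rhoA (x : ℝ) : rho x = rhoA 0 x := by
  unfold rho rhoA ker
  have hp := Real.pi_pos.ne'
  simp only [sub_zero, add_zero]
  have e1 : Real.pi * (Real.pi / 8) / (3 * Real.pi / 8) = Real.pi / 3 := by field_simp
  have e2 : Real.pi * (Real.pi / 4) / (3 * Real.pi / 8) = Real.pi - Real.pi / 3 := by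
    field_simp; ring
  have e3 : Real.pi * x / (3 * Real.pi / 8) = 8 / 3 * x := by field_simp
  have e4 : (16:ℝ) / 3 * x = 2 * (8 / 3 * x) := by ring
  rw [e1, e2, e3, e4, Real.sin_pi_sub, Real.cos_pi_sub, Real.sin_pi_div_three,
    Real.cos_pi_div_three, Real.cosh_two_mul, Real.sinh_sq]
  have h1 := Real.one_le_cosh (8 / 3 * x)
  have h2 : Real.cosh (8 / 3 * x) - 1 / 2 ≠ 0 := by linarith
  have h3 : Real.cosh (8 / 3 * x) + 1 / 2 ≠ 0 := by
    have : 0 < Real.cosh (8 / 3 * x) + 1 / 2 := by linarith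
    exact this.ne'
  have h5 : Real.cosh (8 / 3 * x) ^ 2 + (Real.cosh (8 / 3 * x) ^ 2 - 1) + 1 / 2
      = 2 * ((Real.cosh (8 / 3 * x) - 1 / 2) * (Real.cosh (8 / 3 * x) + 1 / 2)) := by ring
  have h6 : Real.cosh (8 / 3 * x) = ((Real.cosh (8 / 3 * x) - 1 / 2)
      + (Real.cosh (8 / 3 * x) + 1 / 2)) / 2 := by ring
  rw [h5, sub_neg_eq_add]
  revert h2 h3 h6
  generalize Real.cosh (8 / 3 * x) - 1 / 2 = A
  generalize Real.cosh (8 / 3 * x) + 1 / 2 = B
  intro h2 h3 h6
  rw [h6]
  field_simp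
  ring

theorem rho_eq : rho = rhoA 0 := funext rho_eq_rhoA

theorem zero_lt : |(0:ℝ)| < Real.pi / 8 := by
  rw [abs_zero]; positivity

theorem continuous_rho' : Continuous rho := by
  rw [rho_eq]; exact continuous_rhoA zero_lt

theorem integrable_rho' : Integrable rho := by
  rw [rho_eq]; exact integrable_rhoA zero_lt

theorem ker_bdd {w b : ℝ} (hb : 0 < b) (hb2 : b < 2 * w) : ∃ C, ∀ x, |ker w b x| ≤ C := by
  have hw : 0 < w := by linarith
  have hc := cos_lt_one hb hb2
  have hc1 : 0 < 1 - max (Real.cos (Real.pi * b / w)) 0 := by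
    have : max (Real.cos (Real.pi * b / w)) 0 < 1 := max_lt hc one_pos
    linarith
  refine ⟨1 / (w * (1 - max (Real.cos (Real.pi * b / w)) 0)), fun x => ?_⟩
  refine (abs_ker_le hb hb2 x).trans ?_
  have h1 : Real.exp (-(Real.pi / w * |x|)) ≤ 1 := by
    rw [Real.exp_le_one_iff]
    have : 0 ≤ Real.pi / w * |x| := by positivity
    linarith
  exact mul_le_of_le_one_right (by positivity) h1

theorem rho_bdd : ∃ C, ∀ x, |rho x| ≤ C := by
  have hp := Real.pi_pos
  obtain ⟨C1, h1⟩ := ker_bdd (w := 3 * Real.pi / 8) (b := Real.pi / 8) (by positivity)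
    (by linarith)
  obtain ⟨C2, h2⟩ := ker_bdd (w := 3 * Real.pi / 8) (b := Real.pi / 4) (by positivity)
    (by linarith)
  refine ⟨C1 + C2, fun x => ?_⟩
  have e : rho x = ker (3 * Real.pi / 8) (Real.pi / 8) x + ker (3 * Real.pi / 8) (Real.pi / 4) x := by
    rw [rho_eq_rhoA]
    unfold rhoA
    simp only [sub_zero, add_zero]
    ring
  rw [e]
  exact (abs_add_le _ _).trans (add_le_add (h1 x) (h2 x))

theorem hasDerivAt_R' (x : ℝ) : HasDerivAt R (rho x) x := by
  have hp := Real.pi_pos.ne'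
  have hs : Real.sqrt 3 ≠ 0 := by positivity
  have h1 : HasDerivAt (fun y : ℝ => 8 / 3 * y) (8 / 3) x := by
    simpa using (hasDerivAt_id x).const_mul (8 / 3 : ℝ)
  have h2 : HasDerivAt (fun y : ℝ => 2 * Real.sinh (8 / 3 * y) / Real.sqrt 3)
      (2 * (Real.cosh (8 / 3 * x) * (8 / 3)) / Real.sqrt 3) x :=
    (h1.sinh.const_mul 2).div_const _
  have h3 := (h2.arctan).div_const Real.pi
  have e : 1 / (1 + (2 * Real.sinh (8 / 3 * x) / Real.sqrt 3) ^ 2)
      * (2 * (Real.cosh (8 / 3 * x) * (8 / 3)) / Real.sqrt 3) / Real.pi = rho x := by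
    unfold rho
    have e4 : (16:ℝ) / 3 * x = 2 * (8 / 3 * x) := by ring
    rw [e4, Real.cosh_two_mul, Real.cosh_sq]
    have hq : Real.sqrt 3 ^ 2 = 3 := Real.sq_sqrt (by norm_num)
    rw [div_pow, hq]
    set s := Real.sinh (8 / 3 * x)
    set c := Real.cosh (8 / 3 * x)
    have h5 : (1 + (2 * s) ^ 2 / 3) ≠ 0 := by positivity
    have h6 : s ^ 2 + 1 + s ^ 2 + 1 / 2 ≠ 0 := by positivity
    have hq2 : Real.sqrt 3 * Real.sqrt 3 = 3 := Real.mul_self_sqrt (by norm_num)
    have h7 : (1 + (2 * s) ^ 2 / 3) = (4 * s ^ 2 + 3) / 3 := by ring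
    have h8 : s ^ 2 + 1 + s ^ 2 + 1 / 2 = (4 * s ^ 2 + 3) / 2 := by ring
    rw [h7, h8]
    have h9 : 4 * s ^ 2 + 3 ≠ 0 := by positivity
    field_simp
    rw [hq]
    ring
  rw [e] at h3
  exact h3

theorem hasDerivAt_Ph' {a : ℝ} (ha : Real.sin a ≠ 0) (x : ℝ) : HasDerivAt (Ph a) (pk a x) x := by
  have hp := Real.pi_pos.ne'
  have hc := (Real.cosh_pos x).ne'
  have h1 : HasDerivAt Real.tanh (1 / Real.cosh x ^ 2) x := by
    have h2 := (Real.hasDerivAt_sinh x).div (Real.hasDerivAt_cosh x) hc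
    have e : (Real.cosh x * Real.cosh x - Real.sinh x * Real.sinh x) / Real.cosh x ^ 2
        = 1 / Real.cosh x ^ 2 := by
      congr 1
      have := Real.cosh_sq x
      nlinarith
    rw [e] at h2
    refine h2.congr_of_eventuallyEq (Eventually.of_forall fun y => ?_)
    exact Real.tanh_eq_sinh_div_cosh y
  have h3 := ((h1.const_mul (Real.cos a / Real.sin a)).arctan).div_const Real.pi
  have e : 1 / (1 + (Real.cos a / Real.sin a * Real.tanh x) ^ 2)
      * (Real.cos a / Real.sin a * (1 / Real.cosh x ^ 2)) / Real.pi = pk a x := by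
    unfold pk
    rw [Real.tanh_eq_sinh_div_cosh, Real.sin_two_mul, Real.cos_two_mul, Real.cosh_two_mul]
    have e1 := Real.cosh_sq x
    have e2 := Real.sin_sq_add_cos_sq a
    have e3 : Real.cos a ^ 2 = 1 - Real.sin a ^ 2 := by linarith
    have h5 : 0 < Real.sin a ^ 2 := by positivity
    have h6 : 0 < Real.sinh x ^ 2 + Real.sin a ^ 2 := by positivity
    have e4 : Real.cosh x ^ 2 + Real.sinh x ^ 2 - (2 * Real.cos a ^ 2 - 1)
        = 2 * (Real.sinh x ^ 2 + Real.sin a ^ 2) := by
      rw [e3, e1]; ring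
    have e5 : 1 + (Real.cos a / Real.sin a * (Real.sinh x / Real.cosh x)) ^ 2
        = (Real.sinh x ^ 2 + Real.sin a ^ 2) / (Real.sin a ^ 2 * Real.cosh x ^ 2) := by
      field_simp
      rw [e3, e1]
      ring
    rw [e4, e5]
    field_simp
  rw [e] at h3
  exact h3

theorem sin_pi8 : Real.sin (Real.pi / 8) ≠ 0 :=
  (Real.sin_pos_of_pos_of_lt_pi (by positivity) (by linarith [Real.pi_pos])).ne'

theorem R_neg' (x : ℝ) : R (-x) = -R x := by
  unfold R
  rw [mul_neg, Real.sinh_neg, mul_neg, neg_div, Real.arctan_neg, neg_div]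

theorem Ph_neg' (a x : ℝ) : Ph a (-x) = -Ph a x := by
  unfold Ph
  rw [Real.tanh_neg, mul_neg, Real.arctan_neg, neg_div]

theorem continuous_R' : Continuous R :=
  continuous_iff_continuousAt.2 fun x => (hasDerivAt_R' x).continuousAt

theorem R_bdd (x : ℝ) : |R x| ≤ 1 / 2 := by
  unfold R
  rw [abs_div, abs_of_pos Real.pi_pos, div_le_iff₀ Real.pi_pos]
  have h1 := Real.neg_pi_div_two_lt_arctan (2 * Real.sinh (8 / 3 * x) / Real.sqrt 3)
  have h2 := Real.arctan_lt_pi_div_two (2 * Real.sinh (8 / 3 * x) / Real.sqrt 3)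
  rw [abs_le]
  constructor <;> linarith

/-- Derivative of the convolution `K * R`. -/
theorem hasDerivAt_conv (x : ℝ) :
    HasDerivAt (fun y => ∫ t, kK t * R (y - t)) (∫ t, kK t * rho (x - t)) x := by
  obtain ⟨C, hC⟩ := rho_bdd
  have hC0 : 0 ≤ C := (abs_nonneg _).trans (hC 0)
  refine (hasDerivAt_integral_of_dominated_loc_of_deriv_le (μ := volume) (s := univ)
    (F := fun y t => kK t * R (y - t)) (F' := fun y t => kK t * rho (y - t))
    (bound := fun t => |kK t| * C) univ_mem ?_ ?_ ?_ ?_ ?_ ?_).2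
  · refine Eventually.of_forall fun y => ?_
    exact (continuous_kK.mul (continuous_R'.comp (by fun_prop))).aestronglyMeasurable
  · refine Integrable.mul_bdd (c := 1 / 2) integrable_kK ?_ ?_
    · exact (continuous_R'.comp (by fun_prop)).aestronglyMeasurable
    · exact Eventually.of_forall fun t => by simpa using R_bdd (x - t)
  · exact (continuous_kK.mul (continuous_rho'.comp (by fun_prop))).aestronglyMeasurable
  · refine Eventually.of_forall fun t y _ => ?_
    rw [norm_mul, Real.norm_eq_abs, Real.norm_eq_abs]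
    exact mul_le_mul_of_nonneg_left (hC _) (abs_nonneg _)
  · exact integrable_kK.abs.mul_const C
  · refine Eventually.of_forall fun t y _ => ?_
    have h1 : HasDerivAt (fun y : ℝ => y - t) 1 y := (hasDerivAt_id y).sub_const t
    have h2 := (hasDerivAt_R' (y - t)).comp y h1
    rw [mul_one] at h2
    exact h2.const_mul (kK t)

end Strip

open Strip

/-- The renewal identity of the density. -/
theorem rho_conv (x : ℝ) : rho x = pk (Real.pi / 8) x + ∫ t, K (x - t) * rho t := by
  have h := renewal zero_lt x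
  rw [K_eq, rho_eq, h, pk_eq_ker]
  simp only [sub_zero, add_zero]
  ring

theorem integral_K : ∫ x, K x = 1 / 4 := by
  rw [K_eq]
  exact integral_kK

theorem Strip.integrable_K' : Integrable K := by
  rw [K_eq]
  exact integrable_kK

theorem Strip.conv_flip (f : ℝ → ℝ) (x : ℝ) : ∫ t, K (x - t) * f t = ∫ t, kK t * f (x - t) := by
  rw [K_eq]
  have h := integral_sub_left_eq_self (fun t => kK t * f (x - t)) volume x
  rw [← h]
  congr 1
  funext t
  rw [sub_sub_cancel]

/-- The renewal identity of the primitive. -/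
theorem R_conv (x : ℝ) : R x = Ph (Real.pi / 8) x + ∫ t, K (x - t) * R t := by
  set D : ℝ → ℝ := fun y => R y - Ph (Real.pi / 8) y - ∫ t, kK t * R (y - t) with hD
  have h1 : ∀ y, HasDerivAt D 0 y := by
    intro y
    have h2 := ((hasDerivAt_R' y).sub (hasDerivAt_Ph' sin_pi8 y)).sub (hasDerivAt_conv y)
    have e : rho y - pk (Real.pi / 8) y - ∫ t, kK t * rho (y - t) = 0 := by
      have h3 := rho_conv y
      rw [conv_flip] at h3
      linarith
    rw [e] at h2
    exact h2
  have h2 : D x = D 0 := by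
    refine is_const_of_deriv_eq_zero (fun y => (h1 y).differentiableAt) (fun y => (h1 y).deriv) _ _
  have h3 : D 0 = 0 := by
    rw [hD]
    have e1 : R 0 = 0 := by
      have := R_neg' 0
      rw [neg_zero] at this
      linarith
    have e2 : Ph (Real.pi / 8) 0 = 0 := by
      have := Ph_neg' (Real.pi / 8) 0
      rw [neg_zero] at this
      linarith
    have e3 : ∫ t, kK t * R (0 - t) = 0 := by
      refine integral_odd_eq_zero fun t => ?_
      rw [kK_neg, sub_neg_eq_add, zero_add, zero_sub, R_neg']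
      ring
    simp only [e1, e2, e3]
    ring
  rw [conv_flip]
  rw [h3, hD] at h2
  simp only at h2
  linarith

end Pool.Agent.CYL
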