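import Pool.Agent.CYL.C.Defs
import Pool.Agent.CYL.C.KerRho
import Pool.Agent.CYL.C.KerEps
import Pool.Agent.CYL.C.KerAbs

/-!
# Kernel identities (owner: helper51)

Collecting file. In the namespace `Pool.Agent.CYL`:

* `rho_conv`, `R_conv`, `integral_K` (file `KerRho`);
* `integrable_eps`, `eps_conv` (file `KerEps`);
* `integral_abs_K` (file `KerAbs`, helper83).
-/
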