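import Pool.Agent.CYL.C.EnEps
import Pool.Agent.CYL.C.Ker
import Pool.Agent.CYL.C.Bas

/-!
# CYL, part C: `sum_j e0 (x j)` in terms of the dressed energy

For `x j <> 0`: `e0 (x j) = eps (x j) - INT K (x j - t) eps t` (`eps_conv`). A root is 0 iff `m` is odd
(then it is the middle one; `symm`, `mono`); for it `e0 0 = eps 0 = 0` in Lean, so one adds
`INT K (0 - t) eps t = INT K t eps t`. And `sum_j K (x j - t) = dz t - L pk (pi/8) t` (`K` even).
-/

open Filter Topology MeasureTheory

namespace Pool.Agent.CYL.Roots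

variable {l : ℕ} (r : Roots l)

theorem root_zero_iff (j : Fin r.m) : r.x j = 0 ↔ (2 * (j : ℕ) + 1 = r.m) := by
  have hj := j.2
  constructor
  · intro h
    have h1 : r.x (Fin.rev j) = r.x j := by rw [r.symm, h, neg_zero]
    have h2 := congrArg Fin.val (r.mono.injective h1)
    rw [Fin.val_rev] at h2
    omega
  · intro h
    have h1 : Fin.rev j = j := by
      apply Fin.ext
      rw [Fin.val_rev]
      omega
    have h2 := r.symm j
    rw [h1] at h2
    linarith

theorem integrable_eps_dz : Integrable (fun t => eps t * r.dz t) := by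
  obtain ⟨C, -, hC⟩ := dz_upper l
  refine Integrable.mul_bdd (c := C * ((r.L : ℝ) + 1)) integrable_eps
    r.continuous_dz.aestronglyMeasurable (Eventually.of_forall fun t => ?_)
  rw [Real.norm_eq_abs]
  exact hC r t

theorem integrable_eps_pk : Integrable (fun t => eps t * pk (Real.pi / 8) t) := by
  have h8 : 0 < Real.pi / 8 := by positivity
  have h8' : Real.pi / 8 < Real.pi := by linarith [Real.pi_pos]
  obtain ⟨C, hC0, hC⟩ := pk_bound (Real.pi / 8) h8 h8' 0
  refine Integrable.mul_bdd (c := C) integrable_eps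
    (contDiff_pk _ h8 h8').continuous.aestronglyMeasurable (Eventually.of_forall fun t => ?_)
  have h1 := hC t
  rw [iteratedDeriv_zero] at h1
  rw [Real.norm_eq_abs]
  refine h1.trans (mul_le_of_le_one_right hC0 ?_)
  rw [Real.exp_le_one_iff]
  have := abs_nonneg t
  linarith

private theorem EnFub_e0 : e0 0 = 0 := by
  unfold e0
  simp

private theorem EnFub_eps : eps 0 = 0 := by
  unfold eps
  simp

private theorem EnFub_int (y : ℝ) : Integrable fun t => K (y - t) * eps t := by
  obtain ⟨C, hC0, hC⟩ := K_bound 0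
  refine Integrable.bdd_mul (c := C) integrable_eps
    (contDiff_K.continuous.comp (by fun_prop : Continuous fun t : ℝ => y - t)).aestronglyMeasurable
    (Eventually.of_forall fun t => ?_)
  have h1 := hC (y - t)
  rw [iteratedDeriv_zero] at h1
  rw [Real.norm_eq_abs]
  refine h1.trans (mul_le_of_le_one_right hC0 ?_)
  rw [Real.exp_le_one_iff]
  have := abs_nonneg (y - t)
  linarith

private theorem EnFub_pt (j : Fin r.m) : e0 (r.x j) = eps (r.x j) - (∫ t, K (r.x j - t) * eps t) +
    if 2 * (j : ℕ) + 1 = r.m then ∫ t, K t * eps t else 0 := by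
  by_cases h : r.x j = 0
  · rw [if_pos ((r.root_zero_iff j).1 h), h, EnFub_e0, EnFub_eps]
    have : ∀ t, K (0 - t) * eps t = K t * eps t := by
      intro t
      rw [zero_sub, K_neg]
    simp_rw [this]
    ring
  · rw [if_neg fun h1 => h ((r.root_zero_iff j).2 h1), eps_conv _ h]
    ring

private theorem EnFub_count (c : ℝ) : ∑ j : Fin r.m, (if 2 * (j : ℕ) + 1 = r.m then c else 0) =
    if Even r.m then 0 else c := by
  by_cases h : Even r.m
  · rw [if_pos h]
    refine Finset.sum_eq_zero fun j _ => if_neg fun h1 => ?_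
    obtain ⟨k, hk⟩ := h
    omega
  · rw [if_neg h]
    obtain ⟨k, hk⟩ := Nat.not_even_iff_odd.1 h
    have hlt : k < r.m := by omega
    rw [Finset.sum_eq_single (⟨k, hlt⟩ : Fin r.m)]
    · rw [if_pos]
      show 2 * k + 1 = r.m
      omega
    · intro j _ hj
      refine if_neg fun h1 => hj (Fin.ext ?_)
      show (j : ℕ) = k
      omega
    · intro h1
      exact absurd (Finset.mem_univ _) h1

theorem sum_e0 : ∑ j, e0 (r.x j) = ∑ j, eps (r.x j) - (∫ t, eps t * r.dz t)
    + (r.L : ℝ) * (∫ t, eps t * pk (Real.pi / 8) t)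
    + (if Even r.m then 0 else ∫ t, K t * eps t) := by
  have h1 : ∑ j, (∫ t, K (r.x j - t) * eps t) =
      (∫ t, eps t * r.dz t) - (r.L : ℝ) * (∫ t, eps t * pk (Real.pi / 8) t) := by
    rw [← integral_finsetSum _ fun j _ => EnFub_int (r.x j), ← integral_const_mul,
      ← integral_sub r.integrable_eps_dz (integrable_eps_pk.const_mul _)]
    refine integral_congr_ae (Eventually.of_forall fun t => ?_)
    show ∑ j, K (r.x j - t) * eps t = eps t * r.dz t - (r.L : ℝ) * (eps t * pk (Real.pi / 8) t)
    have h2 : ∀ j, K (r.x j - t) = K (t - r.x j) := by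
      intro j
      rw [← K_neg, neg_sub]
    simp_rw [h2]
    rw [← Finset.sum_mul]
    unfold dz
    ring
  simp_rw [EnFub_pt]
  rw [Finset.sum_add_distrib, Finset.sum_sub_distrib, EnFub_count, h1]
  ring

end Pool.Agent.CYL.Roots
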