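import Pool.Agent.CYL.C.EnEps
import Pool.Agent.CYL.C.EnCot
import Pool.Agent.CYL.C.Bas
import Pool.Agent.CYL.C.Ker

/-!
# CYL, part C: integration by parts of `eps dz`

`eps z` is odd... both integrands `deps z`, `eps dz` are even; on `(0, oo)` the function
`eps z` has derivative `deps z + eps dz` (`hasDerivAt_eps` of file Hf), tends to 0 at 0+
(`|z x| <= C |x|` and `x log x -> 0`) and at infinity (`z` bounded, `eps -> 0`).
Integrable: `|deps x z x| <= C' exp(-2|x|)` by `deps_bd`; `eps` integrable and `dz` bounded.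
-/

open Filter Topology MeasureTheory

namespace Pool.Agent.CYL.Roots

variable {l : ℕ} (r : Roots l)

private theorem EnIBP_exp : Integrable (fun x : ℝ => Real.exp (-2 * |x|)) := by
  refine integrable_inv_one_add_sq.mono' (by fun_prop) (Eventually.of_forall fun x => ?_)
  rw [Real.norm_eq_abs, abs_of_pos (Real.exp_pos _), neg_mul, Real.exp_neg]
  have hy : 0 ≤ 2 * |x| := by positivity
  have hq := Real.quadratic_le_exp_of_nonneg hy
  have h1 : 1 + x ^ 2 ≤ Real.exp (2 * |x|) := by
    refine le_trans ?_ hq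
    have h2 : (2 * |x|) ^ 2 = 4 * x ^ 2 := by rw [mul_pow, sq_abs]; norm_num
    rw [h2]
    nlinarith [sq_nonneg x]
  exact inv_anti₀ (by positivity) h1

private theorem EnIBP_eps_z_abs : ∃ C, 0 ≤ C ∧ ∀ x : ℝ, |eps x * r.z x| ≤ C * (|x| * |eps x|) := by
  obtain ⟨C, hC, h⟩ := r.abs_z_le
  refine ⟨C, hC, fun x => ?_⟩
  rw [abs_mul]
  calc |eps x| * |r.z x| ≤ |eps x| * (C * |x|) := mul_le_mul_of_nonneg_left (h x) (abs_nonneg _)
    _ = C * (|x| * |eps x|) := by ring

theorem integrable_deps_z : Integrable (fun x => deps x * r.z x) := by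
  obtain ⟨C, hC, h⟩ := r.abs_z_le
  obtain ⟨C', hC', h'⟩ := deps_bd
  have hm : AEStronglyMeasurable (fun x => deps x * r.z x) volume := by
    have h1 : AEStronglyMeasurable deps (volume.restrict ({0}ᶜ : Set ℝ)) :=
      continuousOn_deps.aestronglyMeasurable (measurableSet_singleton 0).compl
    rw [Measure.restrict_eq_self_of_ae_mem] at h1
    · exact h1.mul r.continuous_z.aestronglyMeasurable
    · rw [ae_iff]
      have h2 : {a : ℝ | a ∉ ({0}ᶜ : Set ℝ)} = {0} := by
        ext a
        simp
      rw [h2]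
      exact Real.volume_singleton
  refine Integrable.mono' ((EnIBP_exp).const_mul (C * C')) hm (Eventually.of_forall fun x => ?_)
  rw [Real.norm_eq_abs, abs_mul]
  calc |deps x| * |r.z x| ≤ |deps x| * (C * |x|) := mul_le_mul_of_nonneg_left (h x) (abs_nonneg _)
    _ = C * |x * deps x| := by rw [abs_mul]; ring
    _ ≤ C * (C' * Real.exp (-2 * |x|)) := mul_le_mul_of_nonneg_left (h' x) hC
    _ = C * C' * Real.exp (-2 * |x|) := by ring

private theorem EnIBP_int2 : Integrable (fun x => eps x * r.dz x) := by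
  obtain ⟨C, hC, h⟩ := dz_upper l
  have h1 := Integrable.bdd_mul (f := r.dz) (g := eps) (c := C * ((r.L : ℝ) + 1)) integrable_eps
    r.continuous_dz.aestronglyMeasurable (Eventually.of_forall fun x => by
      rw [Real.norm_eq_abs]
      exact h r x)
  refine h1.congr (Eventually.of_forall fun x => ?_)
  show r.dz x * eps x = eps x * r.dz x
  ring

private theorem EnIBP_zero : ContinuousWithinAt (fun x => eps x * r.z x) (Set.Ici 0) 0 := by
  obtain ⟨C, hC, h⟩ := EnIBP_eps_z_abs r
  have h0 : eps 0 * r.z 0 = 0 := by rw [eps_zero, zero_mul]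
  have hcont : ContinuousAt (fun x => eps x * r.z x) 0 := by
    rw [continuousAt_iff_punctured_nhds]
    show Tendsto (fun x => eps x * r.z x) (𝓝[≠] 0) (𝓝 (eps 0 * r.z 0))
    rw [h0]
    have hx : Tendsto (fun x : ℝ => x) (𝓝[≠] 0) (𝓝 0) := tendsto_nhdsWithin_of_tendsto_nhds tendsto_id
    have h1 : Tendsto (fun x : ℝ => (eps x + Real.log |x|) * x) (𝓝[≠] 0)
        (𝓝 (Real.log (3 * Real.sqrt 3 / 4) * 0)) := tendsto_eps_zero.mul hx
    have h2 : Tendsto (fun x : ℝ => x * Real.log x) (𝓝[≠] 0) (𝓝 0) := by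
      have h3 := Real.continuous_mul_log.tendsto 0
      simp only [Real.log_zero, mul_zero] at h3
      exact tendsto_nhdsWithin_of_tendsto_nhds h3
    have h3 : Tendsto (fun x : ℝ => eps x * x) (𝓝[≠] 0) (𝓝 0) := by
      have h4 := h1.sub h2
      rw [mul_zero, sub_zero] at h4
      refine h4.congr fun x => ?_
      rw [Real.log_abs]
      ring
    have h5 : Tendsto (fun x : ℝ => C * |eps x * x|) (𝓝[≠] 0) (𝓝 0) := by
      have h6 := (h3.abs).const_mul C
      rwa [abs_zero, mul_zero] at h6
    refine squeeze_zero_norm (fun x => ?_) h5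
    rw [Real.norm_eq_abs]
    refine (h x).trans (le_of_eq ?_)
    rw [abs_mul]
    ring
  exact hcont.continuousWithinAt

private theorem EnIBP_top : Tendsto (fun x => eps x * r.z x) atTop (𝓝 0) := by
  have h1 := tendsto_eps_atTop.mul r.tendsto_z
  rwa [zero_mul] at h1

theorem integral_deps_z : ∫ x, deps x * r.z x = - ∫ x, eps x * r.dz x := by
  have i1 := integrable_deps_z r
  have i2 := EnIBP_int2 r
  have hder : ∀ x ∈ Set.Ioi (0 : ℝ), HasDerivAt (fun x => eps x * r.z x)
      (deps x * r.z x + eps x * r.dz x) x := by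
    intro x hx
    exact (hasDerivAt_eps x (ne_of_gt hx)).mul (r.hasDerivAt_z x)
  have h1 : ∫ x in Set.Ioi (0 : ℝ), (deps x * r.z x + eps x * r.dz x) = 0 := by
    rw [integral_Ioi_of_hasDerivAt_of_tendsto (EnIBP_zero r) hder (i1.add i2).integrableOn (EnIBP_top r),
      eps_zero, zero_mul, sub_zero]
  have h2 : ∫ x, (deps x * r.z x + eps x * r.dz x) = 0 := by
    have h3 : ∀ x : ℝ, deps x * r.z x + eps x * r.dz x =
        (fun x => deps x * r.z x + eps x * r.dz x) |x| := by
      intro x
      rcases abs_choice x with h | h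
      · rw [h]
      · show deps x * r.z x + eps x * r.dz x = deps |x| * r.z |x| + eps |x| * r.dz |x|
        rw [h, deps_neg, z_neg, eps_neg, dz_neg]
        ring
    calc ∫ x, (deps x * r.z x + eps x * r.dz x)
        = ∫ x : ℝ, (fun x => deps x * r.z x + eps x * r.dz x) |x| := integral_congr_ae
          (Eventually.of_forall h3)
      _ = 0 := by
        rw [integral_comp_abs (f := fun x => deps x * r.z x + eps x * r.dz x), h1, mul_zero]
  have h4 : ∫ x, (deps x * r.z x + eps x * r.dz x) = (∫ x, deps x * r.z x) + ∫ x, eps x * r.dz x :=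
    integral_add i1 i2
  linarith

end Pool.Agent.CYL.Roots
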