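import Pool.Agent.CYL.C.EnEps
import Pool.Agent.CYL.C.Ker

/-!
# CYL, part C: the value of `K * eps` at 0

`x -> INT K (x - t) eps t` is continuous (`K` bounded and continuous, `eps` integrable) and equals
`eps x - e0 x` for `x <> 0` (`eps_conv`), which tends to `log (3 sqrt 3/4) + (log 2)/2` at 0.
-/

open Filter Topology MeasureTheory

namespace Pool.Agent.CYL

theorem integral_K_eps : ∫ t, K t * eps t = Real.log (3 * Real.sqrt 3 / 4) + Real.log 2 / 2 := by
  obtain ⟨C, hC, hb⟩ := K_bound 0
  simp only [iteratedDeriv_zero] at hb
  have hbd : ∀ x, |K x| ≤ C := by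
    intro x
    refine (hb x).trans ?_
    have : Real.exp (-2 * |x|) ≤ 1 := by
      rw [Real.exp_le_one_iff]
      have := abs_nonneg x
      linarith
    nlinarith
  have hcont : ContinuousAt (fun x => ∫ t, K (x - t) * eps t) 0 := by
    refine continuousAt_of_dominated (F := fun x t => K (x - t) * eps t)
      (bound := fun t => C * |eps t|) ?_ ?_ (integrable_eps.abs.const_mul C) ?_
    · refine Eventually.of_forall fun x => ?_
      exact (contDiff_K.continuous.comp (continuous_const.sub continuous_id)).aestronglyMeasurable.mul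
        integrable_eps.aestronglyMeasurable
    · refine Eventually.of_forall fun x => Eventually.of_forall fun t => ?_
      rw [Real.norm_eq_abs, abs_mul]
      exact mul_le_mul_of_nonneg_right (hbd _) (abs_nonneg _)
    · refine Eventually.of_forall fun t => ?_
      exact ((contDiff_K.continuous.comp (continuous_id.sub continuous_const)).mul
        continuous_const).continuousAt
  have h1 : Tendsto (fun x => ∫ t, K (x - t) * eps t) (𝓝[≠] 0) (𝓝 (∫ t, K (0 - t) * eps t)) :=
    hcont.tendsto.mono_left nhdsWithin_le_nhds
  have h2 := tendsto_eps_zero.sub tendsto_e0_zero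
  have h3 : Tendsto (fun x => ∫ t, K (x - t) * eps t) (𝓝[≠] 0)
      (𝓝 (Real.log (3 * Real.sqrt 3 / 4) - -(Real.log 2 / 2))) := by
    refine h2.congr' ?_
    filter_upwards [self_mem_nhdsWithin] with x hx
    have := eps_conv x hx
    linarith
  have h4 := tendsto_nhds_unique h1 h3
  simp only [zero_sub, K_neg] at h4
  rw [h4]
  ring

end Pool.Agent.CYL
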