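import Pool.Agent.CYL.C.Bas

open Filter Topology MeasureTheory

/-!
# CYL, part C: sums over the roots as integrals against `N0`

For one root `a`: `f (infinity) - f a = INT_(x > a) f'`, `f a - f (-infinity) = INT_(x < a) f'`
(`f` continuous, differentiable off 0, `f'` integrable), so
`c - f a = INT f' x (1_(a <= x) - 1/2) dx`; sum over the roots: `N0 = sum_k (1_(x k <= .) - 1/2)`.
-/

namespace Pool.Agent.CYL.Roots

variable {l : ℕ} (r : Roots l)

private theorem EnSum_Ioi {f f' : ℝ → ℝ} {c : ℝ} (hc : Continuous f)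
    (hd : ∀ x, x ≠ 0 → HasDerivAt f (f' x) x) (hi : Integrable f')
    (ht : Tendsto f atTop (𝓝 c)) (a : ℝ) : ∫ x in Set.Ioi a, f' x = c - f a := by
  have h0 : ∀ b : ℝ, 0 ≤ b → ∫ x in Set.Ioi b, f' x = c - f b := fun b hb =>
    integral_Ioi_of_hasDerivAt_of_tendsto hc.continuousAt.continuousWithinAt
      (fun x hx => hd x (ne_of_gt (lt_of_le_of_lt hb hx))) hi.integrableOn ht
  rcases le_or_gt 0 a with ha | ha
  · exact h0 a ha
  · have h1 := intervalIntegral.integral_eq_sub_of_hasDerivAt_of_le ha.le hc.continuousOn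
      (fun x hx => hd x (ne_of_lt hx.2)) hi.intervalIntegrable
    rw [intervalIntegral.integral_of_le ha.le] at h1
    have h2 : Set.Ioi a = Set.Ioc a 0 ∪ Set.Ioi 0 := (Set.Ioc_union_Ioi_eq_Ioi ha.le).symm
    rw [h2, setIntegral_union (Set.Ioc_disjoint_Ioi le_rfl) measurableSet_Ioi hi.integrableOn
      hi.integrableOn, h1, h0 0 le_rfl]
    ring

private theorem EnSum_all {f f' : ℝ → ℝ} {c : ℝ} (hc : Continuous f)
    (hd : ∀ x, x ≠ 0 → HasDerivAt f (f' x) x) (hi : Integrable f')
    (ht : Tendsto f atTop (𝓝 c)) (hb : Tendsto f atBot (𝓝 c)) : ∫ x, f' x = 0 := by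
  have h1 := integral_Iic_of_hasDerivAt_of_tendsto (a := (0 : ℝ)) hc.continuousAt.continuousWithinAt
    (fun x hx => hd x (ne_of_lt hx)) hi.integrableOn hb
  have h2 := EnSum_Ioi hc hd hi ht 0
  rw [← intervalIntegral.integral_Iic_add_Ioi hi.integrableOn hi.integrableOn (b := 0), h1, h2]
  ring

theorem sum_eq_integral_N0 {f f' : ℝ → ℝ} {c : ℝ} (hc : Continuous f)
    (hd : ∀ x, x ≠ 0 → HasDerivAt f (f' x) x) (hi : Integrable f')
    (ht : Tendsto f atTop (𝓝 c)) (hb : Tendsto f atBot (𝓝 c)) :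
    ∑ j, f (r.x j) = (r.m : ℝ) * c - ∫ x, f' x * r.N0 x := by
  have h1 : ∀ x, f' x * r.N0 x =
      ∑ k, ((Set.Ici (r.x k)).indicator f' x - 1 / 2 * f' x) := by
    intro x
    have h2 : r.N0 x = ∑ k : Fin r.m, ((if r.x k ≤ x then (1 : ℝ) else 0) - 1 / 2) := by
      unfold N0
      rw [Finset.card_filter, Finset.sum_sub_distrib, Finset.sum_const, Finset.card_univ,
        Fintype.card_fin, nsmul_eq_mul]
      push_cast
      ring
    rw [h2, Finset.mul_sum]
    refine Finset.sum_congr rfl fun k _ => ?_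
    by_cases hk : r.x k ≤ x
    · rw [Set.indicator_of_mem (by exact hk), if_pos hk]
      ring
    · rw [Set.indicator_of_notMem (by exact hk), if_neg hk]
      ring
  have h3 : ∀ k : Fin r.m, ∫ x, ((Set.Ici (r.x k)).indicator f' x - 1 / 2 * f' x) = c - f (r.x k) := by
    intro k
    rw [integral_sub (hi.indicator measurableSet_Ici) (hi.const_mul _),
      integral_indicator measurableSet_Ici, integral_Ici_eq_integral_Ioi, EnSum_Ioi hc hd hi ht,
      integral_const_mul, EnSum_all hc hd hi ht hb]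
    ring
  simp only [h1]
  have h4 : ∀ k ∈ (Finset.univ : Finset (Fin r.m)), Integrable
      (fun x => (Set.Ici (r.x k)).indicator f' x - 1 / 2 * f' x) := fun k _ =>
    (hi.indicator measurableSet_Ici).sub (hi.const_mul _)
  rw [integral_finsetSum _ h4]
  simp only [h3]
  rw [Finset.sum_sub_distrib, Finset.sum_const, Finset.card_univ, Fintype.card_fin, nsmul_eq_mul]
  ring

end Pool.Agent.CYL.Roots
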