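import Pool.Agent.CYL.C.EnPhi

/-!
# CYL, part C: the exact substitution

`U t = INT_0^t (pi/L) u cot (pi u/L) du` for `0 <= t < L` (the integrand is continuous at 0, value 1);
`U t = t F(t) - INT_0^t F`, `F u = log (2 sin (pi u/L))` (`F` is integrable at 0, `t F(t) -> 0`).
`INT_0^oo (pi/L) ct dz z = U(zi)`: the function `U (z x)` has derivative `(pi/L) cot(pi z/L) z dz` for `x > 0`,
limits `U 0 = 0` and `U zi`; the integrand is even. Integrable: `ct z` is bounded, `dz` integrable.
-/

open Filter Topology MeasureTheory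

namespace Pool.Agent.CYL.Roots

variable {l : ℕ} {r : Roots l}

private theorem EnU_ii (L : ℕ) (a b : ℝ) : IntervalIntegrable (Fs L) volume a b := by
  have h : MeromorphicOn (fun u : ℝ => 2 * Real.sin (Real.pi * u / L)) (Set.uIcc a b) := by
    intro u _
    have : AnalyticAt ℝ (fun u : ℝ => 2 * Real.sin (Real.pi * u / L)) u := by fun_prop
    exact this.meromorphicAt
  exact h.intervalIntegrable_log

/-- the primitive of `(pi / L) u cot (pi u / L)` -/
private noncomputable def EnU_G (L : ℕ) (u : ℝ) : ℝ := u * Fs L u - ∫ t in (0 : ℝ)..u, Fs L t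

private theorem EnU_sin {L : ℕ} (hL : 0 < L) {u : ℝ} (h0 : 0 < u) (h1 : u < L) :
    0 < Real.sin (Real.pi * u / L) := by
  have hL' : (0 : ℝ) < L := by exact_mod_cast hL
  refine Real.sin_pos_of_pos_of_lt_pi (by positivity) ?_
  rw [div_lt_iff₀ hL']
  exact mul_lt_mul_of_pos_left h1 Real.pi_pos

private theorem EnU_Fs {L : ℕ} {u : ℝ} (hs : Real.sin (Real.pi * u / L) ≠ 0) :
    HasDerivAt (Fs L) (Real.pi / L * (Real.cos (Real.pi * u / L) / Real.sin (Real.pi * u / L))) u := by
  have h1 : HasDerivAt (fun u : ℝ => Real.pi * u / L) (Real.pi * 1 / L) u :=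
    ((hasDerivAt_id u).const_mul Real.pi).div_const _
  have h2 := (h1.sin.const_mul 2).log (mul_ne_zero two_ne_zero hs)
  have h3 : 2 * (Real.cos (Real.pi * u / L) * (Real.pi * 1 / L)) / (2 * Real.sin (Real.pi * u / L)) =
      Real.pi / L * (Real.cos (Real.pi * u / L) / Real.sin (Real.pi * u / L)) := by
    rw [mul_div_mul_left _ _ (two_ne_zero), mul_one]
    ring
  rw [h3] at h2
  exact h2

private theorem EnU_G_deriv {L : ℕ} (hL : 0 < L) {u : ℝ} (h0 : 0 < u) (h1 : u < L) :
    HasDerivAt (EnU_G L)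
      (Real.pi / L * (Real.cos (Real.pi * u / L) / Real.sin (Real.pi * u / L)) * u) u := by
  have hF := EnU_Fs (L := L) (EnU_sin hL h0 h1).ne'
  have h2 : HasDerivAt (fun u => ∫ t in (0 : ℝ)..u, Fs L t) (Fs L u) u := by
    refine intervalIntegral.integral_hasDerivAt_right (EnU_ii L 0 u) ?_ hF.continuousAt
    have hm : Measurable (Fs L) := by
      unfold Fs
      fun_prop
    exact hm.stronglyMeasurable.stronglyMeasurableAtFilter
  have h3 := ((hasDerivAt_id u).mul hF).sub h2
  have h4 : 1 * Fs L u + u * (Real.pi / L * (Real.cos (Real.pi * u / L) / Real.sin (Real.pi * u / L))) -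
      Fs L u = Real.pi / L * (Real.cos (Real.pi * u / L) / Real.sin (Real.pi * u / L)) * u := by ring
  exact h4 ▸ h3

private theorem EnU_jordan {t : ℝ} (h : |t| ≤ Real.pi / 2) : 2 / Real.pi * |t| ≤ |Real.sin t| := by
  rcases le_total 0 t with h0 | h0
  · rw [abs_of_nonneg h0] at h ⊢
    exact (Real.mul_le_sin h0 h).trans (le_abs_self _)
  · rw [abs_of_nonpos h0] at h ⊢
    have h1 := Real.mul_le_sin (x := -t) (by linarith) h
    rw [Real.sin_neg] at h1
    exact h1.trans (neg_le_abs _)

private theorem EnU_G_zero {L : ℕ} (hL : 0 < L) : ContinuousAt (EnU_G L) 0 := by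
  have hL' : (0 : ℝ) < L := by exact_mod_cast hL
  refine ContinuousAt.sub ?_ (intervalIntegral.continuous_primitive (EnU_ii L) 0).continuousAt
  rw [ContinuousAt, zero_mul]
  have hs : Tendsto (fun u : ℝ => 2 * Real.sin (Real.pi * u / L)) (𝓝 0) (𝓝 0) := by
    have h1 : Continuous fun u : ℝ => 2 * Real.sin (Real.pi * u / L) := by fun_prop
    have h2 := h1.tendsto 0
    simpa using h2
  have h1 : Tendsto (fun u : ℝ => (L / 4 : ℝ) * |(2 * Real.sin (Real.pi * u / L)) *
      Real.log (2 * Real.sin (Real.pi * u / L))|) (𝓝 0) (𝓝 0) := by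
    have h2 := (Real.continuous_mul_log.tendsto 0).comp hs
    rw [zero_mul] at h2
    have h3 := (h2.abs).const_mul (L / 4 : ℝ)
    simpa using h3
  refine squeeze_zero_norm' ?_ h1
  have hn : ∀ᶠ u : ℝ in 𝓝 0, |u| < L / 2 := by
    have := (continuous_abs.tendsto (0 : ℝ))
    rw [abs_zero] at this
    exact this.eventually (gt_mem_nhds (by positivity))
  filter_upwards [hn] with u hu
  have h4 : 2 / Real.pi * |Real.pi * u / L| ≤ |Real.sin (Real.pi * u / L)| := by
    refine EnU_jordan ?_
    rw [abs_div, abs_mul, abs_of_pos Real.pi_pos, abs_of_pos hL', div_le_iff₀ hL']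
    nlinarith [Real.pi_pos]
  have h5 : 2 / Real.pi * |Real.pi * u / L| = 2 * |u| / L := by
    rw [abs_div, abs_mul, abs_of_pos Real.pi_pos, abs_of_pos hL']
    field_simp
  rw [h5] at h4
  have h6 : |u| ≤ L / 4 * |2 * Real.sin (Real.pi * u / L)| := by
    rw [abs_mul, abs_two]
    rw [div_le_iff₀ hL'] at h4
    nlinarith
  unfold Fs
  rw [Real.norm_eq_abs, abs_mul, abs_mul (2 * Real.sin (Real.pi * u / L)), ← mul_assoc]
  exact mul_le_mul_of_nonneg_right h6 (abs_nonneg _)

private theorem EnU_z0 (r : Roots l) : r.z 0 = 0 := by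
  have h := r.z_neg 0
  rw [neg_zero] at h
  linarith

/-- `z` stays away from `L` -/
private theorem EnU_M (h : r.Good) : ∃ M : ℝ, M < r.L ∧ ∀ x, |r.z x| ≤ M := by
  have hL' : (0 : ℝ) < r.L := by exact_mod_cast h.L_pos
  have hl : (0 : ℝ) ≤ (l : ℝ) := Nat.cast_nonneg l
  have h1 : ∀ᶠ x in atTop, r.z x < 3 / 4 * (r.L : ℝ) :=
    r.tendsto_z.eventually (gt_mem_nhds (by linarith))
  obtain ⟨X, hX⟩ := eventually_atTop.1 h1
  obtain ⟨x₀, hx₀, hmax⟩ := (isCompact_Icc (a := (0 : ℝ)) (b := max X 0)).exists_isMaxOn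
    (Set.nonempty_Icc.2 (le_max_right _ _)) r.continuous_z.continuousOn
  have key : ∀ x, 0 ≤ x → r.z x ≤ max (3 / 4 * (r.L : ℝ)) (r.z x₀) := by
    intro x hx
    rcases le_total x (max X 0) with h2 | h2
    · exact (hmax ⟨hx, h2⟩).trans (le_max_right _ _)
    · exact (hX x ((le_max_left _ _).trans h2)).le.trans (le_max_left _ _)
  refine ⟨max (3 / 4 * (r.L : ℝ)) (r.z x₀), max_lt (by linarith) (h.z_lt x₀), fun x => ?_⟩
  have hz : ∀ x, 0 ≤ x → 0 ≤ r.z x := by
    intro x hx
    rcases hx.eq_or_lt with h2 | h2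
    · rw [← h2, EnU_z0]
    · exact (h.z_pos x h2).le
  rcases le_total 0 x with h2 | h2
  · rw [abs_of_nonneg (hz x h2)]
    exact key x h2
  · have h3 := hz (-x) (by linarith)
    have h4 := key (-x) (by linarith)
    rw [r.z_neg] at h3 h4
    rw [abs_of_nonpos (by linarith)]
    exact h4

private theorem EnU_bd (h : r.Good) : ∃ C : ℝ, ∀ x, |Real.pi / r.L * r.ct x * r.z x| ≤ C := by
  have hL' : (0 : ℝ) < r.L := by exact_mod_cast h.L_pos
  have hp := Real.pi_pos
  obtain ⟨M, hM, hzM⟩ := EnU_M h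
  set δ : ℝ := Real.pi * (r.L - M) / r.L with hδ
  have hδ0 : 0 < δ := by
    have : 0 < (r.L : ℝ) - M := sub_pos.2 hM
    positivity
  refine ⟨Real.pi / 2 * (Real.pi / min δ Real.pi), fun x => ?_⟩
  set t : ℝ := Real.pi * r.z x / r.L with ht
  have h1 : Real.pi / r.L * r.ct x * r.z x = Real.cos t * (t / Real.sin t) := by
    unfold ct
    rw [← ht]
    have : t = Real.pi / r.L * r.z x := by rw [ht]; ring
    conv_rhs => rw [this]
    rw [← this]
    ring
  have htb : |t| ≤ Real.pi - δ := by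
    rw [ht, abs_div, abs_mul, abs_of_pos hp, abs_of_pos hL', hδ, div_le_iff₀ hL', sub_mul,
      div_mul_cancel₀ _ hL'.ne']
    nlinarith [hzM x]
  rw [h1, abs_mul]
  have hcos : |Real.cos t| ≤ 1 := Real.abs_cos_le_one t
  have hmin : 0 < min δ Real.pi := lt_min hδ0 hp
  have h2 : |t / Real.sin t| ≤ Real.pi / 2 * (Real.pi / min δ Real.pi) := by
    rw [abs_div]
    by_cases hs : Real.sin t = 0
    · rw [hs, abs_zero, div_zero]
      positivity
    · rw [div_le_iff₀ (abs_pos.2 hs)]
      rcases le_total |t| (Real.pi / 2) with h3 | h3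
      · have h4 := EnU_jordan h3
        have h5 : |t| ≤ Real.pi / 2 * |Real.sin t| := by
          rw [div_mul_eq_mul_div, div_le_iff₀ hp] at h4
          linarith
        have h6 : 1 ≤ Real.pi / min δ Real.pi := (one_le_div hmin).2 (min_le_right _ _)
        calc |t| ≤ Real.pi / 2 * |Real.sin t| := h5
          _ = Real.pi / 2 * 1 * |Real.sin t| := by ring
          _ ≤ Real.pi / 2 * (Real.pi / min δ Real.pi) * |Real.sin t| := by gcongr
      · -- `|t| ≥ pi/2`
        have h4 : |Real.sin t| = Real.sin (Real.pi - |t|) := by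
          rw [Real.sin_pi_sub]
          rcases le_total 0 t with h5 | h5
          · rw [abs_of_nonneg h5] at htb ⊢
            exact abs_of_nonneg (Real.sin_nonneg_of_nonneg_of_le_pi h5 (by linarith))
          · rw [abs_of_nonpos h5] at htb ⊢
            have h6 : 0 ≤ Real.sin (-t) :=
              Real.sin_nonneg_of_nonneg_of_le_pi (by linarith) (by linarith)
            rw [← abs_of_nonneg h6, Real.sin_neg, abs_neg]
        have h5 := Real.mul_le_sin (x := Real.pi - |t|) (by linarith) (by linarith)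
        rw [← h4] at h5
        have h6 : min δ Real.pi ≤ Real.pi - |t| := (min_le_left _ _).trans (by linarith)
        have h7 : 2 / Real.pi * min δ Real.pi ≤ |Real.sin t| :=
          (mul_le_mul_of_nonneg_left h6 (by positivity)).trans h5
        calc |t| ≤ Real.pi := by linarith
          _ = Real.pi / 2 * (Real.pi / min δ Real.pi) * (2 / Real.pi * min δ Real.pi) := by
              field_simp
          _ ≤ Real.pi / 2 * (Real.pi / min δ Real.pi) * |Real.sin t| := by gcongr
  calc |Real.cos t| * |t / Real.sin t| ≤ 1 * (Real.pi / 2 * (Real.pi / min δ Real.pi)) :=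
        mul_le_mul hcos h2 (abs_nonneg _) zero_le_one
    _ = _ := one_mul _

theorem integrable_ct_z (h : r.Good) :
    Integrable (fun x => Real.pi / r.L * r.ct x * r.dz x * r.z x) := by
  obtain ⟨C, hC⟩ := EnU_bd h
  refine ((integrable_dz r).norm.const_mul C).mono' ?_ ?_
  · have h1 : Measurable r.ct := by
      have hz := r.continuous_z.measurable
      unfold ct
      exact (Real.measurable_cos.comp ((hz.const_mul _).div_const _)).div
        (Real.measurable_sin.comp ((hz.const_mul _).div_const _))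
    exact (((h1.const_mul _).mul r.continuous_dz.measurable).mul
      r.continuous_z.measurable).aestronglyMeasurable
  · refine Eventually.of_forall fun x => ?_
    rw [Real.norm_eq_abs, Real.norm_eq_abs]
    have h1 : Real.pi / r.L * r.ct x * r.dz x * r.z x =
        (Real.pi / r.L * r.ct x * r.z x) * r.dz x := by ring
    rw [h1, abs_mul]
    exact mul_le_mul_of_nonneg_right (hC x) (abs_nonneg _)

theorem integral_ct_z (h : r.Good) : ∫ x, Real.pi / r.L * r.ct x * r.dz x * r.z x =
    2 * (((r.L : ℝ) / 2 - (l : ℝ) / 8) * Fs r.L ((r.L : ℝ) / 2 - (l : ℝ) / 8)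
      - ∫ u in (0 : ℝ)..((r.L : ℝ) / 2 - (l : ℝ) / 8), Fs r.L u) := by
  have hL' : (0 : ℝ) < r.L := by exact_mod_cast h.L_pos
  have hl : (0 : ℝ) ≤ (l : ℝ) := Nat.cast_nonneg l
  set f : ℝ → ℝ := fun x => Real.pi / r.L * r.ct x * r.dz x * r.z x with hf
  have heven : ∀ x, f (-x) = f x := by
    intro x
    simp only [hf]
    rw [ct_neg, r.dz_neg, r.z_neg]
    ring
  have habs : ∀ x, f |x| = f x := by
    intro x
    rcases le_total 0 x with h0 | h0
    · rw [abs_of_nonneg h0]
    · rw [abs_of_nonpos h0, heven]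
  have h1 : ∫ x, f x = 2 * ∫ x in Set.Ioi (0 : ℝ), f x := by
    rw [← integral_comp_abs]
    exact integral_congr_ae (Eventually.of_forall fun x => (habs x).symm)
  have hz0 := EnU_z0 r
  have hcont : ContinuousWithinAt (fun x => EnU_G r.L (r.z x)) (Set.Ici 0) 0 := by
    have h2 : ContinuousAt (EnU_G r.L) (r.z 0) := by
      rw [hz0]
      exact EnU_G_zero h.L_pos
    exact (ContinuousAt.comp (f := r.z) h2 r.continuous_z.continuousAt).continuousWithinAt
  have hderiv : ∀ x ∈ Set.Ioi (0 : ℝ), HasDerivAt (fun x => EnU_G r.L (r.z x)) (f x) x := by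
    intro x hx
    have h2 := EnU_G_deriv h.L_pos (h.z_pos x hx) (h.z_lt x)
    have h3 := h2.comp x (r.hasDerivAt_z x)
    have h4 : Real.pi / r.L * (Real.cos (Real.pi * r.z x / r.L) / Real.sin (Real.pi * r.z x / r.L)) *
        r.z x * r.dz x = f x := by
      simp only [hf]
      unfold ct
      ring
    rw [h4] at h3
    exact h3
  have hlim : Tendsto (fun x => EnU_G r.L (r.z x)) atTop
      (𝓝 (EnU_G r.L ((r.L : ℝ) / 2 - (l : ℝ) / 8))) := by
    have h2 := (EnU_G_deriv h.L_pos h.zi_pos (by linarith)).continuousAt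
    exact h2.tendsto.comp r.tendsto_z
  have h2 := integral_Ioi_of_hasDerivAt_of_tendsto hcont hderiv
    (integrable_ct_z h).integrableOn hlim
  have h3 : EnU_G r.L (r.z 0) = 0 := by
    rw [hz0]
    unfold EnU_G
    simp
  rw [h3, sub_zero] at h2
  rw [h1, h2]
  rfl

end Pool.Agent.CYL.Roots
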