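import Pool.Agent.CYL.C.EnSin
import Pool.Agent.CYL.C.EnPar
import Pool.Agent.CYL.C.EnFub
import Pool.Agent.CYL.C.EnU
import Pool.Agent.CYL.C.EnSum
import Pool.Agent.CYL.C.EnIBP

/-!
# CYL, part C: the energy identity
-/

open Filter Topology MeasureTheory

namespace Pool.Agent.CYL.Roots

variable {l : ℕ} {r : Roots l}

theorem Fs_zero (L : ℕ) : Fs L 0 = 0 := by
  simp [Fs]

theorem phi_root (r : Roots l) (j : Fin r.m) : r.phi (r.x j) =
    eps (r.x j) + Fs r.L ((j : ℝ) - ((r.m : ℝ) - 1) / 2)
      + (if r.x j = 0 then r.phi0 else 0) := by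
  have hz := r.z_root j
  unfold phi
  split_ifs with h
  · rw [h] at hz
    rw [r.z_zero] at hz
    rw [h, ← hz, Fs_zero, eps_zero]
    ring
  · rw [hz]
    ring

theorem sum_ite_zero (r : Roots l) (a : ℝ) : ∑ j, (if r.x j = 0 then a else 0) =
    if Even r.m then 0 else a := by
  split_ifs with h
  · apply Finset.sum_eq_zero
    intro j _
    rw [if_neg]
    intro hj
    rw [r.root_zero_iff] at hj
    obtain ⟨k, hk⟩ := h
    omega
  · have hodd : ∃ k, r.m = 2 * k + 1 := by
      rcases Nat.even_or_odd r.m with h' | h'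
      · exact absurd h' h
      · exact h'
    obtain ⟨k, hk⟩ := hodd
    have hlt : k < r.m := by omega
    rw [Finset.sum_eq_single (⟨k, hlt⟩ : Fin r.m)]
    · rw [if_pos]
      rw [r.root_zero_iff]
      simp only
      omega
    · intro j _ hj
      rw [if_neg]
      intro h0
      rw [r.root_zero_iff] at h0
      apply hj
      apply Fin.ext
      simp only
      omega
    · intro h0
      exact absurd (Finset.mem_univ _) h0

theorem sum_phi (r : Roots l) : ∑ j, r.phi (r.x j) = ∑ j, eps (r.x j)
    + ∑ j : Fin r.m, Fs r.L ((j : ℝ) - ((r.m : ℝ) - 1) / 2)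
    + (if Even r.m then 0 else r.phi0) := by
  rw [← r.sum_ite_zero, ← Finset.sum_add_distrib, ← Finset.sum_add_distrib]
  exact Finset.sum_congr rfl fun j _ => r.phi_root j

theorem par_eq (h : r.Good) :
    (if Even r.m then Real.log 2 else Real.log (2 * Real.pi * r.dz 0 * Real.sin (Real.pi / 4)))
      + (if Even r.m then 0 else ∫ t, K t * eps t) - (if Even r.m then 0 else r.phi0) =
    if Even r.m then Real.log 2 else Real.log r.L := by
  split_ifs with he
  · ring
  · rw [integral_K_eps]
    unfold phi0
    have hpi := Real.pi_pos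
    have hd := h.dz_pos
    have hL : (0 : ℝ) < r.L := by exact_mod_cast h.L_pos
    have h3 : (0 : ℝ) < 3 * Real.sqrt 3 / 4 := by positivity
    have hs : Real.sin (Real.pi / 4) = Real.sqrt 2 / 2 := Real.sin_pi_div_four
    have hsq : Real.log (Real.sqrt 2 / 2) = - (Real.log 2 / 2) := by
      rw [Real.log_div (by positivity) (by norm_num), Real.log_sqrt (by norm_num)]
      ring
    have e1 : Real.log (2 * Real.pi * r.dz 0 * (Real.sqrt 2 / 2)) =
        Real.log (2 * Real.pi * r.dz 0) + Real.log (Real.sqrt 2 / 2) :=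
      Real.log_mul (by positivity) (by positivity)
    have e2 : Real.log (2 * Real.pi * r.dz 0 / r.L * (3 * Real.sqrt 3 / 4)) =
        Real.log (2 * Real.pi * r.dz 0 / r.L) + Real.log (3 * Real.sqrt 3 / 4) :=
      Real.log_mul (by positivity) (by positivity)
    have e3 : Real.log (2 * Real.pi * r.dz 0 / r.L) =
        Real.log (2 * Real.pi * r.dz 0) - Real.log r.L :=
      Real.log_div (by positivity) (by positivity)
    rw [hs, e1, e2, e3, hsq]
    ring

theorem integrable_dphi_S (h : r.Good) : Integrable (fun x => r.dphi x * r.S x) := by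
  obtain ⟨C, _, hC⟩ := S_bd l
  have := (integrable_dphi h).bdd_mul (c := C) r.measurable_S.aestronglyMeasurable
    (Eventually.of_forall fun x => by simpa using hC r x)
  simpa [mul_comm] using this

theorem elog_eq (h : r.Good) :
    r.elog = (r.L : ℝ) * cE + AL l r.L + ∫ x, r.dphi x * r.S x := by
  have h1 := r.sum_e0
  have h2 := r.sum_phi
  have h3 := par_eq h
  have h4 := r.sum_eq_integral_N0 (continuous_phi h) (fun x hx => hasDerivAt_phi h hx)
    (integrable_dphi h) (tendsto_phi h) (tendsto_phi_bot h)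
  have h5 := r.integral_deps_z
  have h6 := integral_ct_z h
  have h7 := sum_Fs_split r.m l r.L h.L_pos r.hL
  have h8 : ∫ x, r.dphi x * r.N0 x = (∫ x, deps x * r.z x)
      + (∫ x, Real.pi / r.L * r.ct x * r.dz x * r.z x) - ∫ x, r.dphi x * r.S x := by
    rw [← integral_add r.integrable_deps_z (integrable_ct_z h)]
    have hadd : Integrable (fun a => deps a * r.z a + Real.pi / r.L * r.ct a * r.dz a * r.z a) :=
      r.integrable_deps_z.add (integrable_ct_z h)
    rw [← integral_sub hadd (integrable_dphi_S h)]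
    refine integral_congr_ae (Eventually.of_forall fun x => ?_)
    simp only [dphi, S]
    ring
  have hm : (r.m : ℝ) = r.L - l := by
    have := r.hL
    have h' : ((r.m + l : ℕ) : ℝ) = (r.L : ℝ) := by exact_mod_cast this
    push_cast at h'
    linarith
  unfold elog AL
  have hcE : cE = Real.log (Real.sin (Real.pi / 8) * Real.sin (Real.pi / 4)
      / Real.sin (3 * Real.pi / 8)) + ∫ t, eps t * pk (Real.pi / 8) t := rfl
  rw [hcE]
  rw [h8] at h4
  rw [h5, h6] at h4
  rw [hm] at h4
  linear_combination h1 - h2 + h3 + h4 - h7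
end Pool.Agent.CYL.Roots
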