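import Pool.Agent.CYL.C.Loc
import Pool.Agent.CYL.C.Tails
import Pool.Agent.CYL.C.Hf
import Pool.Agent.CYL.C.EnDefs

/-! # The difference `dz cot(pi z/L) - L rho cot(pi R)` tends to 0 in `L^1`

With `a = pi z/L`, `b = pi R`, `a - b = pi w/L`:
`T = (dw cos a sin b - L rho sin (pi w/L)) / (sin a sin b)`. -/

namespace Pool.Agent.CYL.Roots

open MeasureTheory Filter Topology Set

variable {l : ℕ}

/-- `dz cot(pi z/L) - L rho cot(pi R)`. -/
noncomputable def T (r : Roots l) (x : ℝ) : ℝ :=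
  r.dz x * (Real.cos (Real.pi * r.z x / r.L) / Real.sin (Real.pi * r.z x / r.L))
  - (r.L : ℝ) * rho x * (Real.cos (Real.pi * R x) / Real.sin (Real.pi * R x))

theorem sin_pi_lower {u : ℝ} (h0 : 0 ≤ u) (h1 : u ≤ 2 / 3) :
    min (2 * u) (2 / 3) ≤ Real.sin (Real.pi * u) := by
  have hpi := Real.pi_pos
  rcases le_total u (1 / 2) with h | h
  · have := Real.mul_le_sin (x := Real.pi * u) (by positivity) (by nlinarith)
    have h2 : 2 / Real.pi * (Real.pi * u) = 2 * u := by field_simp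
    rw [h2] at this
    exact (min_le_left _ _).trans this
  · have h3 : Real.sin (Real.pi * u) = Real.sin (Real.pi * (1 - u)) := by
      rw [← Real.sin_pi_sub]; ring_nf
    have := Real.mul_le_sin (x := Real.pi * (1 - u)) (by nlinarith) (by nlinarith)
    have h2 : 2 / Real.pi * (Real.pi * (1 - u)) = 2 * (1 - u) := by field_simp
    rw [h2] at this
    rw [h3]
    refine (min_le_right _ _).trans (le_trans ?_ this)
    linarith

theorem abs_one_sub_cos_le (t : ℝ) : |Real.cos t - 1| ≤ |t| := by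
  have h1 := Real.one_sub_sq_div_two_le_cos (x := t)
  have h2 := Real.cos_le_one t
  have h3 := Real.neg_one_le_cos t
  rw [abs_sub_comm, abs_of_nonneg (by linarith)]
  rcases le_total |t| 2 with h | h
  · have : t ^ 2 = |t| ^ 2 := (sq_abs t).symm
    nlinarith [abs_nonneg t]
  · linarith

theorem abs_sin_sub_le (t : ℝ) : |Real.sin t - t| ≤ t ^ 2 := by
  have h := Convex.norm_image_sub_le_of_norm_hasDerivWithin_le (𝕜 := ℝ) (G := ℝ)
    (f := fun s => Real.sin s - s) (f' := fun s => Real.cos s - 1) (s := Set.uIcc 0 t)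
    (C := |t|) (x := 0) (y := t)
    (fun s _ => ((Real.hasDerivAt_sin s).sub (hasDerivAt_id s)).hasDerivWithinAt)
    (fun s hs => by
      rw [Real.norm_eq_abs]
      refine (abs_one_sub_cos_le s).trans ?_
      rcases le_total 0 t with h0 | h0
      · rw [Set.uIcc_of_le h0] at hs
        rw [abs_of_nonneg hs.1, abs_of_nonneg h0]; exact hs.2
      · rw [Set.uIcc_of_ge h0] at hs
        rw [abs_of_nonpos hs.2, abs_of_nonpos h0]; linarith [hs.1])
    (convex_uIcc 0 t) (by simp) (by simp)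
  simp only [Real.sin_zero, sub_zero, Real.norm_eq_abs] at h
  calc |Real.sin t - t| ≤ |t| * |t| := h
    _ = t ^ 2 := by rw [← sq, sq_abs]

/-- First order Taylor bound at the end point. -/
theorem taylor_end {f f' : ℝ → ℝ} {B : ℝ} (hf : ∀ x, HasDerivAt f (f' x) x) (h0 : f 0 = 0)
    (hf' : ∀ s t, |f' s - f' t| ≤ B * |s - t|) {x : ℝ} (hx : 0 ≤ x) :
    |f x - x * f' x| ≤ B * x ^ 2 := by
  have h := Convex.norm_image_sub_le_of_norm_hasDerivWithin_le (𝕜 := ℝ) (G := ℝ)
    (f := fun s => f s - s * f' x) (f' := fun s => f' s - f' x) (s := Set.Icc 0 x)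
    (C := B * x) (x := 0) (y := x)
    (fun s _ => by
      have := (hf s).sub ((hasDerivAt_id s).mul_const (f' x))
      simp only [one_mul] at this
      exact this.hasDerivWithinAt)
    (fun s hs => by
      rw [Real.norm_eq_abs]
      refine (hf' s x).trans ?_
      have hB : 0 ≤ B := by
        have h1 := hf' 1 0
        simp only [sub_zero, abs_one, mul_one] at h1
        exact (abs_nonneg _).trans h1
      have : |s - x| ≤ x := by
        rw [abs_sub_comm, abs_of_nonneg (by linarith [hs.2])]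
        linarith [hs.1]
      exact mul_le_mul_of_nonneg_left this hB)
    (convex_Icc 0 x) (by simp [hx]) (by simp [hx])
  simp only [h0, zero_mul, sub_zero, Real.norm_eq_abs] at h
  rw [abs_of_nonneg hx] at h
  calc |f x - x * f' x| ≤ B * x * x := h
    _ = B * x ^ 2 := by ring

theorem lip_of_deriv {f f' : ℝ → ℝ} {B : ℝ} (hf : ∀ x, HasDerivAt f (f' x) x)
    (hf' : ∀ x, |f' x| ≤ B) (s t : ℝ) : |f s - f t| ≤ B * |s - t| := by
  have h := Convex.norm_image_sub_le_of_norm_hasDerivWithin_le (𝕜 := ℝ) (G := ℝ)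
    (f := f) (f' := f') (s := Set.univ) (C := B) (x := t) (y := s)
    (fun s _ => (hf s).hasDerivWithinAt) (fun s _ => hf' s) convex_univ (mem_univ _) (mem_univ _)
  exact h

theorem T_eq (r : Roots l) {x : ℝ} (hL : (r.L : ℝ) ≠ 0)
    (ha : Real.sin (Real.pi * r.z x / r.L) ≠ 0) (hb : Real.sin (Real.pi * R x) ≠ 0) :
    r.T x = (r.dw x * Real.cos (Real.pi * r.z x / r.L) * Real.sin (Real.pi * R x)
      - (r.L : ℝ) * rho x * Real.sin (Real.pi * r.w x / r.L)) /
      (Real.sin (Real.pi * r.z x / r.L) * Real.sin (Real.pi * R x)) := by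
  have h1 : Real.pi * r.w x / r.L = Real.pi * r.z x / r.L - Real.pi * R x := by
    unfold w
    field_simp
  rw [h1, Real.sin_sub]
  unfold T dw
  field_simp
  ring

theorem T_neg (r : Roots l) (x : ℝ) : r.T (-x) = - r.T x := by
  unfold T
  rw [r.dz_neg, r.z_neg, rho_neg, R_neg]
  have h1 : Real.pi * -r.z x / r.L = -(Real.pi * r.z x / r.L) := by ring
  have h2 : Real.pi * -R x = -(Real.pi * R x) := by ring
  rw [h1, h2, Real.cos_neg, Real.cos_neg, Real.sin_neg, Real.sin_neg, div_neg, div_neg]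
  ring

theorem z_zero_el (r : Roots l) : r.z 0 = 0 := by
  have := r.z_neg 0
  rw [neg_zero] at this
  linarith

theorem w_zero_el (r : Roots l) : r.w 0 = 0 := by
  have := r.w_neg 0
  rw [neg_zero] at this
  linarith

theorem R_zero' : R 0 = 0 := by
  have := R_neg 0
  rw [neg_zero] at this
  linarith

theorem lower_of_deriv {f f' : ℝ → ℝ} {c : ℝ} (hf : ∀ x, HasDerivAt f (f' x) x) (h0 : f 0 = 0)
    (hf' : ∀ x, 0 ≤ x → x ≤ 1 → c ≤ f' x) {x : ℝ} (hx : 0 ≤ x) (hx1 : x ≤ 1) : c * x ≤ f x := by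
  have h := Convex.mul_sub_le_image_sub_of_le_deriv (convex_Icc (0 : ℝ) 1) (f := f)
    (fun s _ => (hf s).continuousAt.continuousWithinAt)
    (fun s _ => (hf s).differentiableAt.differentiableWithinAt) (C := c)
    (fun s hs => by
      rw [interior_Icc] at hs
      rw [(hf s).deriv]
      exact hf' s hs.1.le hs.2.le) 0 (by simp) x ⟨hx, hx1⟩ hx
  rw [h0] at h
  linarith

theorem R_lower : ∃ c, 0 < c ∧ ∀ x, 0 ≤ x → c * min x 1 ≤ R x := by
  obtain ⟨c, hc, h⟩ := rho_lower
  refine ⟨c * Real.exp (-(8 / 3)), by positivity, ?_⟩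
  have key : ∀ x, 0 ≤ x → x ≤ 1 → c * Real.exp (-(8 / 3)) * x ≤ R x := by
    intro x hx hx1
    refine lower_of_deriv hasDerivAt_R R_zero' ?_ hx hx1
    intro y hy hy1
    refine le_trans ?_ (h y)
    rw [abs_of_nonneg hy]
    refine mul_le_mul_of_nonneg_left (Real.exp_le_exp.mpr (by linarith)) hc.le
  intro x hx
  rcases le_total x 1 with h1 | h1
  · rw [min_eq_left h1]; exact key x hx h1
  · rw [min_eq_right h1]
    exact (key 1 zero_le_one le_rfl).trans (R_strictMono.monotone h1)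

/-- Uniform lower bounds for the two sines, and basic upper bounds. -/
theorem sin_lower (l : ℕ) : ∃ c, 0 < c ∧ ∀ᶠ r : Roots l in FL l, 1 ≤ (r.L : ℝ) ∧ ∀ x, 0 ≤ x →
    c * min x 1 ≤ Real.sin (Real.pi * r.z x / r.L) ∧ c * min x 1 ≤ Real.sin (Real.pi * R x) ∧
    0 ≤ r.z x ∧ r.z x ≤ 2 / 3 * r.L := by
  obtain ⟨cR, hcR, hR⟩ := R_lower
  obtain ⟨Bw, hBw, hw⟩ := w_bd l
  obtain ⟨cz, hcz, hz⟩ := dz_lower l 1
  refine ⟨min (min (2 * cz) (2 * (cR / 2))) (2 / 3), by positivity, ?_⟩
  have hLt := (tendsto_L l).eventually_ge_atTop (max 1 (max (2 * Bw / cR) (6 * Bw)))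
  filter_upwards [hz, hLt] with r hzr hLr
  have hL1 : 1 ≤ (r.L : ℝ) := le_trans (le_max_left _ _) hLr
  have hL2 : 2 * Bw / cR ≤ (r.L : ℝ) := le_trans (le_trans (le_max_left _ _) (le_max_right _ _)) hLr
  have hL3 : 6 * Bw ≤ (r.L : ℝ) := le_trans (le_trans (le_max_right _ _) (le_max_right _ _)) hLr
  have hL2' : 2 * Bw ≤ (r.L : ℝ) * cR := by
    rwa [div_le_iff₀ hcR] at hL2
  refine ⟨hL1, ?_⟩
  intro x hx
  have hmin0 : 0 ≤ min x 1 := le_min hx zero_le_one
  have hmin1 : min x 1 ≤ 1 := min_le_right _ _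
  have hRu : R x ≤ 1 / 2 := (le_abs_self _).trans (abs_R_lt x).le
  have hRl := hR x hx
  have hwx := abs_le.mp (hw r x)
  have hzeq : r.z x = (r.L : ℝ) * R x + r.w x := by unfold w; ring
  have hzu : r.z x ≤ 2 / 3 * r.L := by
    rw [hzeq]
    nlinarith
  have hzl : min cz (cR / 2) * min x 1 * r.L ≤ r.z x := by
    rcases le_total x 1 with h1 | h1
    · rw [min_eq_left h1]
      have := lower_of_deriv (f := r.z) (f' := r.dz) (c := cz * r.L) r.hasDerivAt_z r.z_zero_el
        (fun y hy hy1 => hzr y (by rw [abs_of_nonneg hy]; exact hy1)) hx h1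
      refine le_trans ?_ this
      have h2 : min cz (cR / 2) ≤ cz := min_le_left _ _
      have h3 : 0 ≤ x * r.L := by positivity
      nlinarith
    · rw [min_eq_right h1, mul_one, hzeq]
      rw [min_eq_right h1, mul_one] at hRl
      have h2 : min cz (cR / 2) ≤ cR / 2 := min_le_right _ _
      nlinarith
  have hz0 : 0 ≤ r.z x := by
    refine le_trans ?_ hzl
    positivity
  have hu0 : 0 ≤ r.z x / r.L := by positivity
  have hu1 : r.z x / r.L ≤ 2 / 3 := by
    rw [div_le_iff₀ (by linarith)]; exact hzu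
  have hul : min cz (cR / 2) * min x 1 ≤ r.z x / r.L := by
    rw [le_div_iff₀ (by linarith)]; exact hzl
  refine ⟨?_, ?_, hz0, hzu⟩
  · have h1 := sin_pi_lower hu0 hu1
    rw [mul_div_assoc]
    refine le_trans ?_ h1
    refine le_min ?_ ?_
    · calc min (min (2 * cz) (2 * (cR / 2))) (2 / 3) * min x 1
          ≤ (min (2 * cz) (2 * (cR / 2))) * min x 1 :=
            mul_le_mul_of_nonneg_right (min_le_left _ _) hmin0
        _ = 2 * (min cz (cR / 2) * min x 1) := by
            rw [← mul_min_of_nonneg cz (cR / 2) (by norm_num : (0 : ℝ) ≤ 2)]; ring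
        _ ≤ 2 * (r.z x / r.L) := by linarith
    · calc min (min (2 * cz) (2 * (cR / 2))) (2 / 3) * min x 1
          ≤ (2 / 3) * 1 := mul_le_mul (min_le_right _ _) hmin1 hmin0 (by norm_num)
        _ = 2 / 3 := by ring
  · have hR0 : 0 ≤ R x := le_trans (by positivity) hRl
    have h1 := sin_pi_lower hR0 (by linarith : R x ≤ 2 / 3)
    refine le_trans ?_ h1
    refine le_min ?_ ?_
    · calc min (min (2 * cz) (2 * (cR / 2))) (2 / 3) * min x 1
          ≤ (2 * (cR / 2)) * min x 1 :=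
            mul_le_mul_of_nonneg_right ((min_le_left _ _).trans (min_le_right _ _)) hmin0
        _ ≤ 2 * (cR * min x 1) := by nlinarith
        _ ≤ 2 * R x := by linarith
    · calc min (min (2 * cz) (2 * (cR / 2))) (2 / 3) * min x 1
          ≤ (2 / 3) * 1 := mul_le_mul (min_le_right _ _) hmin1 hmin0 (by norm_num)
        _ = 2 / 3 := by ring

theorem T_bound_near (l : ℕ) : ∃ C, 0 ≤ C ∧ ∀ᶠ r : Roots l in FL l, ∀ x, 0 < x → x ≤ 1 →
    |r.T x| ≤ C := by
  obtain ⟨c, hc, hs⟩ := sin_lower l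
  obtain ⟨Bw, hBw, hw⟩ := w_bd l
  obtain ⟨Bd, hBd, hd⟩ := dw_bd l
  obtain ⟨Be, hBe, he⟩ := ddw_bd l
  obtain ⟨Bz, hBz, hz⟩ := dz_upper l
  obtain ⟨M0, hM0, hr0⟩ := rho_bound 0
  obtain ⟨M1, hM1, hr1⟩ := rho_bound 1
  have hrho : ∀ x, |rho x| ≤ M0 := by
    intro x
    have := hr0 x
    rw [iteratedDeriv_zero] at this
    refine this.trans ?_
    have h1 : Real.exp (-(8 / 3) * |x|) ≤ 1 := by
      rw [Real.exp_le_one_iff]
      nlinarith [abs_nonneg x]
    nlinarith
  have hdrho : ∀ x, |deriv rho x| ≤ M1 := by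
    intro x
    have := hr1 x
    rw [iteratedDeriv_one] at this
    refine this.trans ?_
    have h1 : Real.exp (-(8 / 3) * |x|) ≤ 1 := by
      rw [Real.exp_le_one_iff]
      nlinarith [abs_nonneg x]
    nlinarith
  have hdiff : ∀ x, HasDerivAt rho (deriv rho x) x := fun x =>
    (contDiff_rho.differentiable (by simp)).differentiableAt.hasDerivAt
  have hpi := Real.pi_pos
  set A1 : ℝ := Bd * (2 * Real.pi * Bz) * (Real.pi * M0) + Bd * (Real.pi * M0) ^ 2
    + Real.pi * Bd * M1 + M0 * Real.pi ^ 2 * Bd ^ 2 + Real.pi * M0 * Be with hA1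
  have hA1' : 0 ≤ A1 := by positivity
  refine ⟨A1 / (c * c), by positivity, ?_⟩
  filter_upwards [hs] with r hsr x hx hx1
  obtain ⟨hL1, hsx⟩ := hsr
  obtain ⟨hsa, hsb, hz0, hzu⟩ := hsx x hx.le
  rw [min_eq_left hx1] at hsa hsb
  have hcx : 0 < c * x := by positivity
  have hLpos : 0 < (r.L : ℝ) := by linarith
  rw [T_eq r hLpos.ne' (by linarith) (by linarith)]
  set a := Real.pi * r.z x / r.L with ha
  set b := Real.pi * R x with hb
  have hden : c * c * x ^ 2 ≤ Real.sin a * Real.sin b := by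
    have := mul_le_mul hsa hsb hcx.le (le_trans hcx.le hsa)
    calc c * c * x ^ 2 = c * x * (c * x) := by ring
      _ ≤ _ := this
  have hden0 : 0 < c * c * x ^ 2 := by positivity
  rw [abs_div, abs_of_pos (lt_of_lt_of_le hden0 hden)]
  -- pieces
  have hRx : |R x| ≤ M0 * x := by
    have := lip_of_deriv hasDerivAt_R hrho x 0
    rwa [R_zero', sub_zero, sub_zero, abs_of_pos hx] at this
  have hzx : |r.z x| ≤ Bz * (r.L + 1) * x := by
    have := lip_of_deriv r.hasDerivAt_z (hz r) x 0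
    rwa [r.z_zero_el, sub_zero, sub_zero, abs_of_pos hx] at this
  have hwx : |r.w x| ≤ Bd * x := by
    have := lip_of_deriv r.hasDerivAt_w (hd r) x 0
    rwa [r.w_zero_el, sub_zero, sub_zero, abs_of_pos hx] at this
  have hR2 : |R x - x * rho x| ≤ M1 * x ^ 2 :=
    taylor_end hasDerivAt_R R_zero' (fun s t => lip_of_deriv hdiff hdrho s t) hx.le
  have hw2 : |r.w x - x * r.dw x| ≤ Be * x ^ 2 :=
    taylor_end r.hasDerivAt_w r.w_zero_el (fun s t => lip_of_deriv r.hasDerivAt_dw (he r) s t) hx.le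
  have hax : |a| ≤ 2 * Real.pi * Bz * x := by
    rw [ha, abs_div, abs_mul, abs_of_pos hpi, abs_of_pos hLpos, div_le_iff₀ hLpos]
    have : Bz * (r.L + 1) * x ≤ Bz * (2 * r.L) * x := by
      have h1 : (r.L : ℝ) + 1 ≤ 2 * r.L := by linarith
      exact mul_le_mul_of_nonneg_right (mul_le_mul_of_nonneg_left h1 hBz) hx.le
    calc Real.pi * |r.z x| ≤ Real.pi * (Bz * (2 * r.L) * x) :=
          mul_le_mul_of_nonneg_left (hzx.trans this) hpi.le
      _ = 2 * Real.pi * Bz * x * r.L := by ring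
  have hbx : |b| ≤ Real.pi * M0 * x := by
    rw [hb, abs_mul, abs_of_pos hpi]
    calc Real.pi * |R x| ≤ Real.pi * (M0 * x) := mul_le_mul_of_nonneg_left hRx hpi.le
      _ = _ := by ring
  have e1 : |r.dw x * (Real.cos a - 1) * Real.sin b| ≤
      Bd * (2 * Real.pi * Bz) * (Real.pi * M0) * x ^ 2 := by
    rw [abs_mul, abs_mul]
    have h1 : |Real.cos a - 1| ≤ 2 * Real.pi * Bz * x := (abs_one_sub_cos_le a).trans hax
    have h2 : |Real.sin b| ≤ Real.pi * M0 * x := (Real.abs_sin_le_abs).trans hbx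
    calc |r.dw x| * |Real.cos a - 1| * |Real.sin b|
        ≤ (Bd * (2 * Real.pi * Bz * x)) * (Real.pi * M0 * x) :=
          mul_le_mul (mul_le_mul (hd r x) h1 (abs_nonneg _) hBd) h2 (abs_nonneg _) (by positivity)
      _ = _ := by ring
  have e2 : |r.dw x * (Real.sin b - b)| ≤ Bd * (Real.pi * M0) ^ 2 * x ^ 2 := by
    rw [abs_mul]
    have h1 : |Real.sin b - b| ≤ (Real.pi * M0 * x) ^ 2 := by
      refine (abs_sin_sub_le b).trans ?_
      rw [← sq_abs]
      exact pow_le_pow_left₀ (abs_nonneg _) hbx 2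
    calc |r.dw x| * |Real.sin b - b| ≤ Bd * (Real.pi * M0 * x) ^ 2 :=
          mul_le_mul (hd r x) h1 (abs_nonneg _) hBd
      _ = _ := by ring
  have e3 : |Real.pi * r.dw x * (R x - x * rho x)| ≤ Real.pi * Bd * M1 * x ^ 2 := by
    rw [abs_mul, abs_mul, abs_of_pos hpi]
    calc Real.pi * |r.dw x| * |R x - x * rho x| ≤ Real.pi * Bd * (M1 * x ^ 2) :=
          mul_le_mul (mul_le_mul_of_nonneg_left (hd r x) hpi.le) hR2 (abs_nonneg _) (by positivity)
      _ = _ := by ring
  have e4 : |rho x * ((r.L : ℝ) * Real.sin (Real.pi * r.w x / r.L) - Real.pi * r.w x)| ≤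
      M0 * Real.pi ^ 2 * Bd ^ 2 * x ^ 2 := by
    have h0 : (r.L : ℝ) * Real.sin (Real.pi * r.w x / r.L) - Real.pi * r.w x =
        r.L * (Real.sin (Real.pi * r.w x / r.L) - Real.pi * r.w x / r.L) := by
      field_simp
    rw [h0, abs_mul, abs_mul, abs_of_pos hLpos]
    have h1 := abs_sin_sub_le (Real.pi * r.w x / r.L)
    have h2 : (r.L : ℝ) * |Real.sin (Real.pi * r.w x / r.L) - Real.pi * r.w x / r.L| ≤
        Real.pi ^ 2 * Bd ^ 2 * x ^ 2 := by
      calc (r.L : ℝ) * |Real.sin (Real.pi * r.w x / r.L) - Real.pi * r.w x / r.L|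
          ≤ r.L * (Real.pi * r.w x / r.L) ^ 2 := mul_le_mul_of_nonneg_left h1 hLpos.le
        _ = Real.pi ^ 2 * |r.w x| ^ 2 / r.L := by rw [sq_abs]; field_simp
        _ ≤ Real.pi ^ 2 * |r.w x| ^ 2 / 1 :=
            div_le_div_of_nonneg_left (by positivity) one_pos hL1
        _ = Real.pi ^ 2 * |r.w x| ^ 2 := by ring
        _ ≤ Real.pi ^ 2 * (Bd * x) ^ 2 :=
            mul_le_mul_of_nonneg_left (pow_le_pow_left₀ (abs_nonneg _) hwx 2) (by positivity)
        _ = _ := by ring
    calc |rho x| * ((r.L : ℝ) * |Real.sin (Real.pi * r.w x / r.L) - Real.pi * r.w x / r.L|)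
        ≤ M0 * (Real.pi ^ 2 * Bd ^ 2 * x ^ 2) :=
          mul_le_mul (hrho x) h2 (by positivity) hM0
      _ = _ := by ring
  have e5 : |Real.pi * rho x * (r.w x - x * r.dw x)| ≤ Real.pi * M0 * Be * x ^ 2 := by
    rw [abs_mul, abs_mul, abs_of_pos hpi]
    calc Real.pi * |rho x| * |r.w x - x * r.dw x| ≤ Real.pi * M0 * (Be * x ^ 2) :=
          mul_le_mul (mul_le_mul_of_nonneg_left (hrho x) hpi.le) hw2 (abs_nonneg _) (by positivity)
      _ = _ := by ring
  have hN : r.dw x * Real.cos a * Real.sin b - (r.L : ℝ) * rho x * Real.sin (Real.pi * r.w x / r.L) =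
      r.dw x * (Real.cos a - 1) * Real.sin b + r.dw x * (Real.sin b - b)
      + Real.pi * r.dw x * (R x - x * rho x)
      - rho x * ((r.L : ℝ) * Real.sin (Real.pi * r.w x / r.L) - Real.pi * r.w x)
      - Real.pi * rho x * (r.w x - x * r.dw x) := by
    rw [hb]; ring
  have hNb : |r.dw x * Real.cos a * Real.sin b -
      (r.L : ℝ) * rho x * Real.sin (Real.pi * r.w x / r.L)| ≤ A1 * x ^ 2 := by
    rw [hN]
    have a1 := abs_le.mp e1
    have a2 := abs_le.mp e2
    have a3 := abs_le.mp e3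
    have a4 := abs_le.mp e4
    have a5 := abs_le.mp e5
    have hsum : A1 * x ^ 2 = Bd * (2 * Real.pi * Bz) * (Real.pi * M0) * x ^ 2
        + Bd * (Real.pi * M0) ^ 2 * x ^ 2 + Real.pi * Bd * M1 * x ^ 2
        + M0 * Real.pi ^ 2 * Bd ^ 2 * x ^ 2 + Real.pi * M0 * Be * x ^ 2 := by
      rw [hA1]; ring
    rw [hsum, abs_le]
    constructor
    · linarith [a1.1, a2.1, a3.1, a4.2, a5.2]
    · linarith [a1.2, a2.2, a3.2, a4.1, a5.1]
  calc |r.dw x * Real.cos a * Real.sin b -
      (r.L : ℝ) * rho x * Real.sin (Real.pi * r.w x / r.L)| / (Real.sin a * Real.sin b)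
      ≤ A1 * x ^ 2 / (c * c * x ^ 2) := div_le_div₀ (by positivity) hNb hden0 hden
    _ = A1 / (c * c) := by field_simp

theorem T_bound_far (l : ℕ) : ∃ C, 0 ≤ C ∧ ∀ᶠ r : Roots l in FL l, ∀ x, 1 ≤ x →
    |r.T x| ≤ C * Real.exp (-2 * x) := by
  obtain ⟨c, hc, hs⟩ := sin_lower l
  obtain ⟨Bw, hBw, hw⟩ := w_bd l
  obtain ⟨Bd, hBd, hd⟩ := dw_bd l
  obtain ⟨M0, hM0, hr0⟩ := rho_bound 0
  obtain ⟨CR, hCR, hRt⟩ := R_tail
  obtain ⟨Ct, hCt, hdt⟩ := dw_tail l
  have hpi := Real.pi_pos
  set A2 : ℝ := (Bd * (Real.pi * CR) + Real.pi * Bw * Ct) / c + Real.pi * M0 * Bw / (c * c) with hA2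
  have hA2' : 0 ≤ A2 := by positivity
  refine ⟨A2, hA2', ?_⟩
  filter_upwards [hs] with r hsr x hx1
  obtain ⟨hL1, hsx⟩ := hsr
  have hx : 0 < x := by linarith
  obtain ⟨hsa, hsb, hz0, hzu⟩ := hsx x hx.le
  rw [min_eq_right hx1, mul_one] at hsa hsb
  have hLpos : 0 < (r.L : ℝ) := by linarith
  have hexp : Real.exp (-(8 / 3) * x) ≤ Real.exp (-2 * x) := Real.exp_le_exp.mpr (by linarith)
  have hE0 : 0 < Real.exp (-2 * x) := Real.exp_pos _
  rw [T_eq r hLpos.ne' (by linarith) (by linarith)]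
  set a := Real.pi * r.z x / r.L with ha
  set b := Real.pi * R x with hb
  have hab : a - b = Real.pi * r.w x / r.L := by
    rw [ha, hb]; unfold w; field_simp
  have hsa0 : 0 < Real.sin a := by linarith
  have hsb0 : 0 < Real.sin b := by linarith
  have hcosb : |Real.cos b| ≤ Real.pi * CR * Real.exp (-2 * x) := by
    have h1 : Real.cos b = Real.sin (Real.pi / 2 - b) := (Real.sin_pi_div_two_sub b).symm
    have h2 : |Real.sin (Real.pi / 2 - b)| ≤ |Real.pi / 2 - b| := Real.abs_sin_le_abs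
    have h3 : |Real.pi / 2 - b| = Real.pi * (1 / 2 - R x) := by
      have h4 : R x ≤ 1 / 2 := (le_abs_self _).trans (abs_R_lt x).le
      rw [abs_of_nonneg (by rw [hb]; nlinarith)]
      rw [hb]; ring
    rw [h1]
    calc |Real.sin (Real.pi / 2 - b)| ≤ Real.pi * (1 / 2 - R x) := h3 ▸ h2
      _ ≤ Real.pi * (CR * Real.exp (-(8 / 3) * x)) := mul_le_mul_of_nonneg_left (hRt x hx.le) hpi.le
      _ ≤ Real.pi * (CR * Real.exp (-2 * x)) :=
          mul_le_mul_of_nonneg_left (mul_le_mul_of_nonneg_left hexp hCR) hpi.le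
      _ = _ := by ring
  have hcosab : |Real.cos a - Real.cos b| ≤ Real.pi * Bw / r.L := by
    have h1 := lip_of_deriv (f := Real.cos) (f' := fun s => - Real.sin s) (B := 1)
      Real.hasDerivAt_cos (fun s => by rw [abs_neg]; exact Real.abs_sin_le_one s) a b
    rw [one_mul, hab, abs_div, abs_mul, abs_of_pos hpi, abs_of_pos hLpos] at h1
    refine h1.trans ?_
    exact div_le_div_of_nonneg_right (mul_le_mul_of_nonneg_left (hw r x) hpi.le) hLpos.le
  have hdwL : |r.dw x| ≤ Ct * r.L * Real.exp (-2 * x) := by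
    have := hdt r x
    rwa [abs_of_pos hx] at this
  have e1 : |r.dw x * Real.cos a| ≤ (Bd * (Real.pi * CR) + Real.pi * Bw * Ct) * Real.exp (-2 * x) := by
    have h1 : r.dw x * Real.cos a = r.dw x * Real.cos b + r.dw x * (Real.cos a - Real.cos b) := by ring
    rw [h1]
    refine (abs_add_le _ _).trans ?_
    rw [abs_mul, abs_mul]
    have h2 : |r.dw x| * |Real.cos b| ≤ Bd * (Real.pi * CR * Real.exp (-2 * x)) :=
      mul_le_mul (hd r x) hcosb (abs_nonneg _) hBd
    have h3 : |r.dw x| * |Real.cos a - Real.cos b| ≤ (Ct * r.L * Real.exp (-2 * x)) * (Real.pi * Bw / r.L) :=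
      mul_le_mul hdwL hcosab (abs_nonneg _) (by positivity)
    have h4 : (Ct * r.L * Real.exp (-2 * x)) * (Real.pi * Bw / r.L) =
        Real.pi * Bw * Ct * Real.exp (-2 * x) := by field_simp
    rw [h4] at h3
    calc _ ≤ Bd * (Real.pi * CR * Real.exp (-2 * x)) + Real.pi * Bw * Ct * Real.exp (-2 * x) :=
          add_le_add h2 h3
      _ = _ := by ring
  have e2 : |(r.L : ℝ) * rho x * Real.sin (Real.pi * r.w x / r.L)| ≤
      Real.pi * M0 * Bw * Real.exp (-2 * x) := by
    rw [abs_mul, abs_mul, abs_of_pos hLpos]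
    have h1 : |Real.sin (Real.pi * r.w x / r.L)| ≤ Real.pi * Bw / r.L := by
      refine Real.abs_sin_le_abs.trans ?_
      rw [abs_div, abs_mul, abs_of_pos hpi, abs_of_pos hLpos]
      exact div_le_div_of_nonneg_right (mul_le_mul_of_nonneg_left (hw r x) hpi.le) hLpos.le
    have h2 : |rho x| ≤ M0 * Real.exp (-2 * x) := by
      have := hr0 x
      rw [iteratedDeriv_zero, abs_of_pos hx] at this
      exact this.trans (mul_le_mul_of_nonneg_left hexp hM0)
    calc (r.L : ℝ) * |rho x| * |Real.sin (Real.pi * r.w x / r.L)|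
        ≤ r.L * (M0 * Real.exp (-2 * x)) * (Real.pi * Bw / r.L) :=
          mul_le_mul (mul_le_mul_of_nonneg_left h2 hLpos.le) h1 (abs_nonneg _) (by positivity)
      _ = _ := by field_simp
  have hsplit : (r.dw x * Real.cos a * Real.sin b -
      (r.L : ℝ) * rho x * Real.sin (Real.pi * r.w x / r.L)) / (Real.sin a * Real.sin b) =
      r.dw x * Real.cos a / Real.sin a -
      (r.L : ℝ) * rho x * Real.sin (Real.pi * r.w x / r.L) / (Real.sin a * Real.sin b) := by
    field_simp
  rw [hsplit]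
  have t1 : |r.dw x * Real.cos a / Real.sin a| ≤
      (Bd * (Real.pi * CR) + Real.pi * Bw * Ct) * Real.exp (-2 * x) / c := by
    rw [abs_div, abs_of_pos hsa0]
    exact div_le_div₀ (by positivity) e1 hc hsa
  have t2 : |(r.L : ℝ) * rho x * Real.sin (Real.pi * r.w x / r.L) / (Real.sin a * Real.sin b)| ≤
      Real.pi * M0 * Bw * Real.exp (-2 * x) / (c * c) := by
    rw [abs_div, abs_of_pos (mul_pos hsa0 hsb0)]
    exact div_le_div₀ (by positivity) e2 (by positivity)
      (mul_le_mul hsa hsb hc.le hsa0.le)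
  calc |r.dw x * Real.cos a / Real.sin a -
      (r.L : ℝ) * rho x * Real.sin (Real.pi * r.w x / r.L) / (Real.sin a * Real.sin b)|
      ≤ |r.dw x * Real.cos a / Real.sin a| +
        |(r.L : ℝ) * rho x * Real.sin (Real.pi * r.w x / r.L) / (Real.sin a * Real.sin b)| := abs_sub _ _
    _ ≤ _ := add_le_add t1 t2
    _ = A2 * Real.exp (-2 * x) := by rw [hA2]; ring

theorem T_bound (l : ℕ) : ∃ C, 0 ≤ C ∧ ∀ᶠ r : Roots l in FL l, ∀ x, x ≠ 0 →
    |r.T x| ≤ C * Real.exp (-2 * |x|) := by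
  obtain ⟨C1, hC1, h1⟩ := T_bound_near l
  obtain ⟨C2, hC2, h2⟩ := T_bound_far l
  refine ⟨C1 * Real.exp 2 + C2, by positivity, ?_⟩
  filter_upwards [h1, h2] with r h1r h2r
  have key : ∀ x, 0 < x → |r.T x| ≤ (C1 * Real.exp 2 + C2) * Real.exp (-2 * x) := by
    intro x hx
    have hE0 : 0 < Real.exp (-2 * x) := Real.exp_pos _
    rcases le_total x 1 with hx1 | hx1
    · have h3 : 1 ≤ Real.exp 2 * Real.exp (-2 * x) := by
        rw [← Real.exp_add]
        exact Real.one_le_exp (by linarith)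
      calc |r.T x| ≤ C1 := h1r x hx hx1
        _ ≤ C1 * (Real.exp 2 * Real.exp (-2 * x)) := le_mul_of_one_le_right hC1 h3
        _ ≤ (C1 * Real.exp 2 + C2) * Real.exp (-2 * x) := by nlinarith
    · have := h2r x hx1
      have h4 : 0 ≤ C1 * Real.exp 2 * Real.exp (-2 * x) := by positivity
      calc |r.T x| ≤ C2 * Real.exp (-2 * x) := this
        _ ≤ (C1 * Real.exp 2 + C2) * Real.exp (-2 * x) := by nlinarith
  intro x hx
  rcases lt_or_gt_of_ne hx with h | h
  · have h5 := key (-x) (by linarith)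
    rw [T_neg, abs_neg] at h5
    rw [abs_of_neg h]
    exact h5
  · rw [abs_of_pos h]
    exact key x h

theorem tendsto_T_pos (l : ℕ) {x : ℝ} (hx : 0 < x) :
    Tendsto (fun r : Roots l => r.T x) (FL l) (𝓝 0) := by
  obtain ⟨c, hc, hs⟩ := sin_lower l
  have hpi := Real.pi_pos
  have hmin : 0 < min x 1 := lt_min hx one_pos
  set d : ℝ := c * min x 1 with hd
  have hd0 : 0 < d := by positivity
  have hlim : Tendsto (fun r : Roots l => (|r.dw x| + |rho x| * Real.pi * |r.w x|) / (d * d))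
      (FL l) (𝓝 0) := by
    have h1 := (tendsto_dw_pt l x).abs
    have h2 := ((tendsto_w_pt l x).abs.const_mul (|rho x| * Real.pi))
    have h3 := (h1.add h2).div_const (d * d)
    simp only [abs_zero, mul_zero, add_zero, zero_div] at h3
    exact h3
  refine squeeze_zero_norm' ?_ hlim
  filter_upwards [hs] with r hsr
  obtain ⟨hL1, hsx⟩ := hsr
  obtain ⟨hsa, hsb, hz0, hzu⟩ := hsx x hx.le
  have hLpos : 0 < (r.L : ℝ) := by linarith
  have hsa0 : 0 < Real.sin (Real.pi * r.z x / r.L) := lt_of_lt_of_le hd0 hsa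
  have hsb0 : 0 < Real.sin (Real.pi * R x) := lt_of_lt_of_le hd0 hsb
  rw [T_eq r hLpos.ne' hsa0.ne' hsb0.ne', Real.norm_eq_abs, abs_div,
    abs_of_pos (mul_pos hsa0 hsb0)]
  refine div_le_div₀ (by positivity) ?_ (by positivity) (mul_le_mul hsa hsb hd0.le hsa0.le)
  refine (abs_sub _ _).trans ?_
  refine add_le_add ?_ ?_
  · rw [abs_mul, abs_mul]
    calc |r.dw x| * |Real.cos (Real.pi * r.z x / r.L)| * |Real.sin (Real.pi * R x)|
        ≤ |r.dw x| * 1 * 1 :=
          mul_le_mul (mul_le_mul_of_nonneg_left (Real.abs_cos_le_one _) (abs_nonneg _))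
            (Real.abs_sin_le_one _) (abs_nonneg _) (by positivity)
      _ = |r.dw x| := by ring
  · rw [abs_mul, abs_mul, abs_of_pos hLpos]
    have h1 : |Real.sin (Real.pi * r.w x / r.L)| ≤ Real.pi * |r.w x| / r.L := by
      refine Real.abs_sin_le_abs.trans ?_
      rw [abs_div, abs_mul, abs_of_pos hpi, abs_of_pos hLpos]
    calc (r.L : ℝ) * |rho x| * |Real.sin (Real.pi * r.w x / r.L)|
        ≤ r.L * |rho x| * (Real.pi * |r.w x| / r.L) :=
          mul_le_mul_of_nonneg_left h1 (by positivity)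
      _ = _ := by field_simp

theorem tendsto_T_pt (l : ℕ) {x : ℝ} (hx : x ≠ 0) :
    Tendsto (fun r : Roots l => r.T x) (FL l) (𝓝 0) := by
  rcases lt_or_gt_of_ne hx with h | h
  · have := (tendsto_T_pos l (x := -x) (by linarith)).neg
    simp only [T_neg, neg_neg, neg_zero] at this
    exact this
  · exact tendsto_T_pos l h

theorem continuous_rho : Continuous rho := contDiff_rho.continuous

theorem measurable_T (r : Roots l) : Measurable r.T := by
  unfold T
  have h1 := r.continuous_dz.measurable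
  have h2 := r.continuous_z.measurable
  have h3 : Measurable rho := continuous_rho.measurable
  have h4 : Measurable R := contDiff_R.continuous.measurable
  exact (h1.mul ((Real.measurable_cos.comp ((h2.const_mul _).div_const _)).div
    (Real.measurable_sin.comp ((h2.const_mul _).div_const _)))).sub
    ((h3.const_mul _).mul ((Real.measurable_cos.comp (h4.const_mul _)).div
      (Real.measurable_sin.comp (h4.const_mul _))))

theorem integrable_T (l : ℕ) : ∀ᶠ r : Roots l in FL l, Integrable r.T := by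
  obtain ⟨C, hC, h⟩ := T_bound l
  filter_upwards [h] with r hr
  have hi : Integrable (fun x : ℝ => C * Real.exp (-2 * |x|)) :=
    (integrable_exp_neg_abs (c := 2) (by norm_num)).const_mul C
  refine hi.mono' r.measurable_T.aestronglyMeasurable ?_
  have : ∀ᵐ x : ℝ, x ≠ 0 := by
    rw [ae_iff]
    simp
  filter_upwards [this] with x hx
  exact hr x hx

theorem tendsto_T (l : ℕ) : Tendsto (fun r : Roots l => ∫ x, |r.T x|) (FL l) (𝓝 0) := by
  obtain ⟨C, hC, h⟩ := T_bound l
  have hae : ∀ᵐ x : ℝ, x ≠ 0 := by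
    rw [ae_iff]
    simp
  have : (FL l).IsCountablyGenerated := by
    unfold FL; infer_instance
  have hi : Integrable (fun x : ℝ => C * Real.exp (-2 * |x|)) :=
    (integrable_exp_neg_abs (c := 2) (by norm_num)).const_mul C
  have key := tendsto_integral_filter_of_dominated_convergence (μ := volume) (l := FL l)
    (F := fun (r : Roots l) x => |r.T x|) (f := fun _ => (0 : ℝ))
    (fun x : ℝ => C * Real.exp (-2 * |x|))
    (Eventually.of_forall fun r => r.measurable_T.abs.aestronglyMeasurable)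
    (by
      filter_upwards [h] with r hr
      filter_upwards [hae] with x hx
      rw [Real.norm_eq_abs, abs_abs]
      exact hr x hx)
    hi
    (by
      filter_upwards [hae] with x hx
      have := (tendsto_T_pt l hx).abs
      rwa [abs_zero] at this)
  simpa using key

theorem Er_eq_T (r : Roots l) (x : ℝ) : r.Er x = Real.pi * r.T x := by
  unfold Er T ct
  ring

theorem measurable_Er {l : ℕ} (r : Roots l) : Measurable r.Er := by
  have : r.Er = fun x => Real.pi * r.T x := funext r.Er_eq_T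
  rw [this]
  exact r.measurable_T.const_mul _

theorem integrable_Er (l : ℕ) : ∀ᶠ r : Roots l in FL l, Integrable r.Er := by
  filter_upwards [integrable_T l] with r hr
  have : r.Er = fun x => Real.pi * r.T x := funext r.Er_eq_T
  rw [this]
  exact hr.const_mul _

theorem tendsto_Er (l : ℕ) : Tendsto (fun r : Roots l => ∫ x, |r.Er x|) (FL l) (𝓝 0) := by
  have h := (tendsto_T l).const_mul Real.pi
  rw [mul_zero] at h
  refine h.congr ?_
  intro r
  rw [← integral_const_mul]
  congr 1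
  funext x
  rw [r.Er_eq_T, abs_mul, abs_of_pos Real.pi_pos]

end Pool.Agent.CYL.Roots
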