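import Pool.Agent.CYL.C.EnEps
import Pool.Agent.CYL.C.EnCot
import Pool.Agent.CYL.C.Bas
import Pool.Agent.CYL.C.Tails

/-!
# CYL, part C: the regularised energy `phi`

Continuity at 0: `eps x + log |x| -> log (3 sqrt 3/4)` (`tendsto_eps_zero`) and
`log (2 sin (pi z x/L)) - log |x| = log (|2 sin (pi z x/L)|/|x|) -> log (2 pi dz 0/L)`
(`z 0 = 0`, `hasDerivAt_z`). Off 0: `hasDerivAt_eps` (file Hf), `sin (pi z x/L) <> 0` because
`z` is odd and `0 < z < L` on the positive axis.
Integrability of `dphi`: near 0 (`0 < x <= 1`) `|deps x + 1/x| <= C x` (`deps_near`),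
`(pi/L) ct dz - 1/x` is bounded: `|y cot y - 1| <= C y^2` for `0 < y <= pi z(1).../L`, and
`|x dz x - z x| <= C x^2` (`hasDerivAt_dz`, bounded on `[0,1]`); at infinity `deps_bd`, `dz` integrable
(`integrable_dz`) and `ct` bounded (`z -> zi` in `(0, L)`, `z` continuous, positive and `< L`).
-/

open Filter Topology MeasureTheory

namespace Pool.Agent.CYL.Roots

variable {l : ℕ} {r : Roots l}

theorem sin_pos (h : r.Good) {x : ℝ} (hx : 0 < x) : 0 < Real.sin (Real.pi * r.z x / r.L) := by
  have hL : (0:ℝ) < (r.L : ℝ) := by exact_mod_cast h.L_pos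
  have hz := h.z_pos x hx
  have hz' := h.z_lt x
  have hpi := Real.pi_pos
  refine Real.sin_pos_of_pos_of_lt_pi (by positivity) ?_
  rw [div_lt_iff₀ hL]
  nlinarith

theorem sin_ne (h : r.Good) {x : ℝ} (hx : x ≠ 0) : Real.sin (Real.pi * r.z x / r.L) ≠ 0 := by
  rcases lt_or_gt_of_ne hx with h1 | h1
  · have h2 := sin_pos h (x := -x) (by linarith)
    rw [r.z_neg, mul_neg, neg_div, Real.sin_neg] at h2
    intro h3
    rw [h3] at h2
    simp at h2
  · exact (sin_pos h h1).ne'

theorem ct_neg (x : ℝ) : r.ct (-x) = - r.ct x := by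
  unfold ct
  rw [r.z_neg, mul_neg, neg_div, Real.sin_neg, Real.cos_neg, div_neg]

theorem dphi_neg (x : ℝ) : r.dphi (-x) = - r.dphi x := by
  unfold dphi
  rw [deps_neg, ct_neg, r.dz_neg]
  ring

theorem phi_neg (x : ℝ) : r.phi (-x) = r.phi x := by
  unfold phi
  by_cases hx : x = 0
  · simp [hx]
  · rw [if_neg (neg_ne_zero.2 hx), if_neg hx, eps_neg]
    congr 1
    unfold Fs
    rw [r.z_neg, mul_neg, neg_div, Real.sin_neg, mul_neg, Real.log_neg_eq_log]

private theorem EnPhi_darg (x : ℝ) :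
    HasDerivAt (fun y => Real.pi * r.z y / r.L) (Real.pi * r.dz x / r.L) x :=
  ((r.hasDerivAt_z x).const_mul Real.pi).div_const _

theorem hasDerivAt_phi (h : r.Good) {x : ℝ} (hx : x ≠ 0) : HasDerivAt r.phi (r.dphi x) x := by
  have hL : (r.L : ℝ) ≠ 0 := by
    have := h.L_pos
    positivity
  have hs := sin_ne h hx
  have h1 : HasDerivAt (fun y => Fs r.L (r.z y)) (Real.pi / r.L * r.ct x * r.dz x) x := by
    have h2 := ((EnPhi_darg (r := r) x).sin.const_mul 2).log (by simpa using hs)
    refine HasDerivAt.congr_deriv (f := fun y => Fs r.L (r.z y)) h2 ?_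
    unfold ct
    field_simp
  have h3 := (hasDerivAt_eps x hx).add h1
  refine HasDerivAt.congr_of_eventuallyEq (h3.congr_deriv ?_) ?_
  · unfold dphi deps
    ring
  · filter_upwards [isOpen_ne.mem_nhds hx] with y hy
    simp only [phi, if_neg hy, Pi.add_apply]

private theorem EnPhi_pos (h : r.Good) : 0 < 2 * Real.pi * r.dz 0 / r.L := by
  have hL : (0:ℝ) < (r.L : ℝ) := by exact_mod_cast h.L_pos
  have := h.dz_pos
  have := Real.pi_pos
  positivity

private theorem EnPhi_slope :
    Tendsto (fun x => 2 * Real.sin (Real.pi * r.z x / r.L) / x) (𝓝[≠] 0)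
      (𝓝 (2 * Real.pi * r.dz 0 / r.L)) := by
  have h1 := (EnPhi_darg (r := r) 0).sin.const_mul 2
  rw [hasDerivAt_iff_tendsto_slope] at h1
  rw [r.z_zero, mul_zero, zero_div, Real.cos_zero, one_mul] at h1
  have e : 2 * (Real.pi * r.dz 0 / r.L) = 2 * Real.pi * r.dz 0 / r.L := by ring
  rw [e] at h1
  refine h1.congr fun x => ?_
  rw [slope_def_field, r.z_zero]
  simp

theorem continuous_phi (h : r.Good) : Continuous r.phi := by
  rw [continuous_iff_continuousAt]
  intro x
  by_cases hx : x = 0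
  swap
  · exact (hasDerivAt_phi h hx).continuousAt
  subst hx
  rw [continuousAt_iff_punctured_nhds]
  have hp := EnPhi_pos h
  have hphi0 : r.phi 0 = Real.log (3 * Real.sqrt 3 / 4) + Real.log (2 * Real.pi * r.dz 0 / r.L) := by
    unfold phi phi0
    rw [if_pos rfl, Real.log_mul hp.ne' (by positivity), add_comm]
  rw [hphi0]
  have h1 := (Real.continuousAt_log hp.ne').tendsto.comp (EnPhi_slope (r := r))
  refine (tendsto_eps_zero.add h1).congr' ?_
  filter_upwards [self_mem_nhdsWithin] with y hy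
  have hy' : y ≠ 0 := hy
  have hs := sin_ne h hy'
  simp only [Function.comp, phi, if_neg hy', Fs]
  rw [Real.log_div (by simpa using hs) hy', Real.log_abs]
  ring

private theorem EnPhi_zi (h : r.Good) :
    0 < Real.sin (Real.pi * ((r.L : ℝ) / 2 - (l : ℝ) / 8) / r.L) := by
  have hL : (0:ℝ) < (r.L : ℝ) := by exact_mod_cast h.L_pos
  have hz := h.zi_pos
  have hpi := Real.pi_pos
  refine Real.sin_pos_of_pos_of_lt_pi (by positivity) ?_
  rw [div_lt_iff₀ hL]
  have hl : (0:ℝ) ≤ (l : ℝ) := Nat.cast_nonneg _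
  have : (r.L : ℝ) / 2 - (l : ℝ) / 8 < r.L := by linarith
  exact mul_lt_mul_of_pos_left this hpi

theorem tendsto_phi (h : r.Good) :
    Tendsto r.phi atTop (𝓝 (Fs r.L ((r.L : ℝ) / 2 - (l : ℝ) / 8))) := by
  have h1 : Tendsto (fun x => Fs r.L (r.z x)) atTop
      (𝓝 (Fs r.L ((r.L : ℝ) / 2 - (l : ℝ) / 8))) := by
    have hc : ContinuousAt (fun u => Fs r.L u) ((r.L : ℝ) / 2 - (l : ℝ) / 8) := by
      unfold Fs
      refine ContinuousAt.log ?_ (by have := EnPhi_zi h; positivity)
      have := Real.continuous_sin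
      fun_prop
    exact hc.tendsto.comp r.tendsto_z
  have h2 := tendsto_eps_atTop.add h1
  rw [zero_add] at h2
  refine h2.congr' ?_
  filter_upwards [eventually_gt_atTop 0] with x hx
  simp only [phi, if_neg (ne_of_gt hx)]

theorem tendsto_phi_bot (h : r.Good) :
    Tendsto r.phi atBot (𝓝 (Fs r.L ((r.L : ℝ) / 2 - (l : ℝ) / 8))) := by
  refine ((tendsto_phi h).comp tendsto_neg_atBot_atTop).congr fun x => ?_
  exact phi_neg x

private theorem EnPhi_cot {y : ℝ} (h0 : 0 < y) (h1 : y ≤ Real.pi / 2) :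
    |Real.cos y / Real.sin y - 1 / y| ≤ y := by
  have hpi := Real.pi_pos
  have hs : 0 < Real.sin y := Real.sin_pos_of_pos_of_lt_pi h0 (by linarith)
  have h2 : y * Real.cos y ≤ Real.sin y := by
    rcases eq_or_lt_of_le h1 with h3 | h3
    · rw [h3, Real.cos_pi_div_two, Real.sin_pi_div_two]
      simp
    · have h4 := Real.lt_tan h0 h3
      have hc : 0 < Real.cos y := Real.cos_pos_of_mem_Ioo ⟨by linarith, h3⟩
      rw [Real.tan_eq_sin_div_cos, lt_div_iff₀ hc] at h4
      exact h4.le
  have h3 : Real.sin y - y * Real.cos y ≤ y ^ 3 / 2 := by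
    have h5 := Real.one_sub_sq_div_two_le_cos (x := y)
    have h6 := Real.sin_le h0.le
    nlinarith
  have h4 : 2 / Real.pi * y ≤ Real.sin y := Real.mul_le_sin h0.le h1
  have h4' : y / 2 ≤ Real.sin y := by
    refine le_trans ?_ h4
    have : 1 / 2 ≤ 2 / Real.pi := by
      rw [div_le_div_iff₀ two_pos hpi]
      linarith [Real.pi_le_four]
    nlinarith
  have e : Real.cos y / Real.sin y - 1 / y = -((Real.sin y - y * Real.cos y) / (y * Real.sin y)) := by
    field_simp
    ring
  rw [e, abs_neg, abs_of_nonneg (div_nonneg (by linarith) (by positivity)),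
    div_le_iff₀ (by positivity)]
  nlinarith [mul_pos h0 h0]

/-- `dphi` is bounded near `0`. -/
private theorem EnPhi_near (h : r.Good) : ∃ M : ℝ, ∀ᶠ x in 𝓝[>] (0:ℝ), |r.dphi x| ≤ M := by
  have hL : (0:ℝ) < (r.L : ℝ) := by exact_mod_cast h.L_pos
  have hpi := Real.pi_pos
  obtain ⟨C, hC, hdeps⟩ := deps_near
  -- theta and its derivatives
  set th : ℝ → ℝ := fun x => Real.pi * r.z x / r.L with hth
  set dth : ℝ → ℝ := fun x => Real.pi * r.dz x / r.L with hdth
  set ddth : ℝ → ℝ := fun x => Real.pi * ((r.L : ℝ) * deriv rho x + r.ddw x) / r.L with hddth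
  have hd1 : ∀ x, HasDerivAt th (dth x) x := fun x => EnPhi_darg x
  have hd2 : ∀ x, HasDerivAt dth (ddth x) x := fun x =>
    ((r.hasDerivAt_dz x).const_mul Real.pi).div_const _
  have hcdd : Continuous ddth := by
    have h1 : Continuous (deriv rho) := contDiff_rho.continuous_deriv (by simp)
    have h2 := r.continuous_ddw
    fun_prop
  have hcd : Continuous dth := continuous_iff_continuousAt.2 fun x => (hd2 x).continuousAt
  obtain ⟨M1, hM1⟩ := isCompact_Icc.exists_bound_of_continuousOn (s := Set.Icc (0:ℝ) 1)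
    hcdd.continuousOn
  obtain ⟨M2, hM2⟩ := isCompact_Icc.exists_bound_of_continuousOn (s := Set.Icc (0:ℝ) 1)
    hcd.continuousOn
  have hth0 : th 0 = 0 := by simp [hth, r.z_zero]
  have hdpos : 0 < dth 0 := by
    have := h.dz_pos
    simp only [hdth]
    positivity
  have hM1' : 0 ≤ M1 := (norm_nonneg _).trans (hM1 0 ⟨le_rfl, zero_le_one⟩)
  have hM2' : 0 ≤ M2 := (norm_nonneg _).trans (hM2 0 ⟨le_rfl, zero_le_one⟩)
  -- theta x >= (dth 0 / 2) x eventually
  have hsl : Tendsto (fun x => th x / x) (𝓝[>] 0) (𝓝 (dth 0)) := by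
    have h1 := hasDerivAt_iff_tendsto_slope.1 (hd1 0)
    have h2 := h1.mono_left (nhdsWithin_mono (0:ℝ) (t := {0}ᶜ) (s := Set.Ioi 0) (by
      intro y hy
      exact ne_of_gt hy))
    refine h2.congr fun x => ?_
    rw [slope_def_field, hth0]
    simp
  have hlow : ∀ᶠ x in 𝓝[>] (0:ℝ), dth 0 / 2 < th x / x := hsl.eventually_const_lt (by linarith)
  have hsmall : ∀ᶠ x in 𝓝[>] (0:ℝ), th x < Real.pi / 2 := by
    have h1 : Tendsto th (𝓝[>] 0) (𝓝 (th 0)) :=
      (hd1 0).continuousAt.tendsto.mono_left nhdsWithin_le_nhds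
    rw [hth0] at h1
    exact h1.eventually_lt_const (by positivity)
  refine ⟨C + M2 * Real.pi + M1 / (dth 0 / 2), ?_⟩
  filter_upwards [hlow, hsmall, Ioo_mem_nhdsGT one_pos] with x h1 h2 h3
  have hx : 0 < x := h3.1
  have hx1 : x ≤ 1 := h3.2.le
  have hthx : dth 0 / 2 * x < th x := by
    rwa [lt_div_iff₀ hx] at h1
  have hthpos : 0 < th x := lt_trans (by positivity) hthx
  -- |x dth - th| <= M1 x^2
  have hmv : |x * dth x - th x| ≤ M1 * x ^ 2 := by
    have hder : ∀ y : ℝ, HasDerivAt (fun y => y * dth y - th y) (y * ddth y) y := by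
      intro y
      have := ((hasDerivAt_id y).mul (hd2 y)).sub (hd1 y)
      refine HasDerivAt.congr_deriv (f := fun y => y * dth y - th y) this ?_
      simp
    have h5 := (convex_Icc (0:ℝ) x).norm_image_sub_le_of_norm_hasDerivWithin_le
      (f := fun y => y * dth y - th y) (f' := fun y => y * ddth y) (C := M1 * x) (x := 0) (y := x)
      (fun y _ => (hder y).hasDerivWithinAt)
      (fun y hy => by
        rw [Real.norm_eq_abs, abs_mul, abs_of_nonneg hy.1]
        have h6 := hM1 y ⟨hy.1, hy.2.trans hx1⟩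
        rw [Real.norm_eq_abs] at h6
        have h7 := hy.2
        have h8 := hy.1
        calc y * |ddth y| ≤ x * M1 := mul_le_mul h7 h6 (abs_nonneg _) hx.le
          _ = M1 * x := by ring)
      ⟨le_rfl, hx.le⟩ ⟨hx.le, le_rfl⟩
    simp only [hth0, zero_mul, sub_zero, Real.norm_eq_abs] at h5
    rw [abs_of_pos hx] at h5
    calc |x * dth x - th x| ≤ M1 * x * x := h5
      _ = M1 * x ^ 2 := by ring
  have hct : r.ct x = Real.cos (th x) / Real.sin (th x) := rfl
  have e : r.dphi x = (deps x + 1 / x) + dth x * (Real.cos (th x) / Real.sin (th x) - 1 / th x) +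
      (x * dth x - th x) / (x * th x) := by
    unfold dphi
    rw [hct]
    have e1 : Real.pi / r.L * (Real.cos (th x) / Real.sin (th x)) * r.dz x =
        dth x * (Real.cos (th x) / Real.sin (th x)) := by
      simp only [hdth]
      ring
    rw [e1]
    have e2 : (x * dth x - th x) / (x * th x) = dth x * (1 / th x) - 1 / x := by
      field_simp
    rw [e2]
    ring
  rw [e]
  have b1 : |deps x + 1 / x| ≤ C := by
    have := hdeps x hx.ne' (by rw [abs_of_pos hx]; exact hx1)
    rw [abs_of_pos hx] at this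
    nlinarith
  have b2 : |dth x * (Real.cos (th x) / Real.sin (th x) - 1 / th x)| ≤ M2 * Real.pi := by
    rw [abs_mul]
    have h6 := hM2 x ⟨hx.le, hx1⟩
    rw [Real.norm_eq_abs] at h6
    have h7 := EnPhi_cot hthpos h2.le
    exact mul_le_mul h6 (by linarith) (abs_nonneg _) hM2'
  have b3 : |(x * dth x - th x) / (x * th x)| ≤ M1 / (dth 0 / 2) := by
    rw [abs_div, abs_of_pos (mul_pos hx hthpos), div_le_div_iff₀ (mul_pos hx hthpos) (by positivity)]
    have h6 : x * (dth 0 / 2 * x) ≤ x * th x := mul_le_mul_of_nonneg_left hthx.le hx.le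
    calc |x * dth x - th x| * (dth 0 / 2) ≤ M1 * x ^ 2 * (dth 0 / 2) := by
          gcongr
      _ = M1 * (x * (dth 0 / 2 * x)) := by ring
      _ ≤ M1 * (x * th x) := mul_le_mul_of_nonneg_left h6 hM1'
  refine (abs_add_le _ _).trans (add_le_add ((abs_add_le _ _).trans (add_le_add b1 b2)) b3)

private theorem EnPhi_contOn (h : r.Good) : ContinuousOn r.dphi {0}ᶜ := by
  have h1 : ContinuousOn r.ct {0}ᶜ := by
    intro x hx
    have hs := sin_ne h (x := x) hx
    have hz := r.continuous_z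
    refine ContinuousAt.continuousWithinAt ?_
    unfold ct
    refine ContinuousAt.div ?_ ?_ hs
    · have := Real.continuous_cos
      fun_prop
    · have := Real.continuous_sin
      fun_prop
  unfold dphi
  exact continuousOn_deps.add ((continuousOn_const.mul h1).mul r.continuous_dz.continuousOn)

private theorem EnPhi_ct_bd (h : r.Good) : ∃ M : ℝ, 0 ≤ M ∧ ∀ x : ℝ, 1 ≤ x → |r.ct x| ≤ M := by
  -- `sin (pi z / L)` is bounded below on `[1, oo)`
  have hlim : Tendsto (fun x => Real.sin (Real.pi * r.z x / r.L)) atTop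
      (𝓝 (Real.sin (Real.pi * ((r.L : ℝ) / 2 - (l : ℝ) / 8) / r.L))) := by
    have hc : Continuous (fun u : ℝ => Real.sin (Real.pi * u / r.L)) := by
      have := Real.continuous_sin
      fun_prop
    exact (hc.tendsto _).comp r.tendsto_z
  have hpos := EnPhi_zi h
  set s0 := Real.sin (Real.pi * ((r.L : ℝ) / 2 - (l : ℝ) / 8) / r.L) with hs0
  obtain ⟨X, hX⟩ := eventually_atTop.1 (hlim.eventually_const_lt (by linarith : s0 / 2 < s0))
  have hc : ContinuousOn (fun x => Real.sin (Real.pi * r.z x / r.L)) (Set.Icc 1 (max 1 X)) := by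
    have h1 := r.continuous_z
    have h2 := Real.continuous_sin
    have h3 : Continuous (fun x => Real.sin (Real.pi * r.z x / r.L)) := by fun_prop
    exact h3.continuousOn
  obtain ⟨x0, hx0, hmin⟩ := isCompact_Icc.exists_isMinOn
    (Set.nonempty_Icc.2 (le_max_left 1 X)) hc
  have hsx0 : 0 < Real.sin (Real.pi * r.z x0 / r.L) := sin_pos h (by linarith [hx0.1])
  set m := min (s0 / 2) (Real.sin (Real.pi * r.z x0 / r.L)) with hm
  have hmpos : 0 < m := lt_min (by positivity) hsx0
  refine ⟨1 / m, by positivity, fun x hx => ?_⟩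
  have hlow : m ≤ Real.sin (Real.pi * r.z x / r.L) := by
    rcases le_total x (max 1 X) with h1 | h1
    · exact (min_le_right _ _).trans (hmin ⟨hx, h1⟩)
    · exact (min_le_left _ _).trans (hX x ((le_max_right _ _).trans h1)).le
  unfold ct
  rw [abs_div, abs_of_pos (lt_of_lt_of_le hmpos hlow)]
  exact div_le_div₀ zero_le_one (Real.abs_cos_le_one _) hmpos hlow

theorem integrable_dphi (h : r.Good) : Integrable r.dphi := by
  have hmeas : ∀ s : Set ℝ, MeasurableSet s → s ⊆ {0}ᶜ →
      AEStronglyMeasurable r.dphi (volume.restrict s) := fun s hs hss =>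
    ((EnPhi_contOn h).mono hss).aestronglyMeasurable hs
  -- on (0, 1]
  have h01 : IntegrableOn r.dphi (Set.Ioc 0 1) := by
    obtain ⟨M, hM⟩ := EnPhi_near h
    obtain ⟨d, hd, hd2⟩ := (mem_nhdsGT_iff_exists_Ioc_subset (a := (0:ℝ))).1 hM
    have hd0 : (0:ℝ) < d := hd
    have hcc : ContinuousOn r.dphi (Set.Icc d (max d 1)) :=
      (EnPhi_contOn h).mono fun y hy => (ne_of_gt (lt_of_lt_of_le hd0 hy.1) : y ≠ 0)
    obtain ⟨M', hM'⟩ := isCompact_Icc.exists_bound_of_continuousOn hcc
    refine Integrable.mono' (g := fun _ => max M M')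
      (integrableOn_const (by simp) (by simp))
      (hmeas _ measurableSet_Ioc fun y hy => (ne_of_gt hy.1 : y ≠ 0)) ?_
    refine (ae_restrict_iff' measurableSet_Ioc).2 (ae_of_all _ fun x hx => ?_)
    rcases le_total x d with h1 | h1
    · exact (hd2 ⟨hx.1, h1⟩ : |r.dphi x| ≤ M).trans (le_max_left _ _)
    · exact (hM' x ⟨h1, hx.2.trans (le_max_right _ _)⟩).trans (le_max_right _ _)
  have h1 : IntegrableOn r.dphi (Set.Ioi 1) := by
    obtain ⟨C, hC, hdeps⟩ := deps_bd
    obtain ⟨M, hM, hct⟩ := EnPhi_ct_bd h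
    have i1 : IntegrableOn (fun x : ℝ => C * Real.exp (-2 * x)) (Set.Ioi 1) :=
      (integrableOn_exp_mul_Ioi (by norm_num : (-2:ℝ) < 0) 1).const_mul C
    have i2 : IntegrableOn (fun x : ℝ => |Real.pi / r.L| * M * |r.dz x|) (Set.Ioi 1) :=
      ((integrable_dz r).abs.integrableOn).const_mul _
    refine Integrable.mono' (i1.add i2) (hmeas _ measurableSet_Ioi fun y hy =>
      (ne_of_gt (lt_trans one_pos hy) : y ≠ 0)) ?_
    refine (ae_restrict_iff' measurableSet_Ioi).2 (ae_of_all _ fun x hx => ?_)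
    have hx1 : (1:ℝ) < x := hx
    have hx0 : (0:ℝ) < x := by linarith
    rw [Real.norm_eq_abs]
    unfold dphi
    refine (abs_add_le _ _).trans (add_le_add ?_ ?_)
    · have h5 := hdeps x
      rw [abs_mul, abs_of_pos hx0] at h5
      have h6 : |deps x| ≤ x * |deps x| := le_mul_of_one_le_left (abs_nonneg _) hx1.le
      exact h6.trans h5
    · rw [abs_mul, abs_mul]
      exact mul_le_mul_of_nonneg_right (mul_le_mul_of_nonneg_left (hct x hx1.le)
        (abs_nonneg _)) (abs_nonneg _)
  have hIoi : IntegrableOn r.dphi (Set.Ioi 0) := by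
    rw [← Set.Ioc_union_Ioi_eq_Ioi (zero_le_one (α := ℝ)), integrableOn_union]
    exact ⟨h01, h1⟩
  have hIio : IntegrableOn r.dphi (Set.Iio 0) := by
    rw [← (Measure.measurePreserving_neg (volume : Measure ℝ)).integrableOn_comp_preimage
      (Homeomorph.neg ℝ).measurableEmbedding]
    have e : (r.dphi ∘ Neg.neg) = fun x => - r.dphi x := by
      funext x
      exact dphi_neg x
    rw [e, Set.neg_preimage, Set.neg_Iio, neg_zero]
    exact hIoi.neg
  rw [← integrableOn_univ, ← Set.Iio_union_Ici (a := (0:ℝ)), integrableOn_union,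
    integrableOn_Ici_iff_integrableOn_Ioi]
  exact ⟨hIio, hIoi⟩

end Pool.Agent.CYL.Roots
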