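import Pool.Agent.CYL.C.EnDefs

/-!
# CYL, part C: the sine products

`prod_(k<L) |2 sin (pi (k - a)/L)| = 2` for `a` half an odd integer, and the product over the
nonzero factors is `L` for an integer `a`. In terms of `Fs L u = log (2 sin (pi u/L))`
(`Real.log` is even and `Real.log 0 = 0`).

Proof: `prod_(0<k<L) |1 - zeta^k| = L`; for `2 L` this is the product for `L` times the product over the
half integers; `Fs L` has period `L`.
-/

namespace Pool.Agent.CYL

theorem EnSin_per {L : ℕ} (hL : 0 < L) (u : ℝ) : Fs L (u + L) = Fs L u := by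
  have hL' : (L : ℝ) ≠ 0 := by positivity
  unfold Fs
  have h : Real.pi * (u + L) / L = Real.pi * u / L + Real.pi := by field_simp
  rw [h, Real.sin_add_pi, mul_neg, Real.log_neg_eq_log]

theorem EnSin_shift {L : ℕ} (hL : 0 < L) (c : ℝ) :
    ∑ j ∈ Finset.range L, Fs L ((j : ℝ) + (c - 1)) = ∑ j ∈ Finset.range L, Fs L ((j : ℝ) + c) := by
  obtain ⟨n, rfl⟩ : ∃ n, L = n + 1 := ⟨L - 1, by omega⟩
  rw [Finset.sum_range_succ', Finset.sum_range_succ]
  congr 1
  · refine Finset.sum_congr rfl fun j _ => ?_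
    congr 1
    push_cast
    ring
  · rw [← EnSin_per hL]
    congr 1
    push_cast
    ring

theorem EnSin_shift_nat {L : ℕ} (hL : 0 < L) (c : ℝ) (k : ℕ) :
    ∑ j ∈ Finset.range L, Fs L ((j : ℝ) + (c - k)) = ∑ j ∈ Finset.range L, Fs L ((j : ℝ) + c) := by
  induction k with
  | zero => simp
  | succ k ih =>
    rw [← ih, ← EnSin_shift hL (c - k)]
    refine Finset.sum_congr rfl fun j _ => ?_
    congr 2
    push_cast
    ring

theorem EnSin_zero {L : ℕ} (hL : 0 < L) : ∑ j ∈ Finset.range L, Fs L (j : ℝ) = Real.log L := by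
  obtain ⟨n, rfl⟩ : ∃ n, L = n + 1 := ⟨L - 1, by omega⟩
  have hn : ((n + 1 : ℕ) : ℝ) ≠ 0 := by positivity
  rw [Finset.sum_range_succ']
  have h0 : Fs (n + 1) ((0 : ℕ) : ℝ) = 0 := by simp [Fs]
  rw [h0, add_zero]
  have hpos : ∀ j ∈ Finset.range n, 0 < 2 * Real.sin (Real.pi * ((j + 1 : ℕ) : ℝ) / ((n + 1 : ℕ) : ℝ)) := by
    intro j hj
    have hj' : ((j + 1 : ℕ) : ℝ) < ((n + 1 : ℕ) : ℝ) := by
      exact_mod_cast Nat.succ_lt_succ (Finset.mem_range.1 hj)
    have : 0 < Real.sin (Real.pi * ((j + 1 : ℕ) : ℝ) / ((n + 1 : ℕ) : ℝ)) := by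
      apply Real.sin_pos_of_pos_of_lt_pi
      · have := Real.pi_pos
        positivity
      · rw [div_lt_iff₀ (by positivity)]
        exact mul_lt_mul_of_pos_left hj' Real.pi_pos
    linarith
  have h1 : IsPrimitiveRoot (Complex.exp (2 * Real.pi * Complex.I / ((n + 1 : ℕ) : ℂ))) (n + 1) :=
    Complex.isPrimitiveRoot_exp (n + 1) (Nat.succ_ne_zero n)
  have h2 := h1.prod_one_sub_pow_eq_order
  have h3 : ∀ j ∈ Finset.range n, ‖1 - Complex.exp (2 * Real.pi * Complex.I / ((n + 1 : ℕ) : ℂ)) ^ (j + 1)‖ =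
      2 * Real.sin (Real.pi * ((j + 1 : ℕ) : ℝ) / ((n + 1 : ℕ) : ℝ)) := by
    intro j hj
    rw [← Complex.exp_nat_mul, norm_sub_rev]
    have e : ((j + 1 : ℕ) : ℂ) * (2 * Real.pi * Complex.I / ((n + 1 : ℕ) : ℂ)) =
        Complex.I * ((2 * (Real.pi * ((j + 1 : ℕ) : ℝ) / ((n + 1 : ℕ) : ℝ)) : ℝ) : ℂ) := by
      push_cast
      ring
    rw [e, Complex.norm_exp_I_mul_ofReal_sub_one, mul_div_cancel_left₀ _ (two_ne_zero),
      Real.norm_of_nonneg (hpos j hj).le]
  have h4 : ∏ j ∈ Finset.range n, (2 * Real.sin (Real.pi * ((j + 1 : ℕ) : ℝ) / ((n + 1 : ℕ) : ℝ))) = (n : ℝ) + 1 := by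
    rw [← Finset.prod_congr rfl h3, ← norm_prod, h2]
    have : ((n : ℂ) + 1) = (((n : ℝ) + 1 : ℝ) : ℂ) := by push_cast; rfl
    rw [this, Complex.norm_real, Real.norm_of_nonneg (by positivity)]
  unfold Fs
  rw [← Real.log_prod (fun j hj => (hpos j hj).ne'), h4]
  push_cast
  rfl

theorem EnSin_two (g : ℕ → ℝ) (n : ℕ) :
    ∑ k ∈ Finset.range (2 * n), g k = ∑ j ∈ Finset.range n, (g (2 * j) + g (2 * j + 1)) := by
  induction n with
  | zero => simp
  | succ n ih =>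
    rw [Finset.sum_range_succ _ n, ← ih, show 2 * (n + 1) = 2 * n + 1 + 1 by ring, Finset.sum_range_succ,
      Finset.sum_range_succ]
    ring

theorem EnSin_half {L : ℕ} (hL : 0 < L) : ∑ j ∈ Finset.range L, Fs L ((j : ℝ) + 1 / 2) = Real.log 2 := by
  have hL' : (L : ℝ) ≠ 0 := by positivity
  have h1 := EnSin_zero (L := 2 * L) (by omega)
  rw [EnSin_two (fun k => Fs (2 * L) (k : ℝ)), Finset.sum_add_distrib] at h1
  have h2 : ∑ j ∈ Finset.range L, Fs (2 * L) ((2 * j : ℕ) : ℝ) = ∑ j ∈ Finset.range L, Fs L (j : ℝ) := by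
    refine Finset.sum_congr rfl fun j _ => ?_
    unfold Fs
    congr 3
    push_cast
    field_simp
  have h3 : ∑ j ∈ Finset.range L, Fs (2 * L) ((2 * j + 1 : ℕ) : ℝ) =
      ∑ j ∈ Finset.range L, Fs L ((j : ℝ) + 1 / 2) := by
    refine Finset.sum_congr rfl fun j _ => ?_
    unfold Fs
    congr 3
    push_cast
    field_simp
  rw [h2, h3, EnSin_zero hL] at h1
  push_cast at h1
  rw [Real.log_mul two_ne_zero hL'] at h1
  linarith

theorem sum_Fs (m L : ℕ) (hL : 0 < L) (hm : m ≤ L) :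
    ∑ j ∈ Finset.range L, Fs L ((j : ℝ) - ((m : ℝ) - 1) / 2) =
      if Even m then Real.log 2 else Real.log L := by
  split_ifs with h
  · obtain ⟨k, rfl⟩ := h
    rw [← EnSin_half hL, ← EnSin_shift_nat hL (1 / 2) k]
    refine Finset.sum_congr rfl fun j _ => ?_
    congr 1
    push_cast
    ring
  · obtain ⟨k, rfl⟩ := Nat.not_even_iff_odd.1 h
    have h1 := EnSin_shift_nat hL 0 k
    simp only [add_zero] at h1
    rw [← EnSin_zero hL, ← h1]
    refine Finset.sum_congr rfl fun j _ => ?_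
    congr 1
    push_cast
    ring

theorem sum_Fs_split (m l L : ℕ) (hL : 0 < L) (h : m + l = L) :
    ∑ j : Fin m, Fs L ((j : ℝ) - ((m : ℝ) - 1) / 2) +
      ∑ i : Fin l, Fs L (((L : ℝ) - l + 1) / 2 + i) =
      if Even m then Real.log 2 else Real.log L := by
  rw [← sum_Fs m L hL (by omega), ← h, Finset.sum_range_add, Finset.sum_range, Finset.sum_range]
  congr 1
  refine Finset.sum_congr rfl fun i _ => ?_
  congr 1
  push_cast
  ring

end Pool.Agent.CYL
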