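import Pool.Agent.CYL.C.Bas

/-! # Integration by parts against `S dz` and `P dz`

PROOF. `P` is continuous with derivative `S dz` off the finite set of roots (`continuous_P`,
`hasDerivAt_P`); apply `MeasureTheory.integral_eq_of_hasDerivAt_off_countable_of_le`
(or `intervalIntegral` version) to `P G`. Same for `Q`. -/

namespace Pool.Agent.CYL.Roots

open MeasureTheory Filter Topology Set

variable {l : ℕ} (r : Roots l)

theorem intervalIntegrable_S_mul {f : ℝ → ℝ} {a b : ℝ} (hf : IntervalIntegrable f volume a b) :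
    IntervalIntegrable (fun x => r.S x * f x) volume a b := by
  obtain ⟨C, hC⟩ := (isCompact_uIcc (a := a) (b := b)).exists_bound_of_continuousOn
    r.continuous_z.continuousOn
  rw [intervalIntegrable_iff] at hf ⊢
  refine Integrable.bdd_mul (c := C + (r.m : ℝ) / 2) hf r.measurable_S.aestronglyMeasurable ?_
  refine (ae_restrict_iff' measurableSet_uIoc).mpr (Eventually.of_forall fun x hx => ?_)
  have h1 := hC x (uIoc_subset_uIcc hx)
  have h2 := r.abs_N0_le x
  rw [Real.norm_eq_abs] at h1 ⊢
  have h3 : |r.S x| ≤ |r.z x| + |r.N0 x| := by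
    unfold Roots.S
    exact abs_sub _ _
  linarith

private theorem Ibp_aux {a b : ℝ} (hab : a ≤ b) {F F' G G' : ℝ → ℝ} (hF : Continuous F)
    (hF' : ∀ y, (∀ k, r.x k ≠ y) → HasDerivAt F (F' y) y)
    (hGc : ContinuousOn G (Icc a b))
    (hG : ∀ x ∈ Ioo a b, HasDerivAt G (G' x) x) (hG' : IntervalIntegrable G' volume a b)
    (hI : IntervalIntegrable (fun x => F' x * G x) volume a b) :
    ∫ x in a..b, F' x * G x = F b * G b - F a * G a - ∫ x in a..b, F x * G' x := by
  have hI2 : IntervalIntegrable (fun x => F x * G' x) volume a b :=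
    hG'.continuousOn_mul hF.continuousOn
  have hcount : (Set.range r.x).Countable := Set.countable_range _
  have hd : ∀ x ∈ Ioo a b \ Set.range r.x, HasDerivAt (fun y => F y * G y)
      (F' x * G x + F x * G' x) x := by
    intro x hx
    have h1 := hF' x (fun k hk => hx.2 ⟨k, hk⟩)
    exact h1.mul (hG x hx.1)
  have h := MeasureTheory.integral_eq_of_hasDerivAt_off_countable_of_le (fun y => F y * G y)
    (fun x => F' x * G x + F x * G' x) hab hcount (hF.continuousOn.mul hGc) hd (hI.add hI2)
  rw [intervalIntegral.integral_add hI hI2] at h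
  linarith

theorem ibp_S {a b : ℝ} (hab : a ≤ b) {G G' : ℝ → ℝ} (hGc : ContinuousOn G (Icc a b))
    (hG : ∀ x ∈ Ioo a b, HasDerivAt G (G' x) x) (hG' : IntervalIntegrable G' volume a b) :
    ∫ x in a..b, r.S x * r.dz x * G x = r.P b * G b - r.P a * G a - ∫ x in a..b, r.P x * G' x := by
  refine Ibp_aux r hab r.continuous_P r.hasDerivAt_P hGc hG hG' ?_
  have h1 : IntervalIntegrable (fun x => r.dz x * G x) volume a b := by
    refine ContinuousOn.intervalIntegrable ?_
    rw [uIcc_of_le hab]
    exact r.continuous_dz.continuousOn.mul hGc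
  have h2 := r.intervalIntegrable_S_mul h1
  refine h2.congr ?_
  exact fun x _ => (mul_assoc _ _ _).symm

theorem ibp_P {a b : ℝ} (hab : a ≤ b) {G G' : ℝ → ℝ} (hGc : ContinuousOn G (Icc a b))
    (hG : ∀ x ∈ Ioo a b, HasDerivAt G (G' x) x) (hG' : IntervalIntegrable G' volume a b) :
    ∫ x in a..b, r.P x * r.dz x * G x = r.Q b * G b - r.Q a * G a - ∫ x in a..b, r.Q x * G' x := by
  refine Ibp_aux r hab r.continuous_Q r.hasDerivAt_Q hGc hG hG' ?_
  refine ContinuousOn.intervalIntegrable ?_
  rw [uIcc_of_le hab]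
  exact (r.continuous_P.mul r.continuous_dz).continuousOn.mul hGc

end Pool.Agent.CYL.Roots
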