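import Mathlib

/-! # CYL, part C: all derivatives of `1 / (cosh (s x) - cos t)` decay exponentially -/

open Filter Topology Set

namespace Pool.Agent.CYL.KerBd

/-- `u(x) = 1 / (cosh (s x) - c)` -/
noncomputable def u (s c x : ℝ) : ℝ := (Real.cosh (s * x) - c)⁻¹

private noncomputable def B (s c x : ℝ) : ℝ := Real.sinh (s * x) * u s c x
private noncomputable def E (s c x : ℝ) : ℝ := Real.cosh (s * x) * u s c x

private lemma den_pos {c : ℝ} (hc : c < 1) (s x : ℝ) : 0 < Real.cosh (s * x) - c := by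
  have := Real.one_le_cosh (s * x)
  linarith

private lemma dcosh (s x : ℝ) :
    HasDerivAt (fun y => Real.cosh (s * y)) (s * Real.sinh (s * x)) x := by
  have := ((hasDerivAt_id x).const_mul s).cosh
  refine this.congr_deriv ?_
  simp
  ring

private lemma dsinh (s x : ℝ) :
    HasDerivAt (fun y => Real.sinh (s * y)) (s * Real.cosh (s * x)) x := by
  have := ((hasDerivAt_id x).const_mul s).sinh
  refine this.congr_deriv ?_
  simp
  ring

private lemma du {c : ℝ} (hc : c < 1) (s x : ℝ) :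
    HasDerivAt (u s c) (u s c x * (-s * B s c x)) x := by
  have h := ((dcosh s x).sub_const c).inv (den_pos hc s x).ne'
  refine h.congr_deriv ?_
  unfold B u
  have := (den_pos hc s x).ne'
  field_simp

private lemma dB {c : ℝ} (hc : c < 1) (s x : ℝ) :
    HasDerivAt (B s c) (s * E s c x + (-s) * (B s c x * B s c x)) x := by
  have h := (dsinh s x).mul (du hc s x)
  refine h.congr_deriv ?_
  unfold E B
  ring

private lemma dE {c : ℝ} (hc : c < 1) (s x : ℝ) :
    HasDerivAt (E s c) (s * B s c x + (-s) * (E s c x * B s c x)) x := by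
  have h := (dcosh s x).mul (du hc s x)
  refine h.congr_deriv ?_
  unfold E B
  ring

private inductive Alg (s c : ℝ) : (ℝ → ℝ) → Prop
  | const (k : ℝ) : Alg s c (fun _ => k)
  | b : Alg s c (B s c)
  | e : Alg s c (E s c)
  | add {f g : ℝ → ℝ} : Alg s c f → Alg s c g → Alg s c (fun x => f x + g x)
  | mul {f g : ℝ → ℝ} : Alg s c f → Alg s c g → Alg s c (fun x => f x * g x)

private lemma Alg.der {s c : ℝ} (hc : c < 1) {f : ℝ → ℝ} (hf : Alg s c f) :
    ∃ f' : ℝ → ℝ, Alg s c f' ∧ ∀ x, HasDerivAt f (f' x) x := by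
  induction hf with
  | const k => exact ⟨fun _ => 0, Alg.const 0, fun x => hasDerivAt_const x k⟩
  | b => exact ⟨_, (((Alg.const s).mul Alg.e).add ((Alg.const (-s)).mul (Alg.b.mul Alg.b))),
      fun x => dB hc s x⟩
  | e => exact ⟨_, (((Alg.const s).mul Alg.b).add ((Alg.const (-s)).mul (Alg.e.mul Alg.b))),
      fun x => dE hc s x⟩
  | add _ _ hf hg =>
    obtain ⟨f', hf', hf⟩ := hf
    obtain ⟨g', hg', hg⟩ := hg
    exact ⟨_, hf'.add hg', fun x => (hf x).add (hg x)⟩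
  | mul hf0 hg0 hf hg =>
    obtain ⟨f', hf', hf⟩ := hf
    obtain ⟨g', hg', hg⟩ := hg
    exact ⟨_, (hf'.mul hg0).add (hf0.mul hg'), fun x => (hf x).mul (hg x)⟩

private lemma abs_sinh_le (y : ℝ) : |Real.sinh y| ≤ Real.cosh y := by
  rw [abs_le]
  constructor
  · have := Real.cosh_add_sinh y
    have := Real.exp_pos y
    linarith
  · have := Real.cosh_sub_sinh y
    have := Real.exp_pos (-y)
    linarith

private lemma low {c : ℝ} (hc : c < 1) : ∃ k : ℝ, 0 < k ∧ ∀ y : ℝ,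
    k * Real.cosh y ≤ Real.cosh y - c := by
  refine ⟨min 1 (1 - c), lt_min one_pos (by linarith), fun y => ?_⟩
  have h1 := Real.one_le_cosh y
  have h2 : 0 ≤ 1 - min 1 (1 - c) := by linarith [min_le_left 1 (1 - c)]
  have h3 : c ≤ 1 - min 1 (1 - c) := by linarith [min_le_right 1 (1 - c)]
  nlinarith

private lemma u_bd {s c : ℝ} (hc : c < 1) : ∃ C : ℝ, 0 < C ∧ ∀ x,
    |u s c x| ≤ C / Real.cosh (s * x) := by
  obtain ⟨k, hk, h⟩ := low hc
  refine ⟨1 / k, by positivity, fun x => ?_⟩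
  have hC := Real.cosh_pos (s * x)
  have hD := den_pos hc s x
  unfold u
  rw [abs_of_pos (inv_pos.2 hD), div_div, one_div]
  exact inv_anti₀ (by positivity) (h _)

private lemma Alg.bd {s c : ℝ} (hc : c < 1) {f : ℝ → ℝ} (hf : Alg s c f) :
    ∃ C : ℝ, 0 ≤ C ∧ ∀ x, |f x| ≤ C := by
  obtain ⟨k, hk, hu⟩ := u_bd (s := s) hc
  induction hf with
  | const k => exact ⟨|k|, abs_nonneg _, fun x => le_refl _⟩
  | b =>
    refine ⟨k, hk.le, fun x => ?_⟩
    have hC := Real.cosh_pos (s * x)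
    unfold B
    rw [abs_mul]
    calc |Real.sinh (s * x)| * |u s c x| ≤ Real.cosh (s * x) * (k / Real.cosh (s * x)) := by
          gcongr
          · exact abs_sinh_le _
          · exact hu x
      _ = k := by field_simp
  | e =>
    refine ⟨k, hk.le, fun x => ?_⟩
    have hC := Real.cosh_pos (s * x)
    unfold E
    rw [abs_mul, abs_of_pos hC]
    calc Real.cosh (s * x) * |u s c x| ≤ Real.cosh (s * x) * (k / Real.cosh (s * x)) := by
          gcongr
          exact hu x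
      _ = k := by field_simp
  | add _ _ hf hg =>
    obtain ⟨C, hC, hf⟩ := hf
    obtain ⟨D, hD, hg⟩ := hg
    exact ⟨C + D, by positivity, fun x => (abs_add_le _ _).trans (add_le_add (hf x) (hg x))⟩
  | mul _ _ hf hg =>
    obtain ⟨C, hC, hf⟩ := hf
    obtain ⟨D, hD, hg⟩ := hg
    refine ⟨C * D, by positivity, fun x => ?_⟩
    rw [abs_mul]
    exact mul_le_mul (hf x) (hg x) (abs_nonneg _) hC

private lemma iter {s c : ℝ} (hc : c < 1) (n : ℕ) :
    ∃ g : ℝ → ℝ, Alg s c g ∧ iteratedDeriv n (u s c) = fun x => u s c x * g x := by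
  induction n with
  | zero => exact ⟨fun _ => 1, Alg.const 1, by simp⟩
  | succ n ih =>
    obtain ⟨g, hg, h⟩ := ih
    obtain ⟨g', hg', hd⟩ := hg.der hc
    refine ⟨_, (((Alg.const (-s)).mul Alg.b).mul hg).add hg', ?_⟩
    rw [iteratedDeriv_succ, h]
    funext x
    have := (du hc s x).mul (hd x)
    have h2 := this.deriv
    change deriv (fun x => u s c x * g x) x = _ at h2
    rw [h2]
    ring

/-- `1 / (cosh (s x) - c)` is smooth for `c < 1` -/
theorem u_contDiff {s c : ℝ} (hc : c < 1) {n : WithTop ℕ∞} : ContDiff ℝ n (u s c) := by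
  unfold u
  refine ContDiff.inv ?_ fun x => (den_pos hc s x).ne'
  exact (Real.contDiff_cosh.comp (contDiff_const.mul contDiff_id)).sub contDiff_const

/-- all derivatives of `1 / (cosh (s x) - c)` are `O(exp (-s |x|))` -/
theorem u_iter_bd {s c : ℝ} (hc : c < 1) (hs : 0 < s) (n : ℕ) :
    ∃ C : ℝ, 0 < C ∧ ∀ x, |iteratedDeriv n (u s c) x| ≤ C * Real.exp (-(s * |x|)) := by
  obtain ⟨g, hg, h⟩ := iter (s := s) hc n
  obtain ⟨C, hC, hg⟩ := hg.bd hc
  obtain ⟨D, hD, hu⟩ := u_bd (s := s) hc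
  refine ⟨2 * D * (C + 1), by positivity, fun x => ?_⟩
  rw [h]
  simp only [abs_mul]
  have h1 : Real.exp (s * |x|) / 2 ≤ Real.cosh (s * x) := by
    have : Real.cosh (s * x) = Real.cosh (s * |x|) := by
      rw [← Real.cosh_abs (s * x), abs_mul, abs_of_pos hs]
    rw [this, Real.cosh_eq]
    have := Real.exp_pos (-(s * |x|))
    linarith
  have h2 : D / Real.cosh (s * x) ≤ 2 * D * Real.exp (-(s * |x|)) := by
    rw [Real.exp_neg, div_le_iff₀ (Real.cosh_pos _)]
    have h3 := Real.exp_pos (s * |x|)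
    calc D = 2 * D * (Real.exp (s * |x|))⁻¹ * (Real.exp (s * |x|) / 2) := by field_simp
      _ ≤ 2 * D * (Real.exp (s * |x|))⁻¹ * Real.cosh (s * x) := by gcongr
  calc |u s c x| * |g x| ≤ (2 * D * Real.exp (-(s * |x|))) * (C + 1) := by
        gcongr
        · exact (hu x).trans h2
        · exact (hg x).trans (by linarith)
    _ = 2 * D * (C + 1) * Real.exp (-(s * |x|)) := by ring

/-- smooth functions all of whose derivatives are `O(exp (-s |x|))` -/
def Dec (s : ℝ) (f : ℝ → ℝ) : Prop :=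
  (∀ n : ℕ, ContDiff ℝ n f) ∧
    ∀ n : ℕ, ∃ C : ℝ, 0 < C ∧ ∀ x, |iteratedDeriv n f x| ≤ C * Real.exp (-(s * |x|))

theorem Dec.u {s c : ℝ} (hc : c < 1) (hs : 0 < s) : Dec s (u s c) :=
  ⟨fun _ => u_contDiff hc, fun n => u_iter_bd hc hs n⟩

theorem Dec.add {s : ℝ} {f g : ℝ → ℝ} (hf : Dec s f) (hg : Dec s g) :
    Dec s (fun x => f x + g x) := by
  refine ⟨fun n => (hf.1 n).add (hg.1 n), fun n => ?_⟩
  obtain ⟨C, hC, h1⟩ := hf.2 n
  obtain ⟨D, hD, h2⟩ := hg.2 n
  refine ⟨C + D, by positivity, fun x => ?_⟩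
  have := iteratedDeriv_add (n := n) (x := x) (hf.1 n).contDiffAt (hg.1 n).contDiffAt
  change iteratedDeriv n (fun x => f x + g x) x = _ at this
  rw [this, add_mul]
  exact (abs_add_le _ _).trans (add_le_add (h1 x) (h2 x))

theorem Dec.const_mul {s : ℝ} {f : ℝ → ℝ} (k : ℝ) (hf : Dec s f) :
    Dec s (fun x => k * f x) := by
  refine ⟨fun n => contDiff_const.mul (hf.1 n), fun n => ?_⟩
  obtain ⟨C, hC, h1⟩ := hf.2 n
  refine ⟨(|k| + 1) * C, by positivity, fun x => ?_⟩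
  rw [iteratedDeriv_const_mul_field, abs_mul, mul_assoc]
  exact mul_le_mul (by linarith) (h1 x) (abs_nonneg _) (by positivity)

theorem Dec.sub {s : ℝ} {f g : ℝ → ℝ} (hf : Dec s f) (hg : Dec s g) :
    Dec s (fun x => f x - g x) := by
  have := hf.add (hg.const_mul (-1))
  refine (iff_of_eq ?_).mp this
  congr 1
  funext x
  ring

theorem Dec.mono {s t : ℝ} {f : ℝ → ℝ} (hts : t ≤ s) (hf : Dec s f) : Dec t f := by
  refine ⟨hf.1, fun n => ?_⟩
  obtain ⟨C, hC, h⟩ := hf.2 n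
  refine ⟨C, hC, fun x => (h x).trans ?_⟩
  have := abs_nonneg x
  gcongr

theorem Dec.bd {s : ℝ} {f : ℝ → ℝ} (hf : Dec s f) :
    ∃ C : ℝ, 0 < C ∧ ∀ x, |f x| ≤ C * Real.exp (-(s * |x|)) := by
  simpa using hf.2 0

theorem Dec.deriv {s : ℝ} {f : ℝ → ℝ} (hf : Dec s f) : Dec s (deriv f) := by
  refine ⟨fun n => ?_, fun n => ?_⟩
  · have := hf.1 (n + 1)
    exact ((contDiff_succ_iff_deriv).1 (by exact_mod_cast this)).2.2
  · obtain ⟨C, hC, h⟩ := hf.2 (n + 1)
    refine ⟨C, hC, fun x => ?_⟩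
    rw [← iteratedDeriv_succ']
    exact h x

theorem Dec.integrable {s : ℝ} (hs : 0 < s) {f : ℝ → ℝ} (hf : Dec s f) :
    MeasureTheory.Integrable f := by
  obtain ⟨C, hC, h⟩ := hf.bd
  have h0 : MeasureTheory.Integrable fun x : ℝ => C * (2 / s ^ 2 + 1) * (1 + x ^ 2)⁻¹ :=
    integrable_inv_one_add_sq.const_mul _
  refine h0.mono' (hf.1 0).continuous.aestronglyMeasurable (MeasureTheory.ae_of_all _ fun x => ?_)
  rw [Real.norm_eq_abs]
  refine (h x).trans ?_
  have hx2 : (0:ℝ) < 1 + x ^ 2 := by positivity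
  rw [mul_assoc]
  refine mul_le_mul_of_nonneg_left ?_ hC.le
  rw [← div_eq_mul_inv, le_div_iff₀ hx2, Real.exp_neg]
  have hy : 0 ≤ s * |x| := by positivity
  have hq := Real.quadratic_le_exp_of_nonneg hy
  have hE := Real.exp_pos (s * |x|)
  rw [inv_mul_le_iff₀ hE]
  have hxx : (s * |x|) ^ 2 = s ^ 2 * x ^ 2 := by rw [mul_pow, sq_abs]
  rw [hxx] at hq
  have h1 : 1 + x ^ 2 ≤ (2 / s ^ 2 + 1) * (1 + s * |x| + s ^ 2 * x ^ 2 / 2) := by
    have e : (2 / s ^ 2 + 1) * (1 + s * |x| + s ^ 2 * x ^ 2 / 2) =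
        (2 / s ^ 2) * (1 + s * |x|) + x ^ 2 + (1 + s * |x| + s ^ 2 * x ^ 2 / 2) := by
      field_simp
    rw [e]
    have : 0 ≤ (2 / s ^ 2) * (1 + s * |x|) := by positivity
    nlinarith [sq_nonneg (s * x)]
  calc 1 + x ^ 2 ≤ (2 / s ^ 2 + 1) * (1 + s * |x| + s ^ 2 * x ^ 2 / 2) := h1
    _ ≤ (2 / s ^ 2 + 1) * Real.exp (s * |x|) := by gcongr
    _ = Real.exp (s * |x|) * (2 / s ^ 2 + 1) := by ring

end Pool.Agent.CYL.KerBd
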