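import Pool.Agent.CYL.C.Defs
import Pool.Agent.CYL.C.KerBd

/-! # CYL, part C: regularity, derivative bounds, primitives, limits and parity of the kernels -/

open Filter Topology Set

namespace Pool.Agent.CYL.KReg

open KerBd

private lemma cos_two_lt_one {a : ℝ} (h0 : 0 < a) (h1 : a < Real.pi) : Real.cos (2 * a) < 1 := by
  have hs : 0 < Real.sin a := Real.sin_pos_of_pos_of_lt_pi h0 h1
  have : Real.cos (2 * a) = 1 - 2 * Real.sin a ^ 2 := by
    rw [Real.cos_two_mul]
    have := Real.sin_sq_add_cos_sq a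
    linarith
  rw [this]
  nlinarith [mul_pos hs hs]

private lemma pk_u (a : ℝ) : pk a = fun x => Real.sin (2 * a) / Real.pi * u 2 (Real.cos (2 * a)) x := by
  funext x
  unfold pk u
  rw [div_mul_eq_div_div, div_eq_mul_inv]

/-- all derivatives of `pk a` are `O(exp (-2 |x|))` -/
theorem pk_dec {a : ℝ} (h0 : 0 < a) (h1 : a < Real.pi) : Dec 2 (pk a) := by
  rw [pk_u]
  exact (Dec.u (cos_two_lt_one h0 h1) two_pos).const_mul _

theorem K_dec : Dec 2 K := by
  have hpi := Real.pi_pos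
  exact (pk_dec (a := Real.pi / 8) (by linarith) (by linarith)).sub
    (pk_dec (a := Real.pi / 4) (by linarith) (by linarith))

private lemma rho_u : rho = fun x => Real.sqrt 3 * (8 / 3) / Real.pi / 4 *
    (u (8 / 3) (1 / 2) x + u (8 / 3) (-1 / 2) x) := by
  funext x
  unfold rho u
  have hC := Real.one_le_cosh (8 / 3 * x)
  have e : Real.cosh (16 / 3 * x) = 2 * Real.cosh (8 / 3 * x) ^ 2 - 1 := by
    rw [show (16:ℝ) / 3 * x = 2 * (8 / 3 * x) by ring, Real.cosh_two_mul, Real.sinh_sq]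
    ring
  rw [e]
  generalize Real.cosh (8 / 3 * x) = C at *
  have h1 : 0 < C - 1 / 2 := by linarith
  have h2 : 0 < C - -1 / 2 := by linarith
  have h3 : 2 * C ^ 2 - 1 + 1 / 2 = 2 * ((C - 1 / 2) * (C - -1 / 2)) := by ring
  rw [h3]
  have h4 : (C - 1 / 2)⁻¹ + (C - -1 / 2)⁻¹ = 2 * C / ((C - 1 / 2) * (C - -1 / 2)) := by
    rw [inv_add_inv h1.ne' h2.ne']
    ring
  rw [h4]
  have hpi := Real.pi_pos.ne'
  field_simp
  try ring

/-- all derivatives of `rho` are `O(exp (-(8/3) |x|))` -/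
theorem rho_dec : Dec (8 / 3) rho := by
  rw [rho_u]
  exact ((Dec.u (by norm_num) (by norm_num)).add (Dec.u (by norm_num) (by norm_num))).const_mul _

theorem rho_pos (x : ℝ) : 0 < rho x := by
  unfold rho
  have h1 := Real.cosh_pos (8 / 3 * x)
  have h2 := Real.cosh_pos (16 / 3 * x)
  have h3 := Real.pi_pos
  positivity

/-- lower bound for the density -/
theorem rho_lower : ∃ c : ℝ, 0 < c ∧ ∀ x, c * Real.exp (-(8 / 3 * |x|)) ≤ rho x := by
  have hpi := Real.pi_pos
  refine ⟨Real.sqrt 3 * (8 / 3) / Real.pi / 4, by positivity, fun x => ?_⟩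
  rw [rho_u]
  have hc : Real.cosh (8 / 3 * x) ≤ Real.exp (8 / 3 * |x|) := by
    have : Real.cosh (8 / 3 * x) = Real.cosh (8 / 3 * |x|) := by
      rw [← Real.cosh_abs (8 / 3 * x), abs_mul, abs_of_pos (by norm_num : (0:ℝ) < 8 / 3)]
    rw [this, Real.cosh_eq]
    have : Real.exp (-(8 / 3 * |x|)) ≤ Real.exp (8 / 3 * |x|) := by
      apply Real.exp_le_exp.2
      have := abs_nonneg x
      linarith
    linarith
  have h1 : Real.exp (-(8 / 3 * |x|)) ≤ u (8 / 3) (1 / 2) x := by
    unfold u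
    rw [Real.exp_neg]
    have h4 := Real.one_le_cosh (8 / 3 * x)
    exact inv_anti₀ (by linarith) (by linarith)
  have h2 : 0 ≤ u (8 / 3) (-1 / 2) x := by
    unfold u
    have h4 := Real.one_le_cosh (8 / 3 * x)
    exact inv_nonneg.2 (by linarith)
  exact mul_le_mul_of_nonneg_left (by linarith) (by positivity)

/-! ### primitives -/

private lemma hasDerivAt_tanh (x : ℝ) : HasDerivAt Real.tanh (1 / Real.cosh x ^ 2) x := by
  have h : Real.tanh = fun y => Real.sinh y / Real.cosh y := by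
    funext y
    exact Real.tanh_eq_sinh_div_cosh y
  rw [h]
  have hc := (Real.cosh_pos x).ne'
  refine ((Real.hasDerivAt_sinh x).div (Real.hasDerivAt_cosh x) hc).congr_deriv ?_
  have := Real.cosh_sq x
  congr 1
  linear_combination this

theorem hasDerivAt_Ph {a : ℝ} (h0 : 0 < a) (h1 : a < Real.pi) (x : ℝ) :
    HasDerivAt (Ph a) (pk a x) x := by
  have hs : 0 < Real.sin a := Real.sin_pos_of_pos_of_lt_pi h0 h1
  have h := (((hasDerivAt_tanh x).const_mul (Real.cos a / Real.sin a)).arctan).div_const Real.pi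
  refine h.congr_deriv ?_
  unfold pk
  have hC := Real.cosh_pos x
  have e1 : Real.cosh (2 * x) - Real.cos (2 * a) =
      2 * (Real.sin a ^ 2 * Real.cosh x ^ 2 + Real.cos a ^ 2 * Real.sinh x ^ 2) := by
    rw [Real.cosh_two_mul, Real.cos_two_mul]
    have h2 := Real.sin_sq_add_cos_sq a
    have h3 := Real.cosh_sq x
    have h4 : Real.sin a ^ 2 = 1 - Real.cos a ^ 2 := by linarith
    rw [h4, h3]
    ring
  have hpos : 0 < Real.sin a ^ 2 * Real.cosh x ^ 2 + Real.cos a ^ 2 * Real.sinh x ^ 2 := by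
    positivity
  have e2 : 1 + (Real.cos a / Real.sin a * Real.tanh x) ^ 2 =
      (Real.sin a ^ 2 * Real.cosh x ^ 2 + Real.cos a ^ 2 * Real.sinh x ^ 2) /
        (Real.sin a ^ 2 * Real.cosh x ^ 2) := by
    rw [Real.tanh_eq_sinh_div_cosh]
    field_simp
  rw [e1, e2, Real.sin_two_mul]
  have hpi := Real.pi_pos
  field_simp

theorem hasDerivAt_Th (x : ℝ) : HasDerivAt Th (K x) x := by
  have hpi := Real.pi_pos
  exact (hasDerivAt_Ph (a := Real.pi / 8) (by linarith) (by linarith) x).sub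
    (hasDerivAt_Ph (a := Real.pi / 4) (by linarith) (by linarith) x)

theorem hasDerivAt_R (x : ℝ) : HasDerivAt R (rho x) x := by
  have h0 : HasDerivAt (fun y : ℝ => Real.sinh (8 / 3 * y)) (Real.cosh (8 / 3 * x) * (8 / 3)) x := by
    have := ((hasDerivAt_id x).const_mul (8 / 3)).sinh
    simpa using this
  have h := (((h0.const_mul 2).div_const (Real.sqrt 3)).arctan).div_const Real.pi
  refine h.congr_deriv ?_
  unfold rho
  have e : Real.cosh (16 / 3 * x) = 1 + 2 * Real.sinh (8 / 3 * x) ^ 2 := by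
    rw [show (16:ℝ) / 3 * x = 2 * (8 / 3 * x) by ring, Real.cosh_two_mul, Real.cosh_sq]
    ring
  rw [e]
  have h3 : Real.sqrt 3 ^ 2 = 3 := Real.sq_sqrt (by norm_num)
  have h3' : 0 < Real.sqrt 3 := Real.sqrt_pos.2 (by norm_num)
  have e2 : 1 + (2 * Real.sinh (8 / 3 * x) / Real.sqrt 3) ^ 2 =
      (3 + 4 * Real.sinh (8 / 3 * x) ^ 2) / 3 := by
    rw [div_pow, h3]
    ring
  have e3 : 1 + 2 * Real.sinh (8 / 3 * x) ^ 2 + 1 / 2 = (3 + 4 * Real.sinh (8 / 3 * x) ^ 2) / 2 := by
    ring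
  rw [e2, e3]
  have hp : 0 < 3 + 4 * Real.sinh (8 / 3 * x) ^ 2 := by positivity
  have hpi := Real.pi_pos
  field_simp
  rw [h3]

/-! ### limits -/

private lemma tanh_atTop : Tendsto Real.tanh atTop (𝓝 1) := by
  have h : Real.tanh = fun y => 1 - 2 / (Real.exp (2 * y) + 1) := by
    funext y
    rw [Real.tanh_eq_sinh_div_cosh, Real.sinh_eq, Real.cosh_eq]
    have e : Real.exp (2 * y) = Real.exp y * Real.exp y := by rw [← Real.exp_add]; ring_nf
    have := Real.exp_pos y
    rw [e, Real.exp_neg]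
    field_simp
    ring
  rw [h]
  have h1 : Tendsto (fun y : ℝ => Real.exp (2 * y) + 1) atTop atTop :=
    tendsto_atTop_add_const_right _ _
      (Real.tendsto_exp_atTop.comp (tendsto_id.const_mul_atTop (by norm_num : (0:ℝ) < 2)))
  have h2 := (h1.const_div_atTop 2).const_sub 1
  simpa using h2

private lemma Ph_top {a : ℝ} (h0 : 0 < a) (h1 : a < Real.pi) :
    Tendsto (Ph a) atTop (𝓝 (1 / 2 - a / Real.pi)) := by
  have hpi := Real.pi_pos
  have hs : 0 < Real.sin a := Real.sin_pos_of_pos_of_lt_pi h0 h1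
  have e : 1 / 2 - a / Real.pi = Real.arctan (Real.cos a / Real.sin a * 1) / Real.pi := by
    have h2 : Real.arctan (Real.cos a / Real.sin a * 1) = Real.pi / 2 - a := by
      rw [← Real.arctan_tan (x := Real.pi / 2 - a) (by linarith) (by linarith)]
      congr 1
      rw [Real.tan_eq_sin_div_cos, Real.sin_pi_div_two_sub, Real.cos_pi_div_two_sub, mul_one]
    rw [h2]
    field_simp
  rw [e]
  exact ((Real.continuous_arctan.tendsto _).comp (tanh_atTop.const_mul _)).div_const _

theorem tendsto_Ph_atTop {a : ℝ} (h0 : 0 < a) (h1 : a < Real.pi) :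
    Tendsto (Ph a) atTop (𝓝 (1 / 2 - a / Real.pi)) := Ph_top h0 h1

theorem Ph_neg (a x : ℝ) : Ph a (-x) = - Ph a x := by
  unfold Ph
  rw [Real.tanh_neg, mul_neg, Real.arctan_neg, neg_div]

theorem Th_neg (x : ℝ) : Th (-x) = - Th x := by
  unfold Th
  rw [Ph_neg, Ph_neg]
  ring

theorem R_neg (x : ℝ) : R (-x) = - R x := by
  unfold R
  rw [mul_neg, Real.sinh_neg, mul_neg, neg_div, Real.arctan_neg, neg_div]

theorem pk_neg (a x : ℝ) : pk a (-x) = pk a x := by
  unfold pk
  rw [mul_neg, Real.cosh_neg]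

theorem K_neg (x : ℝ) : K (-x) = K x := by
  unfold K
  rw [pk_neg, pk_neg]

theorem rho_neg (x : ℝ) : rho (-x) = rho x := by
  unfold rho
  rw [mul_neg, Real.cosh_neg, mul_neg, Real.cosh_neg]

theorem e0_neg (x : ℝ) : e0 (-x) = e0 x := by
  unfold e0
  rw [mul_neg, Real.cosh_neg]

theorem eps_neg (x : ℝ) : eps (-x) = eps x := by
  unfold eps
  rw [mul_neg, Real.cosh_neg]

theorem Ph_zero (a : ℝ) : Ph a 0 = 0 := by
  unfold Ph
  simp

theorem Th_zero : Th 0 = 0 := by
  unfold Th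
  simp [Ph_zero]

theorem R_zero : R 0 = 0 := by
  unfold R
  simp

theorem tendsto_Ph_atBot {a : ℝ} (h0 : 0 < a) (h1 : a < Real.pi) :
    Tendsto (Ph a) atBot (𝓝 (-(1 / 2 - a / Real.pi))) := by
  have h := ((Ph_top h0 h1).comp tendsto_neg_atBot_atTop).neg
  refine h.congr fun x => ?_
  simp [Ph_neg]

theorem tendsto_Th_atTop : Tendsto Th atTop (𝓝 (1 / 8)) := by
  have hpi := Real.pi_pos
  have h := (Ph_top (a := Real.pi / 8) (by linarith) (by linarith)).sub
    (Ph_top (a := Real.pi / 4) (by linarith) (by linarith))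
  have e : 1 / 2 - Real.pi / 8 / Real.pi - (1 / 2 - Real.pi / 4 / Real.pi) = 1 / 8 := by
    field_simp
    ring
  rw [e] at h
  exact h

theorem tendsto_Th_atBot : Tendsto Th atBot (𝓝 (-(1 / 8))) := by
  have h := (tendsto_Th_atTop.comp tendsto_neg_atBot_atTop).neg
  refine h.congr fun x => ?_
  simp [Th_neg]

theorem tendsto_R_atTop : Tendsto R atTop (𝓝 (1 / 2)) := by
  have hpi := Real.pi_pos
  have e : (1:ℝ) / 2 = Real.pi / 2 / Real.pi := by field_simp
  rw [e]
  refine Tendsto.div_const ?_ _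
  refine (tendsto_nhds_of_tendsto_nhdsWithin Real.tendsto_arctan_atTop).comp ?_
  refine Tendsto.atTop_div_const (Real.sqrt_pos.2 (by norm_num)) ?_
  refine Tendsto.const_mul_atTop two_pos ?_
  refine tendsto_atTop_mono' atTop ?_
    (tendsto_id.const_mul_atTop (by norm_num : (0:ℝ) < 8 / 3))
  filter_upwards [eventually_ge_atTop 0] with x hx
  exact Real.self_le_sinh_iff.2 (by simp only [id]; positivity)

theorem tendsto_R_atBot : Tendsto R atBot (𝓝 (-(1 / 2))) := by
  have h := (tendsto_R_atTop.comp tendsto_neg_atBot_atTop).neg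
  refine h.congr fun x => ?_
  simp [R_neg]

theorem R_strictMono : StrictMono R := by
  refine strictMono_of_deriv_pos fun x => ?_
  rw [(hasDerivAt_R x).deriv]
  exact rho_pos x

theorem Ph_strictMono {a : ℝ} (h0 : 0 < a) (h1 : a < Real.pi / 2) : StrictMono (Ph a) := by
  have hpi := Real.pi_pos
  refine strictMono_of_deriv_pos fun x => ?_
  rw [(hasDerivAt_Ph h0 (by linarith) x).deriv]
  unfold pk
  have hs : 0 < Real.sin (2 * a) := Real.sin_pos_of_pos_of_lt_pi (by linarith) (by linarith)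
  have hc := cos_two_lt_one h0 (by linarith)
  have h3 := Real.one_le_cosh (2 * x)
  have : 0 < Real.cosh (2 * x) - Real.cos (2 * a) := by linarith
  positivity

end Pool.Agent.CYL.KReg
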