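import Pool.Agent.CYL.C.Defs
import Pool.Agent.CYL.C.KerBd
import Pool.Agent.CYL.C.KerReg

/-! # Regularity, bounds, limits and parity of the kernels (owner: helper97)

`rho x = (4/3) (pk (pi/6) (4 x/3) + pk (pi/3) (4 x/3))`; the general statements are in `KerBd`
(decay of all derivatives of `1 / (cosh (s x) - c)`) and `KerReg`. -/

namespace Pool.Agent.CYL

open MeasureTheory Filter Topology

private theorem kerB_cd {s : ℝ} {f : ℝ → ℝ} (h : KerBd.Dec s f) : ContDiff ℝ (⊤ : ℕ∞) f :=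
  contDiff_infty.2 h.1

theorem contDiff_pk (a : ℝ) (ha : 0 < a) (ha' : a < Real.pi) : ContDiff ℝ (⊤ : ℕ∞) (pk a) :=
  kerB_cd (KReg.pk_dec ha ha')

theorem contDiff_K : ContDiff ℝ (⊤ : ℕ∞) K := kerB_cd KReg.K_dec

theorem contDiff_rho : ContDiff ℝ (⊤ : ℕ∞) rho := kerB_cd KReg.rho_dec

theorem hasDerivAt_Ph (a : ℝ) (ha : 0 < a) (ha' : a < Real.pi) (x : ℝ) :
    HasDerivAt (Ph a) (pk a x) x := KReg.hasDerivAt_Ph ha ha' x

theorem hasDerivAt_Th (x : ℝ) : HasDerivAt Th (K x) x := KReg.hasDerivAt_Th x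

theorem hasDerivAt_R (x : ℝ) : HasDerivAt R (rho x) x := KReg.hasDerivAt_R x

private theorem kerB_prim {F f : ℝ → ℝ} (h : ∀ x, HasDerivAt F (f x) x)
    (hf : ContDiff ℝ (⊤ : ℕ∞) f) : ContDiff ℝ (⊤ : ℕ∞) F := by
  rw [contDiff_infty_iff_deriv]
  refine ⟨fun x => (h x).differentiableAt, ?_⟩
  have : deriv F = f := funext fun x => (h x).deriv
  rw [this]
  exact hf

theorem contDiff_Ph (a : ℝ) (ha : 0 < a) (ha' : a < Real.pi) : ContDiff ℝ (⊤ : ℕ∞) (Ph a) :=
  kerB_prim (hasDerivAt_Ph a ha ha') (contDiff_pk a ha ha')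

theorem contDiff_Th : ContDiff ℝ (⊤ : ℕ∞) Th := kerB_prim hasDerivAt_Th contDiff_K

theorem contDiff_R : ContDiff ℝ (⊤ : ℕ∞) R := kerB_prim hasDerivAt_R contDiff_rho

private theorem kerB_bd {s : ℝ} {f : ℝ → ℝ} (h : KerBd.Dec s f) (n : ℕ) :
    ∃ C, 0 ≤ C ∧ ∀ x, |iteratedDeriv n f x| ≤ C * Real.exp (-s * |x|) := by
  obtain ⟨C, hC, h⟩ := h.2 n
  refine ⟨C, hC.le, fun x => (h x).trans (le_of_eq ?_)⟩
  rw [neg_mul]

theorem pk_bound (a : ℝ) (ha : 0 < a) (ha' : a < Real.pi) (n : ℕ) :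
    ∃ C, 0 ≤ C ∧ ∀ x, |iteratedDeriv n (pk a) x| ≤ C * Real.exp (-2 * |x|) :=
  kerB_bd (KReg.pk_dec ha ha') n

theorem K_bound (n : ℕ) : ∃ C, 0 ≤ C ∧ ∀ x, |iteratedDeriv n K x| ≤ C * Real.exp (-2 * |x|) :=
  kerB_bd KReg.K_dec n

theorem rho_bound (n : ℕ) :
    ∃ C, 0 ≤ C ∧ ∀ x, |iteratedDeriv n rho x| ≤ C * Real.exp (-(8 / 3) * |x|) :=
  kerB_bd KReg.rho_dec n

theorem rho_lower : ∃ c, 0 < c ∧ ∀ x, c * Real.exp (-(8 / 3) * |x|) ≤ rho x := by
  obtain ⟨c, hc, h⟩ := KReg.rho_lower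
  refine ⟨c, hc, fun x => le_trans (le_of_eq ?_) (h x)⟩
  rw [neg_mul]

theorem pk_pos (a : ℝ) (ha : 0 < a) (ha' : a < Real.pi / 2) (x : ℝ) : 0 < pk a x := by
  unfold pk
  have hs : 0 < Real.sin (2 * a) := Real.sin_pos_of_pos_of_lt_pi (by linarith) (by linarith)
  have hs1 : 0 < Real.sin a := Real.sin_pos_of_pos_of_lt_pi ha (by linarith)
  have hc : Real.cos (2 * a) = 1 - 2 * Real.sin a ^ 2 := by
    rw [Real.cos_two_mul]
    have := Real.sin_sq_add_cos_sq a
    linarith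
  have h3 := Real.one_le_cosh (2 * x)
  have : 0 < Real.cosh (2 * x) - Real.cos (2 * a) := by nlinarith [mul_pos hs1 hs1]
  have hpi := Real.pi_pos
  positivity

theorem rho_pos (x : ℝ) : 0 < rho x := KReg.rho_pos x

theorem integrable_pk (a : ℝ) (ha : 0 < a) (ha' : a < Real.pi) : Integrable (pk a) :=
  (KReg.pk_dec ha ha').integrable two_pos

theorem integrable_K : Integrable K := KReg.K_dec.integrable two_pos

theorem integrable_rho : Integrable rho := KReg.rho_dec.integrable (by norm_num)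

theorem pk_neg (a x : ℝ) : pk a (-x) = pk a x := KReg.pk_neg a x

theorem K_neg (x : ℝ) : K (-x) = K x := KReg.K_neg x

theorem rho_neg (x : ℝ) : rho (-x) = rho x := KReg.rho_neg x

theorem Ph_neg (a x : ℝ) : Ph a (-x) = - Ph a x := KReg.Ph_neg a x

theorem Th_neg (x : ℝ) : Th (-x) = - Th x := KReg.Th_neg x

theorem R_neg (x : ℝ) : R (-x) = - R x := KReg.R_neg x

theorem e0_neg (x : ℝ) : e0 (-x) = e0 x := KReg.e0_neg x

theorem eps_neg (x : ℝ) : eps (-x) = eps x := KReg.eps_neg x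

theorem tendsto_Ph : Tendsto (Ph (Real.pi / 8)) atTop (𝓝 (3 / 8)) := by
  have hpi := Real.pi_pos
  have h := KReg.tendsto_Ph_atTop (a := Real.pi / 8) (by linarith) (by linarith)
  have e : 1 / 2 - Real.pi / 8 / Real.pi = 3 / 8 := by
    field_simp
    norm_num
  rwa [e] at h

theorem tendsto_Th : Tendsto Th atTop (𝓝 (1 / 8)) := KReg.tendsto_Th_atTop

theorem tendsto_R : Tendsto R atTop (𝓝 (1 / 2)) := KReg.tendsto_R_atTop

theorem R_strictMono : StrictMono R := KReg.R_strictMono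

theorem abs_R_lt (x : ℝ) : |R x| < 1 / 2 := by
  have h : ∀ y, R y < 1 / 2 := by
    intro y
    have h1 : R y < R (y + 1) := R_strictMono (by linarith)
    exact h1.trans_le (R_strictMono.monotone.ge_of_tendsto tendsto_R _)
  rw [abs_lt]
  refine ⟨?_, h x⟩
  have := h (-x)
  rw [R_neg] at this
  linarith

theorem R_tail : ∃ C, 0 ≤ C ∧ ∀ x, 0 ≤ x → 1 / 2 - R x ≤ C * Real.exp (-(8 / 3) * x) := by
  obtain ⟨C, hC, hb⟩ := rho_bound 0
  refine ⟨C * (3 / 8), by positivity, fun x hx => ?_⟩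
  -- F y = R y + C (3/8) exp (-(8/3) y) is antitone on [0, oo), tends to 1/2
  have hd : ∀ y : ℝ, HasDerivAt (fun y => -R y - C * (3 / 8) * Real.exp (-(8 / 3) * y))
      (-rho y + C * Real.exp (-(8 / 3) * y)) y := by
    intro y
    have h1 : HasDerivAt (fun y : ℝ => Real.exp (-(8 / 3) * y))
        (Real.exp (-(8 / 3) * y) * (-(8 / 3))) y := by
      have := ((hasDerivAt_id y).const_mul (-(8 / 3))).exp
      simpa using this
    refine ((hasDerivAt_R y).neg.sub (h1.const_mul (C * (3 / 8)))).congr_deriv ?_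
    ring
  have hmono : MonotoneOn (fun y => -R y - C * (3 / 8) * Real.exp (-(8 / 3) * y)) (Set.Ici 0) := by
    refine monotoneOn_of_deriv_nonneg (convex_Ici 0) ?_ ?_ ?_
    · exact fun y _ => (hd y).continuousAt.continuousWithinAt
    · exact fun y _ => (hd y).differentiableAt.differentiableWithinAt
    · intro y hy
      rw [interior_Ici] at hy
      rw [(hd y).deriv]
      have h2 := hb y
      simp only [iteratedDeriv_zero] at h2
      rw [abs_of_pos (rho_pos y), abs_of_pos hy] at h2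
      linarith
  have hlim : Tendsto (fun y => -R y - C * (3 / 8) * Real.exp (-(8 / 3) * y)) atTop
      (𝓝 (-(1 / 2))) := by
    have h1 : Tendsto (fun y : ℝ => Real.exp (-(8 / 3) * y)) atTop (𝓝 0) := by
      refine Real.tendsto_exp_atBot.comp ?_
      exact tendsto_id.const_mul_atTop_of_neg (by norm_num)
    have h2 := tendsto_R.neg.sub (h1.const_mul (C * (3 / 8)))
    simpa using h2
  have hle : (fun y => -R y - C * (3 / 8) * Real.exp (-(8 / 3) * y)) x ≤ -(1 / 2) := by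
    refine ge_of_tendsto hlim ?_
    filter_upwards [eventually_ge_atTop x] with y hy
    exact hmono hx (hx.trans hy) hy
  simp only at hle
  linarith

end Pool.Agent.CYL
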