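import Pool.Agent.CYL.C.Osc

/-! # `w -> 0` and `dw -> 0`

PROOF of `w_loc`. Claim by induction on `j`: for all `a`, eventually `|w y| <= C0 / 2^j` on
`[-a, a]`, `C0` the bound of `w_bd` (increase it to be positive). Step: `w = K * v`. Given `a` and
`d = C0/2^j`, let `b = a + B`. For `|y| <= a`: the part `|t| > b` (then `|y - t| > B`) is at most
`C exp (-B)`; on `[-b, b]` write `v = w - S`: `|INT_{-b}^b K(y-t) w(t) dt| <= (3/10) d` eventually
(induction hypothesis on `[-b, b]`, `integral_abs_K`); `|INT_{-b}^b K(y-t) S(t) dt| <= C A / L -> 0`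
uniformly in `y` (`osc_S` with `phi t = K (y - t)`, `A = sup |K| + sup |K'|`).
`tendsto_dw_pt`: `dw y = INT K'(y-t) w(t) dt - INT K'(y-t) S(t) dt`: dominated convergence
(`FL l` is countably generated: comap of atTop on Nat) and `rl_S`. -/

namespace Pool.Agent.CYL.Roots

open MeasureTheory Filter Topology Set

private lemma Loc_hasDerivAt_K (x : ℝ) : HasDerivAt K (deriv K x) x :=
  (contDiff_K.differentiable (by simp) x).hasDerivAt

private lemma Loc_cd : ContDiff ℝ (⊤ : ℕ∞) (deriv K) := by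
  have h : ContDiff ℝ ((⊤ : ℕ∞) + 1) K := by
    have : (((⊤ : ℕ∞) : WithTop ℕ∞) + 1) = ((⊤ : ℕ∞) : WithTop ℕ∞) := rfl
    rw [this]; exact contDiff_K
  exact (contDiff_succ_iff_deriv.1 h).2.2

private lemma Loc_hasDerivAt_K' (x : ℝ) : HasDerivAt (deriv K) (deriv (deriv K) x) x :=
  (Loc_cd.differentiable (by simp) x).hasDerivAt

private lemma Loc_cont_K : Continuous K := contDiff_K.continuous

private lemma Loc_cont_K' : Continuous (deriv K) := Loc_cd.continuous

private lemma Loc_cont_K'' : Continuous (deriv (deriv K)) := by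
  have h : ContDiff ℝ ((⊤ : ℕ∞) + 1) (deriv K) := by
    have : (((⊤ : ℕ∞) : WithTop ℕ∞) + 1) = ((⊤ : ℕ∞) : WithTop ℕ∞) := rfl
    rw [this]; exact Loc_cd
  exact (contDiff_succ_iff_deriv.1 h).2.2.continuous

private lemma Loc_bdK : ∃ C, 0 ≤ C ∧ ∀ x, |K x| ≤ C * Real.exp (-2 * |x|) := by
  obtain ⟨C, h0, h⟩ := K_bound 0
  exact ⟨C, h0, fun x => by simpa using h x⟩

private lemma Loc_bdK' : ∃ C, 0 ≤ C ∧ ∀ x, |deriv K x| ≤ C * Real.exp (-2 * |x|) := by
  obtain ⟨C, h0, h⟩ := K_bound 1
  exact ⟨C, h0, fun x => by simpa [iteratedDeriv_one] using h x⟩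

/-- The part of the convolution far from `y`. -/
private lemma Loc_tail (l : ℕ) : ∃ C, 0 ≤ C ∧ ∀ (r : Roots l) (a B y : ℝ), 0 ≤ B → |y| ≤ a →
    |∫ t in (Ioc (-(a + B)) (a + B))ᶜ, K (y - t) * r.v t| ≤ C * Real.exp (-B) := by
  obtain ⟨C, h0, hK⟩ := Loc_bdK
  refine ⟨2 * C * ((l : ℝ) / 2 + 1), by positivity, fun r a B y hB hy => ?_⟩
  have hV : (0 : ℝ) ≤ (l : ℝ) / 2 + 1 := by positivity
  set V : ℝ := (l : ℝ) / 2 + 1 with hVd
  have hint : Integrable (fun t : ℝ => C * V * Real.exp (-B) * Real.exp (-1 * |y - t|)) := by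
    have := (integrable_exp_neg_abs (c := 1) one_pos).comp_sub_left y
    exact this.const_mul _
  have hval : ∫ t : ℝ, C * V * Real.exp (-B) * Real.exp (-1 * |y - t|) = C * V * Real.exp (-B) * 2 := by
    rw [integral_const_mul, integral_sub_left_eq_self (fun x : ℝ => Real.exp (-1 * |x|)) volume y,
      integral_exp_neg_abs one_pos]
    norm_num
  have h1 : |∫ t in (Ioc (-(a + B)) (a + B))ᶜ, K (y - t) * r.v t| ≤
      ∫ t in (Ioc (-(a + B)) (a + B))ᶜ, C * V * Real.exp (-B) * Real.exp (-1 * |y - t|) := by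
    rw [← Real.norm_eq_abs]
    refine norm_integral_le_of_norm_le hint.integrableOn ?_
    refine (ae_restrict_iff' measurableSet_Ioc.compl).2 (Eventually.of_forall fun t ht => ?_)
    rw [Real.norm_eq_abs, abs_mul]
    have h2 : B ≤ |y - t| := by
      rw [mem_compl_iff, mem_Ioc, not_and_or, not_lt, not_le] at ht
      have hy' := abs_le.1 hy
      rcases ht with ht | ht
      · rw [abs_of_nonneg (by linarith)]; linarith
      · rw [abs_of_nonpos (by linarith)]; linarith
    have h3 : |K (y - t)| ≤ C * (Real.exp (-B) * Real.exp (-1 * |y - t|)) := by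
      refine (hK _).trans (mul_le_mul_of_nonneg_left ?_ h0)
      rw [← Real.exp_add]
      exact Real.exp_le_exp.2 (by linarith)
    calc |K (y - t)| * |r.v t| ≤ C * (Real.exp (-B) * Real.exp (-1 * |y - t|)) * V :=
          mul_le_mul h3 (abs_v_le r t) (abs_nonneg _) (by positivity)
      _ = _ := by ring
  refine h1.trans ?_
  have h4 : ∫ t in (Ioc (-(a + B)) (a + B))ᶜ, C * V * Real.exp (-B) * Real.exp (-1 * |y - t|) ≤
      ∫ t : ℝ, C * V * Real.exp (-B) * Real.exp (-1 * |y - t|) :=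
    setIntegral_le_integral hint (Eventually.of_forall fun t => by positivity)
  rw [hval] at h4
  calc _ ≤ _ := h4
    _ = _ := by ring

private lemma Loc_int_v {l : ℕ} (r : Roots l) (y : ℝ) : Integrable (fun t => K (y - t) * r.v t) := by
  obtain ⟨C, h0, hK⟩ := Loc_bdK
  exact conv_integrable Loc_cont_K two_pos hK (measurable_v r) (abs_v_le r) y

private lemma Loc_step {l : ℕ} (r : Roots l) {a B M C y : ℝ} (hB : 0 ≤ B) (hy : |y| ≤ a) (hM0 : 0 ≤ M)
    (hM : ∀ t, |t| ≤ a + B → |r.w t| ≤ M)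
    (hC : |∫ t in (Ioc (-(a + B)) (a + B))ᶜ, K (y - t) * r.v t| ≤ C) :
    |r.w y| ≤ 3 / 10 * M + |∫ t in (-(a + B))..(a + B), K (y - t) * r.S t| + C := by
  have ha : 0 ≤ a := (abs_nonneg _).trans hy
  have hb : -(a + B) ≤ a + B := by linarith
  have hv := Loc_int_v r y
  have hwc : Continuous (fun t => K (y - t) * r.w t) :=
    (Loc_cont_K.comp (continuous_const.sub continuous_id)).mul (continuous_w r)
  have hw : IntegrableOn (fun t => K (y - t) * r.w t) (Ioc (-(a + B)) (a + B)) :=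
    (hwc.integrableOn_Icc).mono_set Ioc_subset_Icc_self
  have e1 : r.w y = (∫ t in Ioc (-(a + B)) (a + B), K (y - t) * r.v t) +
      ∫ t in (Ioc (-(a + B)) (a + B))ᶜ, K (y - t) * r.v t := by
    rw [integral_add_compl measurableSet_Ioc hv, ← w_eq]
  have e2 : (∫ t in Ioc (-(a + B)) (a + B), K (y - t) * r.v t) =
      (∫ t in Ioc (-(a + B)) (a + B), K (y - t) * r.w t) - ∫ t in (-(a + B))..(a + B), K (y - t) * r.S t := by
    rw [intervalIntegral.integral_of_le hb]
    have hS : IntegrableOn (fun t => K (y - t) * r.S t) (Ioc (-(a + B)) (a + B)) := by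
      refine (hw.sub hv.integrableOn).congr (Eventually.of_forall fun t => ?_)
      simp only [Pi.sub_apply]
      rw [S_eq r t]; ring
    rw [← integral_sub hw hS]
    refine integral_congr_ae (Eventually.of_forall fun t => ?_)
    simp only
    rw [S_eq r t]; ring
  have e3 : |∫ t in Ioc (-(a + B)) (a + B), K (y - t) * r.w t| ≤ 3 / 10 * M := by
    have hi : Integrable (fun t => M * |K (y - t)|) := (integrable_K.comp_sub_left y).abs.const_mul _
    have h1 : |∫ t in Ioc (-(a + B)) (a + B), K (y - t) * r.w t| ≤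
        ∫ t in Ioc (-(a + B)) (a + B), M * |K (y - t)| := by
      rw [← Real.norm_eq_abs]
      refine norm_integral_le_of_norm_le hi.integrableOn ?_
      refine (ae_restrict_iff' measurableSet_Ioc).2 (Eventually.of_forall fun t ht => ?_)
      rw [Real.norm_eq_abs, abs_mul, mul_comm]
      exact mul_le_mul_of_nonneg_right (hM t (abs_le.2 ⟨ht.1.le, ht.2⟩)) (abs_nonneg _)
    have h2 : ∫ t in Ioc (-(a + B)) (a + B), M * |K (y - t)| ≤ ∫ t, M * |K (y - t)| :=
      setIntegral_le_integral hi (Eventually.of_forall fun t => by positivity)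
    have h3 : ∫ t, M * |K (y - t)| = M * ∫ x, |K x| := by
      rw [integral_const_mul, integral_sub_left_eq_self (fun x : ℝ => |K x|) volume y]
    have h4 : M * ∫ x, |K x| ≤ M * (3 / 10) := mul_le_mul_of_nonneg_left integral_abs_K hM0
    linarith
  rw [e1, e2]
  have t1 := abs_add_le ((∫ t in Ioc (-(a + B)) (a + B), K (y - t) * r.w t) -
    ∫ t in (-(a + B))..(a + B), K (y - t) * r.S t) (∫ t in (Ioc (-(a + B)) (a + B))ᶜ, K (y - t) * r.v t)
  have t2 := abs_sub (∫ t in Ioc (-(a + B)) (a + B), K (y - t) * r.w t)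
    (∫ t in (-(a + B))..(a + B), K (y - t) * r.S t)
  linarith

private lemma Loc_claim (l : ℕ) {C0 : ℝ} (hC0 : 0 < C0) (hbd : ∀ (r : Roots l) (y : ℝ), |r.w y| ≤ C0) (j : ℕ) :
    ∀ a : ℝ, ∀ᶠ r : Roots l in FL l, ∀ y, |y| ≤ a → |r.w y| ≤ C0 / 2 ^ j := by
  induction j with
  | zero => intro a; exact Eventually.of_forall fun r y _ => by simpa using hbd r y
  | succ j ih =>
    intro a
    rcases lt_or_ge a 0 with ha | ha
    · exact Eventually.of_forall fun r y hy => absurd ((abs_nonneg y).trans hy) (not_le.2 ha)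
    set d : ℝ := C0 / 2 ^ j with hd
    have hd0 : 0 < d := by positivity
    obtain ⟨C, hC, hT⟩ := Loc_tail l
    obtain ⟨B, hB, hBd⟩ : ∃ B : ℝ, 0 ≤ B ∧ C * Real.exp (-B) ≤ d / 20 := by
      have h1 : Tendsto (fun B : ℝ => C * Real.exp (-B)) atTop (𝓝 (C * 0)) :=
        (Real.tendsto_exp_neg_atTop_nhds_zero).const_mul C
      rw [mul_zero] at h1
      have h2 := (h1.eventually (ge_mem_nhds (show (0 : ℝ) < d / 20 by positivity))).and (eventually_ge_atTop 0)
      obtain ⟨B, h3, h4⟩ := h2.exists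
      exact ⟨B, h4, h3⟩
    obtain ⟨C1, hC1, hosc⟩ := osc_S l (a + B) (by linarith)
    obtain ⟨CK, hCK, hK⟩ := Loc_bdK
    obtain ⟨CK', hCK', hK'⟩ := Loc_bdK'
    have hexp : ∀ x : ℝ, Real.exp (-2 * |x|) ≤ 1 := fun x => by
      rw [Real.exp_le_one_iff]
      have := abs_nonneg x
      linarith
    have hL : ∀ᶠ r : Roots l in FL l, C1 * (CK + CK') / (r.L : ℝ) ≤ d / 10 := by
      have h1 : Tendsto (fun r : Roots l => C1 * (CK + CK') / (r.L : ℝ)) (FL l) (𝓝 0) :=
        (tendsto_L l).const_div_atTop _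
      exact h1.eventually (ge_mem_nhds (by positivity))
    filter_upwards [ih (a + B), hosc, hL] with r h1 h2 h3 y hy
    have h4 := Loc_step r hB hy hd0.le h1 (hT r a B y hB hy)
    have h5 := h2 (CK + CK') (fun t => K (y - t)) (fun t => -(deriv K (y - t)))
      (fun t => (Loc_hasDerivAt_K (y - t)).comp_const_sub y t)
      ((Loc_cont_K'.comp (continuous_const.sub continuous_id)).neg)
      (fun t _ => by
        have := (hK (y - t)).trans (mul_le_mul_of_nonneg_left (hexp _) hCK)
        linarith)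
      (fun t _ => by
        rw [abs_neg]
        have := (hK' (y - t)).trans (mul_le_mul_of_nonneg_left (hexp _) hCK')
        linarith)
    have h6 : C0 / 2 ^ (j + 1) = d / 2 := by rw [hd, pow_succ]; field_simp
    rw [h6]
    linarith

theorem w_loc (l : ℕ) (a δ : ℝ) (hδ : 0 < δ) : ∀ᶠ r : Roots l in FL l, ∀ y, |y| ≤ a → |r.w y| ≤ δ := by
  obtain ⟨C, hC, hb⟩ := w_bd l
  obtain ⟨j, hj⟩ : ∃ j : ℕ, (C + 1) / 2 ^ j ≤ δ := by
    have h1 : Tendsto (fun j : ℕ => (C + 1) * (1 / 2 : ℝ) ^ j) atTop (𝓝 ((C + 1) * 0)) :=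
      (tendsto_pow_atTop_nhds_zero_of_lt_one (by norm_num) (by norm_num)).const_mul _
    rw [mul_zero] at h1
    obtain ⟨j, hj⟩ := (h1.eventually (ge_mem_nhds hδ)).exists
    refine ⟨j, ?_⟩
    have : (C + 1) / 2 ^ j = (C + 1) * (1 / 2 : ℝ) ^ j := by rw [one_div, inv_pow, div_eq_mul_inv]
    rw [this]; exact hj
  have h2 := Loc_claim l (C0 := C + 1) (by linarith) (fun r y => (hb r y).trans (by linarith)) j a
  filter_upwards [h2] with r h y hy
  exact (h y hy).trans hj

theorem tendsto_w_pt (l : ℕ) (y : ℝ) : Tendsto (fun r : Roots l => r.w y) (FL l) (𝓝 0) := by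
  rw [Metric.tendsto_nhds]
  intro ε hε
  filter_upwards [w_loc l |y| (ε / 2) (by linarith)] with r h
  rw [Real.dist_eq, sub_zero]
  have := h y le_rfl
  linarith

theorem tendsto_dw_pt (l : ℕ) (y : ℝ) : Tendsto (fun r : Roots l => r.dw y) (FL l) (𝓝 0) := by
  obtain ⟨CK', hCK', hK'⟩ := Loc_bdK'
  obtain ⟨Cw, hCw, hw⟩ := w_bd l
  obtain ⟨CS, hCS, hS⟩ := S_bd l
  have : (FL l).IsCountablyGenerated := by unfold FL; infer_instance
  have hi1 : ∀ r : Roots l, Integrable (fun t => deriv K (y - t) * r.w t) := fun r =>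
    conv_integrable Loc_cont_K' two_pos hK' (continuous_w r).measurable (hw r) y
  have hi2 : ∀ r : Roots l, Integrable (fun t => deriv K (y - t) * r.S t) := fun r =>
    conv_integrable Loc_cont_K' two_pos hK' (measurable_S r) (hS r) y
  have e : ∀ r : Roots l, r.dw y = (∫ t, deriv K (y - t) * r.w t) - ∫ t, deriv K (y - t) * r.S t := by
    intro r
    rw [dw_eq, ← integral_sub (hi1 r) (hi2 r)]
    refine integral_congr_ae (Eventually.of_forall fun t => ?_)
    simp only
    rw [S_eq r t]; ring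
  have h1 : Tendsto (fun r : Roots l => ∫ t, deriv K (y - t) * r.w t) (FL l) (𝓝 (∫ _ : ℝ, (0 : ℝ))) := by
    refine tendsto_integral_filter_of_dominated_convergence
      (fun t => CK' * Real.exp (-2 * |y - t|) * Cw) ?_ ?_ ?_ ?_
    · exact Eventually.of_forall fun r => (hi1 r).aestronglyMeasurable
    · refine Eventually.of_forall fun r => Eventually.of_forall fun t => ?_
      rw [Real.norm_eq_abs, abs_mul]
      exact mul_le_mul (hK' _) (hw r t) (abs_nonneg _) (by positivity)
    · have := (integrable_exp_neg_abs (c := 2) two_pos).comp_sub_left y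
      exact (this.const_mul _).mul_const _
    · refine Eventually.of_forall fun t => ?_
      have := (tendsto_w_pt l t).const_mul (deriv K (y - t))
      rwa [mul_zero] at this
  have hiK : Integrable (fun t => deriv K (y - t)) := by
    have : Integrable (deriv K) := integrable_of_exp Loc_cont_K' two_pos hK'
    exact this.comp_sub_left y
  have h2 : Tendsto (fun r : Roots l => ∫ t, deriv K (y - t) * r.S t) (FL l) (𝓝 0) := by
    exact rl_S l (φ' := fun t => -(deriv (deriv K) (y - t)))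
      (fun t => (Loc_hasDerivAt_K' (y - t)).comp_const_sub y t)
      ((Loc_cont_K''.comp (continuous_const.sub continuous_id)).neg) hiK
  rw [integral_zero] at h1
  have h3 := h1.sub h2
  rw [sub_zero] at h3
  exact h3.congr fun r => (e r).symm

end Pool.Agent.CYL.Roots
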