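import Pool.Agent.CYL.C.WBd
import Pool.Agent.CYL.C.Ibp

/-! # Oscillation lemmas (Riemann-Lebesgue for `S` and `P`)

PROOFS. `osc_S`: on `[-b, b]` eventually `dz >= c L` (`dz_lower`), so
`INT phi S = INT S dz (phi/dz) = [P phi/dz] - INT P (phi' /dz - phi dz'/dz^2)` (`ibp_S`,
`hasDerivAt_dz`), `|P| <= C`, `|dz'| <= C (L+1)` (`ddz_upper`): at most `C_b A / L`.
`osc_P` the same with `ibp_P`.
`rl_S`: for `phi` in `C^1`, integrable: given `eta > 0` take `b` with `C INT_{|x| > b} |phi| < eta/2`,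
then `osc_S` on `[-b, b]` (multiply nothing: `phi` and `phi'` are bounded on `[-b, b]`; to apply
`osc_S` only values on `[-b, b]` matter, so `osc_S` is stated with hypotheses on `[-b, b]` only). -/

namespace Pool.Agent.CYL.Roots

open MeasureTheory Filter Topology Set

private theorem osc_gen {l : ℕ} (r : Roots l) {b c CP CZ : ℝ} (hb : 0 ≤ b) (hc : 0 < c) (hCP : 0 ≤ CP)
    (hCZ : 0 ≤ CZ) (hL : 1 ≤ (r.L : ℝ)) (hdz : ∀ y, |y| ≤ b → c * (r.L : ℝ) ≤ r.dz y)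
    (hddz : ∀ y, |(r.L : ℝ) * deriv rho y + r.ddw y| ≤ CZ * ((r.L : ℝ) + 1)) (F Fp : ℝ → ℝ)
    (hFp : ∀ y, |Fp y| ≤ CP)
    (hibp : ∀ G G' : ℝ → ℝ, ContinuousOn G (Icc (-b) b) → (∀ x ∈ Ioo (-b) b, HasDerivAt G (G' x) x) →
      IntervalIntegrable G' volume (-b) b →
      ∫ x in (-b)..b, F x * r.dz x * G x = Fp b * G b - Fp (-b) * G (-b) - ∫ x in (-b)..b, Fp x * G' x)
    (A : ℝ) (φ φ' : ℝ → ℝ) (h : ∀ x, HasDerivAt φ (φ' x) x) (hc' : Continuous φ')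
    (hA : ∀ x ∈ Icc (-b) b, |φ x| ≤ A) (hA' : ∀ x ∈ Icc (-b) b, |φ' x| ≤ A) :
    |∫ x in (-b)..b, φ x * F x| ≤ (2 * CP / c + 2 * b * CP * (1 / c + 2 * CZ / c ^ 2)) * A / (r.L : ℝ) := by
  have hL0 : (0 : ℝ) < r.L := by linarith
  have hbb : (-b) ≤ b := by linarith
  have hA0 : 0 ≤ A := (abs_nonneg _).trans (hA 0 ⟨by linarith, hb⟩)
  have hdz' : ∀ y ∈ Icc (-b) b, c * (r.L : ℝ) ≤ r.dz y := fun y hy => hdz y (abs_le.2 hy)
  have hcL : 0 < c * (r.L : ℝ) := by positivity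
  have hne : ∀ y ∈ Icc (-b) b, r.dz y ≠ 0 := fun y hy => (lt_of_lt_of_le hcL (hdz' y hy)).ne'
  set Z : ℝ → ℝ := fun y => (r.L : ℝ) * deriv rho y + r.ddw y with hZ
  have hZc : Continuous Z := by
    have h1 : Continuous (deriv rho) := contDiff_rho.continuous_deriv (by norm_num)
    exact (continuous_const.mul h1).add r.continuous_ddw
  have hdzc : Continuous r.dz := r.continuous_dz
  have hφc : Continuous φ := continuous_iff_continuousAt.2 fun x => (h x).continuousAt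
  set G : ℝ → ℝ := fun x => φ x / r.dz x with hG
  set G' : ℝ → ℝ := fun x => (φ' x * r.dz x - φ x * Z x) / r.dz x ^ 2 with hG'
  have hGc : ContinuousOn G (Icc (-b) b) := hφc.continuousOn.div hdzc.continuousOn hne
  have hGd : ∀ x ∈ Ioo (-b) b, HasDerivAt G (G' x) x := fun x hx =>
    (h x).div (r.hasDerivAt_dz x) (hne x (Ioo_subset_Icc_self hx))
  have hG'c : ContinuousOn G' (Icc (-b) b) := by
    refine ContinuousOn.div ?_ (hdzc.pow 2).continuousOn fun x hx => pow_ne_zero 2 (hne x hx)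
    exact ((hc'.mul hdzc).sub (hφc.mul hZc)).continuousOn
  have hG'i : IntervalIntegrable G' volume (-b) b := by
    apply ContinuousOn.intervalIntegrable
    rwa [uIcc_of_le hbb]
  have e1 : ∫ x in (-b)..b, φ x * F x = ∫ x in (-b)..b, F x * r.dz x * G x := by
    apply intervalIntegral.integral_congr
    intro x hx
    rw [uIcc_of_le hbb] at hx
    have := hne x hx
    simp only [hG]
    field_simp
  rw [e1, hibp G G' hGc hGd hG'i]
  have hGb : ∀ x ∈ Icc (-b) b, |G x| ≤ A / (c * r.L) := by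
    intro x hx
    have h1 := hdz' x hx
    simp only [hG]
    rw [abs_div, abs_of_pos (lt_of_lt_of_le hcL h1)]
    exact div_le_div₀ hA0 (hA x hx) hcL h1
  have hG'b : ∀ x ∈ Icc (-b) b, |G' x| ≤ (1 / c + 2 * CZ / c ^ 2) * A / r.L := by
    intro x hx
    have h1 := hdz' x hx
    have h0 : 0 < r.dz x := lt_of_lt_of_le hcL h1
    have e2 : G' x = φ' x / r.dz x - φ x * Z x / r.dz x ^ 2 := by
      simp only [hG']
      field_simp
    rw [e2]
    have i1 : |φ' x / r.dz x| ≤ A / (c * r.L) := by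
      rw [abs_div, abs_of_pos h0]
      exact div_le_div₀ hA0 (hA' x hx) hcL h1
    have i2 : |φ x * Z x / r.dz x ^ 2| ≤ A * (CZ * (r.L + 1)) / (c * r.L) ^ 2 := by
      rw [abs_div, abs_mul, abs_of_pos (by positivity : 0 < r.dz x ^ 2)]
      apply div_le_div₀ (by positivity) _ (by positivity) (by gcongr)
      exact mul_le_mul (hA x hx) (hddz x) (abs_nonneg _) hA0
    have i3 : A * (CZ * ((r.L : ℝ) + 1)) / (c * r.L) ^ 2 ≤ 2 * CZ / c ^ 2 * A / r.L := by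
      have e3 : A * (CZ * ((r.L : ℝ) + 1)) / (c * r.L) ^ 2 = (A * CZ / c ^ 2) * ((r.L + 1) / r.L ^ 2) := by
        field_simp
      have e4 : 2 * CZ / c ^ 2 * A / (r.L : ℝ) = (A * CZ / c ^ 2) * (2 / r.L) := by
        field_simp
      rw [e3, e4]
      apply mul_le_mul_of_nonneg_left _ (by positivity)
      rw [div_le_div_iff₀ (by positivity) hL0]
      nlinarith
    calc |φ' x / r.dz x - φ x * Z x / r.dz x ^ 2| ≤ |φ' x / r.dz x| + |φ x * Z x / r.dz x ^ 2| := abs_sub _ _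
      _ ≤ A / (c * r.L) + 2 * CZ / c ^ 2 * A / r.L := add_le_add i1 (i2.trans i3)
      _ = (1 / c + 2 * CZ / c ^ 2) * A / r.L := by field_simp
  have j1 : |Fp b * G b| ≤ CP * (A / (c * r.L)) := by
    rw [abs_mul]
    exact mul_le_mul (hFp b) (hGb b ⟨hbb, le_rfl⟩) (abs_nonneg _) hCP
  have j2 : |Fp (-b) * G (-b)| ≤ CP * (A / (c * r.L)) := by
    rw [abs_mul]
    exact mul_le_mul (hFp (-b)) (hGb (-b) ⟨le_rfl, hbb⟩) (abs_nonneg _) hCP
  have j3 : |∫ x in (-b)..b, Fp x * G' x| ≤ CP * ((1 / c + 2 * CZ / c ^ 2) * A / r.L) * |b - -b| := by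
    rw [← Real.norm_eq_abs]
    apply intervalIntegral.norm_integral_le_of_norm_le_const
    intro x hx
    rw [uIoc_of_le hbb] at hx
    rw [Real.norm_eq_abs, abs_mul]
    exact mul_le_mul (hFp x) (hG'b x ⟨hx.1.le, hx.2⟩) (abs_nonneg _) hCP
  have e5 : |b - -b| = 2 * b := by rw [abs_of_nonneg (by linarith)]; ring
  rw [e5] at j3
  calc |Fp b * G b - Fp (-b) * G (-b) - ∫ x in (-b)..b, Fp x * G' x|
      ≤ |Fp b * G b - Fp (-b) * G (-b)| + |∫ x in (-b)..b, Fp x * G' x| := abs_sub _ _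
    _ ≤ |Fp b * G b| + |Fp (-b) * G (-b)| + |∫ x in (-b)..b, Fp x * G' x| := by
        gcongr; exact abs_sub _ _
    _ ≤ CP * (A / (c * r.L)) + CP * (A / (c * r.L)) + CP * ((1 / c + 2 * CZ / c ^ 2) * A / r.L) * (2 * b) := by
        gcongr
    _ = (2 * CP / c + 2 * b * CP * (1 / c + 2 * CZ / c ^ 2)) * A / (r.L : ℝ) := by
        field_simp; ring

private theorem eventually_L (l : ℕ) : ∀ᶠ r : Roots l in FL l, 1 ≤ (r.L : ℝ) :=
  (tendsto_L l).eventually_ge_atTop 1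

theorem osc_S (l : ℕ) (b : ℝ) (hb : 0 ≤ b) : ∃ C, 0 ≤ C ∧ ∀ᶠ r : Roots l in FL l, ∀ (A : ℝ) (φ φ' : ℝ → ℝ),
    (∀ x, HasDerivAt φ (φ' x) x) → Continuous φ' → (∀ x ∈ Icc (-b) b, |φ x| ≤ A) →
    (∀ x ∈ Icc (-b) b, |φ' x| ≤ A) → |∫ x in (-b)..b, φ x * r.S x| ≤ C * A / (r.L : ℝ) := by
  obtain ⟨c, hc, h1⟩ := dz_lower l b
  obtain ⟨CP, hCP, h2⟩ := P_bd l
  obtain ⟨CZ, hCZ, h3⟩ := ddz_upper l
  refine ⟨2 * CP / c + 2 * b * CP * (1 / c + 2 * CZ / c ^ 2), by positivity, ?_⟩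
  filter_upwards [h1, eventually_L l] with r h4 h5 A φ φ' h6 h7 h8 h9
  exact osc_gen r hb hc hCP hCZ h5 h4 (h3 r) r.S r.P (h2 r)
    (fun G G' g1 g2 g3 => r.ibp_S (by linarith) g1 g2 g3) A φ φ' h6 h7 h8 h9

theorem osc_P (l : ℕ) (b : ℝ) (hb : 0 ≤ b) : ∃ C, 0 ≤ C ∧ ∀ᶠ r : Roots l in FL l, ∀ (A : ℝ) (φ φ' : ℝ → ℝ),
    (∀ x, HasDerivAt φ (φ' x) x) → Continuous φ' → (∀ x ∈ Icc (-b) b, |φ x| ≤ A) →
    (∀ x ∈ Icc (-b) b, |φ' x| ≤ A) → |∫ x in (-b)..b, φ x * r.P x| ≤ C * A / (r.L : ℝ) := by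
  obtain ⟨c, hc, h1⟩ := dz_lower l b
  obtain ⟨CP, hCP, h2⟩ := Q_bd l
  obtain ⟨CZ, hCZ, h3⟩ := ddz_upper l
  refine ⟨2 * CP / c + 2 * b * CP * (1 / c + 2 * CZ / c ^ 2), by positivity, ?_⟩
  filter_upwards [h1, eventually_L l] with r h4 h5 A φ φ' h6 h7 h8 h9
  exact osc_gen r hb hc hCP hCZ h5 h4 (h3 r) r.P r.Q (h2 r)
    (fun G G' g1 g2 g3 => r.ibp_P (by linarith) g1 g2 g3) A φ φ' h6 h7 h8 h9

private theorem rl_gen (l : ℕ) (F : Roots l → ℝ → ℝ) (hm : ∀ r, Measurable (F r)) {CF : ℝ} (hCF : 0 ≤ CF)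
    (hF : ∀ r y, |F r y| ≤ CF)
    (hosc : ∀ b : ℝ, 0 ≤ b → ∃ C, 0 ≤ C ∧ ∀ᶠ r : Roots l in FL l, ∀ (A : ℝ) (φ φ' : ℝ → ℝ),
      (∀ x, HasDerivAt φ (φ' x) x) → Continuous φ' → (∀ x ∈ Icc (-b) b, |φ x| ≤ A) →
      (∀ x ∈ Icc (-b) b, |φ' x| ≤ A) → |∫ x in (-b)..b, φ x * F r x| ≤ C * A / (r.L : ℝ))
    {φ φ' : ℝ → ℝ} (h : ∀ x, HasDerivAt φ (φ' x) x) (hc : Continuous φ')
    (hi : Integrable φ) : Tendsto (fun r : Roots l => ∫ x, φ x * F r x) (FL l) (𝓝 0) := by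
  have hφc : Continuous φ := continuous_iff_continuousAt.2 fun x => (h x).continuousAt
  rw [Metric.tendsto_nhds]
  intro η hη
  -- choose the interval
  have ht : Tendsto (fun b : ℝ => ∫ x in (-b)..b, |φ x|) atTop (𝓝 (∫ x, |φ x|)) :=
    intervalIntegral_tendsto_integral hi.abs tendsto_neg_atTop_atBot tendsto_id
  have hpos : 0 < η / (2 * (CF + 1)) := by positivity
  obtain ⟨b, hb0, hb⟩ : ∃ b : ℝ, 0 ≤ b ∧ (∫ x, |φ x|) - η / (2 * (CF + 1)) < ∫ x in (-b)..b, |φ x| := by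
    have h1 := ht.eventually (lt_mem_nhds (show (∫ x, |φ x|) - η / (2 * (CF + 1)) < ∫ x, |φ x| by linarith))
    obtain ⟨b, h2, h3⟩ := (h1.and (eventually_ge_atTop (0 : ℝ))).exists
    exact ⟨b, h3, h2⟩
  have hbb : (-b) ≤ b := by linarith
  obtain ⟨C, hC, hev⟩ := hosc b hb0
  obtain ⟨A1, hA1⟩ := isCompact_Icc.exists_bound_of_continuousOn (hφc.continuousOn (s := Icc (-b) b))
  obtain ⟨A2, hA2⟩ := isCompact_Icc.exists_bound_of_continuousOn (hc.continuousOn (s := Icc (-b) b))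
  set A : ℝ := max (max A1 A2) 0 with hA
  have hlim : Tendsto (fun r : Roots l => C * A / (r.L : ℝ)) (FL l) (𝓝 0) :=
    (tendsto_L l).const_div_atTop (C * A)
  have hev2 := hlim.eventually (gt_mem_nhds (show (0 : ℝ) < η / 2 by linarith))
  filter_upwards [hev, hev2] with r hr hr2
  rw [Real.dist_eq, sub_zero]
  have g1 := hr A φ φ' h hc (fun x hx => (hA1 x hx).trans ((le_max_left _ _).trans (le_max_left _ _)))
    (fun x hx => (hA2 x hx).trans ((le_max_right _ _).trans (le_max_left _ _)))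
  have hint : Integrable (fun x => φ x * F r x) := by
    refine Integrable.mono' (hi.abs.mul_const CF) (hφc.measurable.mul (hm r)).aestronglyMeasurable ?_
    filter_upwards with x
    rw [Real.norm_eq_abs, abs_mul]
    exact mul_le_mul_of_nonneg_left (hF r x) (abs_nonneg _)
  have hsplit : ∫ x, φ x * F r x = (∫ x in Ioc (-b) b, φ x * F r x) + ∫ x in (Ioc (-b) b)ᶜ, φ x * F r x :=
    (integral_add_compl measurableSet_Ioc hint).symm
  have hsplit' : ∫ x, |φ x| = (∫ x in Ioc (-b) b, |φ x|) + ∫ x in (Ioc (-b) b)ᶜ, |φ x| :=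
    (integral_add_compl measurableSet_Ioc hi.abs).symm
  rw [intervalIntegral.integral_of_le hbb] at g1 hb
  have g2 : |∫ x in (Ioc (-b) b)ᶜ, φ x * F r x| ≤ CF * ∫ x in (Ioc (-b) b)ᶜ, |φ x| := by
    rw [← Real.norm_eq_abs, ← integral_const_mul]
    refine norm_integral_le_of_norm_le ((hi.abs.const_mul CF).integrableOn) ?_
    filter_upwards with x
    rw [Real.norm_eq_abs, abs_mul, mul_comm]
    exact mul_le_mul_of_nonneg_right (hF r x) (abs_nonneg _)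
  have g3 : ∫ x in (Ioc (-b) b)ᶜ, |φ x| < η / (2 * (CF + 1)) := by linarith
  have g4 : CF * ∫ x in (Ioc (-b) b)ᶜ, |φ x| ≤ η / 2 := by
    have : CF * ∫ x in (Ioc (-b) b)ᶜ, |φ x| ≤ CF * (η / (2 * (CF + 1))) :=
      mul_le_mul_of_nonneg_left g3.le hCF
    refine this.trans ?_
    rw [mul_div_assoc', div_le_div_iff₀ (by positivity) (by norm_num)]
    nlinarith
  rw [hsplit]
  calc |(∫ x in Ioc (-b) b, φ x * F r x) + ∫ x in (Ioc (-b) b)ᶜ, φ x * F r x|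
      ≤ |∫ x in Ioc (-b) b, φ x * F r x| + |∫ x in (Ioc (-b) b)ᶜ, φ x * F r x| := abs_add_le _ _
    _ < η := by linarith

theorem rl_S (l : ℕ) {φ φ' : ℝ → ℝ} (h : ∀ x, HasDerivAt φ (φ' x) x) (hc : Continuous φ')
    (hi : Integrable φ) : Tendsto (fun r : Roots l => ∫ x, φ x * r.S x) (FL l) (𝓝 0) := by
  obtain ⟨C, hC, h2⟩ := S_bd l
  exact rl_gen l (fun r => r.S) (fun r => r.measurable_S) hC h2 (fun b hb => osc_S l b hb) h hc hi

theorem rl_P (l : ℕ) {φ φ' : ℝ → ℝ} (h : ∀ x, HasDerivAt φ (φ' x) x) (hc : Continuous φ')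
    (hi : Integrable φ) : Tendsto (fun r : Roots l => ∫ x, φ x * r.P x) (FL l) (𝓝 0) := by
  obtain ⟨C, hC, h2⟩ := P_bd l
  exact rl_gen l (fun r => r.P) (fun r => r.continuous_P.measurable) hC h2 (fun b hb => osc_P l b hb) h hc hi

end Pool.Agent.CYL.Roots
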