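import Mathlib

/-!
# Fourier transform of the strip kernels, part 1 (project CYL, part C)

For `w > 0` and `0 < b < 2 w` let `mul w b om = sinh ((w - b) om) / sinh (w om)` (value `1 - b / w`
at `om = 0`) and `ker w b x = sin (pi b / w) / (2 w (cosh (pi x / w) - cos (pi b / w)))`.
This file proves `int cos (om x) mul w b om d om = 2 pi ker w b x`.
-/

open MeasureTheory Set Filter Topology Real

namespace Pool.Agent.CYL.Strip

/-- The strip kernel. -/
noncomputable def ker (w b x : ℝ) : ℝ :=
  Real.sin (π * b / w) / (2 * w * (Real.cosh (π * x / w) - Real.cos (π * b / w)))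

/-- The multiplier of the strip kernel. -/
noncomputable def mult (w b om : ℝ) : ℝ :=
  if om = 0 then 1 - b / w else Real.sinh ((w - b) * om) / Real.sinh (w * om)

/-- `int_(0,oo) cos (om x) exp (-A om) d om = A / (A ^ 2 + x ^ 2)`. -/
theorem integral_cos_exp {A : ℝ} (hA : 0 < A) (x : ℝ) :
    ∫ om in Ioi (0:ℝ), Real.cos (om * x) * Real.exp (-(A * om)) = A / (A ^ 2 + x ^ 2) := by
  have hre : ((-(A:ℂ) + x * Complex.I)).re < 0 := by simp [hA]
  have h := integral_exp_mul_complex_Ioi hre 0
  have hint : IntegrableOn (fun om : ℝ => Complex.exp ((-(A:ℂ) + x * Complex.I) * om)) (Ioi 0) :=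
    integrableOn_exp_mul_complex_Ioi hre 0
  have h2 := congrArg Complex.re h
  have h3 : (∫ om in Ioi (0:ℝ), Complex.exp ((-(A:ℂ) + x * Complex.I) * om)).re
      = ∫ om in Ioi (0:ℝ), (Complex.exp ((-(A:ℂ) + x * Complex.I) * om)).re := by
    have := integral_re hint
    simpa using this.symm
  rw [h3] at h2
  have h4 : ∀ om : ℝ, (Complex.exp ((-(A:ℂ) + x * Complex.I) * om)).re
      = Real.cos (om * x) * Real.exp (-(A * om)) := by
    intro om
    rw [Complex.exp_re]
    have e1 : ((-(A:ℂ) + x * Complex.I) * om).re = -(A * om) := by simp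
    have e2 : ((-(A:ℂ) + x * Complex.I) * om).im = om * x := by simp [mul_comm]
    rw [e1, e2, mul_comm]
  rw [show (fun om : ℝ => Real.cos (om * x) * Real.exp (-(A * om)))
      = fun om : ℝ => (Complex.exp ((-(A:ℂ) + x * Complex.I) * om)).re from
      funext fun om => (h4 om).symm]
  rw [h2]
  have hne : (-(A:ℂ) + x * Complex.I) ≠ 0 := by
    intro h0
    have := congrArg Complex.re h0
    simp at this
    exact hA.ne' this
  simp only [Complex.ofReal_zero, mul_zero, Complex.exp_zero]
  rw [neg_div, Complex.neg_re, Complex.div_re]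
  simp [Complex.normSq_apply]
  rw [← neg_div, neg_neg]
  congr 1
  ring

theorem integrableOn_cos_exp {A : ℝ} (hA : 0 < A) (x : ℝ) :
    IntegrableOn (fun om : ℝ => Real.cos (om * x) * Real.exp (-(A * om))) (Ioi 0) := by
  have h1 : IntegrableOn (fun om : ℝ => Real.exp (-(A * om))) (Ioi 0) := by
    have := integrableOn_exp_mul_Ioi (a := -A) (by linarith) 0
    simpa [neg_mul] using this
  refine Integrable.bdd_mul (c := 1) h1 ?_ ?_
  · exact (by fun_prop : Continuous fun om : ℝ => Real.cos (om * x)).aestronglyMeasurable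
  · exact Eventually.of_forall fun om => by simpa using Real.abs_cos_le_one _

theorem integral_exp_neg {A : ℝ} (hA : 0 < A) :
    ∫ om in Ioi (0:ℝ), Real.exp (-(A * om)) = 1 / A := by
  have h := integral_cos_exp hA 0
  simp only [mul_zero, Real.cos_zero, one_mul] at h
  rw [h]
  field_simp
  ring_nf

/-- Lower frequencies. -/
noncomputable def An (w b : ℝ) (n : ℕ) : ℝ := 2 * n * w + b

/-- Upper frequencies. -/
noncomputable def Bn (w b : ℝ) (n : ℕ) : ℝ := 2 * (n + 1) * w - b

theorem An_ge {w b : ℝ} (hb : 0 < b) (hb2 : b < 2 * w) (n : ℕ) :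
    min b (2 * w - b) * (n + 1) ≤ An w b n := by
  have h0 : 0 < 2 * w - b := sub_pos.2 hb2
  unfold An
  have h1 : min b (2 * w - b) ≤ b := min_le_left _ _
  have h2 : min b (2 * w - b) ≤ 2 * w - b := min_le_right _ _
  have hn : (0:ℝ) ≤ n := Nat.cast_nonneg n
  nlinarith [mul_nonneg hn (sub_nonneg.2 h1), mul_nonneg hn (sub_nonneg.2 h2)]

theorem Bn_ge {w b : ℝ} (hb : 0 < b) (hb2 : b < 2 * w) (n : ℕ) :
    min b (2 * w - b) * (n + 1) ≤ Bn w b n := by
  have h0 : 0 < 2 * w - b := sub_pos.2 hb2
  unfold Bn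
  have h1 : min b (2 * w - b) ≤ b := min_le_left _ _
  have h2 : min b (2 * w - b) ≤ 2 * w - b := min_le_right _ _
  have hn : (0:ℝ) ≤ n := Nat.cast_nonneg n
  nlinarith [mul_nonneg hn (sub_nonneg.2 h1), mul_nonneg hn (sub_nonneg.2 h2)]

theorem An_pos {w b : ℝ} (hb : 0 < b) (hb2 : b < 2 * w) (n : ℕ) : 0 < An w b n := by
  have h0 : 0 < 2 * w - b := sub_pos.2 hb2
  unfold An
  have hn : (0:ℝ) ≤ n := Nat.cast_nonneg n
  nlinarith [mul_nonneg hn (by linarith : (0:ℝ) ≤ w)]

theorem Bn_pos {w b : ℝ} (hb : 0 < b) (hb2 : b < 2 * w) (n : ℕ) : 0 < Bn w b n := by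
  have h0 : 0 < 2 * w - b := sub_pos.2 hb2
  unfold Bn
  have hn : (0:ℝ) ≤ n := Nat.cast_nonneg n
  nlinarith [mul_nonneg hn (by linarith : (0:ℝ) ≤ w)]

/-- Series of the multiplier on the positive half line. -/
theorem hasSum_mult {w b om : ℝ} (hw : 0 < w) (hom : 0 < om) :
    HasSum (fun n : ℕ => Real.exp (-(An w b n * om)) - Real.exp (-(Bn w b n * om)))
      (Real.sinh ((w - b) * om) / Real.sinh (w * om)) := by
  have hr : Real.exp (-(2 * w * om)) < 1 := by
    rw [Real.exp_lt_one_iff]
    have := mul_pos hw hom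
    nlinarith
  have hg := (hasSum_geometric_of_lt_one (Real.exp_pos (-(2 * w * om))).le hr).mul_left
    (Real.exp (-(b * om)) - Real.exp (-((2 * w - b) * om)))
  have e1 : (Real.exp (-(b * om)) - Real.exp (-((2 * w - b) * om)))
      * (1 - Real.exp (-(2 * w * om)))⁻¹ = Real.sinh ((w - b) * om) / Real.sinh (w * om) := by
    have hs : 0 < Real.sinh (w * om) := Real.sinh_pos_iff.2 (mul_pos hw hom)
    have h1 : (1 - Real.exp (-(2 * w * om))) ≠ 0 := by linarith
    rw [← div_eq_mul_inv, div_eq_div_iff h1 hs.ne']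
    rw [Real.sinh_eq, Real.sinh_eq]
    have t1 : Real.exp (-(b * om)) * Real.exp (w * om) = Real.exp ((w - b) * om) := by
      rw [← Real.exp_add]; ring_nf
    have t2 : Real.exp (-((2 * w - b) * om)) * Real.exp (w * om)
        = Real.exp (-((w - b) * om)) := by
      rw [← Real.exp_add]; ring_nf
    have t3 : Real.exp (-(b * om)) * Real.exp (-(w * om))
        = Real.exp (-((w + b) * om)) := by
      rw [← Real.exp_add]; ring_nf
    have t4 : Real.exp (-((2 * w - b) * om)) * Real.exp (-(w * om))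
        = Real.exp (-((3 * w - b) * om)) := by
      rw [← Real.exp_add]; ring_nf
    have t5 : Real.exp ((w - b) * om) * Real.exp (-(2 * w * om))
        = Real.exp (-((w + b) * om)) := by
      rw [← Real.exp_add]; ring_nf
    have t6 : Real.exp (-((w - b) * om)) * Real.exp (-(2 * w * om))
        = Real.exp (-((3 * w - b) * om)) := by
      rw [← Real.exp_add]; ring_nf
    linear_combination (1 / 2 : ℝ) * t1 - (1 / 2 : ℝ) * t2 - (1 / 2 : ℝ) * t3
      + (1 / 2 : ℝ) * t4 + (1 / 2 : ℝ) * t5 - (1 / 2 : ℝ) * t6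
  rw [e1] at hg
  refine hg.congr_fun ?_
  intro n
  rw [← Real.exp_nat_mul, sub_mul, ← Real.exp_add, ← Real.exp_add]
  unfold An Bn
  congr 2 <;> ring

theorem integral_abs_exp_sub_le {A B : ℝ} (hA : 0 < A) (hB : 0 < B) (x : ℝ) :
    ∫ om in Ioi (0:ℝ), ‖Real.cos (om * x) * (Real.exp (-(A * om)) - Real.exp (-(B * om)))‖
      ≤ |1 / A - 1 / B| := by
  have iA : IntegrableOn (fun om : ℝ => Real.exp (-(A * om))) (Ioi 0) := by
    have := integrableOn_cos_exp hA 0
    simpa using this
  have iB : IntegrableOn (fun om : ℝ => Real.exp (-(B * om))) (Ioi 0) := by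
    have := integrableOn_cos_exp hB 0
    simpa using this
  have key : ∀ om : ℝ, ‖Real.cos (om * x) * (Real.exp (-(A * om)) - Real.exp (-(B * om)))‖
      ≤ |Real.exp (-(A * om)) - Real.exp (-(B * om))| := by
    intro om
    rw [norm_mul, Real.norm_eq_abs, Real.norm_eq_abs]
    have h1 := Real.abs_cos_le_one (om * x)
    have h2 := abs_nonneg (Real.exp (-(A * om)) - Real.exp (-(B * om)))
    nlinarith
  have hfi : IntegrableOn (fun om : ℝ =>
      ‖Real.cos (om * x) * (Real.exp (-(A * om)) - Real.exp (-(B * om)))‖) (Ioi 0) := by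
    have h1 := (integrableOn_cos_exp hA x).sub (integrableOn_cos_exp hB x)
    refine Integrable.norm ?_
    refine h1.congr (Eventually.of_forall fun om => ?_)
    simp [mul_sub]
  calc ∫ om in Ioi (0:ℝ), ‖Real.cos (om * x) * (Real.exp (-(A * om)) - Real.exp (-(B * om)))‖
      ≤ ∫ om in Ioi (0:ℝ), |Real.exp (-(A * om)) - Real.exp (-(B * om))| := by
        refine integral_mono hfi (iA.sub iB).abs ?_
        intro om
        exact key om
    _ = |1 / A - 1 / B| := by
        rcases le_total A B with hAB | hAB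
        · have e : ∀ om ∈ Ioi (0:ℝ), |Real.exp (-(A * om)) - Real.exp (-(B * om))|
              = Real.exp (-(A * om)) - Real.exp (-(B * om)) := by
            intro om hom
            refine abs_of_nonneg (sub_nonneg.2 (Real.exp_le_exp.2 ?_))
            have : A * om ≤ B * om := mul_le_mul_of_nonneg_right hAB (le_of_lt hom)
            linarith
          rw [setIntegral_congr_fun measurableSet_Ioi e, integral_sub iA iB,
            integral_exp_neg hA, integral_exp_neg hB, abs_of_nonneg]
          exact sub_nonneg.2 (one_div_le_one_div_of_le hA hAB)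
        · have e : ∀ om ∈ Ioi (0:ℝ), |Real.exp (-(A * om)) - Real.exp (-(B * om))|
              = Real.exp (-(B * om)) - Real.exp (-(A * om)) := by
            intro om hom
            rw [abs_sub_comm]
            refine abs_of_nonneg (sub_nonneg.2 (Real.exp_le_exp.2 ?_))
            have : B * om ≤ A * om := mul_le_mul_of_nonneg_right hAB (le_of_lt hom)
            linarith
          rw [setIntegral_congr_fun measurableSet_Ioi e, integral_sub iB iA,
            integral_exp_neg hA, integral_exp_neg hB, abs_sub_comm, abs_of_nonneg]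
          exact sub_nonneg.2 (one_div_le_one_div_of_le hB hAB)

theorem summable_abs_inv_sub {w b : ℝ} (hb : 0 < b) (hb2 : b < 2 * w) :
    Summable fun n : ℕ => |1 / An w b n - 1 / Bn w b n| := by
  have hc : 0 < min b (2 * w - b) := lt_min hb (by linarith)
  set c := min b (2 * w - b) with hcdef
  have hs : Summable fun n : ℕ => |2 * w - 2 * b| / c ^ 2 * (1 / ((n : ℝ) + 1) ^ 2) := by
    refine Summable.mul_left _ ?_
    have := (summable_nat_add_iff 1).2 (Real.summable_one_div_nat_pow.2 (by norm_num : 1 < 2))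
    simpa using this
  refine Summable.of_nonneg_of_le (fun n => abs_nonneg _) (fun n => ?_) hs
  have hA := An_pos hb hb2 n
  have hB := Bn_pos hb hb2 n
  have hA2 : c * (n + 1) ≤ An w b n := An_ge hb hb2 n
  have hB2 : c * (n + 1) ≤ Bn w b n := Bn_ge hb hb2 n
  have hn : (0:ℝ) < (n:ℝ) + 1 := by positivity
  have e : 1 / An w b n - 1 / Bn w b n = (2 * w - 2 * b) / (An w b n * Bn w b n) := by
    rw [div_sub_div _ _ hA.ne' hB.ne']
    congr 1
    unfold An Bn
    ring
  rw [e, abs_div, abs_of_pos (mul_pos hA hB)]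
  rw [div_mul_div_comm, mul_one]
  refine div_le_div_of_nonneg_left (abs_nonneg _) (by positivity) ?_
  calc c ^ 2 * ((n:ℝ) + 1) ^ 2 = (c * (n + 1)) * (c * (n + 1)) := by ring
    _ ≤ An w b n * Bn w b n := mul_le_mul hA2 hB2 (by positivity) hA.le

theorem hasSum_integral_mult {w b : ℝ} (hb : 0 < b) (hb2 : b < 2 * w) (x : ℝ) :
    HasSum (fun n : ℕ => An w b n / (An w b n ^ 2 + x ^ 2) - Bn w b n / (Bn w b n ^ 2 + x ^ 2))
      (∫ om in Ioi (0:ℝ), Real.cos (om * x)
        * (Real.sinh ((w - b) * om) / Real.sinh (w * om))) := by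
  have hw : 0 < w := by linarith
  have hF : ∀ n : ℕ, IntegrableOn (fun om : ℝ => Real.cos (om * x)
      * (Real.exp (-(An w b n * om)) - Real.exp (-(Bn w b n * om)))) (Ioi 0) := by
    intro n
    have h1 := (integrableOn_cos_exp (An_pos hb hb2 n) x).sub
      (integrableOn_cos_exp (Bn_pos hb hb2 n) x)
    refine h1.congr (Eventually.of_forall fun om => ?_)
    simp [mul_sub]
  have h := hasSum_integral_of_summable_integral_norm hF
    ((summable_abs_inv_sub hb hb2).of_nonneg_of_le
      (fun n => integral_nonneg fun om => norm_nonneg _)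
      (fun n => integral_abs_exp_sub_le (An_pos hb hb2 n) (Bn_pos hb hb2 n) x))
  have e1 : (fun n : ℕ => ∫ om in Ioi (0:ℝ), Real.cos (om * x)
      * (Real.exp (-(An w b n * om)) - Real.exp (-(Bn w b n * om))))
      = fun n : ℕ => An w b n / (An w b n ^ 2 + x ^ 2) - Bn w b n / (Bn w b n ^ 2 + x ^ 2) := by
    funext n
    rw [← integral_cos_exp (An_pos hb hb2 n) x, ← integral_cos_exp (Bn_pos hb hb2 n) x,
      ← integral_sub (integrableOn_cos_exp (An_pos hb hb2 n) x)
        (integrableOn_cos_exp (Bn_pos hb hb2 n) x)]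
    simp only [mul_sub]
  have e2 : ∫ om in Ioi (0:ℝ), ∑' n : ℕ, Real.cos (om * x)
      * (Real.exp (-(An w b n * om)) - Real.exp (-(Bn w b n * om)))
      = ∫ om in Ioi (0:ℝ), Real.cos (om * x)
        * (Real.sinh ((w - b) * om) / Real.sinh (w * om)) := by
    refine setIntegral_congr_fun measurableSet_Ioi fun om hom => ?_
    exact ((hasSum_mult (b := b) hw hom).mul_left (Real.cos (om * x))).tsum_eq
  rw [e1, e2] at h
  exact h

/-- Real part of the cotangent. -/
theorem re_cot (al be : ℝ) (h : Real.cosh (2 * be) - Real.cos (2 * al) ≠ 0) :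
    (Complex.cot ((al : ℂ) + be * Complex.I)).re
      = Real.sin (2 * al) / (Real.cosh (2 * be) - Real.cos (2 * al)) := by
  have hs : Complex.sin ((al : ℂ) + be * Complex.I)
      = (Real.sin al * Real.cosh be : ℝ) + (Real.cos al * Real.sinh be : ℝ) * Complex.I := by
    rw [Complex.sin_add_mul_I]
    push_cast
    ring
  have hc : Complex.cos ((al : ℂ) + be * Complex.I)
      = (Real.cos al * Real.cosh be : ℝ) - (Real.sin al * Real.sinh be : ℝ) * Complex.I := by
    rw [Complex.cos_add_mul_I]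
    push_cast
    ring
  have h2 : Real.cosh (2 * be) - Real.cos (2 * al)
      = 2 * ((Real.sin al * Real.cosh be) ^ 2 + (Real.cos al * Real.sinh be) ^ 2) := by
    rw [Real.cosh_two_mul, Real.cos_two_mul]
    have e1 := Real.cosh_sq be
    have e2 := Real.sin_sq_add_cos_sq al
    have e3 : Real.sin al ^ 2 = 1 - Real.cos al ^ 2 := by linarith
    rw [mul_pow, mul_pow, e3, e1]
    ring
  have h3 : Real.sin (2 * al) = 2 * ((Real.cos al * Real.cosh be) * (Real.sin al * Real.cosh be)
      - (Real.sin al * Real.sinh be) * (Real.cos al * Real.sinh be)) := by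
    rw [Real.sin_two_mul]
    have e1 := Real.cosh_sq be
    have : (Real.cos al * Real.cosh be) * (Real.sin al * Real.cosh be)
        = Real.cos al * Real.sin al * Real.cosh be ^ 2 := by ring
    rw [this, e1]
    ring
  rw [Complex.cot, hs, hc, Complex.div_re]
  simp only [Complex.normSq_apply, Complex.sub_re, Complex.sub_im, Complex.add_re, Complex.add_im,
    Complex.ofReal_re, Complex.ofReal_im, Complex.mul_re, Complex.mul_im, Complex.I_re,
    Complex.I_im]
  rw [h3, h2]
  have h4 : (Real.sin al * Real.cosh be) ^ 2 + (Real.cos al * Real.sinh be) ^ 2 ≠ 0 := by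
    intro h0
    apply h
    rw [h2, h0, mul_zero]
  rw [mul_div_mul_left _ _ (by norm_num : (2:ℝ) ≠ 0)]
  have h5 : (Real.sin al * Real.cosh be) * (Real.sin al * Real.cosh be)
      + (Real.cos al * Real.sinh be) * (Real.cos al * Real.sinh be) ≠ 0 := by
    intro h0; apply h4; rw [← h0]; ring
  simp only [mul_zero, mul_one, sub_zero, add_zero, zero_add, zero_sub]
  rw [← add_div, div_eq_div_iff h5 h4]
  ring

theorem re_one_div {A w x : ℝ} (hA : 0 < A) (hw : 0 < w) {z : ℂ}
    (hz : z = ((A : ℂ) + x * Complex.I) / (2 * w : ℝ)) :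
    (1 / (2 * w)) * (1 / z).re = A / (A ^ 2 + x ^ 2) := by
  have h1 : 1 / z = ((2 * w : ℝ) : ℂ) * (1 / ((A : ℂ) + x * Complex.I)) := by
    rw [hz]
    rw [one_div_div, ← mul_one_div]
  rw [h1, Complex.re_ofReal_mul, Complex.div_re]
  simp [Complex.normSq_apply]
  have : A * A + x * x ≠ 0 := ne_of_gt (by nlinarith [mul_pos hA hA, mul_self_nonneg x])
  have h2 : A ^ 2 + x ^ 2 ≠ 0 := by positivity
  field_simp

theorem not_int {w b : ℝ} (hb : 0 < b) (hb2 : b < 2 * w) (x : ℝ) :
    (((b : ℂ) + x * Complex.I) / (2 * w : ℝ)) ∈ Complex.integerComplement := by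
  have h0 : 0 < 2 * w := by linarith
  rintro ⟨m, hm⟩
  have h1 : (m : ℂ) * (2 * w : ℝ) = (b : ℂ) + x * Complex.I := by
    rw [hm, div_mul_cancel₀]
    exact_mod_cast h0.ne'
  have h2 := congrArg Complex.re h1
  simp at h2
  have h3 : (m : ℝ) * (2 * w) = b := by
    simpa using h2
  have h4 : (0:ℝ) < m := by
    by_contra hcon
    push Not at hcon
    nlinarith
  have h5 : (1:ℝ) ≤ m := by
    have : (0:ℤ) < m := by exact_mod_cast h4
    exact_mod_cast this
  nlinarith

theorem partial_sum {w b : ℝ} (hb : 0 < b) (hb2 : b < 2 * w) (x : ℝ) (N : ℕ) :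
    ∑ n ∈ Finset.range N, (An w b n / (An w b n ^ 2 + x ^ 2) - Bn w b n / (Bn w b n ^ 2 + x ^ 2))
      = (1 / (2 * w)) * ((1 / ((((b : ℂ) + x * Complex.I) / (2 * w : ℝ)))
        + ∑ n ∈ Finset.range N, cotTerm ((((b : ℂ) + x * Complex.I) / (2 * w : ℝ))) n
        - 1 / ((((b : ℂ) + x * Complex.I) / (2 * w : ℝ)) + N)).re) := by
  have hw : 0 < w := by linarith
  have hw0 : (2 * w : ℝ) ≠ 0 := by positivity
  have hwc : (w : ℂ) ≠ 0 := by exact_mod_cast hw.ne'
  set z : ℂ := ((b : ℂ) + x * Complex.I) / (2 * w : ℝ) with hz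
  induction N with
  | zero => simp
  | succ N ih =>
    rw [Finset.sum_range_succ, ih, Finset.sum_range_succ]
    have hA : (1 / (2 * w)) * (1 / (z + N)).re = An w b N / (An w b N ^ 2 + x ^ 2) := by
      refine re_one_div (An_pos hb hb2 N) hw ?_
      rw [hz]
      unfold An
      push_cast
      field_simp
      ring
    have hB : (1 / (2 * w)) * (1 / (-(z - ((N:ℂ) + 1)))).re = Bn w b N / (Bn w b N ^ 2 + (-x) ^ 2) := by
      refine re_one_div (Bn_pos hb hb2 N) hw ?_
      rw [hz]
      unfold Bn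
      push_cast
      field_simp
      ring
    rw [neg_sq] at hB
    rw [← hA, ← hB]
    simp only [cotTerm, one_div_neg_eq_neg_one_div, Complex.neg_re, Complex.add_re, Complex.sub_re,
      Nat.cast_add, Nat.cast_one]
    ring

theorem tendsto_inv_add (z : ℂ) : Tendsto (fun N : ℕ => 1 / (z + N)) atTop (𝓝 0) := by
  have h1 : Tendsto (fun N : ℕ => z + (N : ℂ)) atTop (Bornology.cobounded ℂ) := by
    rw [← tendsto_norm_atTop_iff_cobounded]
    have h2 : Tendsto (fun N : ℕ => (N : ℝ) - ‖z‖) atTop atTop :=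
      tendsto_atTop_add_const_right _ _ tendsto_natCast_atTop_atTop
    refine tendsto_atTop_mono (fun N => ?_) h2
    have := norm_sub_norm_le (N : ℂ) (-z)
    rw [norm_neg, sub_neg_eq_add, Complex.norm_natCast, add_comm] at this
    exact this
  have h3 := tendsto_inv₀_cobounded.comp h1
  refine h3.congr fun N => ?_
  simp

/-- The half line integral of the multiplier. -/
theorem integral_Ioi_mult {w b : ℝ} (hb : 0 < b) (hb2 : b < 2 * w) (x : ℝ) :
    ∫ om in Ioi (0:ℝ), Real.cos (om * x) * (Real.sinh ((w - b) * om) / Real.sinh (w * om))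
      = π * ker w b x := by
  have hw : 0 < w := by linarith
  have hwc : (w : ℂ) ≠ 0 := by exact_mod_cast hw.ne'
  have h1 := (hasSum_integral_mult hb hb2 x).tendsto_sum_nat
  have hz := not_int hb hb2 x
  have h2 := tendsto_logDeriv_euler_cot_sub hz
  have h3 : Tendsto (fun N : ℕ => ∑ n ∈ Finset.range N,
      (An w b n / (An w b n ^ 2 + x ^ 2) - Bn w b n / (Bn w b n ^ 2 + x ^ 2))) atTop
      (𝓝 ((1 / (2 * w)) * (π * Complex.cot (π * (((b : ℂ) + x * Complex.I) / (2 * w : ℝ)))).re)) := by
    have h4 : Tendsto (fun N : ℕ => (1 / (2 * w)) *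
        ((1 / ((((b : ℂ) + x * Complex.I) / (2 * w : ℝ)))
        + ∑ n ∈ Finset.range N, cotTerm ((((b : ℂ) + x * Complex.I) / (2 * w : ℝ))) n
        - 1 / ((((b : ℂ) + x * Complex.I) / (2 * w : ℝ)) + N)).re)) atTop
        (𝓝 ((1 / (2 * w)) * ((1 / ((((b : ℂ) + x * Complex.I) / (2 * w : ℝ)))
        + (π * Complex.cot (π * (((b : ℂ) + x * Complex.I) / (2 * w : ℝ)))
          - 1 / ((((b : ℂ) + x * Complex.I) / (2 * w : ℝ)))) - 0).re))) := by
      refine Tendsto.const_mul _ ?_
      exact (Complex.continuous_re.tendsto _).comp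
        (((tendsto_const_nhds).add h2).sub (tendsto_inv_add _))
    have h6 := h4.congr fun N => (partial_sum hb hb2 x N).symm
    rw [sub_zero, add_sub_cancel] at h6
    exact h6
  rw [tendsto_nhds_unique h1 h3]
  have e : (π : ℂ) * (((b : ℂ) + x * Complex.I) / (2 * w : ℝ))
      = ((π * b / (2 * w) : ℝ) : ℂ) + ((π * x / (2 * w) : ℝ) : ℂ) * Complex.I := by
    push_cast
    field_simp
  have h5 : Real.cosh (2 * (π * x / (2 * w))) - Real.cos (2 * (π * b / (2 * w))) ≠ 0 := by
    have e1 : 2 * (π * b / (2 * w)) = π * b / w := by field_simp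
    rw [e1]
    have c0 : 0 < π * b / w := by positivity
    have c3 : π * b / w < 2 * π := by
      rw [div_lt_iff₀ hw]
      nlinarith [Real.pi_pos]
    have c1 : Real.cos (π * b / w) < 1 := by
      refine lt_of_le_of_ne (Real.cos_le_one _) fun h0 => ?_
      rw [Real.cos_eq_one_iff_of_lt_of_lt (by linarith [Real.pi_pos]) c3] at h0
      exact c0.ne' h0
    have c2 := Real.one_le_cosh (2 * (π * x / (2 * w)))
    linarith
  rw [Complex.re_ofReal_mul, e, re_cot _ _ h5]
  unfold ker
  have e1 : 2 * (π * b / (2 * w)) = π * b / w := by field_simp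
  have e2 : 2 * (π * x / (2 * w)) = π * x / w := by field_simp
  rw [e1, e2]
  rw [e1, e2] at h5
  field_simp

end Pool.Agent.CYL.Strip
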