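import Mathlib

/-!
# Cosine transforms of even functions (project CYL, part C)

Inversion and convolution for real even integrable functions, from the Fourier inversion
theorem of Mathlib.
-/

open MeasureTheory Set Filter Topology Real

open scoped FourierTransform

namespace Pool.Agent.CYL.Strip

theorem integral_odd_eq_zero {h : ℝ → ℝ} (hh : ∀ x, h (-x) = -h x) : ∫ x, h x = 0 := by
  have h1 : ∫ x, h (-x) = ∫ x, h x := integral_neg_eq_self h volume
  simp only [hh, integral_neg] at h1
  linarith

theorem integrable_cos_mul {f : ℝ → ℝ} (hf : Integrable f) (y : ℝ) :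
    Integrable fun x : ℝ => Real.cos (x * y) * f x := by
  refine Integrable.bdd_mul (c := 1) hf ?_ ?_
  · exact (by fun_prop : Continuous fun x : ℝ => Real.cos (x * y)).aestronglyMeasurable
  · exact Eventually.of_forall fun x => by simpa using Real.abs_cos_le_one _

theorem integrable_sin_mul {f : ℝ → ℝ} (hf : Integrable f) (y : ℝ) :
    Integrable fun x : ℝ => Real.sin (x * y) * f x := by
  refine Integrable.bdd_mul (c := 1) hf ?_ ?_
  · exact (by fun_prop : Continuous fun x : ℝ => Real.sin (x * y)).aestronglyMeasurable
  · exact Eventually.of_forall fun x => by simpa using Real.abs_sin_le_one _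

/-- Fourier transform of a real even function. -/
theorem fourier_even {f : ℝ → ℝ} (hf : Integrable f) (he : ∀ x, f (-x) = f x) (v : ℝ) :
    𝓕 (fun x => (f x : ℂ)) v = ((∫ x, Real.cos (x * (2 * π * v)) * f x : ℝ) : ℂ) := by
  rw [Real.fourier_real_eq_integral_exp_smul]
  have e : ∀ x : ℝ, Complex.exp (↑(-2 * π * x * v) * Complex.I) • (f x : ℂ)
      = ((Real.cos (x * (2 * π * v)) * f x : ℝ) : ℂ)
        - ((Real.sin (x * (2 * π * v)) * f x : ℝ) : ℂ) * Complex.I := by
    intro x
    rw [Complex.exp_mul_I, smul_eq_mul, ← Complex.ofReal_cos, ← Complex.ofReal_sin]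
    have h1 : -2 * π * x * v = -(x * (2 * π * v)) := by ring
    rw [h1, Real.cos_neg, Real.sin_neg]
    push_cast
    ring
  simp only [e]
  rw [integral_sub, integral_mul_const, integral_complex_ofReal, integral_complex_ofReal]
  · have h0 : ∫ x, Real.sin (x * (2 * π * v)) * f x = 0 := by
      refine integral_odd_eq_zero fun x => ?_
      rw [neg_mul, Real.sin_neg, he]
      ring
    rw [h0]
    simp
  · exact (integrable_cos_mul hf _).ofReal
  · exact ((integrable_sin_mul hf _).ofReal).mul_const _

/-- Inversion of the cosine transform. -/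
theorem cos_inversion {f g : ℝ → ℝ} (hf : Integrable f) (hfc : Continuous f)
    (he : ∀ x, f (-x) = f x) (hg : Integrable g)
    (hfg : ∀ x, ∫ om, Real.cos (om * x) * f om = g x) (om : ℝ) :
    ∫ x, Real.cos (om * x) * g x = 2 * π * f om := by
  have hge : ∀ x, g (-x) = g x := by
    intro x
    rw [← hfg, ← hfg]
    congr 1
    funext om
    rw [mul_neg, Real.cos_neg]
  have hF : 𝓕 (fun x => (f x : ℂ)) = fun v : ℝ => ((g (2 * π * v) : ℝ) : ℂ) := by
    funext v
    rw [fourier_even hf he, hfg]
  have hgi : Integrable fun v : ℝ => g (2 * π * v) := hg.comp_mul_left' (by positivity)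
  have hgi2 : Integrable (𝓕 (fun x => (f x : ℂ))) := by
    rw [hF]
    exact hgi.ofReal
  have hinv := (Complex.continuous_ofReal.comp hfc).fourierInv_fourier_eq hf.ofReal hgi2
  have h1 := congrFun hinv om
  rw [Function.comp_def, hF, Real.fourierInv_eq_fourier_neg, fourier_even hgi] at h1
  · have h2 : ∫ x, Real.cos (x * (2 * π * -om)) * g (2 * π * x) = f om := by
      change _ = ((f om : ℝ) : ℂ) at h1
      exact Complex.ofReal_injective h1
    have h3 : ∫ x, Real.cos (x * (2 * π * -om)) * g (2 * π * x)
        = ∫ x, (fun y => Real.cos (om * y) * g y) (2 * π * x) := by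
      congr 1
      funext x
      have : x * (2 * π * -om) = -(om * (2 * π * x)) := by ring
      simp only [this, Real.cos_neg]
    rw [h3, Measure.integral_comp_mul_left (fun y => Real.cos (om * y) * g y) (2 * π)] at h2
    have hp : (0:ℝ) < 2 * π := by positivity
    rw [abs_of_pos (inv_pos.2 hp), smul_eq_mul] at h2
    rw [← h2]
    field_simp
  · intro x
    rw [mul_neg, hge]

/-- Convolution of cosine transforms. -/
theorem cos_convolution {F f g G : ℝ → ℝ} (hF : Integrable F)
    (hf : ∀ x, 2 * π * f x = ∫ om, Real.cos (om * x) * F om)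
    (hg : Integrable g) (hge : ∀ x, g (-x) = g x)
    (hG : ∀ om, ∫ x, Real.cos (om * x) * g x = G om) (x : ℝ) :
    2 * π * ∫ t, f (x - t) * g t = ∫ om, Real.cos (om * x) * (F om * G om) := by
  rw [← integral_const_mul]
  have e1 : ∀ t, 2 * π * (f (x - t) * g t)
      = ∫ om, Real.cos (om * (x - t)) * F om * g t := by
    intro t
    rw [integral_mul_const, ← hf]
    ring
  simp only [e1]
  rw [integral_integral_swap]
  · congr 1
    funext om
    have e2 : ∀ t, Real.cos (om * (x - t)) * F om * g t
        = F om * Real.cos (om * x) * (Real.cos (om * t) * g t)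
          + F om * Real.sin (om * x) * (Real.sin (om * t) * g t) := by
      intro t
      rw [mul_sub, Real.cos_sub]
      ring
    simp only [e2]
    have i1 : Integrable fun t => Real.cos (om * t) * g t := by
      simpa [mul_comm] using integrable_cos_mul hg om
    have i2 : Integrable fun t => Real.sin (om * t) * g t := by
      simpa [mul_comm] using integrable_sin_mul hg om
    rw [integral_add (i1.const_mul _) (i2.const_mul _), integral_const_mul, integral_const_mul,
      hG]
    have h0 : ∫ t, Real.sin (om * t) * g t = 0 := by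
      refine integral_odd_eq_zero fun t => ?_
      rw [mul_neg, Real.sin_neg, hge]
      ring
    rw [h0]
    ring
  · have h1 : Integrable (fun p : ℝ × ℝ => g p.1 * F p.2) (volume.prod volume) := hg.mul_prod hF
    have h2 : Integrable (fun p : ℝ × ℝ => Real.cos (p.2 * (x - p.1)) * (g p.1 * F p.2))
        (volume.prod volume) := by
      refine Integrable.bdd_mul (c := 1) h1 ?_ ?_
      · exact (by fun_prop : Continuous fun p : ℝ × ℝ =>
          Real.cos (p.2 * (x - p.1))).aestronglyMeasurable
      · exact Eventually.of_forall fun x => by simpa using Real.abs_cos_le_one _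
    refine h2.congr (Eventually.of_forall fun p => ?_)
    simp only [Function.uncurry]
    ring

end Pool.Agent.CYL.Strip
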