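import Pool.Agent.CYL.C.Strip1
import Pool.Agent.CYL.C.Strip2

/-!
# Fourier transform of the strip kernels, part 3 (project CYL, part C)
-/

open MeasureTheory Set Filter Topology Real

namespace Pool.Agent.CYL.Strip

theorem mult_neg (w b om : ℝ) : mult w b (-om) = mult w b om := by
  unfold mult
  by_cases h : om = 0
  · simp [h]
  · rw [if_neg h, if_neg (by simpa using h)]
    rw [mul_neg, mul_neg, Real.sinh_neg, Real.sinh_neg, neg_div_neg_eq]

theorem ker_neg (w b x : ℝ) : ker w b (-x) = ker w b x := by
  unfold ker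
  rw [mul_neg, neg_div, Real.cosh_neg]

theorem mult_eq {w b om : ℝ} (hom : om ≠ 0) :
    mult w b om = Real.sinh ((w - b) * om) / Real.sinh (w * om) := if_neg hom

theorem mult_dslope {w b : ℝ} (hw : 0 < w) (om : ℝ) :
    mult w b om = dslope (fun t => Real.sinh ((w - b) * t)) 0 om
      / dslope (fun t => Real.sinh (w * t)) 0 om := by
  have hd : ∀ c : ℝ, HasDerivAt (fun t => Real.sinh (c * t)) c 0 := by
    intro c
    have h1 : HasDerivAt (fun t : ℝ => c * t) c 0 := by
      simpa using (hasDerivAt_id (0:ℝ)).const_mul c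
    have h2 := h1.sinh
    simpa using h2
  by_cases h : om = 0
  · subst h
    rw [dslope_same, dslope_same, (hd _).deriv, (hd _).deriv]
    unfold mult
    rw [if_pos rfl]
    field_simp
  · rw [mult_eq h, dslope_of_ne _ h, dslope_of_ne _ h, slope_def_field, slope_def_field]
    simp only [mul_zero, Real.sinh_zero, sub_zero]
    rw [div_div_div_cancel_right₀ h]

theorem continuous_mult {w b : ℝ} (hw : 0 < w) : Continuous (mult w b) := by
  have hcont : ∀ c : ℝ, Continuous (dslope (fun t => Real.sinh (c * t)) 0) := by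
    intro c
    rw [continuous_iff_continuousAt]
    intro x
    by_cases h : x = 0
    · subst h
      rw [continuousAt_dslope_same]
      fun_prop
    · rw [continuousAt_dslope_of_ne h]
      fun_prop
  have e : mult w b = fun om => dslope (fun t => Real.sinh ((w - b) * t)) 0 om
      / dslope (fun t => Real.sinh (w * t)) 0 om := funext fun om => mult_dslope hw om
  rw [e]
  refine (hcont _).div (hcont _) fun om => ?_
  by_cases h : om = 0
  · subst h
    rw [dslope_same]
    have h1 : HasDerivAt (fun t : ℝ => w * t) w 0 := by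
      simpa using (hasDerivAt_id (0:ℝ)).const_mul w
    have h2 := h1.sinh
    simp only [mul_zero, Real.cosh_zero, one_mul] at h2
    rw [h2.deriv]
    exact hw.ne'
  · rw [dslope_of_ne _ h, slope_def_field]
    simp only [mul_zero, Real.sinh_zero, sub_zero]
    refine div_ne_zero ?_ h
    rw [Real.sinh_ne_zero]
    exact mul_ne_zero hw.ne' h

/-- Bound for `0 < b <= w` and `0 < om`. -/
theorem mult_bound1 {w b om : ℝ} (hb : 0 < b) (hbw : b ≤ w) (hom : 0 < om) :
    0 ≤ mult w b om ∧ mult w b om ≤ Real.exp (-(b * om)) := by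
  have hw : 0 < w := by linarith
  have hs : 0 < Real.sinh (w * om) := Real.sinh_pos_iff.2 (mul_pos hw hom)
  rw [mult_eq hom.ne']
  constructor
  · refine div_nonneg ?_ hs.le
    rw [Real.sinh_nonneg_iff]
    exact mul_nonneg (by linarith) hom.le
  · rw [div_le_iff₀ hs, Real.sinh_eq, Real.sinh_eq]
    have t1 : Real.exp (-(b * om)) * Real.exp (w * om) = Real.exp ((w - b) * om) := by
      rw [← Real.exp_add]; ring_nf
    have t2 : Real.exp (-(b * om)) * Real.exp (-(w * om)) ≤ Real.exp (-((w - b) * om)) := by
      rw [← Real.exp_add]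
      refine Real.exp_le_exp.2 ?_
      nlinarith [mul_pos hb hom]
    have e : Real.exp (-(b * om)) * ((Real.exp (w * om) - Real.exp (-(w * om))) / 2)
        = (Real.exp (-(b * om)) * Real.exp (w * om)
          - Real.exp (-(b * om)) * Real.exp (-(w * om))) / 2 := by ring
    rw [e, t1]
    linarith

theorem mult_symm {w b : ℝ} (hw : 0 < w) (om : ℝ) : mult w (2 * w - b) om = -mult w b om := by
  unfold mult
  by_cases h : om = 0
  · rw [if_pos h, if_pos h]
    field_simp
    ring
  · rw [if_neg h, if_neg h, ← neg_div, ← Real.sinh_neg]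
    congr 2
    ring

theorem abs_mult_le {w b : ℝ} (hb : 0 < b) (hb2 : b < 2 * w) (om : ℝ) (hom : om ≠ 0) :
    |mult w b om| ≤ Real.exp (-(min b (2 * w - b) * |om|)) := by
  have hw : 0 < w := by linarith
  wlog hpos : 0 < om generalizing om with H
  · have h1 := H (-om) (by simpa using hom) (by
      have : om < 0 := lt_of_le_of_ne (not_lt.1 hpos) hom
      linarith)
    rwa [mult_neg, abs_neg] at h1
  rw [abs_of_pos hpos]
  rcases le_total b w with hbw | hbw
  · obtain ⟨h1, h2⟩ := mult_bound1 hb hbw hpos
    rw [abs_of_nonneg h1, min_eq_left (by linarith)]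
    exact h2
  · obtain ⟨h1, h2⟩ := mult_bound1 (w := w) (b := 2 * w - b) (by linarith) (by linarith) hpos
    rw [mult_symm hw] at h1 h2
    rw [abs_of_nonpos (by linarith), min_eq_right (by linarith)]
    exact h2

theorem integrable_exp_neg_abs {c : ℝ} (hc : 0 < c) :
    Integrable fun x : ℝ => Real.exp (-(c * |x|)) := by
  have h1 : IntegrableOn (fun x : ℝ => Real.exp (-(c * |x|))) (Ioi 0) := by
    have h2 : IntegrableOn (fun x : ℝ => Real.exp (-c * x)) (Ioi 0) :=
      integrableOn_exp_mul_Ioi (by linarith) 0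
    refine h2.congr_fun (fun x hx => ?_) measurableSet_Ioi
    simp only
    rw [abs_of_pos hx, neg_mul]
  have h3 : IntegrableOn (fun x : ℝ => Real.exp (-(c * |x|))) (Iic 0) := by
    have h2 : IntegrableOn (fun x : ℝ => Real.exp (c * x)) (Iic 0) :=
      integrableOn_exp_mul_Iic hc 0
    refine h2.congr_fun (fun x hx => ?_) measurableSet_Iic
    simp only
    rw [abs_of_nonpos hx]
    ring_nf
  have h4 := h3.union h1
  rwa [Iic_union_Ioi, integrableOn_univ] at h4

theorem integrable_mult {w b : ℝ} (hb : 0 < b) (hb2 : b < 2 * w) : Integrable (mult w b) := by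
  have hw : 0 < w := by linarith
  refine Integrable.mono' (integrable_exp_neg_abs (c := min b (2 * w - b))
    (lt_min hb (by linarith))) (continuous_mult hw).aestronglyMeasurable ?_
  have h0 : ∀ᵐ om : ℝ, om ≠ 0 := by
    simp [ae_iff, measure_singleton]
  filter_upwards [h0] with om hom
  exact abs_mult_le hb hb2 om hom

theorem cos_lt_one {w b : ℝ} (hb : 0 < b) (hb2 : b < 2 * w) : Real.cos (π * b / w) < 1 := by
  have hw : 0 < w := by linarith
  have c0 : 0 < π * b / w := by positivity
  have c3 : π * b / w < 2 * π := by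
    rw [div_lt_iff₀ hw]
    nlinarith [Real.pi_pos]
  refine lt_of_le_of_ne (Real.cos_le_one _) fun h0 => ?_
  rw [Real.cos_eq_one_iff_of_lt_of_lt (by linarith [Real.pi_pos]) c3] at h0
  exact c0.ne' h0

theorem den_pos {w b : ℝ} (hb : 0 < b) (hb2 : b < 2 * w) (x : ℝ) :
    0 < Real.cosh (π * x / w) - Real.cos (π * b / w) := by
  have h1 := cos_lt_one hb hb2
  have h2 := Real.one_le_cosh (π * x / w)
  linarith

theorem continuous_ker {w b : ℝ} (hb : 0 < b) (hb2 : b < 2 * w) : Continuous (ker w b) := by
  have hw : 0 < w := by linarith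
  unfold ker
  refine Continuous.div (by fun_prop) (by fun_prop) fun x => ?_
  exact mul_ne_zero (by positivity) (den_pos hb hb2 x).ne'

theorem abs_ker_le {w b : ℝ} (hb : 0 < b) (hb2 : b < 2 * w) (x : ℝ) :
    |ker w b x| ≤ (1 / (w * (1 - max (Real.cos (π * b / w)) 0))) * Real.exp (-(π / w * |x|)) := by
  have hw : 0 < w := by linarith
  have h1 := cos_lt_one hb hb2
  set c := Real.cos (π * b / w) with hc
  have hc1 : 0 < 1 - max c 0 := by
    have : max c 0 < 1 := max_lt h1 one_pos
    linarith
  have hden := den_pos hb hb2 x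
  have h2 : (1 - max c 0) * Real.cosh (π * x / w) ≤ Real.cosh (π * x / w) - c := by
    have h3 := Real.one_le_cosh (π * x / w)
    have h4 : c ≤ max c 0 := le_max_left _ _
    have h5 : 0 ≤ max c 0 := le_max_right _ _
    nlinarith
  have h6 : Real.exp (π / w * |x|) / 2 ≤ Real.cosh (π * x / w) := by
    have e : Real.cosh (π * x / w) = Real.cosh (π / w * |x|) := by
      rw [← Real.cosh_abs (π * x / w)]
      congr 1
      rw [abs_div, abs_mul, abs_of_pos Real.pi_pos, abs_of_pos hw]
      ring
    rw [e, Real.cosh_eq]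
    have := Real.exp_pos (-(π / w * |x|))
    linarith
  unfold ker
  rw [← hc, abs_div, abs_of_pos (by positivity : 0 < 2 * w * (Real.cosh (π * x / w) - c))]
  rw [Real.exp_neg]
  have h7 := Real.abs_sin_le_one (π * b / w)
  rw [div_mul_eq_mul_div, one_mul]
  rw [div_le_div_iff₀ (by positivity) (by positivity)]
  have h8 : (1 - max c 0) * (Real.exp (π / w * |x|) / 2) ≤ Real.cosh (π * x / w) - c :=
    le_trans (mul_le_mul_of_nonneg_left h6 hc1.le) h2
  have h9 : 0 < Real.exp (π / w * |x|) := Real.exp_pos _
  calc |Real.sin (π * b / w)| * (w * (1 - max c 0)) ≤ 1 * (w * (1 - max c 0)) :=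
        mul_le_mul_of_nonneg_right h7 (by positivity)
    _ = (Real.exp (π / w * |x|))⁻¹ * (2 * w * ((1 - max c 0) * (Real.exp (π / w * |x|) / 2))) := by
        field_simp
    _ ≤ (Real.exp (π / w * |x|))⁻¹ * (2 * w * (Real.cosh (π * x / w) - c)) := by
        refine mul_le_mul_of_nonneg_left ?_ (by positivity)
        exact mul_le_mul_of_nonneg_left h8 (by positivity)

theorem integrable_ker {w b : ℝ} (hb : 0 < b) (hb2 : b < 2 * w) : Integrable (ker w b) := by
  have hw : 0 < w := by linarith
  refine Integrable.mono' ((integrable_exp_neg_abs (c := π / w) (by positivity)).const_mul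
    (1 / (w * (1 - max (Real.cos (π * b / w)) 0))))
    (continuous_ker hb hb2).aestronglyMeasurable (Eventually.of_forall fun x => ?_)
  exact abs_ker_le hb hb2 x

/-- Cosine transform of the multiplier. -/
theorem cos_mult {w b : ℝ} (hb : 0 < b) (hb2 : b < 2 * w) (x : ℝ) :
    ∫ om, Real.cos (om * x) * mult w b om = 2 * π * ker w b x := by
  have e : ∀ om : ℝ, Real.cos (om * x) * mult w b om
      = (fun t => Real.cos (t * x) * mult w b t) |om| := by
    intro om
    rcases abs_cases om with ⟨h, _⟩ | ⟨h, _⟩
    · simp only [h]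
    · simp only [h, mult_neg, neg_mul, Real.cos_neg]
  rw [integral_congr_ae (Eventually.of_forall e),
    integral_comp_abs (f := fun t => Real.cos (t * x) * mult w b t)]
  have e2 : ∫ om in Ioi (0:ℝ), Real.cos (om * x) * mult w b om
      = ∫ om in Ioi (0:ℝ), Real.cos (om * x) * (Real.sinh ((w - b) * om) / Real.sinh (w * om)) := by
    refine setIntegral_congr_fun measurableSet_Ioi fun om hom => ?_
    rw [mult_eq (ne_of_gt hom)]
  rw [e2, integral_Ioi_mult hb hb2]
  ring

/-- Cosine transform of the strip kernel. -/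
theorem cos_ker {w b : ℝ} (hb : 0 < b) (hb2 : b < 2 * w) (om : ℝ) :
    ∫ x, Real.cos (om * x) * ker w b x = mult w b om := by
  have hw : 0 < w := by linarith
  have h := cos_inversion (integrable_mult hb hb2) (continuous_mult hw) (mult_neg w b)
    ((integrable_ker hb hb2).const_mul (2 * π)) (fun x => cos_mult hb hb2 x) om
  have e : ∀ x, Real.cos (om * x) * (2 * π * ker w b x)
      = 2 * π * (Real.cos (om * x) * ker w b x) := fun x => by ring
  simp only [e] at h
  rw [integral_const_mul] at h
  exact mul_left_cancel₀ (by positivity) h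

end Pool.Agent.CYL.Strip
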