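import Pool.Agent.CYL.C.WConv

/-! # A priori bound of `v`

PROOF. Put `M = sup |v|` (finite: `|v| <= m/2 + L/2`). `|w| <= (3/10) M` (`w_eq`,
`conv_abs_le`, `integral_abs_K`). At a root `v (x j) = w (x j) + 1/2`
(`z_root`, `N0_root`), and `v` is decreasing on `[x j, x (j+1))` (`N0` constant, `R` increasing) with
left limit `w (x (j+1)) - 1/2` at the next root: for `y` in `[x j, x (j+1))`
`w (x (j+1)) - 1/2 <= v y <= w (x j) + 1/2`
(lower bound: `v y = N0 y - L R y >= N0 y - L R (x (j+1)) = w (x (j+1)) - 1/2`). For `y < x 0`: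
`w (x 0) - 1/2 <= v y <= - m/2 + L/2 = l/2`; after the last root `-l/2 <= v y <= w (x last) + 1/2`.
So `M <= max (l/2) ((3/10) M + 1/2)`, hence `M <= max (l/2) (5/7)`. Use `N0_cases`. -/

namespace Pool.Agent.CYL.Roots

open MeasureTheory Filter Topology

variable {l : ℕ} (r : Roots l)

/-- Any bound of `v` gives a bound of `w`. -/
theorem abs_w_le_of_v {B : ℝ} (hB : ∀ y, |r.v y| ≤ B) (y : ℝ) : |r.w y| ≤ 3 / 10 * B := by
  have hB0 : 0 ≤ B := le_trans (abs_nonneg _) (hB 0)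
  rw [r.w_eq y]
  refine le_trans (conv_abs_le integrable_K r.measurable_v hB y) ?_
  exact mul_le_mul_of_nonneg_right integral_abs_K hB0

theorem mL : (r.m : ℝ) + (l : ℝ) = (r.L : ℝ) := by
  have h := r.hL
  exact_mod_cast h

theorem w_root (j : Fin r.m) :
    r.w (r.x j) = (j : ℝ) - ((r.m : ℝ) - 1) / 2 - (r.L : ℝ) * R (r.x j) := by
  unfold Roots.w
  rw [r.z_root j]

/-- One step of the self-consistent bound. -/
theorem abs_v_step {B : ℝ} (hB : ∀ y, |r.v y| ≤ B) (y : ℝ) :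
    |r.v y| ≤ max ((l : ℝ) / 2) (3 / 10 * B + 1 / 2) := by
  have hw := r.abs_w_le_of_v hB
  have hmL := r.mL
  have hL0 : (0 : ℝ) ≤ (r.L : ℝ) := Nat.cast_nonneg _
  have hR := abs_lt.mp (abs_R_lt y)
  have hvy : r.v y = r.N0 y - (r.L : ℝ) * R y := rfl
  have hu : (r.L : ℝ) * R y ≤ (r.L : ℝ) * (1 / 2) := mul_le_mul_of_nonneg_left hR.2.le hL0
  have hd : (r.L : ℝ) * (-(1 / 2)) ≤ (r.L : ℝ) * R y := mul_le_mul_of_nonneg_left hR.1.le hL0
  have key1 : ∀ a : ℝ, a ≤ (l : ℝ) / 2 → a ≤ max ((l : ℝ) / 2) (3 / 10 * B + 1 / 2) :=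
    fun a ha => le_trans ha (le_max_left _ _)
  have key2 : ∀ a : ℝ, a ≤ 3 / 10 * B + 1 / 2 → a ≤ max ((l : ℝ) / 2) (3 / 10 * B + 1 / 2) :=
    fun a ha => le_trans ha (le_max_right _ _)
  rcases r.N0_cases y with ⟨hN, hk⟩ | ⟨j, hj, hN, hk⟩
  · rw [hN] at hvy
    rw [abs_le]
    constructor
    · rw [neg_le]
      rcases Nat.eq_zero_or_pos r.m with hm | hm
      · apply key1
        have hm' : (r.m : ℝ) = 0 := by rw [hm]; simp
        rw [hm'] at hvy hmL
        linarith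
      · apply key2
        have h0 := hk ⟨0, hm⟩
        have hmon : R y ≤ R (r.x ⟨0, hm⟩) := (R_strictMono h0).le
        have hmul := mul_le_mul_of_nonneg_left hmon hL0
        have hr := r.w_root ⟨0, hm⟩
        have hw0 := abs_le.mp (hw (r.x ⟨0, hm⟩))
        simp only [Nat.cast_zero] at hr
        linarith [hw0.1, hw0.2]
    · apply key1
      linarith
  · rw [hN] at hvy
    rw [abs_le]
    constructor
    · rw [neg_le]
      by_cases hjm : (j : ℕ) + 1 < r.m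
      · apply key2
        have h0 := hk ⟨(j : ℕ) + 1, hjm⟩ (by
          rw [Fin.lt_def]
          simp)
        have hmon : R y ≤ R (r.x ⟨(j : ℕ) + 1, hjm⟩) := (R_strictMono h0).le
        have hmul := mul_le_mul_of_nonneg_left hmon hL0
        have hr := r.w_root ⟨(j : ℕ) + 1, hjm⟩
        have hw0 := abs_le.mp (hw (r.x ⟨(j : ℕ) + 1, hjm⟩))
        simp only [Nat.cast_add, Nat.cast_one] at hr
        linarith [hw0.1, hw0.2]
      · apply key1
        have hj2 : (j : ℕ) + 1 = r.m := by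
          have := j.isLt
          omega
        have hj3 : ((j : ℕ) : ℝ) + 1 = (r.m : ℝ) := by exact_mod_cast hj2
        linarith
    · apply key2
      have hmon : R (r.x j) ≤ R y := R_strictMono.monotone hj
      have hmul := mul_le_mul_of_nonneg_left hmon hL0
      have hr := r.w_root j
      have hw0 := abs_le.mp (hw (r.x j))
      linarith [hw0.1, hw0.2]

theorem abs_v_crude (y : ℝ) : |r.v y| ≤ (r.m : ℝ) / 2 + (r.L : ℝ) / 2 := by
  have hL0 : (0 : ℝ) ≤ (r.L : ℝ) := Nat.cast_nonneg _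
  have hN := abs_le.mp (r.abs_N0_le y)
  have hR := abs_lt.mp (abs_R_lt y)
  have hu : (r.L : ℝ) * R y ≤ (r.L : ℝ) * (1 / 2) := mul_le_mul_of_nonneg_left hR.2.le hL0
  have hd : (r.L : ℝ) * (-(1 / 2)) ≤ (r.L : ℝ) * R y := mul_le_mul_of_nonneg_left hR.1.le hL0
  have hvy : r.v y = r.N0 y - (r.L : ℝ) * R y := rfl
  rw [abs_le]
  constructor
  · linarith [hN.1]
  · linarith [hN.2]

theorem abs_v_le (y : ℝ) : |r.v y| ≤ (l : ℝ) / 2 + 1 := by
  have hbdd : BddAbove (Set.range fun y => |r.v y|) := by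
    refine ⟨(r.m : ℝ) / 2 + (r.L : ℝ) / 2, ?_⟩
    rintro _ ⟨t, rfl⟩
    exact r.abs_v_crude t
  have hM : ∀ y, |r.v y| ≤ ⨆ t, |r.v t| := fun y => le_ciSup hbdd y
  have hMM : (⨆ t, |r.v t|) ≤ max ((l : ℝ) / 2) (3 / 10 * (⨆ t, |r.v t|) + 1 / 2) :=
    ciSup_le (fun t => r.abs_v_step hM t)
  have hl0 : (0 : ℝ) ≤ (l : ℝ) := Nat.cast_nonneg _
  refine le_trans (hM y) ?_
  rcases le_max_iff.mp hMM with h | h
  · linarith
  · linarith

end Pool.Agent.CYL.Roots
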