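import Pool.Agent.CYL.C.Bas
import Pool.Agent.CYL.C.Ker
import Pool.Agent.CYL.C.Conv

/-! # `w = K * v`

PROOF. `N0 t = sum_k (1_{x k <= t} - 1/2)` and for every k
`INT K(y - t) (1_{x k <= t} - 1/2) dt = INT_{u <= y - x k} K(u) du - 1/8 = Th (y - x k)`
(`Th` has derivative `K`, limit -1/8 at -oo, and `INT K = 1/4`). So
`z y = L Ph (pi/8) y + INT K (y - t) N0 t`, and `R = Ph (pi/8) + K * R` gives `w = z - L R = K * v`. -/

namespace Pool.Agent.CYL.Roots

open MeasureTheory Filter Topology

variable {l : ℕ} (r : Roots l)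

private theorem WConv_bot : Tendsto Th atBot (𝓝 (-(1 / 8))) := by
  have h1 : Tendsto (fun x : ℝ => - Th (-x)) atBot (𝓝 (-(1 / 8))) :=
    (tendsto_Th.comp tendsto_neg_atBot_atTop).neg
  refine h1.congr fun x => ?_
  rw [Th_neg, neg_neg]

private theorem WConv_g_int (b : ℝ) :
    Integrable fun u : ℝ => (Set.Iic b).indicator K u - 1 / 2 * K u :=
  (integrable_K.indicator measurableSet_Iic).sub (integrable_K.const_mul _)

private theorem WConv_g (b : ℝ) :
    ∫ u : ℝ, ((Set.Iic b).indicator K u - 1 / 2 * K u) = Th b := by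
  rw [integral_sub (integrable_K.indicator measurableSet_Iic) (integrable_K.const_mul _),
    integral_indicator measurableSet_Iic, integral_const_mul, integral_K,
    integral_Iic_of_hasDerivAt_of_tendsto (f := Th) (m := -(1 / 8))
      (hasDerivAt_Th b).continuousAt.continuousWithinAt (fun x _ => hasDerivAt_Th x)
      integrable_K.integrableOn WConv_bot]
  ring

private theorem WConv_N0 (t : ℝ) :
    r.N0 t = ∑ k, ((if r.x k ≤ t then (1 : ℝ) else 0) - 1 / 2) := by
  unfold N0
  rw [Finset.sum_sub_distrib, Finset.sum_boole, Finset.sum_const, Finset.card_univ, Fintype.card_fin,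
    nsmul_eq_mul]
  ring

private theorem WConv_pt (y t : ℝ) (k : Fin r.m) :
    K (y - t) * ((if r.x k ≤ t then (1 : ℝ) else 0) - 1 / 2) =
      (Set.Iic (y - r.x k)).indicator K (y - t) - 1 / 2 * K (y - t) := by
  by_cases h : r.x k ≤ t
  · have h1 : y - t ∈ Set.Iic (y - r.x k) := by
      rw [Set.mem_Iic]
      linarith
    rw [if_pos h, Set.indicator_of_mem h1]
    ring
  · have h1 : y - t ∉ Set.Iic (y - r.x k) := by
      rw [Set.mem_Iic]
      intro h2
      exact h (by linarith)
    rw [if_neg h, Set.indicator_of_notMem h1]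
    ring

theorem sum_Th_eq (y : ℝ) : ∑ k, Th (y - r.x k) = ∫ t, K (y - t) * r.N0 t := by
  have h1 : ∀ t, K (y - t) * r.N0 t =
      ∑ k, ((Set.Iic (y - r.x k)).indicator K (y - t) - 1 / 2 * K (y - t)) := by
    intro t
    rw [WConv_N0, Finset.mul_sum]
    exact Finset.sum_congr rfl fun k _ => WConv_pt r y t k
  simp_rw [h1]
  rw [integral_finsetSum _ fun k _ => (WConv_g_int (y - r.x k)).comp_sub_left y]
  refine Finset.sum_congr rfl fun k _ => ?_
  rw [integral_sub_left_eq_self (fun u => (Set.Iic (y - r.x k)).indicator K u - 1 / 2 * K u),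
    WConv_g]

theorem w_eq (y : ℝ) : r.w y = ∫ t, K (y - t) * r.v t := by
  have hK : Integrable fun t => K (y - t) := integrable_K.comp_sub_left y
  have i1 : Integrable fun t => K (y - t) * r.N0 t := by
    refine Integrable.mul_bdd (c := (r.m : ℝ) / 2) hK r.measurable_N0.aestronglyMeasurable
      (Eventually.of_forall fun t => ?_)
    rw [Real.norm_eq_abs]
    exact r.abs_N0_le t
  have i2 : Integrable fun t => K (y - t) * R t := by
    refine Integrable.mul_bdd (c := 1 / 2) hK
      (contDiff_R.continuous.aestronglyMeasurable) (Eventually.of_forall fun t => ?_)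
    rw [Real.norm_eq_abs]
    exact (abs_R_lt t).le
  have e : ∀ t, K (y - t) * r.v t = K (y - t) * r.N0 t - (r.L : ℝ) * (K (y - t) * R t) := by
    intro t
    unfold v
    ring
  simp_rw [e]
  rw [integral_sub i1 (i2.const_mul _), integral_const_mul, ← sum_Th_eq]
  unfold w z
  rw [R_conv y]
  ring

end Pool.Agent.CYL.Roots
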